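import Pool.Agent.W_MP_7b81ff_an.Asm

set_option autoImplicit false
set_option linter.unusedSimpArgs false
set_option linter.unusedSectionVars false

open Matrix Finset Module
open scoped NNReal ComplexOrder

namespace Pool.Agent.W_MP_7b81ff_an

/-- the symmetries of index `m` -/
noncomputable def XX2 (m : ℕ) : Fin 3 → Matrix (Om (2 * m + 1)) (Om (2 * m + 1)) ℂ := iX (2 * m + 1)

lemma XX2_herm (m : ℕ) (k : Fin 3) : (XX2 m k)ᴴ = XX2 m k := iX_herm k

lemma XX2_sq (m : ℕ) (k : Fin 3) : XX2 m k * XX2 m k = 1 := iX_sq k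

lemma XX2_opn (m : ℕ) (k : Fin 3) : opn (XX2 m k) ≤ 1 :=
  opn_isom_le (by rw [XX2_herm, XX2_sq])

lemma XX2_gap {m n : ℕ} (h : m ≠ n) : GapP (XX2 m) (XX2 n) := by
  intro S
  have hodd : ∀ m : ℕ, Nat.Coprime (2 * m + 1) 4 := by
    intro m
    have h1 : Nat.Coprime (2 * m + 1) 2 := by
      rw [Nat.coprime_comm, Nat.coprime_two_left]
      exact ⟨m, rfl⟩
    exact Nat.Coprime.pow_right 2 h1
  exact iX_gap (hodd m) (hodd n) (by omega) S

section fam2
variable {E : Type*} [NormedAddCommGroup E] [NormedSpace ℂ E] {ι : Type} [Fintype ι]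
  [DecidableEq ι] {B : Basis ι ℂ E} {p q : ℕ} (bp : BasePt B p q)
  (b : Fin 3 → (ι → Matrix (Fin p) (Fin q) ℂ))

lemma kr_smul_sum {K L H H' : Type*} [Fintype K] [Fintype L] [Fintype H] [Fintype H']
    (r : ι → ℂ) (A : ι → Matrix K L ℂ) (X : Matrix H H' ℂ) :
    ∑ l, r l • kr (A l) X = kr (∑ l, r l • A l) X := by
  ext a c
  simp only [Matrix.sum_apply, Matrix.smul_apply, kr, Matrix.of_apply, smul_eq_mul, Finset.sum_mul]
  exact Finset.sum_congr rfl fun l _ => by ring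

/-- contractivity of the perturbed maps after normalisation -/
lemma exists_contr_const [FiniteDimensional ℂ E] : ∃ K : ℝ, 0 ≤ K ∧ ∀ (ε : ℝ), 0 < ε →
    ∀ (H : Type) [Fintype H] [DecidableEq H] (X : Fin 3 → Matrix H H ℂ), (∀ k, opn (X k) ≤ 1) →
      Ctr B (fun l => (((1 + K * ε)⁻¹ : ℝ) : ℂ) • uu bp b ε X l) := by
  let φ : ι → (E →L[ℂ] ℂ) := fun l => LinearMap.toContinuousLinearMap (B.coord l)
  set K : ℝ := ∑ l, ‖φ l‖ * ∑ k, opn (b k l) with hK
  have hK0 : 0 ≤ K := Finset.sum_nonneg fun l _ => mul_nonneg (norm_nonneg _)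
    (Finset.sum_nonneg fun k _ => opn_nonneg _)
  refine ⟨K, hK0, fun ε hε H _ _ X hX e => ?_⟩
  have hpos : 0 < 1 + K * ε := by positivity
  have h1 : ∑ l, B.repr e l • ((((1 + K * ε)⁻¹ : ℝ) : ℂ) • uu bp b ε X l) =
      (((1 + K * ε)⁻¹ : ℝ) : ℂ) • (kr (∑ l, B.repr e l • bp.a l) (1 : Matrix H H ℂ) +
        (ε : ℂ) • ∑ l, B.repr e l • ∑ k, kr (b k l) (X k)) := by
    rw [← kr_smul_sum, Finset.smul_sum, ← Finset.sum_add_distrib, Finset.smul_sum]
    refine Finset.sum_congr rfl fun l _ => ?_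
    rw [smul_comm]
    congr 1
    unfold uu
    rw [smul_add, smul_comm]
  rw [h1, opn_smul, Complex.norm_real, Real.norm_eq_abs, abs_of_pos (inv_pos.2 hpos),
    inv_mul_le_iff₀ hpos]
  refine (opn_add_le _ _).trans ?_
  rw [opn_smul, Complex.norm_real, Real.norm_eq_abs, abs_of_pos hε]
  have h2 : opn (kr (∑ l, B.repr e l • bp.a l) (1 : Matrix H H ℂ)) ≤ ‖e‖ := by
    refine (opn_kr_le _ _).trans ?_
    have a1 := bp.ha e
    have a2 := opn_one_le (m := H)
    have a3 := opn_nonneg (∑ l, B.repr e l • bp.a l)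
    have a4 := opn_nonneg (1 : Matrix H H ℂ)
    nlinarith [norm_nonneg e]
  have h3 : opn (∑ l, B.repr e l • ∑ k, kr (b k l) (X k)) ≤ K * ‖e‖ := by
    refine (opn_sum_le _ _).trans ?_
    rw [hK, Finset.sum_mul]
    refine Finset.sum_le_sum fun l _ => ?_
    rw [opn_smul]
    have a1 : ‖B.repr e l‖ ≤ ‖φ l‖ * ‖e‖ := (φ l).le_opNorm e
    have a2 : opn (∑ k, kr (b k l) (X k)) ≤ ∑ k, opn (b k l) := by
      refine (opn_sum_le _ _).trans (Finset.sum_le_sum fun k _ => ?_)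
      refine (opn_kr_le _ _).trans ?_
      have := hX k
      have := opn_nonneg (b k l)
      nlinarith
    have a3 := opn_nonneg (∑ k, kr (b k l) (X k))
    calc ‖B.repr e l‖ * opn (∑ k, kr (b k l) (X k)) ≤ (‖φ l‖ * ‖e‖) * ∑ k, opn (b k l) := by gcongr
      _ = _ := by ring
  have h4 : ε * opn (∑ l, B.repr e l • ∑ k, kr (b k l) (X k)) ≤ ε * (K * ‖e‖) := by gcongr
  linarith

variable (ε s : ℝ)

/-- the tuple of index `m` -/
noncomputable def vv (m : ℕ) : ι → Matrix (Fin p × Om (2 * m + 1)) (Fin q × Om (2 * m + 1)) ℂ :=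
  fun l => ((s⁻¹ : ℝ) : ℂ) • uu bp b ε (XX2 m) l

/-- the set of maps attached to a set of natural numbers -/
noncomputable def F2 (I : Set ℕ) : Set (Σ n : ℕ, E →ₗ[ℂ] Matrix (Fin n) (Fin n) ℂ) :=
  {f | (∃ φ : E →L[ℂ] ℂ, (∀ e, ‖φ e‖ ≤ ‖e‖) ∧ f = pk (funM φ)) ∨
    ∃ m ∈ I, f = pk (tupM B (vv bp b ε s m))}

/-- the structure attached to a set of natural numbers -/
noncomputable def N2 (I : Set ℕ) : MatNorms E := famN (F2 bp b ε s I)

lemma F2_nonempty (I : Set ℕ) : (F2 bp b ε s I).Nonempty :=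
  ⟨pk (funM 0), Or.inl ⟨0, fun e => by simp, rfl⟩⟩

lemma F2_contr (hs : ∀ m, Ctr B (vv bp b ε s m)) (I : Set ℕ) :
    ∀ u ∈ F2 bp b ε s I, ∀ e, opn (u.2 e) ≤ ‖e‖ := by
  rintro u (⟨φ, hφ, rfl⟩ | ⟨m, -, rfl⟩) e
  · rw [pk_apply, opn_funM]; exact hφ e
  · rw [pk_apply, opn_tupM]; exact hs m e

lemma F2_norming (I : Set ℕ) : ∀ e : E, ∃ u ∈ F2 bp b ε s I, ‖e‖ ≤ opn (u.2 e) := by
  intro e
  obtain ⟨φ, hφ, hφe⟩ := exists_dual_vector'' ℂ e
  refine ⟨pk (funM φ), Or.inl ⟨φ, fun x => ?_, rfl⟩, ?_⟩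
  · have := φ.le_opNorm x
    calc ‖φ x‖ ≤ ‖φ‖ * ‖x‖ := this
      _ ≤ 1 * ‖x‖ := by gcongr
      _ = ‖x‖ := one_mul _
  · rw [pk_apply, opn_funM, hφe]
    simp

lemma N2_isOS (hs : ∀ m, Ctr B (vv bp b ε s m)) (I : Set ℕ) : IsOS (N2 bp b ε s I) :=
  famN_isOS (F2_nonempty bp b ε s I) (F2_contr bp b ε s hs I) (F2_norming bp b ε s I)

/-- functional atoms -/
lemma func_mem {Hm : Type} [Fintype Hm] [DecidableEq Hm] (Xm : Fin 3 → Matrix Hm Hm ℂ)
    {φ : ι → ℂ} (hφ : CF B φ) (V : Matrix (Fin 1) (Fin p × Hm) ℂ)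
    (W : Matrix (Fin 1) (Fin q × Hm) ℂ) :
    ((Vᴴ * V, Wᴴ * W, fun l => Vᴴ * (Matrix.of fun _ _ => φ l : Matrix (Fin 1) (Fin 1) ℂ) * W) :
      DX (Fin p × Hm) (Fin q × Hm) ι) ∈ coneM bp b Xm ε s := by
  refine ⟨Empty, Fin 1, inferInstance, inferInstance, inferInstance, inferInstance, ⟨?_⟩⟩
  exact
    { X := fun _ => 0
      φ := fun _ => φ
      V := 0
      W := 0
      Vc := V
      Wc := W
      hX := fun k => by simp
      hX1 := fun k => by rw [opn_zero]; exact zero_le_one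
      hgap := by
        intro S
        have : fn S = 0 := by simp [fn]
        rw [this]
        have : 0 ≤ ∑ k : Fin 3, fn ((fun _ => (0 : Matrix Empty Empty ℂ)) k * S - S * Xm k) :=
          Finset.sum_nonneg fun _ _ => fn_nonneg _
        positivity
      hφ := fun _ => hφ
      hV := fun z => by
        simp only [Matrix.zero_mulVec]
        have : nsq (0 : Fin p × Empty → ℂ) = 0 := by simp [nsq]
        rw [this, zero_add]
        exact (qm_gram V z).ge
      hW := fun z => by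
        simp only [Matrix.zero_mulVec]
        have : nsq (0 : Fin q × Empty → ℂ) = 0 := by simp [nsq]
        rw [this, zero_add]
        exact (qm_gram W z).ge
      hz := fun l => by
        have h1 : (Matrix.of fun _ _ => φ l : Matrix (Fin 1) (Fin 1) ℂ) =
            Matrix.diagonal (fun _ => φ l) := by
          ext i j
          have : i = j := Subsingleton.elim i j
          subst this
          simp
        simp only [h1]
        rw [Matrix.conjTranspose_zero, Matrix.zero_mul, Matrix.zero_mul, zero_add] }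

/-- structure atoms -/
lemma struct_mem {Hm : Type} [Fintype Hm] [DecidableEq Hm] (Xm : Fin 3 → Matrix Hm Hm ℂ)
    {j : ℕ} (hgap : GapP (XX2 j) Xm) {p' q' : ℕ} (e : Fin p × Om (2 * j + 1) ≃ Fin p')
    (e' : Fin q × Om (2 * j + 1) ≃ Fin q') (V : Matrix (Fin p') (Fin p × Hm) ℂ)
    (W : Matrix (Fin q') (Fin q × Hm) ℂ) :
    ((Vᴴ * V, Wᴴ * W, fun l => Vᴴ * ((vv bp b ε s j l).submatrix e.symm e'.symm) * W) :
      DX (Fin p × Hm) (Fin q × Hm) ι) ∈ coneM bp b Xm ε s := by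
  refine ⟨Om (2 * j + 1), Empty, inferInstance, inferInstance, inferInstance, inferInstance, ⟨?_⟩⟩
  have hn : ∀ {n m' : ℕ} {Z : Type} [Fintype Z] {K : Type} [Fintype K] (f : Fin m' × Om (2 * j + 1) ≃ Fin n)
      (V : Matrix (Fin n) K ℂ) (z : K → ℂ),
      nsq ((V.submatrix f id).mulVec z) = nsq (V.mulVec z) := by
    intro n m' Z _ K _ f V z
    rw [← nsq_comp_equiv f (V.mulVec z)]
    rfl
  exact
    { X := XX2 j
      φ := fun c => c.elim
      V := V.submatrix e id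
      W := W.submatrix e' id
      Vc := 0
      Wc := 0
      hX := XX2_herm j
      hX1 := XX2_opn j
      hgap := hgap
      hφ := fun c => c.elim
      hV := fun z => by
        simp only [Matrix.zero_mulVec]
        have : nsq (0 : Empty → ℂ) = 0 := by simp [nsq]
        rw [this, add_zero, hn (Z := Unit) e V z]
        exact (qm_gram V z).ge
      hW := fun z => by
        simp only [Matrix.zero_mulVec]
        have : nsq (0 : Empty → ℂ) = 0 := by simp [nsq]
        rw [this, add_zero, hn (Z := Unit) e' W z]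
        exact (qm_gram W z).ge
      hz := fun l => by
        have h1 : ((s⁻¹ : ℝ) : ℂ) • uu bp b ε (XX2 j) l =
            ((vv bp b ε s j l).submatrix e.symm e'.symm).submatrix e e' := by
          rw [Matrix.submatrix_submatrix]
          simp [vv]
        change Vᴴ * ((vv bp b ε s j l).submatrix e.symm e'.symm) * W = _
        rw [h1, Matrix.conjTranspose_submatrix, Matrix.submatrix_mul_equiv,
          Matrix.submatrix_mul_equiv]
        simp }

/-- separation of the structures -/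
theorem N2_sep (hs : ∀ m, Ctr B (vv bp b ε s m)) {c2 : ℝ} (hc2 : 0 < c2) {m : ℕ}
    (hnot : (((1 : Matrix (Fin p × Om (2 * m + 1)) (Fin p × Om (2 * m + 1)) ℂ),
        (1 : Matrix (Fin q × Om (2 * m + 1)) (Fin q × Om (2 * m + 1)) ℂ),
        fun l => (((c2 * s)⁻¹ : ℝ) : ℂ) • uu bp b ε (XX2 m) l) :
        DX (Fin p × Om (2 * m + 1)) (Fin q × Om (2 * m + 1)) ι) ∉
      (coneM bp b (XX2 m) ε s).topologicalClosure) {I J : Set ℕ} (hI : m ∈ I) (hJ : m ∉ J) :
    ∃ (k : ℕ) (x : Matrix (Fin k) (Fin k) E), N2 bp b ε s J k x ≤ 1 ∧ c2 < N2 bp b ε s I k x := by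
  classical
  set C := (coneM bp b (XX2 m) ε s).topologicalClosure with hC
  have hle : coneM bp b (XX2 m) ε s ≤ C := Submodule.le_topologicalClosure _
  let F : ∀ p' q' : ℕ, (ι → Matrix (Fin p') (Fin q') ℂ) → Prop := fun p' q' u =>
    ∀ (V : Matrix (Fin p') (Fin p × Om (2 * m + 1)) ℂ) (W : Matrix (Fin q') (Fin q × Om (2 * m + 1)) ℂ),
      ((Vᴴ * V, Wᴴ * W, fun l => Vᴴ * u l * W) :
        DX (Fin p × Om (2 * m + 1)) (Fin q × Om (2 * m + 1)) ι) ∈ C
  obtain ⟨x, hx1, hx2⟩ := dual_lemma F C (Submodule.isClosed_topologicalClosure _)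
    (by
      intro v
      apply hle
      refine ⟨Empty, Empty, inferInstance, inferInstance, inferInstance, inferInstance,
        ⟨CD.triv bp b (XX2 m) ε s ?_ ?_ rfl⟩⟩
      · intro z; exact qm_rankone v z
      · intro z
        have h0 : qm (0 : (Fin q × Om (2 * m + 1)) → (Fin q × Om (2 * m + 1)) → ℂ) z = 0 := by
          unfold qm qf; simp
        exact h0.ge)
    (by
      intro v
      apply hle
      refine ⟨Empty, Empty, inferInstance, inferInstance, inferInstance, inferInstance,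
        ⟨CD.triv bp b (XX2 m) ε s ?_ ?_ rfl⟩⟩
      · intro z
        have h0 : qm (0 : (Fin p × Om (2 * m + 1)) → (Fin p × Om (2 * m + 1)) → ℂ) z = 0 := by
          unfold qm qf; simp
        exact h0.ge
      · intro z; exact qm_rankone v z)
    (fun p' q' u hu => hu)
    (fun l => (((c2 * s)⁻¹ : ℝ) : ℂ) • uu bp b ε (XX2 m) l) hnot
  -- functionals
  have hfun : ∀ φ : ι → ℂ, CF B φ → opn (∑ l, φ l • padz x l) ≤ 1 := by
    intro φ hφ
    rw [← opn_ks_unit, opn_ks_padz]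
    apply hx1
    intro V W
    exact hle (func_mem bp b ε s (XX2 m) hφ V W)
  have hstr : ∀ j, j ≠ m → opn (ks (padz x) (vv bp b ε s j)) ≤ 1 := by
    intro j hj
    rw [opn_ks_padz]
    let e := Fintype.equivFin (Fin p × Om (2 * j + 1))
    let e' := Fintype.equivFin (Fin q × Om (2 * j + 1))
    have h1 := hx1 _ _ (fun l => (vv bp b ε s j l).submatrix e.symm e'.symm) (by
      intro V W
      exact hle (struct_mem bp b ε s (XX2 m) (XX2_gap hj) e e' V W))
    rw [← opn_ks_flip, opn_ks_submatrix, opn_ks_flip] at h1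
    exact h1
  refine ⟨_, el B (padz x), ?_, ?_⟩
  · apply famN_le (F2_nonempty bp b ε s J)
    rintro u (⟨φ, hφ, rfl⟩ | ⟨j, hj, rfl⟩)
    · rw [pk_blk, blk_funM B, co_el]
      apply hfun
      intro e
      have h1 : ∑ l, B.repr e l * φ (B l) = φ e := by
        conv_rhs => rw [← B.sum_repr e]
        rw [map_sum]
        exact Finset.sum_congr rfl fun l _ => by rw [map_smul, smul_eq_mul]
      rw [h1]
      exact hφ e
    · rw [pk_blk, blk_tupM, co_el]
      apply hstr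
      rintro rfl
      exact hJ hj
  · have h1 : pk (tupM B (vv bp b ε s m)) ∈ F2 bp b ε s I := Or.inr ⟨m, hI, rfl⟩
    have h2 := le_famN (F2_contr bp b ε s hs I) (el B (padz x)) h1
    rw [pk_blk, blk_tupM, co_el, opn_ks_padz] at h2
    refine lt_of_lt_of_le ?_ h2
    have h3 : (fun l => (((c2 * s)⁻¹ : ℝ) : ℂ) • uu bp b ε (XX2 m) l) =
        ((c2⁻¹ : ℝ) : ℂ) • vv bp b ε s m := by
      funext l
      rw [Pi.smul_apply]
      unfold vv
      rw [smul_smul, ← Complex.ofReal_mul, mul_inv]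
    rw [h3, ks_smul_right, opn_smul, Complex.norm_real, Real.norm_eq_abs,
      abs_of_pos (inv_pos.2 hc2), lt_inv_mul_iff₀ hc2, mul_one] at hx2
    exact hx2

end fam2

/-- existence of the family from a base point, dimension two -/
theorem finite_close_base {E : Type*} [NormedAddCommGroup E] [NormedSpace ℂ E]
    [FiniteDimensional ℂ E] {ι : Type} [Fintype ι] [DecidableEq ι] (hcard : Fintype.card ι = 2)
    {B : Basis ι ℂ E} {p q : ℕ} (bp : BasePt B p q) :
    ∃ NN : Set ℕ → MatNorms E, (∀ I, IsOS (NN I)) ∧ ∃ δ : ℝ, 0 < δ ∧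
      ∀ D : MatNorms E, IsOS D → {I : Set ℕ | Dlt (NN I) D (1 + δ)}.Finite := by
  obtain ⟨b, h, hh, hb, hL, hR⟩ := bp.exists_dirs hcard
  obtain ⟨K, hK, hcontr⟩ := exists_contr_const bp b
  obtain ⟨ε, hε, hpert⟩ := bp.pert b hb h hh hL hR K hK
  have hs : ∀ m, Ctr B (vv bp b ε (1 + K * ε) m) := fun m =>
    hcontr ε hε (Om (2 * m + 1)) (XX2 m) (XX2_opn m)
  have hc2 : 1 < 1 + ε ^ 2 / 2 := by have : 0 < ε ^ 2 := by positivity
                                     linarith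
  refine ⟨N2 bp b ε (1 + K * ε), N2_isOS bp b ε (1 + K * ε) hs, ?_⟩
  refine finite_close_gen _ (N2_isOS bp b ε (1 + K * ε) hs) hc2 ?_ ?_
  · have : Nonempty ι := by
      rw [← Fintype.card_pos_iff, hcard]; norm_num
    exact ⟨B (Classical.arbitrary ι), B.ne_zero _⟩
  · intro I J m hI hJ
    exact N2_sep bp b ε (1 + K * ε) hs (by linarith)
      (hpert (Om (2 * m + 1)) (XX2 m) (XX2_herm m) (XX2_sq m)) hI hJ

/-- if two structures differ, there is a base point -/
theorem base_of_ne {E : Type*} [NormedAddCommGroup E] [NormedSpace ℂ E] {ι : Type} [Fintype ι]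
    [DecidableEq ι] (B : Basis ι ℂ E) {N N' : MatNorms E} (hN : IsOS N) (hN' : IsOS N')
    {k : ℕ} {x : Matrix (Fin k) (Fin k) E} (hlt : N' k x < N k x) : Wit B k k k k := by
  have h0 := hN'.nonneg k x
  obtain ⟨t, ht1, ht2⟩ := exists_between hlt
  have ht0 : 0 < t := lt_of_le_of_lt h0 ht1
  have htn : ‖((t⁻¹ : ℝ) : ℂ)‖ = t⁻¹ := by
    rw [Complex.norm_real, Real.norm_eq_abs, abs_of_pos (inv_pos.2 ht0)]
  set x0 : Matrix (Fin k) (Fin k) E := ((t⁻¹ : ℝ) : ℂ) • x with hx0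
  have h1 : 1 < N k x0 := by
    rw [hx0, hN.2.2.1, htn, lt_inv_mul_iff₀ ht0, mul_one]
    exact ht2
  have h2 : N' k x0 ≤ 1 := by
    rw [hx0, hN'.2.2.1, htn, inv_mul_le_iff₀ ht0, mul_one]
    exact ht1.le
  obtain ⟨u, hu1, hu2⟩ := ruan_rep B hN x0 h1
  refine ⟨co B x0, u, ?_, ?_, ?_⟩
  · intro e
    by_cases he : e = 0
    · subst he
      simp only [map_zero, Finsupp.coe_zero, Pi.zero_apply, zero_smul, Finset.sum_const_zero,
        norm_zero]
      rw [opn_zero]
    · have hpe : 0 < ‖e‖ := norm_pos_iff.2 he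
      have hen : ‖((‖e‖⁻¹ : ℝ) : ℂ)‖ = ‖e‖⁻¹ := by
        rw [Complex.norm_real, Real.norm_eq_abs, abs_of_pos (inv_pos.2 hpe)]
      set e1 : E := ((‖e‖⁻¹ : ℝ) : ℂ) • e with he1
      have h3 := hu1 1 (Matrix.of fun _ _ => e1) (by
        rw [hN.1, he1, norm_smul, hen, inv_mul_cancel₀ hpe.ne'])
      have h4 : ks u (co B (Matrix.of fun (_ _ : Fin 1) => e1)) =
          ks u (fun l => (Matrix.of fun _ _ => B.repr e1 l : Matrix (Fin 1) (Fin 1) ℂ)) := rfl
      rw [h4, opn_ks_unit] at h3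
      have h5 : ∑ l, B.repr e1 l • u l = ((‖e‖⁻¹ : ℝ) : ℂ) • ∑ l, B.repr e l • u l := by
        rw [Finset.smul_sum]
        refine Finset.sum_congr rfl fun l _ => ?_
        rw [he1, map_smul, Finsupp.smul_apply, smul_smul, smul_eq_mul]
      rw [h5, opn_smul, hen, inv_mul_le_iff₀ hpe, mul_one] at h3
      exact h3
  · intro φ hφ
    let f : E →ₗ[ℂ] ℂ :=
      { toFun := fun e => ∑ l, B.repr e l * φ l
        map_add' := fun a c => by simp [add_mul, Finset.sum_add_distrib]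
        map_smul' := fun r a => by simp [Finset.mul_sum, mul_assoc] }
    have h3 := hN'.lower_functional f hφ k x0
    have h4 : (x0.map fun e => f e) = ∑ l, φ l • co B x0 l := by
      ext i j
      rw [Matrix.sum_apply]
      change ∑ l, B.repr (x0 i j) l * φ l = ∑ l, φ l * B.repr (x0 i j) l
      exact Finset.sum_congr rfl fun l _ => mul_comm _ _
    rw [h4] at h3
    exact h3.trans h2
  · rw [opn_ks_flip]
    exact hu2

/-- the dichotomy in dimension two -/
theorem dichotomy_two {E : Type*} [NormedAddCommGroup E] [NormedSpace ℂ E]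
    [FiniteDimensional ℂ E] (h2 : finrank ℂ E = 2) :
    (∀ N N' : MatNorms E, IsOS N → IsOS N' → N = N') ∨
    ∃ NN : Set ℕ → MatNorms E, (∀ I, IsOS (NN I)) ∧ ∃ δ : ℝ, 0 < δ ∧
      ∀ D : MatNorms E, IsOS D → {I : Set ℕ | Dlt (NN I) D (1 + δ)}.Finite := by
  classical
  let B := finBasis ℂ E
  by_cases hw : ∃ k, Wit B k k k k
  · right
    obtain ⟨p, q, ⟨bp⟩⟩ := exists_base B hw
    exact finite_close_base (by rw [Fintype.card_fin, h2]) bp
  · left
    intro N N' hN hN'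
    funext k x
    by_contra hne
    rcases lt_or_gt_of_ne hne with h | h
    · exact hw ⟨k, base_of_ne B hN' hN h⟩
    · exact hw ⟨k, base_of_ne B hN hN' h⟩

end Pool.Agent.W_MP_7b81ff_an
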