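import Mathlib

set_option autoImplicit false

open Matrix Module

namespace Pool.Agent.W_MP_7b81ff_an

/-- the algebraic identity behind the perturbation argument -/
lemma john_identity (v w : Fin 3 → ℂ) (F : ℂ) (u : ℝ) :
    let W : ℝ := ∑ i, ‖w i‖ ^ 2
    let g : ℂ := ∑ i, w i * v i
    ∑ i, ‖((1 - u) * (1 + W * u) : ℝ) * v i + (starRingEnd ℂ) (w i) *
        (((-2 * (1 - u) * u : ℝ) : ℂ) * g + ((4 * u : ℝ) : ℂ) * F)‖ ^ 2
      + 4 * u * ‖((1 - u : ℝ) : ℂ) * g - ((1 - W * u : ℝ) : ℂ) * F‖ ^ 2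
      = ((1 - u) * (1 + W * u)) ^ 2 * ∑ i, ‖v i‖ ^ 2
        + (((1 + u) * (1 + W * u)) ^ 2 - ((1 - u) * (1 + W * u)) ^ 2) * ‖F‖ ^ 2 := by
  intro W g
  simp only [W, g, Fin.sum_univ_three, Complex.sq_norm, Complex.normSq_apply]
  simp only [Complex.add_re, Complex.add_im, Complex.mul_re, Complex.mul_im, Complex.sub_re,
    Complex.sub_im, Complex.ofReal_re, Complex.ofReal_im, Complex.conj_re, Complex.conj_im]
  ring


lemma john_det (w : Fin 3 → ℂ) (a β : ℝ) :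
    (Matrix.of fun i k : Fin 3 => ((a : ℂ) * (if i = k then 1 else 0) +
      (starRingEnd ℂ) (w i) * ((β : ℂ) * w k))).det
      = ((a ^ 2 * (a + β * ∑ i, ‖w i‖ ^ 2) : ℝ) : ℂ) := by
  rw [Matrix.det_fin_three]
  have h : ∀ z : ℂ, ((‖z‖ ^ 2 : ℝ) : ℂ) = (starRingEnd ℂ) z * z := by
    intro z
    rw [mul_comm, Complex.mul_conj, Complex.normSq_eq_norm_sq]
  simp only [Matrix.of_apply, Fin.sum_univ_three]
  push_cast
  have h' : ∀ z : ℂ, ((‖z‖ : ℝ) : ℂ) ^ 2 = (starRingEnd ℂ) z * z := by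
    intro z
    rw [← h z]; push_cast; rfl
  rw [h', h', h']
  simp
  ring

lemma john_ineq {W : ℝ} (h : ∀ u : ℝ, 0 < u → u < 1 →
    (1 - u) ^ 2 * (1 + (3 * W - 1) * u + W * u ^ 2) ≤ (1 + u) ^ 3 * (1 + W * u)) : W ≤ 3 := by
  by_contra hW
  push Not at hW
  have hW0 : 0 < W := by linarith
  set u : ℝ := (W - 3) / (8 * W) with hu
  have hu0 : 0 < u := by rw [hu]; apply div_pos <;> linarith
  have huW : W * u = (W - 3) / 8 := by rw [hu]; field_simp
  have hu1 : u < 1 := by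
    rw [hu, div_lt_one (by linarith)]; linarith
  have h1 := h u hu0 hu1
  have h2 : 2 * u * ((W - 3) - 4 * (W * u) - (W + 1) * u ^ 2) ≤ 0 := by nlinarith [h1]
  have h3 : (W + 1) * u ^ 2 ≤ (W - 3) / 4 := by
    have h4 : (W + 1) * u ≤ 2 * (W * u) := by nlinarith
    have h5 : (W + 1) * u ^ 2 ≤ 2 * (W * u) * u := by nlinarith
    have h6 : 2 * (W * u) * u ≤ 2 * (W * u) * 1 := by
      have : 0 < W * u := by positivity
      nlinarith
    rw [huW] at h5 h6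
    linarith
  have h7 : 0 < (W - 3) - 4 * (W * u) - (W + 1) * u ^ 2 := by
    rw [huW]; linarith
  have : 0 < 2 * u * ((W - 3) - 4 * (W * u) - (W + 1) * u ^ 2) := by positivity
  linarith

/-- John / Kadec-Snobar type lemma: a three dimensional Hilbertian quotient and lifting. -/
theorem exists_john (E : Type*) [NormedAddCommGroup E] [NormedSpace ℂ E] [FiniteDimensional ℂ E]
    (h3 : 3 ≤ finrank ℂ E) :
    ∃ (v : Fin 3 → (E →L[ℂ] ℂ)) (f : Fin 3 → E), (∀ i j, v i (f j) = if i = j then 1 else 0) ∧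
      (∀ e, ∑ i, ‖v i e‖ ^ 2 ≤ ‖e‖ ^ 2) ∧
      (∀ φ : E →L[ℂ] ℂ, (∀ e, ‖φ e‖ ≤ ‖e‖) → ∑ j, ‖φ (f j)‖ ^ 2 ≤ 3) := by
  classical
  let B := finBasis ℂ E
  let b : Fin 3 → E := fun j => B (Fin.castLE h3 j)
  let c0 : Fin 3 → (E →L[ℂ] ℂ) := fun i => LinearMap.toContinuousLinearMap (B.coord (Fin.castLE h3 i))
  have hc0 : ∀ i j, c0 i (b j) = if i = j then 1 else 0 := by
    intro i j
    simp only [c0, b, LinearMap.coe_toContinuousLinearMap', Basis.coord_apply, Basis.repr_self,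
      Finsupp.single_apply, (Fin.castLE_injective h3).eq_iff]
    congr 1
    exact propext eq_comm
  let K : Set (Fin 3 → (E →L[ℂ] ℂ)) := {v | ∀ e, ∑ i, ‖v i e‖ ^ 2 ≤ ‖e‖ ^ 2}
  have : ProperSpace (Fin 3 → (E →L[ℂ] ℂ)) := FiniteDimensional.proper ℂ _
  have hKcl : IsClosed K := by
    have : K = ⋂ e : E, {v | ∑ i, ‖v i e‖ ^ 2 ≤ ‖e‖ ^ 2} := by ext v; simp [K]
    rw [this]
    refine isClosed_iInter fun e => isClosed_le ?_ continuous_const
    refine continuous_finsetSum _ fun i _ => ?_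
    have h1 : Continuous fun v : Fin 3 → (E →L[ℂ] ℂ) => v i e :=
      (ContinuousLinearMap.apply ℂ ℂ e).continuous.comp (continuous_apply i)
    exact (h1.norm).pow 2
  have hKb : Bornology.IsBounded K := by
    rw [isBounded_iff_forall_norm_le]
    refine ⟨1, fun v hv => ?_⟩
    rw [pi_norm_le_iff_of_nonneg zero_le_one]
    intro i
    refine ContinuousLinearMap.opNorm_le_bound _ zero_le_one fun e => ?_
    rw [one_mul]
    have h1 : ‖v i e‖ ^ 2 ≤ ‖e‖ ^ 2 :=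
      (Finset.single_le_sum (f := fun i => ‖v i e‖ ^ 2) (fun j _ => by positivity)
        (Finset.mem_univ i)).trans (hv e)
    exact (sq_le_sq₀ (norm_nonneg _) (norm_nonneg _)).1 h1
  have hKc : IsCompact K := Metric.isCompact_of_isClosed_isBounded hKcl hKb
  let M : (Fin 3 → (E →L[ℂ] ℂ)) → Matrix (Fin 3) (Fin 3) ℂ := fun v => Matrix.of fun i j => v i (b j)
  have hMc : Continuous fun v => ‖(M v).det‖ := by
    have h1 : Continuous M := by
      refine continuous_matrix fun i j => ?_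
      exact (ContinuousLinearMap.apply ℂ ℂ (b j)).continuous.comp (continuous_apply i)
    exact (h1.matrix_det).norm
  obtain ⟨v, hvK, hmax⟩ := hKc.exists_isMaxOn ⟨0, by intro e; simp⟩ hMc.continuousOn
  have hmax' : ∀ v' ∈ K, ‖(M v').det‖ ≤ ‖(M v).det‖ := fun v' hv' => hmax hv'
  -- positivity of the maximum
  have hpos : 0 < ‖(M v).det‖ := by
    let C : ℝ := 1 + ∑ i, ‖c0 i‖ ^ 2
    have hC : 1 ≤ C := le_add_of_nonneg_right (Finset.sum_nonneg fun _ _ => by positivity)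
    have hC0 : 0 < C := by linarith
    let v0 : Fin 3 → (E →L[ℂ] ℂ) := fun i => ((C⁻¹ : ℝ) : ℂ) • c0 i
    have hv0 : v0 ∈ K := by
      intro e
      have h1 : ∀ i, ‖v0 i e‖ ^ 2 ≤ C⁻¹ ^ 2 * (‖c0 i‖ ^ 2 * ‖e‖ ^ 2) := by
        intro i
        simp only [v0, _root_.smul_apply, smul_eq_mul, norm_mul, Complex.norm_real,
          Real.norm_eq_abs, mul_pow, sq_abs]
        have h2 := (c0 i).le_opNorm e
        have h3 : ‖c0 i e‖ ^ 2 ≤ (‖c0 i‖ * ‖e‖) ^ 2 := by gcongr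
        rw [mul_pow] at h3
        gcongr
      calc ∑ i, ‖v0 i e‖ ^ 2 ≤ ∑ i, C⁻¹ ^ 2 * (‖c0 i‖ ^ 2 * ‖e‖ ^ 2) :=
            Finset.sum_le_sum fun i _ => h1 i
        _ = (C⁻¹ ^ 2 * ∑ i, ‖c0 i‖ ^ 2) * ‖e‖ ^ 2 := by
            rw [Finset.mul_sum, Finset.sum_mul]
            exact Finset.sum_congr rfl fun i _ => by ring
        _ ≤ 1 * ‖e‖ ^ 2 := by
            gcongr
            rw [inv_pow, inv_mul_le_iff₀ (by positivity), mul_one]
            have h5 : ∑ i, ‖c0 i‖ ^ 2 = C - 1 := by simp [C]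
            rw [h5]
            nlinarith
        _ = ‖e‖ ^ 2 := one_mul _
    refine lt_of_lt_of_le ?_ (hmax' v0 hv0)
    have h1 : M v0 = ((C⁻¹ : ℝ) : ℂ) • (1 : Matrix (Fin 3) (Fin 3) ℂ) := by
      ext i j
      simp only [M, v0, Matrix.of_apply, _root_.smul_apply, hc0, Matrix.smul_apply,
        Matrix.one_apply]
    rw [h1, Matrix.det_smul, Matrix.det_one, mul_one, norm_pow, Complex.norm_real]
    have : 0 < ‖C⁻¹‖ := norm_pos_iff.2 (by positivity)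
    positivity
  have hdet : (M v).det ≠ 0 := norm_pos_iff.1 hpos
  have hunit : IsUnit (M v).det := isUnit_iff_ne_zero.2 hdet
  let f : Fin 3 → E := fun j => ∑ k, (M v)⁻¹ k j • b k
  have hP : ∀ v' : Fin 3 → (E →L[ℂ] ℂ),
      (Matrix.of fun i k => v' i (f k) : Matrix (Fin 3) (Fin 3) ℂ) = M v' * (M v)⁻¹ := by
    intro v'
    ext i k
    simp only [f, Matrix.of_apply, map_sum, map_smul, smul_eq_mul, Matrix.mul_apply, M]
    exact Finset.sum_congr rfl fun _ _ => mul_comm _ _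
  have hvf : ∀ i j, v i (f j) = if i = j then 1 else 0 := by
    intro i j
    have h1 := congrFun (congrFun (hP v) i) j
    rw [Matrix.mul_nonsing_inv _ hunit, Matrix.one_apply] at h1
    exact h1
  refine ⟨v, f, hvf, hvK, fun φ hφ => ?_⟩
  set w : Fin 3 → ℂ := fun j => φ (f j) with hw
  set W : ℝ := ∑ j, ‖w j‖ ^ 2 with hWdef
  have hW0 : 0 ≤ W := Finset.sum_nonneg fun _ _ => by positivity
  apply john_ineq
  intro u hu0 hu1
  -- the perturbed functionals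
  let a : ℝ := (1 - u) * (1 + W * u)
  let d : ℝ := (1 + u) * (1 + W * u)
  have hd : 0 < d := by
    have : 0 ≤ W * u := by positivity
    simp only [d]; positivity
  have ha : 0 ≤ a := by
    have h1 : 0 < 1 - u := by linarith
    have : 0 ≤ W * u := by positivity
    simp only [a]; positivity
  let g : E →L[ℂ] ℂ := ∑ i, w i • v i
  let vp : Fin 3 → (E →L[ℂ] ℂ) := fun i => ((a : ℝ) : ℂ) • v i + (starRingEnd ℂ) (w i) •
    (((-2 * (1 - u) * u : ℝ) : ℂ) • g + ((4 * u : ℝ) : ℂ) • φ)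
  have hvpK : (fun i => ((d⁻¹ : ℝ) : ℂ) • vp i) ∈ K := by
    intro e
    have h1 := john_identity (fun i => v i e) w (φ e) u
    have hg : g e = ∑ i, w i * v i e := by
      simp [g]
    have h2 : ∑ i, ‖vp i e‖ ^ 2 ≤ d ^ 2 * ‖e‖ ^ 2 := by
      have h3 : ∑ i, ‖vp i e‖ ^ 2 + 4 * u * ‖((1 - u : ℝ) : ℂ) * g e - ((1 - W * u : ℝ) : ℂ) * φ e‖ ^ 2
          = a ^ 2 * ∑ i, ‖v i e‖ ^ 2 + (d ^ 2 - a ^ 2) * ‖φ e‖ ^ 2 := by
        rw [hg]
        have h4 : ∀ i, vp i e = ((1 - u) * (1 + W * u) : ℝ) * v i e + (starRingEnd ℂ) (w i) *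
          (((-2 * (1 - u) * u : ℝ) : ℂ) * (∑ i, w i * v i e) + ((4 * u : ℝ) : ℂ) * φ e) := by
          intro i
          simp only [vp, ContinuousLinearMap.add_apply, _root_.smul_apply, smul_eq_mul, hg, a]
        simp only [h4]
        exact h1
      have h5 : ‖φ e‖ ^ 2 ≤ ‖e‖ ^ 2 := by
        have := hφ e
        gcongr
      have h6 := hvK e
      have h7 : 0 ≤ 4 * u * ‖((1 - u : ℝ) : ℂ) * g e - ((1 - W * u : ℝ) : ℂ) * φ e‖ ^ 2 := by
        positivity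
      have h8 : 0 ≤ d ^ 2 - a ^ 2 := by
        have : a ≤ d := by
          simp only [a, d]
          have : 0 ≤ W * u := by positivity
          gcongr
          linarith
        nlinarith only [hu0, hd, this]
      have h9 : a ^ 2 * ∑ i, ‖v i e‖ ^ 2 ≤ a ^ 2 * ‖e‖ ^ 2 := by gcongr
      have h10 : (d ^ 2 - a ^ 2) * ‖φ e‖ ^ 2 ≤ (d ^ 2 - a ^ 2) * ‖e‖ ^ 2 := by gcongr
      nlinarith only [h3, h7, h9, h10]
    have h11 : ∀ i, ‖((d⁻¹ : ℝ) : ℂ) • vp i e‖ ^ 2 = d⁻¹ ^ 2 * ‖vp i e‖ ^ 2 := by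
      intro i
      rw [norm_smul, mul_pow, Complex.norm_real, Real.norm_eq_abs, sq_abs]
    calc ∑ i, ‖(((d⁻¹ : ℝ) : ℂ) • vp i) e‖ ^ 2 = d⁻¹ ^ 2 * ∑ i, ‖vp i e‖ ^ 2 := by
          rw [Finset.mul_sum]
          exact Finset.sum_congr rfl fun i _ => h11 i
      _ ≤ d⁻¹ ^ 2 * (d ^ 2 * ‖e‖ ^ 2) := by gcongr
      _ = ‖e‖ ^ 2 := by field_simp
  have hdetle := hmax' _ hvpK
  have hdetP : ‖(Matrix.of fun i k => (((d⁻¹ : ℝ) : ℂ) • vp i) (f k) :
      Matrix (Fin 3) (Fin 3) ℂ).det‖ ≤ 1 := by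
    have := hP (fun i => ((d⁻¹ : ℝ) : ℂ) • vp i)
    rw [this, Matrix.det_mul, norm_mul, Matrix.det_nonsing_inv, Ring.inverse_eq_inv', norm_inv,
      ← div_eq_mul_inv, div_le_one hpos]
    exact hdetle
  have hgf : ∀ k, g (f k) = w k := by
    intro k
    simp only [g, ContinuousLinearMap.sum_apply, _root_.smul_apply, smul_eq_mul, hvf]
    simp
  have hmat : (Matrix.of fun i k => (((d⁻¹ : ℝ) : ℂ) • vp i) (f k) : Matrix (Fin 3) (Fin 3) ℂ)
      = ((d⁻¹ : ℝ) : ℂ) • (Matrix.of fun i k : Fin 3 => ((a : ℂ) * (if i = k then 1 else 0) +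
      (starRingEnd ℂ) (w i) * (((2 * u * (1 + u) : ℝ) : ℂ) * w k))) := by
    ext i k
    simp only [Matrix.of_apply, _root_.smul_apply, Matrix.smul_apply, smul_eq_mul, vp,
      ContinuousLinearMap.add_apply, hgf, hvf]
    have : φ (f k) = w k := rfl
    rw [this]
    push_cast
    ring
  rw [hmat, Matrix.det_smul, john_det, norm_mul, norm_pow, Complex.norm_real, Complex.norm_real,
    Fintype.card_fin, Real.norm_eq_abs, Real.norm_eq_abs, abs_of_pos (inv_pos.2 hd)] at hdetP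
  have h12 : a ^ 2 * (a + 2 * u * (1 + u) * W) ≤ d ^ 3 := by
    have h13 := le_abs_self (a ^ 2 * (a + 2 * u * (1 + u) * W))
    rw [inv_pow, inv_mul_le_iff₀ (by positivity), mul_one] at hdetP
    exact h13.trans hdetP
  have h14 : (1 + W * u) ^ 2 * ((1 - u) ^ 2 * (1 + (3 * W - 1) * u + W * u ^ 2)) ≤
      (1 + W * u) ^ 2 * ((1 + u) ^ 3 * (1 + W * u)) := by
    have h15 : a ^ 2 * (a + 2 * u * (1 + u) * W) =
      (1 + W * u) ^ 2 * ((1 - u) ^ 2 * (1 + (3 * W - 1) * u + W * u ^ 2)) := by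
      simp only [a]; ring
    have h16 : d ^ 3 = (1 + W * u) ^ 2 * ((1 + u) ^ 3 * (1 + W * u)) := by
      simp only [d]; ring
    rw [← h15, ← h16]
    exact h12
  exact le_of_mul_le_mul_left h14 (by positivity)

end Pool.Agent.W_MP_7b81ff_an
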