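import Pool.Agent.W_MP_7b81ff_an.OpN

set_option autoImplicit false
set_option linter.unusedSimpArgs false
set_option linter.unusedSectionVars false

open Matrix Finset

namespace Pool.Agent.W_MP_7b81ff_an

variable (E : Type*) [NormedAddCommGroup E] [NormedSpace ℂ E]

/-- A family of functions on the square matrices over `E`, one for each size. -/
abbrev MatNorms : Type _ := ∀ k : ℕ, Matrix (Fin k) (Fin k) E → ℝ

variable {E}

/-- Ruan's axioms: the family `N` is (the family of matrix norms of) an operator space structure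
on the normed space `E`. -/
def IsOS (N : MatNorms E) : Prop :=
  (∀ x : E, N 1 (Matrix.of fun _ _ => x) = ‖x‖) ∧
  (∀ (k : ℕ) (x y : Matrix (Fin k) (Fin k) E), N k (x + y) ≤ N k x + N k y) ∧
  (∀ (k : ℕ) (c : ℂ) (x : Matrix (Fin k) (Fin k) E), N k (c • x) = ‖c‖ * N k x) ∧
  (∀ (k m : ℕ) (x : Matrix (Fin k) (Fin k) E) (y : Matrix (Fin m) (Fin m) E),
    N (k + m) (Matrix.reindex finSumFinEquiv finSumFinEquiv (Matrix.fromBlocks x 0 0 y))
      = max (N k x) (N m y)) ∧
  (∀ (k m : ℕ) (α : Matrix (Fin k) (Fin m) ℂ) (β : Matrix (Fin m) (Fin k) ℂ)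
    (x : Matrix (Fin m) (Fin m) E) (a b : ℝ), 0 ≤ a → 0 ≤ b →
    (∀ v : Fin m → ℂ, ∑ i, ‖∑ p, α i p * v p‖ ^ 2 ≤ a ^ 2 * ∑ p, ‖v p‖ ^ 2) →
    (∀ v : Fin k → ℂ, ∑ q, ‖∑ j, β q j * v j‖ ^ 2 ≤ b ^ 2 * ∑ j, ‖v j‖ ^ 2) →
    N k (Matrix.of fun i j => ∑ p, ∑ q, (α i p * β q j) • x p q) ≤ a * N m x * b)

/-- block matrix obtained by applying a matrix valued map to the entries -/
def blk {d K L : Type*} (u : E → Matrix d d ℂ) (x : Matrix K L E) : Matrix (K × d) (L × d) ℂ :=
  Matrix.of fun p q => u (x p.1 q.1) p.2 q.2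

section blk
variable {d K L : Type*} [Fintype d] [Fintype K] [Fintype L]

lemma blk_add (u : E →ₗ[ℂ] Matrix d d ℂ) (x y : Matrix K L E) :
    blk u (x + y) = blk u x + blk u y := by
  ext p q; simp [blk]

lemma blk_smul (u : E →ₗ[ℂ] Matrix d d ℂ) (c : ℂ) (x : Matrix K L E) :
    blk u (c • x) = c • blk u x := by
  ext p q; simp [blk]

lemma opn_blk_one (u : E → Matrix d d ℂ) (e : E) :
    opn (blk u (Matrix.of fun (_ _ : Fin 1) => e)) = opn (u e) := by
  have h := opn_submatrix_equiv (u e) (Equiv.uniqueProd d (Fin 1)) (Equiv.uniqueProd d (Fin 1))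
  rw [← h]
  rfl

lemma opn_blk_blocks (u : E →ₗ[ℂ] Matrix d d ℂ) {k m : ℕ} (x : Matrix (Fin k) (Fin k) E)
    (y : Matrix (Fin m) (Fin m) E) :
    opn (blk u (Matrix.reindex finSumFinEquiv finSumFinEquiv (Matrix.fromBlocks x 0 0 y)))
      = max (opn (blk u x)) (opn (blk u y)) := by
  rw [← opn_fromBlocks]
  let e : (Fin k × d) ⊕ (Fin m × d) ≃ Fin (k + m) × d :=
    (Equiv.sumProdDistrib (Fin k) (Fin m) d).symm.trans
      (Equiv.prodCongr finSumFinEquiv (Equiv.refl d))
  rw [← opn_submatrix_equiv _ e e]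
  congr 1
  ext p q
  rcases p with ⟨p, i⟩ | ⟨p, i⟩ <;> rcases q with ⟨q, j⟩ | ⟨q, j⟩ <;>
    simp [blk, e, Matrix.submatrix_apply]

/-- `α ⊗ 1` -/
def ampl (d : Type*) [DecidableEq d] (α : Matrix K L ℂ) : Matrix (K × d) (L × d) ℂ :=
  Matrix.of fun p q => if p.2 = q.2 then α p.1 q.1 else 0

lemma opn_ampl_le [DecidableEq d] (α : Matrix K L ℂ) {a : ℝ} (ha : 0 ≤ a)
    (h : ∀ v : L → ℂ, ∑ i, ‖∑ p, α i p * v p‖ ^ 2 ≤ a ^ 2 * ∑ p, ‖v p‖ ^ 2) :
    opn (ampl d α) ≤ a := by
  apply opn_le ha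
  intro v
  unfold nsq
  rw [Fintype.sum_prod_type, Fintype.sum_prod_type, Finset.sum_comm, Finset.sum_comm (s := Finset.univ (α := L)),
    Finset.mul_sum]
  refine Finset.sum_le_sum fun i _ => ?_
  refine le_trans (le_of_eq ?_) (h fun p => v (p, i))
  refine Finset.sum_congr rfl fun p _ => ?_
  congr 2
  simp [Matrix.mulVec, dotProduct, ampl, Fintype.sum_prod_type]

lemma blk_compress [DecidableEq d] (u : E →ₗ[ℂ] Matrix d d ℂ) (α : Matrix K L ℂ) (β : Matrix L K ℂ)
    (x : Matrix L L E) :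
    blk u (Matrix.of fun i j => ∑ p, ∑ q, (α i p * β q j) • x p q) =
      ampl d α * blk u x * ampl d β := by
  ext ⟨i, a⟩ ⟨j, b⟩
  simp only [blk, ampl, Matrix.mul_apply, Matrix.of_apply, map_sum, map_smul, Matrix.sum_apply,
    Matrix.smul_apply, smul_eq_mul, Fintype.sum_prod_type, ite_mul, zero_mul, mul_ite, mul_zero,
    Finset.sum_ite_eq, Finset.sum_ite_eq', Finset.mem_univ, if_true, Finset.sum_mul]
  rw [Finset.sum_comm]
  refine Finset.sum_congr rfl fun p _ => Finset.sum_congr rfl fun q _ => ?_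
  ring

lemma blk_single [DecidableEq K] [DecidableEq L] (u : E →ₗ[ℂ] Matrix d d ℂ) (p : K) (q : L)
    (e : E) : opn (blk u (Matrix.single p q e)) ≤ opn (u e) := by
  apply opn_le (opn_nonneg _)
  intro v
  have h1 : ∀ p' i, (blk u (Matrix.single p q e)).mulVec v (p', i) =
      if p' = p then ((u e).mulVec fun j => v (q, j)) i else 0 := by
    intro p' i
    simp only [Matrix.mulVec, dotProduct, blk, Matrix.of_apply, Fintype.sum_prod_type,
      Matrix.single_apply]
    by_cases hp : p = p'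
    · subst hp
      simp only [true_and, if_true]
      rw [Finset.sum_eq_single q]
      · simp
      · intro q' _ hq
        simp [Ne.symm hq]
      · intro h; exact absurd (Finset.mem_univ _) h
    · rw [if_neg (Ne.symm hp)]
      simp [hp]
  have h2 : nsq ((blk u (Matrix.single p q e)).mulVec v) =
      nsq ((u e).mulVec fun j => v (q, j)) := by
    unfold nsq
    rw [Fintype.sum_prod_type, Finset.sum_eq_single p]
    · simp [h1]
    · intro p' _ hp
      simp [h1, hp]
    · intro h; exact absurd (Finset.mem_univ _) h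
  rw [h2]
  refine (nsq_mulVec_le _ _).trans ?_
  have h3 : nsq (fun j => v (q, j)) ≤ nsq v := by
    unfold nsq
    rw [Fintype.sum_prod_type]
    exact Finset.single_le_sum (f := fun q => ∑ j, ‖v (q, j)‖ ^ 2)
      (fun _ _ => Finset.sum_nonneg fun _ _ => by positivity) (Finset.mem_univ q)
  gcongr

lemma opn_blk_le_sum (u : E →ₗ[ℂ] Matrix d d ℂ) (x : Matrix K L E) :
    opn (blk u x) ≤ ∑ p, ∑ q, opn (u (x p q)) := by
  classical
  have hx : blk u x = ∑ p, ∑ q, blk u (Matrix.single p q (x p q)) := by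
    ext ⟨p, i⟩ ⟨q, j⟩
    simp only [Matrix.sum_apply]
    simp only [blk, Matrix.of_apply, Matrix.single_apply]
    rw [Finset.sum_eq_single p, Finset.sum_eq_single q]
    · simp
    · intro q' _ hq; simp [hq]
    · intro h; exact absurd (Finset.mem_univ _) h
    · intro p' _ hp
      refine Finset.sum_eq_zero fun q' _ => ?_
      simp [hp]
    · intro h; exact absurd (Finset.mem_univ _) h
  rw [hx]
  refine (opn_sum_le _ _).trans (Finset.sum_le_sum fun p _ => ?_)
  exact (opn_sum_le _ _).trans (Finset.sum_le_sum fun q _ => blk_single u p q _)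

end blk

/-- packing of a matrix valued map into one with values in `Fin n × Fin n` matrices -/
noncomputable def pk {J : Type*} [Fintype J] (u : E →ₗ[ℂ] Matrix J J ℂ) :
    Σ n : ℕ, E →ₗ[ℂ] Matrix (Fin n) (Fin n) ℂ :=
  ⟨Fintype.card J, (Matrix.reindexLinearEquiv ℂ ℂ (Fintype.equivFin J)
    (Fintype.equivFin J)).toLinearMap ∘ₗ u⟩

lemma pk_apply {J : Type*} [Fintype J] (u : E →ₗ[ℂ] Matrix J J ℂ) (e : E) :
    opn ((pk u).2 e) = opn (u e) := by
  have h := opn_submatrix_equiv (u e) (Fintype.equivFin J).symm (Fintype.equivFin J).symm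
  exact h

lemma pk_blk {J K L : Type*} [Fintype J] [Fintype K] [Fintype L] (u : E →ₗ[ℂ] Matrix J J ℂ)
    (x : Matrix K L E) : opn (blk (pk u).2 x) = opn (blk u x) := by
  have h := opn_submatrix_equiv (blk u x)
    (Equiv.prodCongr (Equiv.refl K) (Fintype.equivFin J).symm)
    (Equiv.prodCongr (Equiv.refl L) (Fintype.equivFin J).symm)
  rw [← h]
  rfl

/-- the structure defined by a set of matrix valued maps -/
noncomputable def famN (F : Set (Σ n : ℕ, E →ₗ[ℂ] Matrix (Fin n) (Fin n) ℂ)) : MatNorms E :=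
  fun _ x => ⨆ u : F, opn (blk u.1.2 x)

section fam
variable {F : Set (Σ n : ℕ, E →ₗ[ℂ] Matrix (Fin n) (Fin n) ℂ)}

lemma fam_bdd (hu : ∀ u ∈ F, ∀ e, opn (u.2 e) ≤ ‖e‖) (k : ℕ) (x : Matrix (Fin k) (Fin k) E) :
    BddAbove (Set.range fun u : F => opn (blk u.1.2 x)) := by
  refine ⟨∑ p, ∑ q, ‖x p q‖, ?_⟩
  rintro _ ⟨u, rfl⟩
  refine (opn_blk_le_sum _ _).trans ?_
  exact Finset.sum_le_sum fun p _ => Finset.sum_le_sum fun q _ => hu u.1 u.2 _

lemma le_famN (hu : ∀ u ∈ F, ∀ e, opn (u.2 e) ≤ ‖e‖) {k : ℕ} (x : Matrix (Fin k) (Fin k) E)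
    {u : Σ n : ℕ, E →ₗ[ℂ] Matrix (Fin n) (Fin n) ℂ} (h : u ∈ F) :
    opn (blk u.2 x) ≤ famN F k x :=
  le_ciSup (fam_bdd hu k x) ⟨u, h⟩

lemma famN_le {k : ℕ} {x : Matrix (Fin k) (Fin k) E} {a : ℝ} (hne : F.Nonempty)
    (h : ∀ u ∈ F, opn (blk u.2 x) ≤ a) : famN F k x ≤ a := by
  have : Nonempty F := hne.to_subtype
  exact ciSup_le fun u => h u.1 u.2

theorem famN_isOS (hne : F.Nonempty) (hu : ∀ u ∈ F, ∀ e, opn (u.2 e) ≤ ‖e‖)
    (hn : ∀ e : E, ∃ u ∈ F, ‖e‖ ≤ opn (u.2 e)) : IsOS (famN F) := by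
  have : Nonempty F := hne.to_subtype
  refine ⟨?_, ?_, ?_, ?_, ?_⟩
  · intro e
    apply le_antisymm
    · apply famN_le hne
      intro u h
      rw [opn_blk_one]
      exact hu u h e
    · obtain ⟨u, h, h1⟩ := hn e
      refine h1.trans ?_
      rw [← opn_blk_one]
      exact le_famN hu _ h
  · intro k x y
    apply famN_le hne
    intro u h
    rw [blk_add]
    exact (opn_add_le _ _).trans (add_le_add (le_famN hu x h) (le_famN hu y h))
  · intro k c x
    unfold famN
    rw [Real.mul_iSup_of_nonneg (norm_nonneg c)]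
    congr 1
    ext u
    rw [blk_smul, opn_smul]
  · intro k m x y
    apply le_antisymm
    · apply famN_le hne
      intro u h
      rw [opn_blk_blocks]
      exact max_le_max (le_famN hu x h) (le_famN hu y h)
    · apply max_le
      · apply famN_le hne
        intro u h
        refine le_trans ?_ (le_famN hu _ h)
        rw [opn_blk_blocks]
        exact le_max_left _ _
      · apply famN_le hne
        intro u h
        refine le_trans ?_ (le_famN hu _ h)
        rw [opn_blk_blocks]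
        exact le_max_right _ _
  · intro k m α β x a b ha hb hα hβ
    apply famN_le hne
    intro u h
    rw [blk_compress]
    have h1 := opn_ampl_le (d := Fin u.1) α ha hα
    have h2 := opn_ampl_le (d := Fin u.1) β hb hβ
    have h3 := le_famN hu x h
    have h4 := opn_nonneg (blk (⇑u.2) x)
    have h7 : 0 ≤ famN F m x := h4.trans h3
    have h5 := opn_nonneg (ampl (Fin u.1) α)
    have h6 := opn_nonneg (ampl (Fin u.1) β)
    calc _ ≤ opn (ampl (Fin u.1) α * blk u.2 x) * opn (ampl (Fin u.1) β) := opn_mul_le _ _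
      _ ≤ (opn (ampl (Fin u.1) α) * opn (blk u.2 x)) * opn (ampl (Fin u.1) β) := by
          gcongr
          exact opn_mul_le _ _
      _ ≤ _ := by gcongr

end fam

/-! ### general facts on operator space structures -/

section gen
variable {N : MatNorms E} (hN : IsOS N)
include hN

lemma IsOS.zero (k : ℕ) : N k 0 = 0 := by
  have h := hN.2.2.1 k 0 0
  simpa using h

lemma IsOS.nonneg (k : ℕ) (x : Matrix (Fin k) (Fin k) E) : 0 ≤ N k x := by
  have h1 := hN.2.1 k x ((-1 : ℂ) • x)
  have h2 := hN.2.2.1 k (-1) x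
  have h3 : x + (-1 : ℂ) • x = 0 := by simp
  rw [h3, hN.zero, h2] at h1
  simp at h1
  linarith

lemma IsOS.scalar (k : ℕ) (e : E) :
    N k (Matrix.diagonal fun _ => e) ≤ ‖e‖ := by
  induction k with
  | zero =>
    have : (Matrix.diagonal fun _ => e : Matrix (Fin 0) (Fin 0) E) = 0 := by
      ext i; exact i.elim0
    rw [this, hN.zero]
    exact norm_nonneg e
  | succ k ih =>
    have h := hN.2.2.2.1 k 1 (Matrix.diagonal fun _ => e) (Matrix.of fun _ _ => e)
    have h2 : (Matrix.diagonal fun _ => e : Matrix (Fin (k+1)) (Fin (k+1)) E) =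
      Matrix.reindex finSumFinEquiv finSumFinEquiv
        (Matrix.fromBlocks (Matrix.diagonal fun _ => e) 0 0 (Matrix.of fun _ _ => e)) := by
      have h3 : (Matrix.of fun _ _ => e : Matrix (Fin 1) (Fin 1) E) = Matrix.diagonal fun _ => e := by
        ext i j
        have : i = j := Subsingleton.elim i j
        subst this
        simp
      rw [h3, Matrix.fromBlocks_diagonal]
      ext i j
      rw [Matrix.reindex_apply, Matrix.submatrix_apply]
      rw [Matrix.diagonal_apply, Matrix.diagonal_apply]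
      have h4 : (finSumFinEquiv.symm i = finSumFinEquiv.symm j) ↔ i = j :=
        finSumFinEquiv.symm.injective.eq_iff
      simp only [h4]
      split_ifs
      · rcases finSumFinEquiv.symm i with a | a <;> rfl
      · rfl
    rw [h2, h, hN.1]
    exact max_le ih le_rfl

lemma IsOS.tensor (k : ℕ) (α : Matrix (Fin k) (Fin k) ℂ) (e : E) :
    N k (Matrix.of fun i j => α i j • e) ≤ opn α * ‖e‖ := by
  have h := hN.2.2.2.2 k k α 1 (Matrix.diagonal fun _ => e) (opn α) 1 (opn_nonneg α) zero_le_one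
    (fun v => nsq_mulVec_le α v) (fun v => by simp [Matrix.one_apply])
  have h2 : (Matrix.of fun i j => ∑ p, ∑ q, (α i p * (1 : Matrix (Fin k) (Fin k) ℂ) q j) •
      (Matrix.diagonal (fun _ => e) : Matrix (Fin k) (Fin k) E) p q) =
      Matrix.of fun i j => α i j • e := by
    ext i j
    simp only [Matrix.of_apply]
    rw [Finset.sum_eq_single j]
    · rw [Finset.sum_eq_single j]
      · simp
      · intro q _ hq; simp [Matrix.one_apply, hq]
      · intro h; exact absurd (Finset.mem_univ _) h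
    · intro p _ hp
      refine Finset.sum_eq_zero fun q _ => ?_
      by_cases hq : q = j
      · subst hq; simp [Matrix.diagonal_apply, hp]
      · simp [Matrix.one_apply, hq]
    · intro h; exact absurd (Finset.mem_univ _) h
  rw [h2] at h
  have h3 := hN.scalar k e
  have h4 := opn_nonneg α
  calc _ ≤ _ := h
    _ ≤ opn α * ‖e‖ * 1 := by gcongr
    _ = _ := mul_one _

lemma IsOS.sum_le {ι : Type*} (s : Finset ι) (k : ℕ) (x : ι → Matrix (Fin k) (Fin k) E) :
    N k (∑ i ∈ s, x i) ≤ ∑ i ∈ s, N k (x i) := by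
  classical
  induction s using Finset.induction_on with
  | empty => simp [hN.zero]
  | insert a s ha ih =>
    rw [Finset.sum_insert ha, Finset.sum_insert ha]
    exact (hN.2.1 _ _ _).trans (by linarith)

end gen

end Pool.Agent.W_MP_7b81ff_an
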