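import Pool.Agent.W_MP_7b81ff_an.Kap
import Pool.Agent.W_MP_7b81ff_an.Struct
import Pool.Agent.W_MP_7b81ff_an.John

set_option autoImplicit false
set_option linter.unusedSimpArgs false
set_option linter.unusedSectionVars false

open Matrix Finset Module

namespace Pool.Agent.W_MP_7b81ff_an

variable {E : Type*} [NormedAddCommGroup E] [NormedSpace ℂ E]

noncomputable instance instFintypeOm (m : ℕ) : Fintype (Om (m + 1)) :=
  @Fintype.ofFinite _ (Om_finite (Nat.succ_pos m))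

noncomputable instance instDecEqOm (m : ℕ) : DecidableEq (Om m) := Classical.decEq _

instance instNonemptyOm (m : ℕ) : Nonempty (Om (m + 1)) := by
  have h1 : addOrderOf (((1 : ℝ) / ((m + 1 : ℕ) : ℝ) : ℝ) : UnitAddCircle) = m + 1 :=
    AddCircle.addOrderOf_period_div (Nat.succ_pos m)
  refine ⟨⟨((((1 : ℝ) / ((m + 1 : ℕ) : ℝ) : ℝ) : UnitAddCircle), 0), ?_⟩⟩
  rw [Prod.addOrderOf]
  simp only [addOrderOf_zero, Nat.lcm_one_right]
  exact h1

/-- The index type of the `m`-th triple of matrices. -/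
abbrev Jm (m : ℕ) : Type := Fin 3 × Om (m + 1)

/-- the `m`-th triple -/
noncomputable def AA (m : ℕ) : Fin 3 → Matrix (Jm m) (Jm m) ℂ := gA (tW (m + 1))

/-- a functional as a `1 × 1` matrix valued map -/
noncomputable def funM (φ : E →L[ℂ] ℂ) : E →ₗ[ℂ] Matrix Unit Unit ℂ where
  toFun e := Matrix.of fun _ _ => φ e
  map_add' a b := by ext; simp
  map_smul' a b := by ext; simp

/-- the map `e ↦ κ⁻¹ ∑ v_l(e) A_l` -/
noncomputable def uM (v : Fin 3 → (E →L[ℂ] ℂ)) (m : ℕ) : E →ₗ[ℂ] Matrix (Jm m) (Jm m) ℂ where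
  toFun e := ((kap⁻¹ : ℝ) : ℂ) • ∑ l, v l e • AA m l
  map_add' a b := by
    simp only [map_add, add_smul, Finset.sum_add_distrib, smul_add]
  map_smul' a b := by
    simp only [map_smul, smul_eq_mul, mul_smul, RingHom.id_apply]
    rw [smul_comm]
    congr 1
    rw [Finset.smul_sum]

lemma kap_pos : 0 < kap := by norm_num [kap]

lemma opn_uM_le {v : Fin 3 → (E →L[ℂ] ℂ)} (hv : ∀ e, ∑ i, ‖v i e‖ ^ 2 ≤ ‖e‖ ^ 2) (m : ℕ) (e : E) :
    opn (uM v m e) ≤ ‖e‖ := by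
  change opn (((kap⁻¹ : ℝ) : ℂ) • ∑ l, v l e • AA m l) ≤ ‖e‖
  rw [opn_smul, Complex.norm_real, Real.norm_eq_abs, abs_of_pos (inv_pos.2 kap_pos)]
  have h := opn_sum_gA (tW_unitary (m + 1)) (fun l => v l e)
  have h2 : Real.sqrt (nsq fun l => v l e) ≤ ‖e‖ := by
    rw [Real.sqrt_le_left (norm_nonneg e)]
    exact hv e
  rw [inv_mul_le_iff₀ kap_pos]
  refine h.trans ?_
  have := kap_pos
  gcongr

lemma opn_funM (φ : E →L[ℂ] ℂ) (e : E) : opn (funM φ e) = ‖φ e‖ := opn_unit (φ e)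

/-- the set of maps attached to a set `I` of natural numbers -/
noncomputable def FI (v : Fin 3 → (E →L[ℂ] ℂ)) (I : Set ℕ) :
    Set (Σ n : ℕ, E →ₗ[ℂ] Matrix (Fin n) (Fin n) ℂ) :=
  {p | (∃ φ : E →L[ℂ] ℂ, (∀ e, ‖φ e‖ ≤ ‖e‖) ∧ p = pk (funM φ)) ∨ ∃ m ∈ I, p = pk (uM v m)}

lemma FI_nonempty (v : Fin 3 → (E →L[ℂ] ℂ)) (I : Set ℕ) : (FI v I).Nonempty :=
  ⟨pk (funM 0), Or.inl ⟨0, fun e => by simp, rfl⟩⟩

lemma FI_contr {v : Fin 3 → (E →L[ℂ] ℂ)} (hv : ∀ e, ∑ i, ‖v i e‖ ^ 2 ≤ ‖e‖ ^ 2) (I : Set ℕ) :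
    ∀ u ∈ FI v I, ∀ e, opn (u.2 e) ≤ ‖e‖ := by
  rintro u (⟨φ, hφ, rfl⟩ | ⟨m, -, rfl⟩) e
  · rw [pk_apply, opn_funM]; exact hφ e
  · rw [pk_apply]; exact opn_uM_le hv m e

lemma FI_norming (v : Fin 3 → (E →L[ℂ] ℂ)) (I : Set ℕ) :
    ∀ e : E, ∃ u ∈ FI v I, ‖e‖ ≤ opn (u.2 e) := by
  intro e
  obtain ⟨φ, hφ, hφe⟩ := exists_dual_vector'' ℂ e
  refine ⟨pk (funM φ), Or.inl ⟨φ, fun x => ?_, rfl⟩, ?_⟩
  · have := φ.le_opNorm x
    calc ‖φ x‖ ≤ ‖φ‖ * ‖x‖ := this
      _ ≤ 1 * ‖x‖ := by gcongr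
      _ = ‖x‖ := one_mul _
  · rw [pk_apply, opn_funM, hφe]
    simp

/-- the structure attached to a set `I` of natural numbers -/
noncomputable def NI (v : Fin 3 → (E →L[ℂ] ℂ)) (I : Set ℕ) : MatNorms E := famN (FI v I)

lemma NI_isOS {v : Fin 3 → (E →L[ℂ] ℂ)} (hv : ∀ e, ∑ i, ‖v i e‖ ^ 2 ≤ ‖e‖ ^ 2) (I : Set ℕ) :
    IsOS (NI v I) :=
  famN_isOS (FI_nonempty v I) (FI_contr hv I) (FI_norming v I)

/-- the test matrix over a general index type -/
noncomputable def XT (f : Fin 3 → E) (m : ℕ) : Matrix (Jm m) (Jm m) E :=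
  Matrix.of fun x y => ∑ l, (starRingEnd ℂ) (AA m l x y) • f l

/-- the test matrix -/
noncomputable def XX (f : Fin 3 → E) (m : ℕ) :
    Matrix (Fin (Fintype.card (Jm m))) (Fin (Fintype.card (Jm m))) E :=
  (XT f m).submatrix (Fintype.equivFin (Jm m)).symm (Fintype.equivFin (Jm m)).symm

lemma opn_blk_XX {J : Type*} [Fintype J] (u : E →ₗ[ℂ] Matrix J J ℂ) (f : Fin 3 → E) (m : ℕ) :
    opn (blk u (XX f m)) = opn (blk u (XT f m)) := by
  have h := opn_submatrix_equiv (blk u (XT f m))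
    (Equiv.prodCongr (Fintype.equivFin (Jm m)).symm (Equiv.refl J))
    (Equiv.prodCongr (Fintype.equivFin (Jm m)).symm (Equiv.refl J))
  rw [← h]
  rfl

lemma blk_uM_XT {v : Fin 3 → (E →L[ℂ] ℂ)} {f : Fin 3 → E}
    (hvf : ∀ i j, v i (f j) = if i = j then 1 else 0) (m m' : ℕ) :
    blk (uM v m') (XT f m) = ((kap⁻¹ : ℝ) : ℂ) • bigK (AA m) (AA m') := by
  ext ⟨p, i⟩ ⟨q, j⟩
  simp only [blk, XT, Matrix.of_apply, map_sum, map_smul, Matrix.sum_apply, Matrix.smul_apply,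
    bigK, smul_eq_mul, Finset.mul_sum]
  refine Finset.sum_congr rfl fun l _ => ?_
  have h1 : uM v m' (f l) = ((kap⁻¹ : ℝ) : ℂ) • AA m' l := by
    change ((kap⁻¹ : ℝ) : ℂ) • ∑ k, v k (f l) • AA m' k = _
    congr 1
    rw [Finset.sum_eq_single l]
    · rw [hvf]; simp
    · intro k _ hk; rw [hvf, if_neg hk, zero_smul]
    · intro h; exact absurd (Finset.mem_univ _) h
  rw [h1]
  simp only [Matrix.smul_apply, smul_eq_mul]
  ring

/-- upper constant -/
noncomputable def rho : ℝ := max (kap * Real.sqrt 3) (kap⁻¹ * Real.sqrt (cc * (cc - 1 / (3 * 10 ^ 8))))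

/-- lower constant -/
noncomputable def tau : ℝ := kap⁻¹ * cc

lemma rho_pos : 0 < rho := by
  unfold rho
  apply lt_max_of_lt_left
  have := kap_pos
  positivity

lemma rho_lt_tau : rho < tau := by
  unfold rho tau
  apply max_lt
  · have h3 : Real.sqrt 3 < 1733/1000 := by
      rw [Real.sqrt_lt' (by norm_num)]; norm_num
    have h4 : kap⁻¹ * cc = (50/51) * (5001/2500) := by norm_num [kap, cc]
    rw [h4]
    have h5 : kap = 51/50 := rfl
    rw [h5]
    nlinarith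
  · have h1 : Real.sqrt (cc * (cc - 1 / (3 * 10 ^ 8))) < cc := by
      rw [Real.sqrt_lt' (by norm_num [cc])]
      norm_num [cc]
    have := inv_pos.2 kap_pos
    gcongr

lemma NI_lower {v : Fin 3 → (E →L[ℂ] ℂ)} {f : Fin 3 → E}
    (hv : ∀ e, ∑ i, ‖v i e‖ ^ 2 ≤ ‖e‖ ^ 2)
    (hvf : ∀ i j, v i (f j) = if i = j then 1 else 0) {I : Set ℕ} {m : ℕ} (hm : m ∈ I) :
    tau ≤ NI v I _ (XX f m) := by
  have h1 : pk (uM v m) ∈ FI v I := Or.inr ⟨m, hm, rfl⟩
  have h2 := le_famN (FI_contr hv I) (XX f m) h1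
  rw [pk_blk, opn_blk_XX, blk_uM_XT hvf, opn_smul, Complex.norm_real, Real.norm_eq_abs,
    abs_of_pos (inv_pos.2 kap_pos)] at h2
  refine le_trans ?_ h2
  unfold tau
  have := inv_pos.2 kap_pos
  have h3 := bigK_matched (tW_unitary (m + 1))
  unfold AA
  gcongr

lemma blk_funM_XT {f : Fin 3 → E} (hf : ∀ φ : E →L[ℂ] ℂ, (∀ e, ‖φ e‖ ≤ ‖e‖) →
      ∑ j, ‖φ (f j)‖ ^ 2 ≤ 3) {φ : E →L[ℂ] ℂ} (hφ : ∀ e, ‖φ e‖ ≤ ‖e‖) (m : ℕ) :
    opn (blk (funM φ) (XT f m)) ≤ kap * Real.sqrt 3 := by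
  have h1 := opn_sum_gA_conj (tW_unitary (m + 1)) (fun l => φ (f l))
  have h2 : Real.sqrt (nsq fun l => φ (f l)) ≤ Real.sqrt 3 := Real.sqrt_le_sqrt (hf φ hφ)
  have h3 := opn_submatrix_equiv
    (Matrix.of fun x y => ∑ l, (starRingEnd ℂ) (gA (tW (m + 1)) l x y) * φ (f l))
    (Equiv.prodUnique (Jm m) Unit) (Equiv.prodUnique (Jm m) Unit)
  have h4 : blk (funM φ) (XT f m) =
      (Matrix.of fun x y => ∑ l, (starRingEnd ℂ) (gA (tW (m + 1)) l x y) * φ (f l)).submatrix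
        (Equiv.prodUnique (Jm m) Unit) (Equiv.prodUnique (Jm m) Unit) := by
    ext ⟨p, i⟩ ⟨q, j⟩
    change φ (∑ l, (starRingEnd ℂ) (AA m l p q) • f l) =
      ∑ l, (starRingEnd ℂ) (gA (tW (m + 1)) l p q) * φ (f l)
    rw [map_sum]
    refine Finset.sum_congr rfl fun l _ => ?_
    rw [map_smul, smul_eq_mul]
    rfl
  rw [h4, h3]
  refine h1.trans ?_
  have := kap_pos
  gcongr

lemma NI_upper {v : Fin 3 → (E →L[ℂ] ℂ)} {f : Fin 3 → E}
    (hvf : ∀ i j, v i (f j) = if i = j then 1 else 0)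
    (hf : ∀ φ : E →L[ℂ] ℂ, (∀ e, ‖φ e‖ ≤ ‖e‖) → ∑ j, ‖φ (f j)‖ ^ 2 ≤ 3)
    {I : Set ℕ} {m : ℕ} (hm : m ∉ I) :
    NI v I _ (XX f m) ≤ rho := by
  apply famN_le (FI_nonempty v I)
  rintro u (⟨φ, hφ, rfl⟩ | ⟨m', hm', rfl⟩)
  · rw [pk_blk, opn_blk_XX]
    exact (blk_funM_XT hf hφ m).trans (le_max_left _ _)
  · rw [pk_blk, opn_blk_XX, blk_uM_XT hvf, opn_smul, Complex.norm_real, Real.norm_eq_abs,
      abs_of_pos (inv_pos.2 kap_pos)]
    have hne : m' + 1 ≠ m + 1 := by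
      intro h
      have : m' = m := by omega
      subst this
      exact hm hm'
    have h3 := bigK_mismatched (tW_unitary (m + 1)) (tW_unitary (m' + 1)) (fun S => tW_gap hne S)
    refine le_trans ?_ (le_max_right _ _)
    have := inv_pos.2 kap_pos
    unfold AA
    gcongr

/-- cb-distance less than `t` -/
def Dlt (N N' : MatNorms E) (t : ℝ) : Prop :=
  ∃ u : E ≃ₗ[ℂ] E, ∃ a b : ℝ, a * b < t ∧ ∀ (k : ℕ) (x : Matrix (Fin k) (Fin k) E),
    N' k (x.map fun e => u e) ≤ a * N k x ∧ N k (x.map fun e => u.symm e) ≤ b * N' k x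

/-- the functional part of `NI` -/
lemma opn_map_le_NI {v : Fin 3 → (E →L[ℂ] ℂ)} (hv : ∀ e, ∑ i, ‖v i e‖ ^ 2 ≤ ‖e‖ ^ 2) (I : Set ℕ)
    (φ : E →L[ℂ] ℂ) (k : ℕ) (x : Matrix (Fin k) (Fin k) E) :
    opn (x.map fun e => φ e) ≤ (‖φ‖ + 1) * NI v I k x := by
  have hc : 0 < ‖φ‖ + 1 := by positivity
  set c : ℂ := ((‖φ‖ + 1 : ℝ) : ℂ) with hcdef
  have hc0 : c ≠ 0 := by rw [hcdef]; exact_mod_cast hc.ne'
  have hcn : ‖c‖ = ‖φ‖ + 1 := by rw [hcdef, Complex.norm_real, Real.norm_eq_abs, abs_of_pos hc]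
  let ψ : E →L[ℂ] ℂ := c⁻¹ • φ
  have hψ : ∀ e, ‖ψ e‖ ≤ ‖e‖ := by
    intro e
    have h1 := φ.le_opNorm e
    change ‖c⁻¹ • φ e‖ ≤ ‖e‖
    rw [norm_smul, norm_inv, hcn, inv_mul_le_iff₀ hc]
    refine h1.trans ?_
    have := norm_nonneg e
    gcongr
    linarith
  have h1 : pk (funM ψ) ∈ FI v I := Or.inl ⟨ψ, hψ, rfl⟩
  have h2 := le_famN (FI_contr hv I) x h1
  rw [pk_blk] at h2
  have h3 : opn (blk (funM ψ) x) = opn (x.map fun e => ψ e) := by
    have h4 := opn_submatrix_equiv (x.map fun e => ψ e)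
      (Equiv.prodUnique (Fin k) Unit) (Equiv.prodUnique (Fin k) Unit)
    rw [← h4]
    rfl
  rw [h3] at h2
  have h5 : (x.map fun e => φ e) = c • (x.map fun e => ψ e) := by
    ext i j
    change φ (x i j) = c • (c⁻¹ • φ (x i j))
    rw [smul_smul, mul_inv_cancel₀ hc0, one_smul]
  rw [h5, opn_smul, hcn]
  have h6 : opn (x.map fun e => ψ e) ≤ NI v I k x := h2
  gcongr

variable [FiniteDimensional ℂ E]

/-- a uniform bound for cb norms of maps defined on a finite dimensional space -/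
lemma exists_cb_bound : ∃ C : ℝ, 0 ≤ C ∧ ∀ (v : Fin 3 → (E →L[ℂ] ℂ)),
    (∀ e, ∑ i, ‖v i e‖ ^ 2 ≤ ‖e‖ ^ 2) → ∀ (I : Set ℕ) (D : MatNorms E), IsOS D →
      ∀ (z : E →L[ℂ] E) (k : ℕ) (x : Matrix (Fin k) (Fin k) E),
        D k (x.map fun e => z e) ≤ C * ‖z‖ * NI v I k x := by
  let B := finBasis ℂ E
  let φ : Fin (finrank ℂ E) → (E →L[ℂ] ℂ) := fun j => LinearMap.toContinuousLinearMap (B.coord j)
  refine ⟨∑ j, (‖φ j‖ + 1) * ‖B j‖, Finset.sum_nonneg fun j _ => by positivity, ?_⟩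
  intro v hv I D hD z k x
  have h1 : (x.map fun e => z e) = ∑ j, Matrix.of fun p q => ((x.map fun e => φ j e) p q) • z (B j) := by
    ext p q
    rw [Matrix.sum_apply]
    simp only [Matrix.of_apply, Matrix.map_apply]
    have h2 : x p q = ∑ j, φ j (x p q) • B j := by
      have := B.sum_repr (x p q)
      exact this.symm
    conv_lhs => rw [h2, map_sum]
    exact Finset.sum_congr rfl fun j _ => by rw [map_smul]
  rw [h1]
  refine (hD.sum_le _ _ _).trans ?_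
  rw [Finset.sum_mul, Finset.sum_mul]
  refine Finset.sum_le_sum fun j _ => ?_
  refine (hD.tensor k _ _).trans ?_
  have h3 := opn_map_le_NI hv I (φ j) k x
  have h4 := z.le_opNorm (B j)
  have h5 := (NI_isOS hv I).nonneg k x
  calc opn (x.map fun e => φ j e) * ‖z (B j)‖ ≤ ((‖φ j‖ + 1) * NI v I k x) * (‖z‖ * ‖B j‖) := by
        gcongr
    _ = _ := by ring

lemma Dlt_normalize {N D : MatNorms E} (hN : IsOS N) (hD : IsOS D) {t : ℝ} (hE : ∃ e : E, e ≠ 0)
    (h : Dlt N D t) : ∃ w : E →L[ℂ] E, (∀ e, ‖w e‖ ≤ t * ‖e‖) ∧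
      (∀ (k : ℕ) (x : Matrix (Fin k) (Fin k) E), D k (x.map fun e => w e) ≤ t * N k x ∧
        N k x ≤ D k (x.map fun e => w e)) := by
  obtain ⟨u, a, b, hab, h⟩ := h
  obtain ⟨e, he⟩ := hE
  have hpe : 0 < ‖e‖ := norm_pos_iff.2 he
  have h1 : ∀ (g : E), (Matrix.of fun (_ _ : Fin 1) => e).map (fun _ => g) =
      (Matrix.of fun (_ _ : Fin 1) => g) := fun g => rfl
  have ha1 := (h 1 (Matrix.of fun _ _ => e)).1
  have hb1 := (h 1 (Matrix.of fun _ _ => e)).2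
  have e1 : (Matrix.of fun (_ _ : Fin 1) => e).map (fun e => u e) = Matrix.of fun _ _ => u e := rfl
  have e2 : (Matrix.of fun (_ _ : Fin 1) => e).map (fun e => u.symm e) =
      Matrix.of fun _ _ => u.symm e := rfl
  rw [e1, hD.1, hN.1] at ha1
  rw [e2, hD.1, hN.1] at hb1
  have ha : 0 < a := by
    have : 0 < ‖u e‖ := norm_pos_iff.2 (by simpa using he)
    by_contra hcon
    push Not at hcon
    nlinarith
  have hb : 0 < b := by
    have : 0 < ‖u.symm e‖ := norm_pos_iff.2 (by simpa using he)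
    by_contra hcon
    push Not at hcon
    nlinarith
  let w : E →L[ℂ] E := LinearMap.toContinuousLinearMap ((b : ℂ) • u.toLinearMap)
  have hw : ∀ e, w e = (b : ℂ) • u e := fun e => rfl
  have hbn : ‖(b : ℂ)‖ = b := by rw [Complex.norm_real, Real.norm_eq_abs, abs_of_pos hb]
  have hDw : ∀ (k : ℕ) (x : Matrix (Fin k) (Fin k) E),
      D k (x.map fun e => w e) = b * D k (x.map fun e => u e) := by
    intro k x
    have : (x.map fun e => w e) = (b : ℂ) • (x.map fun e => u e) := by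
      ext i j; rfl
    rw [this, hD.2.2.1, hbn]
  have hmain : ∀ (k : ℕ) (x : Matrix (Fin k) (Fin k) E), D k (x.map fun e => w e) ≤ t * N k x ∧
        N k x ≤ D k (x.map fun e => w e) := by
    intro k x
    constructor
    · rw [hDw]
      have h2 := (h k x).1
      have h3 := hN.nonneg k x
      calc b * D k (x.map fun e => u e) ≤ b * (a * N k x) := by gcongr
        _ = (a * b) * N k x := by ring
        _ ≤ t * N k x := by gcongr
    · rw [hDw]
      have h2 := (h k (x.map fun e => u e)).2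
      have h4 : (x.map fun e => u e).map (fun e => u.symm e) = x := by
        ext i j; simp
      rw [h4] at h2
      exact h2
  refine ⟨w, fun g => ?_, hmain⟩
  have h5 := (hmain 1 (Matrix.of fun _ _ => g)).1
  have e3 : (Matrix.of fun (_ _ : Fin 1) => g).map (fun e => w e) = Matrix.of fun _ _ => w g := rfl
  rw [e3, hD.1, hN.1] at h5
  exact h5

/-- an infinite bounded family in a finite dimensional space has two members close to each other -/
lemma exists_close {ι G : Type*} [NormedAddCommGroup G] [ProperSpace G] {S : Set ι}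
    (hS : S.Infinite) (w : ι → G) {r η : ℝ} (hw : ∀ i ∈ S, ‖w i‖ ≤ r) (hη : 0 < η) :
    ∃ i ∈ S, ∃ j ∈ S, i ≠ j ∧ ‖w i - w j‖ < η := by
  have hc : IsCompact (Metric.closedBall (0 : G) r) := isCompact_closedBall _ _
  obtain ⟨t, -, htf, hcov⟩ := hc.finite_cover_balls (e := η / 2) (by positivity)
  have h1 : ∀ i ∈ S, ∃ y ∈ t, w i ∈ Metric.ball y (η / 2) := by
    intro i hi
    have h2 : w i ∈ Metric.closedBall (0 : G) r := by
      rw [mem_closedBall_zero_iff]; exact hw i hi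
    have h3 := hcov h2
    simpa using h3
  classical
  let g : ι → G := fun i => if h : ∃ y ∈ t, w i ∈ Metric.ball y (η / 2) then h.choose else 0
  have hg : ∀ i ∈ S, g i ∈ t ∧ w i ∈ Metric.ball (g i) (η / 2) := by
    intro i hi
    have h := h1 i hi
    simp only [g, dif_pos h]
    exact h.choose_spec
  obtain ⟨i, hi, j, hj, hij, heq⟩ := hS.exists_ne_map_eq_of_mapsTo (f := g) (fun i hi => (hg i hi).1) htf
  refine ⟨i, hi, j, hj, hij, ?_⟩
  have h4 := (hg i hi).2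
  have h5 := (hg j hj).2
  rw [← heq] at h5
  rw [← dist_eq_norm]
  have h6 := dist_triangle_right (w i) (w j) (g i)
  rw [Metric.mem_ball] at h4 h5
  linarith

/-- Every structure is close to only finitely many of the structures `NI`. -/
theorem finite_close (h3 : 3 ≤ finrank ℂ E) : ∃ (v : Fin 3 → (E →L[ℂ] ℂ)) (δ : ℝ), 0 < δ ∧
    (∀ I, IsOS (NI v I)) ∧
    ∀ D : MatNorms E, IsOS D → {I : Set ℕ | Dlt (NI v I) D (1 + δ)}.Finite := by
  obtain ⟨v, f, hvf, hv, hf⟩ := exists_john E h3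
  obtain ⟨C, hC0, hC⟩ := exists_cb_bound (E := E)
  have hE : ∃ e : E, e ≠ 0 := by
    refine ⟨f 0, fun h => ?_⟩
    have := hvf 0 0
    rw [h, map_zero] at this
    simp at this
  have hρ := rho_pos
  have hlt := rho_lt_tau
  set δ : ℝ := (tau - rho) / (4 * rho) with hδ
  have hδ0 : 0 < δ := by
    rw [hδ]
    apply div_pos <;> linarith
  have hδρ : δ * rho = (tau - rho) / 4 := by
    rw [hδ]; field_simp
  refine ⟨v, δ, hδ0, NI_isOS hv, fun D hD => ?_⟩
  by_contra hinf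
  have hinf' : {I : Set ℕ | Dlt (NI v I) D (1 + δ)}.Infinite := hinf
  have hch : ∀ I : Set ℕ, ∃ w : E →L[ℂ] E, Dlt (NI v I) D (1 + δ) → ((∀ e, ‖w e‖ ≤ (1 + δ) * ‖e‖) ∧
      (∀ (k : ℕ) (x : Matrix (Fin k) (Fin k) E), D k (x.map fun e => w e) ≤ (1 + δ) * NI v I k x ∧
        NI v I k x ≤ D k (x.map fun e => w e))) := by
    intro I
    by_cases h : Dlt (NI v I) D (1 + δ)
    · obtain ⟨w, h1, h2⟩ := Dlt_normalize (NI_isOS hv I) hD hE h
      exact ⟨w, fun _ => ⟨h1, h2⟩⟩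
    · exact ⟨0, fun h' => absurd h' h⟩
  choose w hw using hch
  have : ProperSpace (E →L[ℂ] E) := FiniteDimensional.proper ℂ _
  set η : ℝ := δ / (C + 1) with hη
  have hη0 : 0 < η := by positivity
  have hCη : C * η ≤ δ := by
    rw [hη, mul_div_assoc', div_le_iff₀ (by positivity)]
    nlinarith
  obtain ⟨I, hI, J, hJ, hIJ, hclose⟩ := exists_close hinf' w (r := 1 + δ) (η := η)
    (fun I hI => ContinuousLinearMap.opNorm_le_bound _ (by positivity) (hw I hI).1) hη0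
  -- comparison
  have key : ∀ I J : Set ℕ, Dlt (NI v I) D (1 + δ) → Dlt (NI v J) D (1 + δ) → ‖w I - w J‖ < η →
      ∀ m ∈ I, m ∈ J := by
    intro I J hI hJ hc m hmI
    by_contra hmJ
    set x := XX f m with hx
    have h1 : tau ≤ NI v I _ x := NI_lower hv hvf hmI
    have h2 : NI v J _ x ≤ rho := NI_upper hvf hf hmJ
    have h4 := ((hw I hI).2 _ x).2
    have h5 := ((hw J hJ).2 _ x).1
    have h6 : (x.map fun e => w I e) = (x.map fun e => w J e) + (x.map fun e => (w I - w J) e) := by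
      ext i j
      simp
    have h7 := hD.2.1 _ (x.map fun e => w J e) (x.map fun e => (w I - w J) e)
    rw [← h6] at h7
    have h8 := hC v hv J D hD (w I - w J) _ x
    have h9 : C * ‖w I - w J‖ ≤ δ := by
      refine le_trans ?_ hCη
      gcongr
    have h10 := (NI_isOS hv J).nonneg _ x
    have h11 : C * ‖w I - w J‖ * NI v J _ x ≤ δ * NI v J _ x := by gcongr
    have h12 : (1 + 2 * δ) * NI v J _ x ≤ (1 + 2 * δ) * rho := by gcongr
    nlinarith
  apply hIJ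
  ext m
  constructor
  · exact key I J hI hJ hclose m
  · exact key J I hJ hI (by rw [norm_sub_rev]; exact hclose) m

/-! ### dimension at most one -/

omit [FiniteDimensional ℂ E] in
lemma IsOS.lower_tensor {N : MatNorms E} (hN : IsOS N) (k : ℕ) (α : Matrix (Fin k) (Fin k) ℂ)
    (e : E) : opn α * ‖e‖ ≤ N k (Matrix.of fun i j => α i j • e) := by
  by_cases he : ‖e‖ = 0
  · rw [he, mul_zero]; exact hN.nonneg _ _
  have hpe : 0 < ‖e‖ := lt_of_le_of_ne (norm_nonneg e) (Ne.symm he)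
  rw [← le_div_iff₀ hpe]
  apply opn_le' (div_nonneg (hN.nonneg _ _) hpe.le)
  intro v
  set y : Fin k → ℂ := α.mulVec v with hy
  set A : Matrix (Fin 1) (Fin k) ℂ := Matrix.of fun _ p => (starRingEnd ℂ) (y p) with hA
  set B : Matrix (Fin k) (Fin 1) ℂ := Matrix.of fun q _ => v q with hB
  have h := hN.2.2.2.2 1 k A B (Matrix.of fun i j => α i j • e) (Real.sqrt (nsq y))
    (Real.sqrt (nsq v)) (Real.sqrt_nonneg _) (Real.sqrt_nonneg _) (by
      intro z
      rw [Real.sq_sqrt (nsq_nonneg y)]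
      simp only [Finset.univ_unique, Finset.sum_singleton, hA, Matrix.of_apply]
      have h1 : ‖∑ p, (starRingEnd ℂ) (y p) * z p‖ ≤ ∑ p, ‖y p‖ * ‖z p‖ := by
        refine (norm_sum_le _ _).trans ?_
        simp
      calc ‖∑ p, (starRingEnd ℂ) (y p) * z p‖ ^ 2 ≤ (∑ p, ‖y p‖ * ‖z p‖) ^ 2 := by gcongr
        _ ≤ (∑ p, ‖y p‖ ^ 2) * (∑ p, ‖z p‖ ^ 2) := Finset.sum_mul_sq_le_sq_mul_sq _ _ _)
    (by
      intro z
      rw [Real.sq_sqrt (nsq_nonneg v)]
      simp only [Finset.univ_unique, Finset.sum_singleton, hB, Matrix.of_apply, norm_mul, mul_pow]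
      rw [← Finset.sum_mul]
      exact le_rfl)
  have h2 : (Matrix.of fun i j => ∑ p, ∑ q, (A i p * B q j) •
      (Matrix.of (fun i j => α i j • e) : Matrix (Fin k) (Fin k) E) p q) =
      Matrix.of fun (_ _ : Fin 1) => ((nsq y : ℝ) : ℂ) • e := by
    ext i j
    simp only [Matrix.of_apply, hA, hB, smul_smul]
    simp only [← Finset.sum_smul]
    congr 1
    have h3 : ∀ p, ∑ q, (starRingEnd ℂ) (y p) * v q * α p q = ((‖y p‖ ^ 2 : ℝ) : ℂ) := by
      intro p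
      have h4 : y p = ∑ q, α p q * v q := rfl
      have h5 : ∑ q, (starRingEnd ℂ) (y p) * v q * α p q = (starRingEnd ℂ) (y p) * y p := by
        calc ∑ q, (starRingEnd ℂ) (y p) * v q * α p q
            = (starRingEnd ℂ) (y p) * ∑ q, α p q * v q := by
              rw [Finset.mul_sum]
              exact Finset.sum_congr rfl fun q _ => by ring
          _ = (starRingEnd ℂ) (y p) * y p := congrArg _ h4.symm
      rw [h5, mul_comm, Complex.mul_conj, Complex.normSq_eq_norm_sq]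
    simp only [h3]
    unfold nsq
    push_cast
    rfl
  rw [h2, hN.1, norm_smul, Complex.norm_real, Real.norm_eq_abs, abs_of_nonneg (nsq_nonneg y)] at h
  set M := N k (Matrix.of fun i j => α i j • e) with hM
  have hM0 : 0 ≤ M := hN.nonneg _ _
  by_cases hy0 : nsq y = 0
  · rw [hy0, Real.sqrt_zero]
    have := Real.sqrt_nonneg (nsq v)
    positivity
  · have hyp : 0 < Real.sqrt (nsq y) :=
      Real.sqrt_pos.2 (lt_of_le_of_ne (nsq_nonneg y) (Ne.symm hy0))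
    have h6 : nsq y = Real.sqrt (nsq y) * Real.sqrt (nsq y) :=
      (Real.mul_self_sqrt (nsq_nonneg y)).symm
    have h7 : Real.sqrt (nsq y) * (Real.sqrt (nsq y) * ‖e‖) ≤
        Real.sqrt (nsq y) * (M * Real.sqrt (nsq v)) := by
      calc _ = nsq y * ‖e‖ := by rw [← mul_assoc, ← h6]
        _ ≤ _ := h
        _ = _ := by ring
    have h8 := le_of_mul_le_mul_left h7 hyp
    rw [div_mul_eq_mul_div, le_div_iff₀ hpe]
    exact h8

lemma unique_of_finrank_le_one (h1 : finrank ℂ E ≤ 1) {N N' : MatNorms E} (hN : IsOS N)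
    (hN' : IsOS N') : N = N' := by
  obtain ⟨e, he⟩ := finrank_le_one_iff.1 h1
  funext k x
  choose c hc using he
  have hx : x = Matrix.of fun i j => (x.map c) i j • e := by
    ext i j
    simp [hc]
  rw [hx]
  have a1 := hN.tensor k (x.map c) e
  have a2 := hN.lower_tensor k (x.map c) e
  have b1 := hN'.tensor k (x.map c) e
  have b2 := hN'.lower_tensor k (x.map c) e
  linarith

end Pool.Agent.W_MP_7b81ff_an
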