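import Pool.Agent.W_MP_7b81ff_an.Pert
import Pool.Agent.W_MP_7b81ff_an.Main

set_option autoImplicit false
set_option linter.unusedSimpArgs false
set_option linter.unusedSectionVars false

open Matrix Finset Module
open scoped NNReal ComplexOrder

namespace Pool.Agent.W_MP_7b81ff_an

section lower
variable {E : Type*} [NormedAddCommGroup E] [NormedSpace ℂ E]

/-- contractive functionals are completely contractive for every structure -/
lemma IsOS.lower_functional {N : MatNorms E} (hN : IsOS N) (φ : E →ₗ[ℂ] ℂ)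
    (hφ : ∀ e, ‖φ e‖ ≤ ‖e‖) (k : ℕ) (x : Matrix (Fin k) (Fin k) E) :
    opn (x.map fun e => φ e) ≤ N k x := by
  apply opn_le' (hN.nonneg _ _)
  intro v
  set y : Fin k → ℂ := (x.map fun e => φ e).mulVec v with hy
  set A : Matrix (Fin 1) (Fin k) ℂ := Matrix.of fun _ p => (starRingEnd ℂ) (y p) with hA
  set B : Matrix (Fin k) (Fin 1) ℂ := Matrix.of fun q _ => v q with hB
  have h := hN.2.2.2.2 1 k A B x (Real.sqrt (nsq y))
    (Real.sqrt (nsq v)) (Real.sqrt_nonneg _) (Real.sqrt_nonneg _) (by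
      intro z
      rw [Real.sq_sqrt (nsq_nonneg y)]
      simp only [Finset.univ_unique, Finset.sum_singleton, hA, Matrix.of_apply]
      have h1 : ‖∑ p, (starRingEnd ℂ) (y p) * z p‖ ≤ ∑ p, ‖y p‖ * ‖z p‖ := by
        refine (norm_sum_le _ _).trans ?_
        simp
      calc ‖∑ p, (starRingEnd ℂ) (y p) * z p‖ ^ 2 ≤ (∑ p, ‖y p‖ * ‖z p‖) ^ 2 := by gcongr
        _ ≤ (∑ p, ‖y p‖ ^ 2) * (∑ p, ‖z p‖ ^ 2) := Finset.sum_mul_sq_le_sq_mul_sq _ _ _)
    (by
      intro z
      rw [Real.sq_sqrt (nsq_nonneg v)]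
      simp only [Finset.univ_unique, Finset.sum_singleton, hB, Matrix.of_apply, norm_mul, mul_pow]
      rw [← Finset.sum_mul]
      exact le_rfl)
  set e0 : E := ∑ p, ∑ q, ((starRingEnd ℂ) (y p) * v q) • x p q with he0
  have h2 : (Matrix.of fun i j => ∑ p, ∑ q, (A i p * B q j) • x p q) =
      Matrix.of fun (_ _ : Fin 1) => e0 := rfl
  have h3 : φ e0 = ((nsq y : ℝ) : ℂ) := by
    rw [he0, map_sum]
    have h4 : ∀ p, φ (∑ q, ((starRingEnd ℂ) (y p) * v q) • x p q) = ((‖y p‖ ^ 2 : ℝ) : ℂ) := by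
      intro p
      rw [map_sum]
      have h5 : y p = ∑ q, φ (x p q) * v q := rfl
      have h6 : ∑ q, φ (((starRingEnd ℂ) (y p) * v q) • x p q) = (starRingEnd ℂ) (y p) * y p := by
        calc ∑ q, φ (((starRingEnd ℂ) (y p) * v q) • x p q)
            = (starRingEnd ℂ) (y p) * ∑ q, φ (x p q) * v q := by
              rw [Finset.mul_sum]
              refine Finset.sum_congr rfl fun q _ => ?_
              rw [map_smul, smul_eq_mul]
              ring
          _ = (starRingEnd ℂ) (y p) * y p := congrArg _ h5.symm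
      rw [h6, mul_comm, Complex.mul_conj, Complex.normSq_eq_norm_sq]
    simp only [h4]
    unfold nsq
    push_cast
    rfl
  rw [h2, hN.1] at h
  have h7 : nsq y ≤ ‖e0‖ := by
    have := hφ e0
    rw [h3, Complex.norm_real, Real.norm_eq_abs, abs_of_nonneg (nsq_nonneg y)] at this
    exact this
  set M := N k x with hM
  have hM0 : 0 ≤ M := hN.nonneg _ _
  by_cases hy0 : nsq y = 0
  · rw [hy0, Real.sqrt_zero]
    have := Real.sqrt_nonneg (nsq v)
    positivity
  · have hyp : 0 < Real.sqrt (nsq y) :=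
      Real.sqrt_pos.2 (lt_of_le_of_ne (nsq_nonneg y) (Ne.symm hy0))
    have h6 : nsq y = Real.sqrt (nsq y) * Real.sqrt (nsq y) :=
      (Real.mul_self_sqrt (nsq_nonneg y)).symm
    have h8 : Real.sqrt (nsq y) * Real.sqrt (nsq y) ≤
        Real.sqrt (nsq y) * (M * Real.sqrt (nsq v)) := by
      calc _ = nsq y := h6.symm
        _ ≤ ‖e0‖ := h7
        _ ≤ _ := h
        _ = _ := by ring
    exact le_of_mul_le_mul_left h8 hyp

lemma IsOS.lower_functional' {N : MatNorms E} (hN : IsOS N) (φ : E →L[ℂ] ℂ) (k : ℕ)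
    (x : Matrix (Fin k) (Fin k) E) : opn (x.map fun e => φ e) ≤ (‖φ‖ + 1) * N k x := by
  have hc : 0 < ‖φ‖ + 1 := by positivity
  set c : ℂ := ((‖φ‖ + 1 : ℝ) : ℂ) with hcdef
  have hc0 : c ≠ 0 := by rw [hcdef]; exact_mod_cast hc.ne'
  have hcn : ‖c‖ = ‖φ‖ + 1 := by rw [hcdef, Complex.norm_real, Real.norm_eq_abs, abs_of_pos hc]
  let ψ : E →L[ℂ] ℂ := c⁻¹ • φ
  have hψ : ∀ e, ‖ψ e‖ ≤ ‖e‖ := by
    intro e
    have h1 := φ.le_opNorm e
    change ‖c⁻¹ • φ e‖ ≤ ‖e‖
    rw [norm_smul, norm_inv, hcn, inv_mul_le_iff₀ hc]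
    refine h1.trans ?_
    have := norm_nonneg e
    gcongr
    linarith
  have h3 : opn (x.map fun e => ψ e) ≤ N k x := hN.lower_functional ψ.toLinearMap hψ k x
  have h5 : (x.map fun e => φ e) = c • (x.map fun e => ψ e) := by
    ext i j
    change φ (x i j) = c • (c⁻¹ • φ (x i j))
    rw [smul_smul, mul_inv_cancel₀ hc0, one_smul]
  rw [h5, opn_smul, hcn]
  gcongr

variable [FiniteDimensional ℂ E]

/-- a uniform bound for cb norms of maps defined on a finite dimensional space -/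
lemma exists_cb_bound' : ∃ C : ℝ, 0 ≤ C ∧ ∀ (N D : MatNorms E), IsOS N → IsOS D →
      ∀ (z : E →L[ℂ] E) (k : ℕ) (x : Matrix (Fin k) (Fin k) E),
        D k (x.map fun e => z e) ≤ C * ‖z‖ * N k x := by
  let B := finBasis ℂ E
  let φ : Fin (finrank ℂ E) → (E →L[ℂ] ℂ) := fun j => LinearMap.toContinuousLinearMap (B.coord j)
  refine ⟨∑ j, (‖φ j‖ + 1) * ‖B j‖, Finset.sum_nonneg fun j _ => by positivity, ?_⟩
  intro N D hN hD z k x
  have h1 : (x.map fun e => z e) = ∑ j, Matrix.of fun p q => ((x.map fun e => φ j e) p q) • z (B j) := by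
    ext p q
    rw [Matrix.sum_apply]
    simp only [Matrix.of_apply, Matrix.map_apply]
    have h2 : x p q = ∑ j, φ j (x p q) • B j := by
      have := B.sum_repr (x p q)
      exact this.symm
    conv_lhs => rw [h2, map_sum]
    exact Finset.sum_congr rfl fun j _ => by rw [map_smul]
  rw [h1]
  refine (hD.sum_le _ _ _).trans ?_
  rw [Finset.sum_mul, Finset.sum_mul]
  refine Finset.sum_le_sum fun j _ => ?_
  refine (hD.tensor k _ _).trans ?_
  have h3 := hN.lower_functional' (φ j) k x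
  have h4 := z.le_opNorm (B j)
  have h5 := hN.nonneg k x
  calc opn (x.map fun e => φ j e) * ‖z (B j)‖ ≤ ((‖φ j‖ + 1) * N k x) * (‖z‖ * ‖B j‖) := by
        gcongr
    _ = _ := by ring

/-- General finiteness principle. -/
theorem finite_close_gen (NN : Set ℕ → MatNorms E) (hNN : ∀ I, IsOS (NN I)) {c : ℝ} (hc : 1 < c)
    (hE : ∃ e : E, e ≠ 0)
    (hsep : ∀ (I J : Set ℕ) (m : ℕ), m ∈ I → m ∉ J → ∃ (k : ℕ) (x : Matrix (Fin k) (Fin k) E),
      NN J k x ≤ 1 ∧ c < NN I k x) :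
    ∃ δ : ℝ, 0 < δ ∧ ∀ D : MatNorms E, IsOS D → {I : Set ℕ | Dlt (NN I) D (1 + δ)}.Finite := by
  obtain ⟨C, hC0, hC⟩ := exists_cb_bound' (E := E)
  set δ : ℝ := (c - 1) / 4 with hδ
  have hδ0 : 0 < δ := by
    rw [hδ]; linarith
  refine ⟨δ, hδ0, fun D hD => ?_⟩
  by_contra hinf
  have hinf' : {I : Set ℕ | Dlt (NN I) D (1 + δ)}.Infinite := hinf
  have hch : ∀ I : Set ℕ, ∃ w : E →L[ℂ] E, Dlt (NN I) D (1 + δ) → ((∀ e, ‖w e‖ ≤ (1 + δ) * ‖e‖) ∧
      (∀ (k : ℕ) (x : Matrix (Fin k) (Fin k) E), D k (x.map fun e => w e) ≤ (1 + δ) * NN I k x ∧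
        NN I k x ≤ D k (x.map fun e => w e))) := by
    intro I
    by_cases h : Dlt (NN I) D (1 + δ)
    · obtain ⟨w, h1, h2⟩ := Dlt_normalize (hNN I) hD hE h
      exact ⟨w, fun _ => ⟨h1, h2⟩⟩
    · exact ⟨0, fun h' => absurd h' h⟩
  choose w hw using hch
  have : ProperSpace (E →L[ℂ] E) := FiniteDimensional.proper ℂ _
  set η : ℝ := δ / (C + 1) with hη
  have hη0 : 0 < η := by positivity
  have hCη : C * η ≤ δ := by
    rw [hη, mul_div_assoc', div_le_iff₀ (by positivity)]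
    nlinarith
  obtain ⟨I, hI, J, hJ, hIJ, hclose⟩ := exists_close hinf' w (r := 1 + δ) (η := η)
    (fun I hI => ContinuousLinearMap.opNorm_le_bound _ (by positivity) (hw I hI).1) hη0
  -- comparison
  have key : ∀ I J : Set ℕ, Dlt (NN I) D (1 + δ) → Dlt (NN J) D (1 + δ) → ‖w I - w J‖ < η →
      ∀ m ∈ I, m ∈ J := by
    intro I J hI hJ hcl m hmI
    by_contra hmJ
    obtain ⟨k, x, h2, h1⟩ := hsep I J m hmI hmJ
    have h4 := ((hw I hI).2 _ x).2
    have h5 := ((hw J hJ).2 _ x).1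
    have h6 : (x.map fun e => w I e) = (x.map fun e => w J e) + (x.map fun e => (w I - w J) e) := by
      ext i j
      simp
    have h7 := hD.2.1 _ (x.map fun e => w J e) (x.map fun e => (w I - w J) e)
    rw [← h6] at h7
    have h8 := hC (NN J) D (hNN J) hD (w I - w J) _ x
    have h9 : C * ‖w I - w J‖ ≤ δ := by
      refine le_trans ?_ hCη
      gcongr
    have h10 := (hNN J).nonneg _ x
    have h11 : C * ‖w I - w J‖ * NN J _ x ≤ δ * NN J _ x := by gcongr
    have h12 : (1 + 2 * δ) * NN J _ x ≤ (1 + 2 * δ) * 1 := by gcongr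
    nlinarith
  apply hIJ
  ext m
  constructor
  · exact key I J hI hJ hclose m
  · exact key J I hJ hI (by rw [norm_sub_rev]; exact hclose) m

end lower

section pad
variable {E : Type*} [NormedAddCommGroup E] [NormedSpace ℂ E] {ι : Type} [Fintype ι]
  [DecidableEq ι] (B : Basis ι ℂ E) {P Q r s : Type*} [Fintype P] [Fintype Q] [Fintype r] [Fintype s]

lemma opn_corner (A : Matrix P Q ℂ) :
    opn (Matrix.fromBlocks (0 : Matrix P P ℂ) A (0 : Matrix Q P ℂ) (0 : Matrix Q Q ℂ)) = opn A := by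
  have h1 : Matrix.fromBlocks (0 : Matrix P P ℂ) A (0 : Matrix Q P ℂ) (0 : Matrix Q Q ℂ) =
      (Matrix.fromBlocks A (0 : Matrix P P ℂ) (0 : Matrix Q Q ℂ) (0 : Matrix Q P ℂ)).submatrix
        (Equiv.refl (P ⊕ Q)) (Equiv.sumComm P Q) := by
    ext (i | i) (j | j) <;> rfl
  rw [h1, opn_submatrix_equiv, opn_fromBlocks, opn_zero]
  exact max_eq_left (opn_nonneg A)

/-- corner embedding of a tuple -/
def cor (x : ι → Matrix P Q ℂ) : ι → Matrix (P ⊕ Q) (P ⊕ Q) ℂ :=
  fun l => Matrix.fromBlocks 0 (x l) 0 0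

lemma opn_ks_cor (x : ι → Matrix P Q ℂ) (u : ι → Matrix r s ℂ) :
    opn (ks (cor x) u) = opn (ks x u) := by
  have h1 : ks (cor x) u = (Matrix.fromBlocks (0 : Matrix (P × r) (P × s) ℂ) (ks x u)
      (0 : Matrix (Q × r) (P × s) ℂ) (0 : Matrix (Q × r) (Q × s) ℂ)).submatrix
        (Equiv.sumProdDistrib P Q r) (Equiv.sumProdDistrib P Q s) := by
    ext ⟨i, a⟩ ⟨j, c⟩
    rcases i with i | i <;> rcases j with j | j <;>
      simp [ks, cor, Matrix.submatrix_apply, Equiv.sumProdDistrib_apply_left,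
        Equiv.sumProdDistrib_apply_right]
  have h2 : Matrix.fromBlocks (0 : Matrix (P × r) (P × s) ℂ) (ks x u)
      (0 : Matrix (Q × r) (P × s) ℂ) (0 : Matrix (Q × r) (Q × s) ℂ) =
      (Matrix.fromBlocks (ks x u) (0 : Matrix (P × r) (P × s) ℂ)
        (0 : Matrix (Q × r) (Q × s) ℂ) (0 : Matrix (Q × r) (P × s) ℂ)).submatrix
        (Equiv.refl (P × r ⊕ Q × r)) (Equiv.sumComm (P × s) (Q × s)) := by
    ext (i | i) (j | j) <;> rfl
  rw [h1, opn_submatrix_equiv, h2, opn_submatrix_equiv, opn_fromBlocks, opn_zero]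
  exact max_eq_left (opn_nonneg _)

lemma opn_ks_submatrix {P' Q' : Type*} [Fintype P'] [Fintype Q'] (e : P' ≃ P) (e' : Q' ≃ Q)
    (x : ι → Matrix P Q ℂ) (u : ι → Matrix r s ℂ) :
    opn (ks (fun l => (x l).submatrix e e') u) = opn (ks x u) := by
  have h1 : ks (fun l => (x l).submatrix e e') u = (ks x u).submatrix
      (Equiv.prodCongr e (Equiv.refl r)) (Equiv.prodCongr e' (Equiv.refl s)) := by
    ext ⟨i, a⟩ ⟨j, c⟩
    rfl
  rw [h1, opn_submatrix_equiv]

/-- square version of a test tuple -/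
noncomputable def padz (x : ι → Matrix P Q ℂ) :
    ι → Matrix (Fin (Fintype.card (P ⊕ Q))) (Fin (Fintype.card (P ⊕ Q))) ℂ :=
  fun l => (cor x l).submatrix (Fintype.equivFin (P ⊕ Q)).symm (Fintype.equivFin (P ⊕ Q)).symm

lemma opn_ks_padz (x : ι → Matrix P Q ℂ) (u : ι → Matrix r s ℂ) :
    opn (ks (padz x) u) = opn (ks x u) := by
  unfold padz
  rw [opn_ks_submatrix, opn_ks_cor]

/-- the map attached to a tuple -/
noncomputable def tupM (v : ι → Matrix r s ℂ) : E →ₗ[ℂ] Matrix (r ⊕ s) (r ⊕ s) ℂ where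
  toFun e := Matrix.fromBlocks 0 (∑ l, B.repr e l • v l) 0 0
  map_add' a c := by
    rw [Matrix.fromBlocks_add]
    simp [add_smul, Finset.sum_add_distrib]
  map_smul' t a := by
    rw [RingHom.id_apply, Matrix.fromBlocks_smul]
    simp [Finset.smul_sum, mul_smul]

lemma opn_tupM (v : ι → Matrix r s ℂ) (e : E) :
    opn (tupM B v e) = opn (∑ l, B.repr e l • v l) := opn_corner _

lemma blk_tupM {K L : Type*} [Fintype K] [Fintype L] (v : ι → Matrix r s ℂ) (x : Matrix K L E) :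
    opn (blk (tupM B v) x) = opn (ks (co B x) v) := by
  have h1 : blk (tupM B v) x = ks (co B x) (cor v) := by
    ext ⟨i, a⟩ ⟨j, c⟩
    change (Matrix.fromBlocks 0 (∑ l, B.repr (x i j) l • v l) 0 0) a c =
      ∑ l, B.repr (x i j) l * (Matrix.fromBlocks (0 : Matrix r r ℂ) (v l) (0 : Matrix s r ℂ) (0 : Matrix s s ℂ)) a c
    rcases a with a | a <;> rcases c with c | c <;> simp [Matrix.sum_apply]
  rw [h1, opn_ks_flip, opn_ks_cor, opn_ks_flip]

/-- pairing with a functional -/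
lemma opn_ks_unit (x : ι → Matrix P Q ℂ) (φ : ι → ℂ) :
    opn (ks x (fun l => (Matrix.of fun _ _ => φ l : Matrix (Fin 1) (Fin 1) ℂ))) =
      opn (∑ l, φ l • x l) := by
  have h1 : ks x (fun l => (Matrix.of fun _ _ => φ l : Matrix (Fin 1) (Fin 1) ℂ)) =
      (∑ l, φ l • x l).submatrix (Equiv.prodUnique P (Fin 1)) (Equiv.prodUnique Q (Fin 1)) := by
    ext ⟨i, a⟩ ⟨j, c⟩
    simp only [ks, Matrix.of_apply, Matrix.submatrix_apply, Equiv.prodUnique_apply,
      Matrix.sum_apply, Matrix.smul_apply, smul_eq_mul]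
    exact Finset.sum_congr rfl fun l _ => mul_comm _ _
  rw [h1, opn_submatrix_equiv]

lemma blk_funM {K L : Type*} [Fintype K] [Fintype L] (φ : E →L[ℂ] ℂ) (x : Matrix K L E) :
    opn (blk (funM φ) x) = opn (∑ l, φ (B l) • co B x l) := by
  have h1 : blk (funM φ) x = (∑ l, φ (B l) • co B x l).submatrix (Equiv.prodUnique K Unit)
      (Equiv.prodUnique L Unit) := by
    ext ⟨i, a⟩ ⟨j, c⟩
    change φ (x i j) = (∑ l, φ (B l) • co B x l) i j
    conv_lhs => rw [← B.sum_repr (x i j)]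
    rw [map_sum, Matrix.sum_apply]
    refine Finset.sum_congr rfl fun l _ => ?_
    rw [map_smul, smul_eq_mul, Matrix.smul_apply, smul_eq_mul, mul_comm]
    rfl
  rw [h1, opn_submatrix_equiv]

end pad

end Pool.Agent.W_MP_7b81ff_an
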