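import Pool.Agent.W_MP_7b81ff_an.Ruan

set_option autoImplicit false
set_option linter.unusedSimpArgs false
set_option linter.unusedSectionVars false

open Matrix Finset Module
open scoped NNReal ComplexOrder

namespace Pool.Agent.W_MP_7b81ff_an

section norming
variable {κ κ' : Type*} [Fintype κ] [Fintype κ']

lemma continuous_nsq : Continuous (nsq : (κ → ℂ) → ℝ) := by
  unfold nsq
  exact continuous_finsetSum _ fun i _ => (continuous_apply i).norm.pow 2

lemma isCompact_ball_nsq : IsCompact {ζ : κ → ℂ | nsq ζ ≤ 1} := by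
  apply Metric.isCompact_of_isClosed_isBounded
  · exact isClosed_le continuous_nsq continuous_const
  · rw [isBounded_iff_forall_norm_le]
    refine ⟨1, fun ζ hζ => ?_⟩
    rw [pi_norm_le_iff_of_nonneg zero_le_one]
    intro i
    have h1 : ‖ζ i‖ ^ 2 ≤ 1 :=
      (Finset.single_le_sum (f := fun i => ‖ζ i‖ ^ 2) (fun _ _ => by positivity)
        (Finset.mem_univ i)).trans hζ
    nlinarith [norm_nonneg (ζ i)]

lemma continuous_mulVec (M : Matrix κ κ' ℂ) : Continuous fun ζ : κ' → ℂ => M.mulVec ζ := by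
  refine continuous_pi fun i => ?_
  unfold Matrix.mulVec dotProduct
  exact continuous_finsetSum _ fun j _ => continuous_const.mul (continuous_apply j)

/-- maximum of `nsq (M ζ)` over a closed set of vectors stable under scaling -/
lemma exists_max (M : Matrix κ κ' ℂ) (K : Set (κ' → ℂ)) (hK : IsClosed K) (h0 : (0 : κ' → ℂ) ∈ K)
    (hs : ∀ (c : ℂ) (ζ : κ' → ℂ), ζ ∈ K → c • ζ ∈ K) :
    ∃ ζ ∈ K, nsq ζ ≤ 1 ∧ ∀ η ∈ K, nsq (M.mulVec η) ≤ nsq (M.mulVec ζ) * nsq η := by
  have hc : IsCompact ({ζ : κ' → ℂ | nsq ζ ≤ 1} ∩ K) := isCompact_ball_nsq.inter_right hK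
  obtain ⟨ζ, hζ, hmax⟩ := hc.exists_isMaxOn ⟨0, by simp [nsq], h0⟩
    ((continuous_nsq.comp (continuous_mulVec M)).continuousOn)
  refine ⟨ζ, hζ.2, hζ.1, fun η hη => ?_⟩
  by_cases h : nsq η = 0
  · rw [nsq_eq_zero h]; simp [nsq]
  · have hpos : 0 < nsq η := lt_of_le_of_ne (nsq_nonneg η) (Ne.symm h)
    set c : ℂ := (((Real.sqrt (nsq η))⁻¹ : ℝ) : ℂ) with hc
    have hcn : ‖c‖ ^ 2 = (nsq η)⁻¹ := by
      rw [hc, Complex.norm_real, Real.norm_eq_abs, sq_abs, inv_pow, Real.sq_sqrt hpos.le]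
    have h1 : c • η ∈ ({ζ : κ' → ℂ | nsq ζ ≤ 1} ∩ K) := by
      refine ⟨?_, hs c η hη⟩
      change nsq (c • η) ≤ 1
      rw [nsq_smul, hcn, inv_mul_cancel₀ h]
    have h2 : nsq (M.mulVec (c • η)) ≤ nsq (M.mulVec ζ) := hmax h1
    rw [Matrix.mulVec_smul, nsq_smul, hcn, inv_mul_le_iff₀ hpos] at h2
    linarith [mul_comm (nsq η) (nsq (M.mulVec ζ))]

lemma pr_add_right (ω ζ η : κ → ℂ) : pr ω (ζ + η) = pr ω ζ + pr ω η := by
  unfold pr
  rw [← Finset.sum_add_distrib]
  exact Finset.sum_congr rfl fun a _ => by simp [mul_add]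

lemma pr_sub_left (ω ζ η : κ → ℂ) : pr (ω - ζ) η = pr ω η - pr ζ η := by
  unfold pr
  rw [← Finset.sum_sub_distrib]
  exact Finset.sum_congr rfl fun a _ => by simp [sub_mul]

lemma pr_smul_right (c : ℂ) (ω ζ : κ → ℂ) : pr ω (c • ζ) = c * pr ω ζ := by
  unfold pr
  rw [Finset.mul_sum]
  exact Finset.sum_congr rfl fun a _ => by simp; ring

lemma pr_smul_left (c : ℂ) (ω ζ : κ → ℂ) : pr (c • ω) ζ = (starRingEnd ℂ) c * pr ω ζ := by
  unfold pr
  rw [Finset.mul_sum]
  exact Finset.sum_congr rfl fun a _ => by simp; ring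

lemma nsq_add (ζ η : κ → ℂ) : nsq (ζ + η) = nsq ζ + 2 * (pr ζ η).re + nsq η := by
  unfold nsq pr
  rw [Complex.re_sum, Finset.mul_sum, ← Finset.sum_add_distrib, ← Finset.sum_add_distrib]
  refine Finset.sum_congr rfl fun a _ => ?_
  simp only [Pi.add_apply, Complex.sq_norm, Complex.normSq_apply, Complex.add_re, Complex.add_im,
    Complex.mul_re, Complex.conj_re, Complex.conj_im]
  ring

/-- extremal vectors satisfy the eigenvalue equation -/
lemma eigen_of_extremal (M : Matrix κ κ' ℂ) {c : ℝ} (hc : 0 ≤ c)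
    (hM : ∀ η, nsq (M.mulVec η) ≤ c * nsq η) {ζ : κ' → ℂ} (hζ : nsq (M.mulVec ζ) = c * nsq ζ) :
    Mᴴ.mulVec (M.mulVec ζ) = (c : ℂ) • ζ := by
  set D : κ' → ℂ := Mᴴ.mulVec (M.mulVec ζ) - (c : ℂ) • ζ with hD
  have key : ∀ η, 2 * (pr D η).re ≤ c * nsq η := by
    intro η
    have h1 := hM (ζ + η)
    rw [Matrix.mulVec_add, nsq_add, nsq_add, hζ] at h1
    have h2 : pr (M.mulVec ζ) (M.mulVec η) = pr (Mᴴ.mulVec (M.mulVec ζ)) η := pr_mulVec M _ _
    have h3 : (pr D η).re = (pr (M.mulVec ζ) (M.mulVec η)).re - c * (pr ζ η).re := by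
      rw [hD, pr_sub_left, h2, pr_smul_left, Complex.conj_ofReal, Complex.sub_re,
        Complex.re_ofReal_mul]
    have h4 := nsq_nonneg (M.mulVec η)
    rw [h3]
    nlinarith
  have h5 : nsq D = 0 := by
    by_contra hne
    have hpos : 0 < nsq D := lt_of_le_of_ne (nsq_nonneg D) (Ne.symm hne)
    have h6 := key (((1 / (c + 1) : ℝ) : ℂ) • D)
    rw [pr_smul_right, pr_self, ← Complex.ofReal_mul, Complex.ofReal_re, nsq_smul,
      Complex.norm_real, Real.norm_eq_abs, sq_abs] at h6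
    have h7 : 0 < c + 1 := by linarith
    have h8 : c * ((1 / (c + 1)) ^ 2 * nsq D) ≤ (1 / (c + 1)) * nsq D := by
      have h9 : c * (1 / (c + 1)) ≤ 1 := by
        rw [mul_one_div, div_le_one h7]; linarith
      have h10 : c * ((1 / (c + 1)) ^ 2 * nsq D) = (c * (1 / (c + 1))) * ((1 / (c + 1)) * nsq D) := by
        ring
      rw [h10]
      have : 0 ≤ (1 / (c + 1)) * nsq D := by positivity
      nlinarith
    have h11 : 0 < (1 / (c + 1)) * nsq D := by positivity
    nlinarith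
  have h6 := nsq_eq_zero h5
  rw [hD] at h6
  exact sub_eq_zero.1 h6

lemma extremal_of_eigen (M : Matrix κ κ' ℂ) {c : ℝ} {ζ : κ' → ℂ}
    (h : Mᴴ.mulVec (M.mulVec ζ) = (c : ℂ) • ζ) : nsq (M.mulVec ζ) = c * nsq ζ := by
  have h1 : pr (M.mulVec ζ) (M.mulVec ζ) = pr (Mᴴ.mulVec (M.mulVec ζ)) ζ := pr_mulVec M _ _
  rw [h, pr_self, pr_smul_left, Complex.conj_ofReal, pr_self, ← Complex.ofReal_mul] at h1
  exact_mod_cast h1

/-- the norm is attained -/
lemma exists_norming (M : Matrix κ κ' ℂ) (hM : 0 < opn M) :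
    ∃ ζ, nsq ζ = 1 ∧ Mᴴ.mulVec (M.mulVec ζ) = ((opn M ^ 2 : ℝ) : ℂ) • ζ := by
  obtain ⟨ζ, -, hζ1, hmax⟩ := exists_max M Set.univ isClosed_univ (Set.mem_univ _)
    (fun _ _ _ => Set.mem_univ _)
  have h1 : opn M ≤ Real.sqrt (nsq (M.mulVec ζ)) := by
    apply opn_le (Real.sqrt_nonneg _)
    intro v
    rw [Real.sq_sqrt (nsq_nonneg _)]
    exact hmax v (Set.mem_univ _)
  have h2 : opn M ^ 2 ≤ nsq (M.mulVec ζ) := by
    have := Real.sq_sqrt (nsq_nonneg (M.mulVec ζ))
    rw [← this]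
    gcongr
  have h3 := nsq_mulVec_le M ζ
  have h4 : 0 < opn M ^ 2 := by positivity
  have h5 : nsq ζ = 1 := by
    apply le_antisymm hζ1
    nlinarith
  refine ⟨ζ, h5, eigen_of_extremal M h4.le (nsq_mulVec_le M) ?_⟩
  rw [h5]
  rw [h5] at h3
  linarith

end norming

/-- isometry onto the span of a family of vectors -/
lemma exists_iso {s : ℕ} {κ : Type*} (w : κ → (Fin s → ℂ)) :
    ∃ (s' : ℕ) (I : Matrix (Fin s) (Fin s') ℂ), s' ≤ s ∧ Iᴴ * I = 1 ∧
      (∀ j, I.mulVec (Iᴴ.mulVec (w j)) = w j) ∧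
      (s' = s → ∀ c : Fin s → ℂ, (∀ j, ∑ β, c β * w j β = 0) → c = 0) := by
  classical
  let S : Submodule ℂ (EuclideanSpace ℂ (Fin s)) :=
    Submodule.span ℂ (Set.range fun j => (WithLp.toLp 2 (w j) : EuclideanSpace ℂ (Fin s)))
  let b := stdOrthonormalBasis ℂ S
  let I : Matrix (Fin s) (Fin (finrank ℂ S)) ℂ := Matrix.of fun β k => ((b k : S) : EuclideanSpace ℂ (Fin s)) β
  have hdim : finrank ℂ (EuclideanSpace ℂ (Fin s)) = s := by simp
  refine ⟨finrank ℂ S, I, ?_, ?_, ?_, ?_⟩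
  · have := Submodule.finrank_le S
    rwa [hdim] at this
  · ext k k'
    have h := (orthonormal_iff_ite.1 b.orthonormal) k k'
    rw [Matrix.mul_apply, Matrix.one_apply]
    have h2 : inner ℂ (b k) (b k') = ∑ β, (Iᴴ k β) * I β k' := by
      rw [Submodule.coe_inner, PiLp.inner_apply]
      refine Finset.sum_congr rfl fun β _ => ?_
      simp [I, mul_comm]
    rw [← h2, h]
  · intro j
    have hmem : (WithLp.toLp 2 (w j) : EuclideanSpace ℂ (Fin s)) ∈ S :=
      Submodule.subset_span ⟨j, rfl⟩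
    have h1 := b.sum_repr' ⟨_, hmem⟩
    have h2 := congrArg (fun z : S => ((z : EuclideanSpace ℂ (Fin s)) : Fin s → ℂ)) h1
    simp only at h2
    ext β
    have h3 : ((∑ k, inner ℂ (b k) (⟨_, hmem⟩ : S) • b k : S) : EuclideanSpace ℂ (Fin s)).ofLp β
        = w j β := congrFun h2 β
    rw [← h3]
    rw [Submodule.coe_sum, WithLp.ofLp_sum, Finset.sum_apply]
    unfold Matrix.mulVec dotProduct
    refine Finset.sum_congr rfl fun k _ => ?_
    rw [Submodule.coe_smul, WithLp.ofLp_smul, Pi.smul_apply, smul_eq_mul, mul_comm]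
    congr 1
    rw [Submodule.coe_inner, PiLp.inner_apply]
    refine Finset.sum_congr rfl fun β _ => ?_
    simp [I, mul_comm]
  · intro hs c hc
    have htop : S = ⊤ := by
      apply Submodule.eq_top_of_finrank_eq
      rw [hdim, hs]
    have hall : ∀ z ∈ S, ∑ β, c β * (z : EuclideanSpace ℂ (Fin s)).ofLp β = 0 := by
      intro z hz
      refine Submodule.span_induction ?_ ?_ ?_ ?_ hz
      · rintro _ ⟨j, rfl⟩
        exact hc j
      · simp
      · intro y z _ _ hy hz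
        simp only [WithLp.ofLp_add, Pi.add_apply, mul_add, Finset.sum_add_distrib, hy, hz, add_zero]
      · intro r y _ hy
        simp only [WithLp.ofLp_smul, Pi.smul_apply, smul_eq_mul]
        have : ∀ β, c β * (r * y.ofLp β) = r * (c β * y.ofLp β) := fun β => by ring
        rw [Finset.sum_congr rfl fun β _ => this β, ← Finset.mul_sum, hy, mul_zero]
    have h1 := hall (WithLp.toLp 2 fun β => (starRingEnd ℂ) (c β)) (by rw [htop]; trivial)
    have h2 : nsq c = 0 := by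
      have : ((nsq c : ℝ) : ℂ) = ∑ β, c β * (starRingEnd ℂ) (c β) := by
        unfold nsq
        push_cast
        refine Finset.sum_congr rfl fun β _ => ?_
        rw [Complex.mul_conj, Complex.normSq_eq_norm_sq]
        push_cast; rfl
      rw [h1] at this
      exact_mod_cast this
    exact nsq_eq_zero h2

end Pool.Agent.W_MP_7b81ff_an
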