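import Pool.Agent.W_MP_7b81ff_an.Base

set_option autoImplicit false
set_option linter.unusedSimpArgs false
set_option linter.unusedSectionVars false

open Matrix Finset Module
open scoped NNReal ComplexOrder

namespace Pool.Agent.W_MP_7b81ff_an

section flips
variable {P Q p q ι : Type*} [Fintype P] [Fintype Q] [Fintype p] [Fintype q] [Fintype ι]

lemma ks_flip (x : ι → Matrix P Q ℂ) (u : ι → Matrix p q ℂ) :
    ks u x = (ks x u).submatrix (Equiv.prodComm p P) (Equiv.prodComm q Q) := by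
  ext ⟨a, i⟩ ⟨b, j⟩
  simp only [ks, Matrix.of_apply, Matrix.submatrix_apply, Equiv.prodComm_apply, Prod.swap_prod_mk]
  exact Finset.sum_congr rfl fun l _ => mul_comm _ _

lemma opn_ks_flip (x : ι → Matrix P Q ℂ) (u : ι → Matrix p q ℂ) : opn (ks u x) = opn (ks x u) := by
  rw [ks_flip]
  exact opn_submatrix_equiv _ _ _

lemma ks_conjTranspose (x : ι → Matrix P Q ℂ) (u : ι → Matrix p q ℂ) :
    (ks x u)ᴴ = ks (fun l => (x l)ᴴ) (fun l => (u l)ᴴ) := by
  ext ⟨i, a⟩ ⟨j, b⟩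
  simp [ks, Matrix.conjTranspose_apply]

lemma ks_mul_right {q' : Type*} [Fintype q'] (x : ι → Matrix P Q ℂ) (u : ι → Matrix p q ℂ)
    (I : Matrix q q' ℂ) (ζ : Q × q' → ℂ) :
    (ks x fun l => u l * I).mulVec ζ =
      (ks x u).mulVec (fun t => I.mulVec (fun β' => ζ (t.1, β')) t.2) := by
  ext ⟨i, a⟩
  simp only [Matrix.mulVec, dotProduct, ks, Matrix.of_apply, Matrix.mul_apply,
    Fintype.sum_prod_type, Finset.sum_mul, Finset.mul_sum]
  refine Finset.sum_congr rfl fun j _ => ?_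
  calc ∑ b', ∑ l, ∑ b, x l i j * (u l a b * I b b') * ζ (j, b')
      = ∑ b', ∑ b, ∑ l, x l i j * (u l a b * I b b') * ζ (j, b') :=
        Finset.sum_congr rfl fun _ _ => Finset.sum_comm
    _ = ∑ b, ∑ b', ∑ l, x l i j * (u l a b * I b b') * ζ (j, b') := Finset.sum_comm
    _ = _ := by
        refine Finset.sum_congr rfl fun b _ => Finset.sum_congr rfl fun b' _ =>
          Finset.sum_congr rfl fun l _ => ?_
        ring

lemma nsq_isom {κ κ' : Type*} [Fintype κ] [Fintype κ'] [DecidableEq κ'] {I : Matrix κ κ' ℂ}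
    (hI : Iᴴ * I = 1) (v : κ' → ℂ) : nsq (I.mulVec v) = nsq v := by
  have h1 : pr (I.mulVec v) (I.mulVec v) = pr (Iᴴ.mulVec (I.mulVec v)) v := pr_mulVec I _ _
  rw [Matrix.mulVec_mulVec, hI, Matrix.one_mulVec, pr_self, pr_self] at h1
  exact_mod_cast h1

lemma opn_isom_le {κ κ' : Type*} [Fintype κ] [Fintype κ'] [DecidableEq κ'] {I : Matrix κ κ' ℂ}
    (hI : Iᴴ * I = 1) : opn I ≤ 1 := by
  apply opn_le zero_le_one
  intro v
  rw [nsq_isom hI]
  simp

lemma one_lt_opn {κ κ' : Type*} [Fintype κ] [Fintype κ'] {M : Matrix κ κ' ℂ} {ζ : κ' → ℂ}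
    (hζ : nsq ζ = 1) (h : 1 < nsq (M.mulVec ζ)) : 1 < opn M := by
  have h1 := nsq_mulVec_le M ζ
  rw [hζ, mul_one] at h1
  have h2 := opn_nonneg M
  nlinarith

end flips

/-- reduction of the number of columns -/
lemma reduce_col {P Q p ι : Type*} [Fintype P] [Fintype Q] [Fintype p] [Fintype ι] {s : ℕ}
    (x : ι → Matrix P Q ℂ) (u : ι → Matrix p (Fin s) ℂ) {ζ : Q × Fin s → ℂ} (hζ : nsq ζ = 1)
    (hM : 1 < nsq ((ks x u).mulVec ζ)) :
    ∃ (s' : ℕ) (I : Matrix (Fin s) (Fin s') ℂ), s' ≤ s ∧ Iᴴ * I = 1 ∧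
      1 < opn (ks x fun l => u l * I) ∧
      (s' = s → ∀ c : Fin s → ℂ, (∀ j, ∑ β, c β * ζ (j, β) = 0) → c = 0) := by
  obtain ⟨s', I, h1, h2, h3, h4⟩ := exists_iso (fun (j : Q) (β : Fin s) => ζ (j, β))
  refine ⟨s', I, h1, h2, ?_, h4⟩
  let ζ' : Q × Fin s' → ℂ := fun t => Iᴴ.mulVec (fun β => ζ (t.1, β)) t.2
  have e1 : (fun t : Q × Fin s => I.mulVec (fun β' => ζ' (t.1, β')) t.2) = ζ := by
    ext ⟨j, β⟩
    exact congrFun (h3 j) β
  have e2 : (ks x fun l => u l * I).mulVec ζ' = (ks x u).mulVec ζ := by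
    rw [ks_mul_right, e1]
  have e3 : nsq ζ' = 1 := by
    rw [← hζ, ← e1]
    unfold nsq
    rw [Fintype.sum_prod_type, Fintype.sum_prod_type]
    refine Finset.sum_congr rfl fun j _ => ?_
    exact (nsq_isom h2 (fun β' => ζ' (j, β'))).symm
  apply one_lt_opn e3
  rw [e2]
  exact hM

section base
variable {E : Type*} [NormedAddCommGroup E] [NormedSpace ℂ E] {ι : Type} [Fintype ι]
  [DecidableEq ι] (B : Basis ι ℂ E)

/-- coordinates of a contractive functional -/
def CF (φ : ι → ℂ) : Prop := ∀ e : E, ‖∑ l, B.repr e l * φ l‖ ≤ ‖e‖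

/-- coordinates of a contractive matrix valued map -/
def Ctr {r s : Type*} [Fintype r] [Fintype s] (u : ι → Matrix r s ℂ) : Prop :=
  ∀ e : E, opn (∑ l, B.repr e l • u l) ≤ ‖e‖

/-- the minimal norm of `x` is at most `c` -/
def MinLe {r s : Type*} [Fintype r] [Fintype s] (x : ι → Matrix r s ℂ) (c : ℝ) : Prop :=
  ∀ φ : ι → ℂ, CF B φ → opn (∑ l, φ l • x l) ≤ c

variable {B}

lemma Ctr.mul_right {r s s' : Type*} [Fintype r] [Fintype s] [Fintype s'] {u : ι → Matrix r s ℂ}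
    (h : Ctr B u) {I : Matrix s s' ℂ} (hI : opn I ≤ 1) : Ctr B (fun l => u l * I) := by
  intro e
  have h1 : ∑ l, B.repr e l • (u l * I) = (∑ l, B.repr e l • u l) * I := by
    rw [Matrix.sum_mul]
    exact Finset.sum_congr rfl fun l _ => by rw [Matrix.smul_mul]
  rw [h1]
  refine (opn_mul_le _ _).trans ?_
  have h2 := h e
  have h3 := opn_nonneg I
  have h4 := opn_nonneg (∑ l, B.repr e l • u l)
  nlinarith [norm_nonneg e]

lemma Ctr.mul_left {r r' s : Type*} [Fintype r] [Fintype r'] [Fintype s] {u : ι → Matrix r s ℂ}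
    (h : Ctr B u) {I : Matrix r' r ℂ} (hI : opn I ≤ 1) : Ctr B (fun l => I * u l) := by
  intro e
  have h1 : ∑ l, B.repr e l • (I * u l) = I * (∑ l, B.repr e l • u l) := by
    rw [Matrix.mul_sum]
    exact Finset.sum_congr rfl fun l _ => by rw [Matrix.mul_smul]
  rw [h1]
  refine (opn_mul_le _ _).trans ?_
  have h2 := h e
  have h3 := opn_nonneg I
  have h4 := opn_nonneg (∑ l, B.repr e l • u l)
  nlinarith [norm_nonneg e]

lemma MinLe.mul_right {r s s' : Type*} [Fintype r] [Fintype s] [Fintype s'] {u : ι → Matrix r s ℂ}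
    {c : ℝ} (h : MinLe B u c) {I : Matrix s s' ℂ} (hI : opn I ≤ 1) :
    MinLe B (fun l => u l * I) c := by
  intro φ hφ
  have h1 : ∑ l, φ l • (u l * I) = (∑ l, φ l • u l) * I := by
    rw [Matrix.sum_mul]
    exact Finset.sum_congr rfl fun l _ => by rw [Matrix.smul_mul]
  rw [h1]
  refine (opn_mul_le _ _).trans ?_
  have h2 := h φ hφ
  have h3 := opn_nonneg I
  have h4 := opn_nonneg (∑ l, φ l • u l)
  nlinarith

lemma MinLe.mul_left {r r' s : Type*} [Fintype r] [Fintype r'] [Fintype s] {u : ι → Matrix r s ℂ}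
    {c : ℝ} (h : MinLe B u c) {I : Matrix r' r ℂ} (hI : opn I ≤ 1) :
    MinLe B (fun l => I * u l) c := by
  intro φ hφ
  have h1 : ∑ l, φ l • (I * u l) = I * (∑ l, φ l • u l) := by
    rw [Matrix.mul_sum]
    exact Finset.sum_congr rfl fun l _ => by rw [Matrix.mul_smul]
  rw [h1]
  refine (opn_mul_le _ _).trans ?_
  have h2 := h φ hφ
  have h3 := opn_nonneg I
  have h4 := opn_nonneg (∑ l, φ l • u l)
  nlinarith

variable (B)

/-- existence of a witness of given sizes -/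
def Wit (p q r s : ℕ) : Prop :=
  ∃ (x : ι → Matrix (Fin p) (Fin q) ℂ) (u : ι → Matrix (Fin r) (Fin s) ℂ),
    Ctr B u ∧ MinLe B x 1 ∧ 1 < opn (ks x u)

/-- a minimal witness: norming vectors have full rank -/
lemma full_rank {p q r s : ℕ} (hmin : ∀ p' q' r' s', Wit B p' q' r' s' → p + q + r + s ≤ p' + q' + r' + s')
    {x : ι → Matrix (Fin p) (Fin q) ℂ} {u : ι → Matrix (Fin r) (Fin s) ℂ}
    (hu : Ctr B u) (hx : MinLe B x 1) {ζ : Fin q × Fin s → ℂ} (hζ : nsq ζ = 1)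
    (hM : 1 < nsq ((ks x u).mulVec ζ)) :
    (∀ c : Fin s → ℂ, (∀ j, ∑ β, c β * ζ (j, β) = 0) → c = 0) ∧
    (∀ c : Fin q → ℂ, (∀ β, ∑ j, c j * ζ (j, β) = 0) → c = 0) := by
  constructor
  · obtain ⟨s', I, h1, h2, h3, h4⟩ := reduce_col x u hζ hM
    apply h4
    have h5 := hmin p q r s' ⟨x, fun l => u l * I, hu.mul_right (opn_isom_le h2), hx, h3⟩
    omega
  · have hζ' : nsq (ζ ∘ (Equiv.prodComm (Fin s) (Fin q))) = 1 := by
      rw [nsq_comp_equiv]; exact hζ
    have hM' : 1 < nsq ((ks u x).mulVec (ζ ∘ (Equiv.prodComm (Fin s) (Fin q)))) := by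
      rw [ks_flip]
      have : ((ks x u).submatrix (Equiv.prodComm (Fin r) (Fin p)) (Equiv.prodComm (Fin s) (Fin q))).mulVec
          (ζ ∘ (Equiv.prodComm (Fin s) (Fin q))) =
          ((ks x u).mulVec ζ) ∘ (Equiv.prodComm (Fin r) (Fin p)) := by
        rw [Matrix.submatrix_mulVec_equiv]
        congr 2
      rw [this, nsq_comp_equiv]
      exact hM
    obtain ⟨q', I, h1, h2, h3, h4⟩ := reduce_col u x hζ' hM'
    apply h4
    rw [opn_ks_flip] at h3
    have h5 := hmin p q' r s ⟨fun l => x l * I, u, hu, hx.mul_right (opn_isom_le h2), h3⟩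
    omega

/-- a minimal witness: norming vectors of the adjoint have full rank -/
lemma full_rank' {p q r s : ℕ} (hmin : ∀ p' q' r' s', Wit B p' q' r' s' → p + q + r + s ≤ p' + q' + r' + s')
    {x : ι → Matrix (Fin p) (Fin q) ℂ} {u : ι → Matrix (Fin r) (Fin s) ℂ}
    (hu : Ctr B u) (hx : MinLe B x 1) {ω : Fin p × Fin r → ℂ} (hω : nsq ω = 1)
    (hM : 1 < nsq ((ks x u)ᴴ.mulVec ω)) :
    (∀ c : Fin r → ℂ, (∀ i, ∑ α, c α * ω (i, α) = 0) → c = 0) ∧
    (∀ c : Fin p → ℂ, (∀ α, ∑ i, c i * ω (i, α) = 0) → c = 0) := by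
  rw [ks_conjTranspose] at hM
  constructor
  · obtain ⟨r', I, h1, h2, h3, h4⟩ := reduce_col (fun l => (x l)ᴴ) (fun l => (u l)ᴴ) hω hM
    apply h4
    have h6 : ks (fun l => (x l)ᴴ) (fun l => (u l)ᴴ * I) = (ks x (fun l => Iᴴ * u l))ᴴ := by
      rw [ks_conjTranspose]
      congr 1
      funext l
      rw [Matrix.conjTranspose_mul, Matrix.conjTranspose_conjTranspose]
    rw [h6, opn_conjTranspose] at h3
    have h7 : opn Iᴴ ≤ 1 := by rw [opn_conjTranspose]; exact opn_isom_le h2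
    have h5 := hmin p q r' s ⟨x, fun l => Iᴴ * u l, hu.mul_left h7, hx, h3⟩
    omega
  · have hω' : nsq (ω ∘ (Equiv.prodComm (Fin r) (Fin p))) = 1 := by
      rw [nsq_comp_equiv]; exact hω
    have hM' : 1 < nsq ((ks (fun l => (u l)ᴴ) (fun l => (x l)ᴴ)).mulVec
        (ω ∘ (Equiv.prodComm (Fin r) (Fin p)))) := by
      rw [ks_flip]
      have : ((ks (fun l => (x l)ᴴ) (fun l => (u l)ᴴ)).submatrix (Equiv.prodComm (Fin s) (Fin q))
          (Equiv.prodComm (Fin r) (Fin p))).mulVec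
          (ω ∘ (Equiv.prodComm (Fin r) (Fin p))) =
          ((ks (fun l => (x l)ᴴ) (fun l => (u l)ᴴ)).mulVec ω) ∘ (Equiv.prodComm (Fin s) (Fin q)) := by
        rw [Matrix.submatrix_mulVec_equiv]
        congr 2
      rw [this, nsq_comp_equiv]
      exact hM
    obtain ⟨p', I, h1, h2, h3, h4⟩ := reduce_col (fun l => (u l)ᴴ) (fun l => (x l)ᴴ) hω' hM'
    apply h4
    rw [opn_ks_flip] at h3
    have h6 : ks (fun l => (x l)ᴴ * I) (fun l => (u l)ᴴ) = (ks (fun l => Iᴴ * x l) u)ᴴ := by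
      rw [ks_conjTranspose]
      congr 1
      funext l
      rw [Matrix.conjTranspose_mul, Matrix.conjTranspose_conjTranspose]
    rw [h6, opn_conjTranspose] at h3
    have h7 : opn Iᴴ ≤ 1 := by rw [opn_conjTranspose]; exact opn_isom_le h2
    have h5 := hmin p' q r s ⟨fun l => Iᴴ * x l, u, hu, hx.mul_left h7, h3⟩
    omega

/-- The data from which the structures are built. -/
structure BasePt (p q : ℕ) where
  /-- test element -/
  x : ι → Matrix (Fin p) (Fin q) ℂ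
  /-- contractive map -/
  a : ι → Matrix (Fin p) (Fin q) ℂ
  /-- gap for functionals -/
  γ : ℝ
  /-- norming vector -/
  ζ : Fin q × Fin q → ℂ
  /-- image of the norming vector -/
  ω : Fin p × Fin p → ℂ
  /-- spectral gap -/
  κ : ℝ
  ha : Ctr B a
  hγ : 0 < γ
  hγ1 : γ < 1
  hx : MinLe B x (1 - γ)
  hζ : nsq ζ = 1
  hω : nsq ω = 1
  h1 : (ks x a).mulVec ζ = ω
  h2 : (ks x a)ᴴ.mulVec ω = ζ
  hT : IsUnit (Matrix.of fun β j => ζ (j, β)).det
  hR : IsUnit (Matrix.of fun α i => ω (i, α)).det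
  hκ : κ < 1
  hκ0 : 0 ≤ κ
  hgap : ∀ η, pr ζ η = 0 → nsq ((ks x a).mulVec η) ≤ κ * nsq η

lemma isUnit_det_of_ker {n : ℕ} (A : Matrix (Fin n) (Fin n) ℂ)
    (h : ∀ c : Fin n → ℂ, (∀ i, ∑ j, c j * A i j = 0) → c = 0) : IsUnit A.det := by
  rw [isUnit_iff_ne_zero]
  intro hdet
  obtain ⟨v, hv, hv2⟩ := Matrix.exists_mulVec_eq_zero_iff.2 hdet
  apply hv
  apply h
  intro i
  have := congrFun hv2 i
  simp only [Matrix.mulVec, dotProduct, Pi.zero_apply] at this
  rw [← this]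
  exact Finset.sum_congr rfl fun j _ => mul_comm _ _

lemma card_le_of_ker {m n : ℕ} (z : Fin m × Fin n → ℂ)
    (h : ∀ c : Fin n → ℂ, (∀ j, ∑ β, c β * z (j, β) = 0) → c = 0) : n ≤ m := by
  let L : (Fin n → ℂ) →ₗ[ℂ] (Fin m → ℂ) := Matrix.mulVecLin (Matrix.of fun j β => z (j, β))
  have hinj : Function.Injective L := by
    rw [← LinearMap.ker_eq_bot, LinearMap.ker_eq_bot']
    intro c hc
    apply h
    intro j
    have := congrFun hc j
    simp only [L, Matrix.mulVecLin_apply, Matrix.mulVec, dotProduct, Matrix.of_apply,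
      Pi.zero_apply] at this
    rw [← this]
    exact Finset.sum_congr rfl fun β _ => mul_comm _ _
  have := LinearMap.finrank_le_finrank_of_injective hinj
  simpa using this

theorem exists_base (h : ∃ k, Wit B k k k k) : ∃ p q, Nonempty (BasePt B p q) := by
  classical
  -- minimal witness
  have hex : ∃ n, ∃ p q r s, p + q + r + s = n ∧ Wit B p q r s := by
    obtain ⟨k, hk⟩ := h
    exact ⟨_, k, k, k, k, rfl, hk⟩
  obtain ⟨p, q, r, s, hn, x, u, hu, hx, hM⟩ := Nat.find_spec hex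
  have hmin : ∀ p' q' r' s', Wit B p' q' r' s' → p + q + r + s ≤ p' + q' + r' + s' := by
    intro p' q' r' s' hw
    rw [hn]
    exact Nat.find_min' hex ⟨p', q', r', s', rfl, hw⟩
  set M := ks x u with hMdef
  set lam := opn M with hlam
  have hlam0 : 0 < lam := by linarith
  have hlam2 : 1 < lam ^ 2 := by nlinarith
  obtain ⟨ζ, hζ1, hζ2⟩ := exists_norming M hlam0
  rw [← hlam] at hζ2
  -- full rank of eigenvectors
  have hfull : ∀ η : Fin q × Fin s → ℂ, η ≠ 0 → Mᴴ.mulVec (M.mulVec η) = ((lam ^ 2 : ℝ) : ℂ) • η →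
      (∀ c : Fin s → ℂ, (∀ j, ∑ β, c β * η (j, β) = 0) → c = 0) ∧
      (∀ c : Fin q → ℂ, (∀ β, ∑ j, c j * η (j, β) = 0) → c = 0) := by
    intro η hη0 hη
    have hpos : 0 < nsq η := by
      rcases (nsq_nonneg η).lt_or_eq with h | h
      · exact h
      · exact absurd (nsq_eq_zero h.symm) hη0
    set t : ℂ := (((Real.sqrt (nsq η))⁻¹ : ℝ) : ℂ) with ht
    have htn : ‖t‖ ^ 2 = (nsq η)⁻¹ := by
      rw [ht, Complex.norm_real, Real.norm_eq_abs, sq_abs, inv_pow, Real.sq_sqrt hpos.le]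
    have ht0 : t ≠ 0 := by
      intro h0
      rw [h0] at htn
      simp only [norm_zero, ne_eq, OfNat.ofNat_ne_zero, not_false_eq_true, zero_pow] at htn
      have := inv_pos.2 hpos
      linarith
    have e1 : nsq (t • η) = 1 := by rw [nsq_smul, htn, inv_mul_cancel₀ hpos.ne']
    have e2 : 1 < nsq (M.mulVec (t • η)) := by
      rw [Matrix.mulVec_smul, nsq_smul, extremal_of_eigen M hη, htn]
      rw [← mul_assoc, mul_comm _ (lam ^ 2), mul_assoc, inv_mul_cancel₀ hpos.ne', mul_one]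
      exact hlam2
    obtain ⟨f1, f2⟩ := full_rank B hmin hu hx e1 e2
    constructor
    · intro c hc
      apply f1
      intro j
      have h3 : ∑ β, c β * (t • η) (j, β) = t * ∑ β, c β * η (j, β) := by
        rw [Finset.mul_sum]
        exact Finset.sum_congr rfl fun β _ => by simp only [Pi.smul_apply, smul_eq_mul]; ring
      rw [h3, hc, mul_zero]
    · intro c hc
      apply f2
      intro β
      have h3 : ∑ j, c j * (t • η) (j, β) = t * ∑ j, c j * η (j, β) := by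
        rw [Finset.mul_sum]
        exact Finset.sum_congr rfl fun j _ => by simp only [Pi.smul_apply, smul_eq_mul]; ring
      rw [h3, hc, mul_zero]
  have hζ0 : ζ ≠ 0 := by
    intro h0
    rw [h0] at hζ1
    simp [nsq] at hζ1
  obtain ⟨g1, g2⟩ := hfull ζ hζ0 hζ2
  have hs : s ≤ q := card_le_of_ker ζ g1
  have hq : q ≤ s := card_le_of_ker (fun t : Fin s × Fin q => ζ (t.2, t.1)) g2
  have hqs : s = q := le_antisymm hs hq
  subst hqs
  -- the image vector
  set ω : Fin p × Fin r → ℂ := ((lam⁻¹ : ℝ) : ℂ) • M.mulVec ζ with hω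
  have hω1 : nsq ω = 1 := by
    rw [hω, nsq_smul, extremal_of_eigen M hζ2, hζ1, Complex.norm_real, Real.norm_eq_abs, sq_abs]
    field_simp
  have hω2 : Mᴴ.mulVec ω = ((lam : ℝ) : ℂ) • ζ := by
    rw [hω, Matrix.mulVec_smul, hζ2, smul_smul, ← Complex.ofReal_mul]
    congr 2
    field_simp
  have hω3 : 1 < nsq (Mᴴ.mulVec ω) := by
    rw [hω2, nsq_smul, hζ1, Complex.norm_real, Real.norm_eq_abs, sq_abs, mul_one]
    exact hlam2
  obtain ⟨k1, k2⟩ := full_rank' B hmin hu hx hω1 hω3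
  have hr : r ≤ p := card_le_of_ker ω k1
  have hp : p ≤ r := card_le_of_ker (fun t : Fin r × Fin p => ω (t.2, t.1)) k2
  have hpr : r = p := le_antisymm hr hp
  subst hpr
  -- the gap
  obtain ⟨ζ', hζ'K, hζ'1, hmax⟩ := exists_max M {η | pr ζ η = 0}
    (by
      apply isClosed_eq _ continuous_const
      unfold pr
      exact continuous_finsetSum _ fun i _ => continuous_const.mul (continuous_apply i))
    (by simp [pr]) (by
      intro c η hη
      change pr ζ (c • η) = 0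
      rw [pr_smul_right, hη, mul_zero])
  have hgaplt : nsq (M.mulVec ζ') < lam ^ 2 := by
    by_contra hcon
    push Not at hcon
    have h1 := nsq_mulVec_le M ζ'
    have h2 : nsq ζ' = 1 := by
      apply le_antisymm hζ'1
      rw [← hlam] at h1
      nlinarith
    have h3 : nsq (M.mulVec ζ') = lam ^ 2 * nsq ζ' := by
      apply le_antisymm h1
      rw [h2, mul_one]; exact hcon
    have h4 := eigen_of_extremal M (by positivity) (nsq_mulVec_le M) h3
    -- an eigenvalue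
    let T1 : Matrix (Fin s) (Fin s) ℂ := Matrix.of fun β j => ζ (j, β)
    let T2 : Matrix (Fin s) (Fin s) ℂ := Matrix.of fun β j => ζ' (j, β)
    have hT1 : IsUnit T1.det := isUnit_det_of_ker T1 (fun c hc => g2 c hc)
    have hne : Nonempty (Fin s) := by
      rcases Nat.eq_zero_or_pos s with h0 | h0
      · subst h0
        exfalso
        apply hζ0
        ext ⟨j, _⟩
        exact j.elim0
      · exact ⟨⟨0, h0⟩⟩
    obtain ⟨μ, hμ⟩ := Module.End.exists_eigenvalue (Matrix.mulVecLin (T1⁻¹ * T2))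
    obtain ⟨v, hv⟩ := hμ.exists_hasEigenvector
    have hv0 : v ≠ 0 := hv.2
    have hv1 : (T1⁻¹ * T2).mulVec v = μ • v := hv.apply_eq_smul
    have hv2 : T2.mulVec v = μ • T1.mulVec v := by
      have h5 : T1.mulVec ((T1⁻¹ * T2).mulVec v) = T1.mulVec (μ • v) := by rw [hv1]
      rw [Matrix.mulVec_mulVec, ← Matrix.mul_assoc, Matrix.mul_nonsing_inv _ hT1, Matrix.one_mul,
        Matrix.mulVec_smul] at h5
      exact h5
    set η : Fin s × Fin s → ℂ := ζ' - μ • ζ with hη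
    have hη0 : η ≠ 0 := by
      intro h0
      have h5 : pr ζ' η = 0 := by rw [h0]; simp [pr]
      have h6 : ζ' = μ • ζ := sub_eq_zero.1 h0
      have h7 : pr ζ ζ' = μ := by rw [h6, pr_smul_right, pr_self, hζ1]; simp
      have h8 : pr ζ ζ' = 0 := hζ'K
      rw [h7] at h8
      rw [h8, zero_smul] at h6
      rw [h6] at h2
      simp [nsq] at h2
    have hη1 : Mᴴ.mulVec (M.mulVec η) = ((lam ^ 2 : ℝ) : ℂ) • η := by
      rw [hη, Matrix.mulVec_sub, Matrix.mulVec_sub, Matrix.mulVec_smul, Matrix.mulVec_smul, h4,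
        hζ2, smul_sub, smul_comm]
    apply hv0
    apply (hfull η hη0 hη1).2 v
    intro β
    have h5 := congrFun hv2 β
    simp only [Matrix.mulVec, dotProduct, T1, T2, Matrix.of_apply, Pi.smul_apply,
      smul_eq_mul] at h5
    have h6 : ∑ j, v j * η (j, β) = ∑ j, ζ' (j, β) * v j - μ * ∑ j, ζ (j, β) * v j := by
      rw [Finset.mul_sum, ← Finset.sum_sub_distrib]
      refine Finset.sum_congr rfl fun j _ => ?_
      simp only [hη, Pi.sub_apply, Pi.smul_apply, smul_eq_mul]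
      ring
    rw [h6, h5, sub_self]
  -- normalisation
  have hks : ks (fun l => ((lam⁻¹ : ℝ) : ℂ) • x l) u = ((lam⁻¹ : ℝ) : ℂ) • M := by
    ext a b
    simp only [ks, hMdef, Matrix.of_apply, Matrix.smul_apply, smul_eq_mul, Finset.mul_sum]
    exact Finset.sum_congr rfl fun l _ => by ring
  have hcnorm : ‖((lam⁻¹ : ℝ) : ℂ)‖ = lam⁻¹ := by
    rw [Complex.norm_real, Real.norm_eq_abs, abs_of_pos (inv_pos.2 hlam0)]
  have hli : lam⁻¹ < 1 := inv_lt_one_of_one_lt₀ hM
  have hlp := inv_pos.2 hlam0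
  refine ⟨r, s, ⟨{
    x := fun l => ((lam⁻¹ : ℝ) : ℂ) • x l
    a := u
    γ := 1 - lam⁻¹
    ζ := ζ
    ω := ω
    κ := nsq (M.mulVec ζ') / lam ^ 2
    ha := hu
    hγ := by linarith
    hγ1 := by linarith
    hx := ?_
    hζ := hζ1
    hω := hω1
    h1 := ?_
    h2 := ?_
    hT := isUnit_det_of_ker _ (fun c hc => g2 c hc)
    hR := isUnit_det_of_ker _ (fun c hc => k2 c hc)
    hκ := by rw [div_lt_one (by positivity)]; exact hgaplt
    hκ0 := div_nonneg (nsq_nonneg _) (by positivity)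
    hgap := ?_ }⟩⟩
  · intro φ hφ
    have h1 : ∑ l, φ l • (((lam⁻¹ : ℝ) : ℂ) • x l) = ((lam⁻¹ : ℝ) : ℂ) • ∑ l, φ l • x l := by
      rw [Finset.smul_sum]
      exact Finset.sum_congr rfl fun l _ => smul_comm _ _ _
    rw [h1, opn_smul, hcnorm]
    have h2 := hx φ hφ
    have : lam⁻¹ * opn (∑ l, φ l • x l) ≤ lam⁻¹ * 1 := by gcongr
    linarith
  · rw [hks, Matrix.smul_mulVec]
  · rw [hks, Matrix.conjTranspose_smul, Matrix.smul_mulVec, hω2, smul_smul]
    have : star ((lam⁻¹ : ℝ) : ℂ) = ((lam⁻¹ : ℝ) : ℂ) := Complex.conj_ofReal _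
    rw [this, ← Complex.ofReal_mul, inv_mul_cancel₀ hlam0.ne']
    simp
  · intro η hη
    rw [hks, Matrix.smul_mulVec, nsq_smul, hcnorm]
    have h1 := hmax η hη
    calc lam⁻¹ ^ 2 * nsq (M.mulVec η) ≤ lam⁻¹ ^ 2 * (nsq (M.mulVec ζ') * nsq η) := by gcongr
      _ = _ := by field_simp

end base

end Pool.Agent.W_MP_7b81ff_an
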