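import Pool.Agent.W_MP_7b81ff_an.Stc

set_option autoImplicit false
set_option linter.unusedSimpArgs false
set_option linter.unusedSectionVars false

open Matrix Finset Module
open scoped NNReal ComplexOrder

namespace Pool.Agent.W_MP_7b81ff_an

section stack
variable {P P1 P2 Q Q1 Q2 K L : Type*} [Fintype P] [Fintype P1] [Fintype P2] [Fintype Q]
  [Fintype Q1] [Fintype Q2] [Fintype K] [Fintype L]

lemma stack_nsq (e : P1 ⊕ P2 ≃ P) {V : Matrix P K ℂ} {V1 : Matrix P1 K ℂ} {V2 : Matrix P2 K ℂ}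
    (h1 : ∀ a i, V (e (Sum.inl a)) i = V1 a i) (h2 : ∀ a i, V (e (Sum.inr a)) i = V2 a i)
    (z : K → ℂ) : nsq (V.mulVec z) = nsq (V1.mulVec z) + nsq (V2.mulVec z) := by
  unfold nsq Matrix.mulVec dotProduct
  rw [← Equiv.sum_comp e, Fintype.sum_sum_type]
  simp only [h1, h2]

lemma stack_mul (e : P1 ⊕ P2 ≃ P) (e' : Q1 ⊕ Q2 ≃ Q) {M : Matrix P Q ℂ} {M1 : Matrix P1 Q1 ℂ}
    {M2 : Matrix P2 Q2 ℂ} (m11 : ∀ a b, M (e (Sum.inl a)) (e' (Sum.inl b)) = M1 a b)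
    (m12 : ∀ a b, M (e (Sum.inl a)) (e' (Sum.inr b)) = 0)
    (m21 : ∀ a b, M (e (Sum.inr a)) (e' (Sum.inl b)) = 0)
    (m22 : ∀ a b, M (e (Sum.inr a)) (e' (Sum.inr b)) = M2 a b)
    {V : Matrix P K ℂ} {V1 : Matrix P1 K ℂ} {V2 : Matrix P2 K ℂ}
    (h1 : ∀ a i, V (e (Sum.inl a)) i = V1 a i) (h2 : ∀ a i, V (e (Sum.inr a)) i = V2 a i)
    {W : Matrix Q L ℂ} {W1 : Matrix Q1 L ℂ} {W2 : Matrix Q2 L ℂ}
    (k1 : ∀ a i, W (e' (Sum.inl a)) i = W1 a i) (k2 : ∀ a i, W (e' (Sum.inr a)) i = W2 a i) :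
    Vᴴ * M * W = V1ᴴ * M1 * W1 + V2ᴴ * M2 * W2 := by
  ext i j
  rw [Matrix.add_apply]
  simp only [Matrix.mul_apply, Matrix.conjTranspose_apply]
  rw [← Equiv.sum_comp e', Fintype.sum_sum_type]
  congr 1
  · refine Finset.sum_congr rfl fun b _ => ?_
    rw [← Equiv.sum_comp e, Fintype.sum_sum_type]
    simp only [h1, h2, k1, m11, m21, mul_zero, Finset.sum_const_zero, add_zero]
  · refine Finset.sum_congr rfl fun b _ => ?_
    rw [← Equiv.sum_comp e, Fintype.sum_sum_type]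
    simp only [h1, h2, k2, m12, m22, mul_zero, Finset.sum_const_zero, zero_add]

lemma smul_conj_mul (r : ℝ) (V : Matrix P K ℂ) (M : Matrix P Q ℂ) (W : Matrix Q L ℂ) :
    ((r : ℂ) • V)ᴴ * M * ((r : ℂ) • W) = ((r * r : ℝ) : ℂ) • (Vᴴ * M * W) := by
  rw [Matrix.conjTranspose_smul, Matrix.smul_mul, Matrix.smul_mul, Matrix.mul_smul, smul_smul]
  congr 1
  rw [Complex.ofReal_mul]
  congr 1
  exact Complex.conj_ofReal r

end stack

/-- spectral gap property relative to a fixed triple -/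
def GapP {H Hm : Type} [Fintype H] [Fintype Hm] (X : Fin 3 → Matrix H H ℂ)
    (Xm : Fin 3 → Matrix Hm Hm ℂ) : Prop :=
  ∀ S : Matrix H Hm ℂ, fn S ≤ 6400 * ∑ k, fn (X k * S - S * Xm k)

lemma GapP.sum {H H' Hm : Type} [Fintype H] [Fintype H'] [Fintype Hm] {X : Fin 3 → Matrix H H ℂ}
    {X' : Fin 3 → Matrix H' H' ℂ} {Xm : Fin 3 → Matrix Hm Hm ℂ} (h : GapP X Xm) (h' : GapP X' Xm) :
    GapP (fun k => Matrix.fromBlocks (X k) 0 0 (X' k)) Xm := by
  intro S
  set S1 : Matrix H Hm ℂ := Matrix.of fun a i => S (Sum.inl a) i with hS1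
  set S2 : Matrix H' Hm ℂ := Matrix.of fun a i => S (Sum.inr a) i with hS2
  have e1 : fn S = fn S1 + fn S2 := by
    unfold fn
    rw [Fintype.sum_sum_type]
    rfl
  have e2 : ∀ k, fn (Matrix.fromBlocks (X k) 0 0 (X' k) * S - S * Xm k) =
      fn (X k * S1 - S1 * Xm k) + fn (X' k * S2 - S2 * Xm k) := by
    intro k
    unfold fn
    rw [Fintype.sum_sum_type]
    congr 1
    · refine Finset.sum_congr rfl fun a _ => Finset.sum_congr rfl fun i _ => ?_
      congr 2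
      simp only [Matrix.sub_apply, Matrix.mul_apply, Fintype.sum_sum_type,
        Matrix.fromBlocks_apply₁₁, Matrix.fromBlocks_apply₁₂, Matrix.zero_apply, zero_mul,
        Finset.sum_const_zero, add_zero, hS1, Matrix.of_apply]
    · refine Finset.sum_congr rfl fun a _ => Finset.sum_congr rfl fun i _ => ?_
      congr 2
      simp only [Matrix.sub_apply, Matrix.mul_apply, Fintype.sum_sum_type,
        Matrix.fromBlocks_apply₂₁, Matrix.fromBlocks_apply₂₂, Matrix.zero_apply, zero_mul,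
        Finset.sum_const_zero, zero_add, hS2, Matrix.of_apply]
  simp only [e1, e2]
  rw [Finset.sum_add_distrib, mul_add]
  exact add_le_add (h S1) (h' S2)

section cone
variable {E : Type*} [NormedAddCommGroup E] [NormedSpace ℂ E] {ι : Type} [Fintype ι]
  [DecidableEq ι] {B : Basis ι ℂ E} {p q : ℕ} (bp : BasePt B p q)
  (b : Fin 3 → (ι → Matrix (Fin p) (Fin q) ℂ))

/-- data of an element of the cone -/
structure CD {Hm : Type} [Fintype Hm] [DecidableEq Hm] (Xm : Fin 3 → Matrix Hm Hm ℂ) (ε s : ℝ)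
    (t : DX (Fin p × Hm) (Fin q × Hm) ι) (H κ : Type) [Fintype H] [DecidableEq H] [Fintype κ]
    [DecidableEq κ] where
  /-- symmetries -/
  X : Fin 3 → Matrix H H ℂ
  /-- functionals -/
  φ : κ → ι → ℂ
  /-- left coefficient -/
  V : Matrix (Fin p × H) (Fin p × Hm) ℂ
  /-- right coefficient -/
  W : Matrix (Fin q × H) (Fin q × Hm) ℂ
  /-- left coefficient of the functional part -/
  Vc : Matrix κ (Fin p × Hm) ℂ
  /-- right coefficient of the functional part -/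
  Wc : Matrix κ (Fin q × Hm) ℂ
  hX : ∀ k, (X k)ᴴ = X k
  hX1 : ∀ k, opn (X k) ≤ 1
  hgap : GapP X Xm
  hφ : ∀ c, CF B (φ c)
  hV : ∀ z, nsq (V.mulVec z) + nsq (Vc.mulVec z) ≤ qm t.1 z
  hW : ∀ z, nsq (W.mulVec z) + nsq (Wc.mulVec z) ≤ qm t.2.1 z
  hz : ∀ l, (t.2.2 l : Matrix (Fin p × Hm) (Fin q × Hm) ℂ) = Vᴴ * (((s⁻¹ : ℝ) : ℂ) • uu bp b ε X l) * W +
    Vcᴴ * Matrix.diagonal (fun c => φ c l) * Wc

variable {Hm : Type} [Fintype Hm] [DecidableEq Hm] (Xm : Fin 3 → Matrix Hm Hm ℂ) (ε s : ℝ)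

lemma uu_block {H H' : Type} [DecidableEq H] [DecidableEq H'] (X : Fin 3 → Matrix H H ℂ)
    (X' : Fin 3 → Matrix H' H' ℂ) (l : ι) :
    (∀ (a : Fin p × H) (c : Fin q × H), uu bp b ε (fun k => Matrix.fromBlocks (X k) 0 0 (X' k)) l
      (a.1, Sum.inl a.2) (c.1, Sum.inl c.2) = uu bp b ε X l a c) ∧
    (∀ (a : Fin p × H) (c : Fin q × H'), uu bp b ε (fun k => Matrix.fromBlocks (X k) 0 0 (X' k)) l
      (a.1, Sum.inl a.2) (c.1, Sum.inr c.2) = 0) ∧
    (∀ (a : Fin p × H') (c : Fin q × H), uu bp b ε (fun k => Matrix.fromBlocks (X k) 0 0 (X' k)) l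
      (a.1, Sum.inr a.2) (c.1, Sum.inl c.2) = 0) ∧
    (∀ (a : Fin p × H') (c : Fin q × H'), uu bp b ε (fun k => Matrix.fromBlocks (X k) 0 0 (X' k)) l
      (a.1, Sum.inr a.2) (c.1, Sum.inr c.2) = uu bp b ε X' l a c) := by
  refine ⟨?_, ?_, ?_, ?_⟩ <;> intro a c <;>
    simp [uu, kr, Matrix.add_apply, Matrix.smul_apply, Matrix.sum_apply, Matrix.one_apply]

/-- sum of two elements of the cone -/
noncomputable def CD.add {t t' : DX (Fin p × Hm) (Fin q × Hm) ι} {H κ H' κ' : Type}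
    [Fintype H] [DecidableEq H] [Fintype κ] [DecidableEq κ]
    [Fintype H'] [DecidableEq H'] [Fintype κ'] [DecidableEq κ']
    (d : CD bp b Xm ε s t H κ) (d' : CD bp b Xm ε s t' H' κ') :
    CD bp b Xm ε s (t + t') (H ⊕ H') (κ ⊕ κ') where
  X := fun k => Matrix.fromBlocks (d.X k) 0 0 (d'.X k)
  φ := Sum.elim d.φ d'.φ
  V := Matrix.of fun r j => Sum.elim (fun h => d.V (r.1, h) j) (fun h => d'.V (r.1, h) j) r.2
  W := Matrix.of fun r j => Sum.elim (fun h => d.W (r.1, h) j) (fun h => d'.W (r.1, h) j) r.2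
  Vc := Matrix.of fun r j => Sum.elim (fun h => d.Vc h j) (fun h => d'.Vc h j) r
  Wc := Matrix.of fun r j => Sum.elim (fun h => d.Wc h j) (fun h => d'.Wc h j) r
  hX k := by
    rw [Matrix.fromBlocks_conjTranspose, d.hX, d'.hX]
    simp
  hX1 k := by
    rw [opn_fromBlocks]
    exact max_le (d.hX1 k) (d'.hX1 k)
  hgap := d.hgap.sum d'.hgap
  hφ := by
    rintro (c | c)
    · exact d.hφ c
    · exact d'.hφ c
  hV z := by
    rw [stack_nsq (Equiv.prodSumDistrib (Fin p) H H').symm (V1 := d.V) (V2 := d'.V)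
        (fun a i => rfl) (fun a i => rfl),
      stack_nsq (Equiv.refl (κ ⊕ κ')) (V1 := d.Vc) (V2 := d'.Vc) (fun a i => rfl) (fun a i => rfl)]
    change _ ≤ qm (t.1 + t'.1) z
    rw [qm_add]
    have h1 := d.hV z
    have h2 := d'.hV z
    linarith
  hW z := by
    rw [stack_nsq (Equiv.prodSumDistrib (Fin q) H H').symm (V1 := d.W) (V2 := d'.W)
        (fun a i => rfl) (fun a i => rfl),
      stack_nsq (Equiv.refl (κ ⊕ κ')) (V1 := d.Wc) (V2 := d'.Wc) (fun a i => rfl) (fun a i => rfl)]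
    change _ ≤ qm (t.2.1 + t'.2.1) z
    rw [qm_add]
    have h1 := d.hW z
    have h2 := d'.hW z
    linarith
  hz l := by
    obtain ⟨u1, u2, u3, u4⟩ := uu_block bp b ε d.X d'.X l
    rw [stack_mul (Equiv.prodSumDistrib (Fin p) H H').symm (Equiv.prodSumDistrib (Fin q) H H').symm
        (M1 := ((s⁻¹ : ℝ) : ℂ) • uu bp b ε d.X l) (M2 := ((s⁻¹ : ℝ) : ℂ) • uu bp b ε d'.X l)
        (V1 := d.V) (V2 := d'.V) (W1 := d.W) (W2 := d'.W)
        (fun a c => congrArg (fun z => ((s⁻¹ : ℝ) : ℂ) * z) (u1 a c))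
        (fun a c => (congrArg (fun z => ((s⁻¹ : ℝ) : ℂ) * z) (u2 a c)).trans (mul_zero _))
        (fun a c => (congrArg (fun z => ((s⁻¹ : ℝ) : ℂ) * z) (u3 a c)).trans (mul_zero _))
        (fun a c => congrArg (fun z => ((s⁻¹ : ℝ) : ℂ) * z) (u4 a c))
        (fun a i => rfl) (fun a i => rfl) (fun a i => rfl) (fun a i => rfl),
      stack_mul (Equiv.refl (κ ⊕ κ')) (Equiv.refl (κ ⊕ κ'))
        (M1 := Matrix.diagonal (fun c => d.φ c l)) (M2 := Matrix.diagonal (fun c => d'.φ c l))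
        (V1 := d.Vc) (V2 := d'.Vc) (W1 := d.Wc) (W2 := d'.Wc)
        (fun a c => by simp [Matrix.diagonal_apply]) (fun a c => by simp [Matrix.diagonal_apply])
        (fun a c => by simp [Matrix.diagonal_apply]) (fun a c => by simp [Matrix.diagonal_apply])
        (fun a i => rfl) (fun a i => rfl) (fun a i => rfl) (fun a i => rfl)]
    have h1 := d.hz l
    have h2 := d'.hz l
    change (t.2.2 l : Matrix (Fin p × Hm) (Fin q × Hm) ℂ) + (t'.2.2 l : Matrix (Fin p × Hm) (Fin q × Hm) ℂ) = _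
    rw [h1, h2]
    abel

/-- multiple of an element of the cone -/
noncomputable def CD.smul {t : DX (Fin p × Hm) (Fin q × Hm) ι} {H κ : Type}
    [Fintype H] [DecidableEq H] [Fintype κ] [DecidableEq κ]
    (c : ℝ≥0) (d : CD bp b Xm ε s t H κ) : CD bp b Xm ε s (c • t) H κ where
  X := d.X
  φ := d.φ
  V := ((Real.sqrt (c : ℝ) : ℝ) : ℂ) • d.V
  W := ((Real.sqrt (c : ℝ) : ℝ) : ℂ) • d.W
  Vc := ((Real.sqrt (c : ℝ) : ℝ) : ℂ) • d.Vc
  Wc := ((Real.sqrt (c : ℝ) : ℝ) : ℂ) • d.Wc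
  hX := d.hX
  hX1 := d.hX1
  hgap := d.hgap
  hφ := d.hφ
  hV z := by
    rw [Matrix.smul_mulVec, Matrix.smul_mulVec, nsq_smul, nsq_smul, Complex.norm_real,
      Real.norm_eq_abs, sq_abs, Real.sq_sqrt (NNReal.coe_nonneg c), ← mul_add]
    change _ ≤ qm (c • t.1) z
    rw [qm_smul]
    exact mul_le_mul_of_nonneg_left (d.hV z) c.2
  hW z := by
    rw [Matrix.smul_mulVec, Matrix.smul_mulVec, nsq_smul, nsq_smul, Complex.norm_real,
      Real.norm_eq_abs, sq_abs, Real.sq_sqrt (NNReal.coe_nonneg c), ← mul_add]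
    change _ ≤ qm (c • t.2.1) z
    rw [qm_smul]
    exact mul_le_mul_of_nonneg_left (d.hW z) c.2
  hz l := by
    rw [smul_conj_mul, smul_conj_mul, Real.mul_self_sqrt (NNReal.coe_nonneg c), ← smul_add,
      ← d.hz l]
    ext i j
    change (c : ℝ) • (t.2.2 l i j) = ((c : ℝ) : ℂ) • (t.2.2 l i j)
    rw [Complex.real_smul]
    rfl

/-- trivial element of the cone -/
noncomputable def CD.triv {t : DX (Fin p × Hm) (Fin q × Hm) ι} (h1 : ∀ z, 0 ≤ qm t.1 z)
    (h2 : ∀ z, 0 ≤ qm t.2.1 z) (h3 : t.2.2 = 0) : CD bp b Xm ε s t Empty Empty where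
  X := fun _ => 0
  φ := fun c => c.elim
  V := 0
  W := 0
  Vc := 0
  Wc := 0
  hX k := by simp
  hX1 k := by rw [opn_zero]; exact zero_le_one
  hgap := by
    intro S
    have : fn S = 0 := by simp [fn]
    rw [this]
    have : 0 ≤ ∑ k : Fin 3, fn ((fun _ => (0 : Matrix Empty Empty ℂ)) k * S - S * Xm k) :=
      Finset.sum_nonneg fun _ _ => fn_nonneg _
    positivity
  hφ c := c.elim
  hV z := by
    simp only [Matrix.zero_mulVec]
    have : nsq (0 : Fin p × Empty → ℂ) + nsq (0 : Empty → ℂ) = 0 := by simp [nsq]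
    rw [this]
    exact h1 z
  hW z := by
    simp only [Matrix.zero_mulVec]
    have : nsq (0 : Fin q × Empty → ℂ) + nsq (0 : Empty → ℂ) = 0 := by simp [nsq]
    rw [this]
    exact h2 z
  hz l := by
    rw [h3]
    simp
    rfl

/-- the cone -/
def coneM : Submodule ℝ≥0 (DX (Fin p × Hm) (Fin q × Hm) ι) where
  carrier := {t | ∃ (H κ : Type) (_ : Fintype H) (_ : DecidableEq H) (_ : Fintype κ)
    (_ : DecidableEq κ), Nonempty (CD bp b Xm ε s t H κ)}
  add_mem' := by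
    rintro t t' ⟨H, κ, i1, i2, i3, i4, ⟨d⟩⟩ ⟨H', κ', i1', i2', i3', i4', ⟨d'⟩⟩
    exact ⟨H ⊕ H', κ ⊕ κ', inferInstance, inferInstance, inferInstance, inferInstance,
      ⟨CD.add bp b Xm ε s d d'⟩⟩
  zero_mem' := by
    refine ⟨Empty, Empty, inferInstance, inferInstance, inferInstance, inferInstance,
      ⟨CD.triv bp b Xm ε s ?_ ?_ rfl⟩⟩
    · intro z
      have h0 : qm (0 : (Fin p × Hm) → (Fin p × Hm) → ℂ) z = 0 := by unfold qm qf; simp
      exact h0.ge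
    · intro z
      have h0 : qm (0 : (Fin q × Hm) → (Fin q × Hm) → ℂ) z = 0 := by unfold qm qf; simp
      exact h0.ge
  smul_mem' := by
    rintro c t ⟨H, κ, i1, i2, i3, i4, ⟨d⟩⟩
    exact ⟨H, κ, i1, i2, i3, i4, ⟨CD.smul bp b Xm ε s c d⟩⟩

end cone

end Pool.Agent.W_MP_7b81ff_an
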