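import Pool.Agent.W_MP_7b81ff_an.Struct

set_option autoImplicit false
set_option linter.unusedSimpArgs false
set_option linter.unusedSectionVars false

open Matrix Finset
open scoped NNReal ComplexOrder

namespace Pool.Agent.W_MP_7b81ff_an

open scoped MatrixOrder Matrix.Norms.L2Operator in
lemma exists_factor {P : Type*} [Fintype P] [DecidableEq P] {A : Matrix P P ℂ}
    (hA : A.PosSemidef) : ∃ B : Matrix P P ℂ, A = Bᴴ * B := by
  obtain ⟨B, hB⟩ := CStarAlgebra.nonneg_iff_eq_star_mul_self.mp hA.nonneg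
  exact ⟨B, hB⟩

/-- real functionals on `κ → ℂ` -/
lemma real_functional {κ : Type*} [Fintype κ] [DecidableEq κ] (g : (κ → ℂ) →ₗ[ℝ] ℝ) :
    ∃ c : κ → ℂ, ∀ z, g z = (∑ k, c k * z k).re := by
  refine ⟨fun k => ((g (Pi.single k 1) : ℝ) : ℂ) - Complex.I * ((g (Pi.single k Complex.I) : ℝ) : ℂ),
    fun z => ?_⟩
  have hz : z = ∑ k, ((z k).re • (Pi.single k (1 : ℂ) : κ → ℂ) + (z k).im • (Pi.single k Complex.I : κ → ℂ)) := by
    ext l
    rw [Finset.sum_apply, Finset.sum_eq_single l]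
    · simp [Complex.re_add_im]
    · intro k _ hk
      simp [Pi.single_apply, Ne.symm hk]
    · intro h; exact absurd (Finset.mem_univ _) h
  conv_lhs => rw [hz]
  rw [map_sum, Complex.re_sum]
  refine Finset.sum_congr rfl fun k _ => ?_
  rw [map_add, map_smul, map_smul]
  simp [Complex.mul_re]
  ring

section
variable {P Q p q ι : Type*} [Fintype P] [Fintype Q] [Fintype p] [Fintype q] [Fintype ι]
  [DecidableEq P] [DecidableEq Q]

/-- `∑ x_l ⊗ u_l` -/
def ks (x : ι → Matrix P Q ℂ) (u : ι → Matrix p q ℂ) : Matrix (P × p) (Q × q) ℂ :=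
  Matrix.of fun a b => ∑ l, x l a.1 b.1 * u l a.2 b.2

/-- the sesquilinear pairing -/
def pr {κ : Type*} [Fintype κ] (ω ζ : κ → ℂ) : ℂ := ∑ a, (starRingEnd ℂ) (ω a) * ζ a

lemma pr_self {κ : Type*} [Fintype κ] (ω : κ → ℂ) : pr ω ω = ((nsq ω : ℝ) : ℂ) := by
  unfold pr nsq
  push_cast
  refine Finset.sum_congr rfl fun a _ => ?_
  rw [mul_comm, Complex.mul_conj, Complex.normSq_eq_norm_sq]
  push_cast; rfl

lemma pr_mulVec {κ κ' : Type*} [Fintype κ] [Fintype κ'] (A : Matrix κ κ' ℂ) (ω : κ → ℂ)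
    (ζ : κ' → ℂ) : pr ω (A.mulVec ζ) = pr (Aᴴ.mulVec ω) ζ := by
  unfold pr Matrix.mulVec dotProduct
  simp only [Finset.mul_sum, map_sum, map_mul, Finset.sum_mul, Matrix.conjTranspose_apply]
  rw [Finset.sum_comm]
  refine Finset.sum_congr rfl fun b _ => Finset.sum_congr rfl fun a _ => ?_
  have : (starRingEnd ℂ) (star (A a b)) = A a b := by
    change star (star (A a b)) = A a b
    rw [star_star]
  rw [this]
  ring

lemma re_pr_le {κ : Type*} [Fintype κ] (ω ζ : κ → ℂ) : (pr ω ζ).re ≤ (nsq ω + nsq ζ) / 2 := by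
  unfold pr nsq
  rw [Complex.re_sum, ← Finset.sum_add_distrib, Finset.sum_div]
  refine Finset.sum_le_sum fun a _ => ?_
  have h1 : ((starRingEnd ℂ) (ω a) * ζ a).re ≤ ‖ω a‖ * ‖ζ a‖ := by
    refine (Complex.re_le_norm _).trans ?_
    rw [norm_mul, RCLike.norm_conj]
  nlinarith [sq_nonneg (‖ω a‖ - ‖ζ a‖)]

lemma opn_le_one_of_pr {κ κ' : Type*} [Fintype κ] [Fintype κ'] {M : Matrix κ κ' ℂ}
    (h : ∀ (ζ : κ' → ℂ) (ω : κ → ℂ), (pr ω (M.mulVec ζ)).re ≤ (nsq ω + nsq ζ) / 2) : opn M ≤ 1 := by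
  apply opn_le zero_le_one
  intro ζ
  have h1 := h ζ (M.mulVec ζ)
  rw [pr_self, Complex.ofReal_re] at h1
  linarith

lemma re_pr_le_of_opn {κ κ' : Type*} [Fintype κ] [Fintype κ'] {M : Matrix κ κ' ℂ}
    (h : opn M ≤ 1) (ζ : κ' → ℂ) (ω : κ → ℂ) : (pr ω (M.mulVec ζ)).re ≤ (nsq ω + nsq ζ) / 2 := by
  refine (re_pr_le _ _).trans ?_
  have h1 := (opn_le_iff zero_le_one).1 h ζ
  linarith

/-- transfer of the pairing -/
lemma pr_ks (x : ι → Matrix P Q ℂ) (u : ι → Matrix p q ℂ) (ζ : Q × q → ℂ) (ω : P × p → ℂ) :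
    pr ω ((ks x u).mulVec ζ) = ∑ l, ∑ i, ∑ j, x l i j *
      ((Matrix.of fun (α : p) (i : P) => ω (i, α))ᴴ * u l *
        (Matrix.of fun (β : q) (j : Q) => ζ (j, β))) i j := by
  unfold pr Matrix.mulVec dotProduct ks
  simp only [Matrix.mul_apply, Matrix.of_apply, Matrix.conjTranspose_apply, Fintype.sum_prod_type,
    Finset.mul_sum, Finset.sum_mul]
  -- LHS: i α j β l ; RHS : l i j β α
  calc ∑ i, ∑ α, ∑ j, ∑ β, ∑ l, (starRingEnd ℂ) (ω (i, α)) * (x l i j * u l α β * ζ (j, β))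
      = ∑ i, ∑ α, ∑ j, ∑ l, ∑ β, (starRingEnd ℂ) (ω (i, α)) * (x l i j * u l α β * ζ (j, β)) := by
        refine Finset.sum_congr rfl fun i _ => Finset.sum_congr rfl fun α _ =>
          Finset.sum_congr rfl fun j _ => Finset.sum_comm
    _ = ∑ i, ∑ α, ∑ l, ∑ j, ∑ β, (starRingEnd ℂ) (ω (i, α)) * (x l i j * u l α β * ζ (j, β)) := by
        refine Finset.sum_congr rfl fun i _ => Finset.sum_congr rfl fun α _ => Finset.sum_comm
    _ = ∑ i, ∑ l, ∑ α, ∑ j, ∑ β, (starRingEnd ℂ) (ω (i, α)) * (x l i j * u l α β * ζ (j, β)) := by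
        refine Finset.sum_congr rfl fun i _ => Finset.sum_comm
    _ = ∑ l, ∑ i, ∑ α, ∑ j, ∑ β, (starRingEnd ℂ) (ω (i, α)) * (x l i j * u l α β * ζ (j, β)) :=
        Finset.sum_comm
    _ = ∑ l, ∑ i, ∑ j, ∑ α, ∑ β, (starRingEnd ℂ) (ω (i, α)) * (x l i j * u l α β * ζ (j, β)) := by
        refine Finset.sum_congr rfl fun l _ => Finset.sum_congr rfl fun i _ => Finset.sum_comm
    _ = ∑ l, ∑ i, ∑ j, ∑ β, ∑ α, (starRingEnd ℂ) (ω (i, α)) * (x l i j * u l α β * ζ (j, β)) := by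
        refine Finset.sum_congr rfl fun l _ => Finset.sum_congr rfl fun i _ =>
          Finset.sum_congr rfl fun j _ => Finset.sum_comm
    _ = _ := by
        refine Finset.sum_congr rfl fun l _ => Finset.sum_congr rfl fun i _ =>
          Finset.sum_congr rfl fun j _ => Finset.sum_congr rfl fun β _ =>
          Finset.sum_congr rfl fun α _ => ?_
        change _ = x l i j * ((starRingEnd ℂ) (ω (i, α)) * u l α β * ζ (j, β))
        ring

variable [DecidableEq p] [DecidableEq q]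

lemma ampl_mul_apply {P' L : Type*} [Fintype P'] (A : Matrix P' P ℂ) (M : Matrix (P × p) L ℂ)
    (i : P') (a : p) (c : L) : (ampl p A * M) (i, a) c = ∑ p', A i p' * M (p', a) c := by
  simp only [Matrix.mul_apply, ampl, Matrix.of_apply, Fintype.sum_prod_type, ite_mul, zero_mul,
    Finset.sum_ite_eq, Finset.mem_univ, if_true]

lemma mul_ampl_apply {Q' L : Type*} [Fintype Q'] (B : Matrix Q Q' ℂ) (M : Matrix L (Q × q) ℂ)
    (j : Q') (b : q) (c : L) : (M * ampl q B) c (j, b) = ∑ q', M c (q', b) * B q' j := by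
  simp only [Matrix.mul_apply, ampl, Matrix.of_apply, Fintype.sum_prod_type, mul_ite, mul_zero,
    Finset.sum_ite_eq', Finset.mem_univ, if_true]

lemma ks_compress {P' Q' : Type*} [Fintype P'] [Fintype Q'] (A : Matrix P' P ℂ)
    (B : Matrix Q Q' ℂ) (x : ι → Matrix P Q ℂ) (u : ι → Matrix p q ℂ) :
    ks (fun l => A * x l * B) u = ampl p A * ks x u * ampl q B := by
  ext ⟨i, a⟩ ⟨j, b⟩
  rw [mul_ampl_apply]
  simp only [ampl_mul_apply]
  simp only [ks, Matrix.mul_apply, Matrix.of_apply, Finset.sum_mul, Finset.mul_sum]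
  calc ∑ l, ∑ q', ∑ p', A i p' * x l p' q' * B q' j * u l a b
      = ∑ q', ∑ l, ∑ p', A i p' * x l p' q' * B q' j * u l a b := Finset.sum_comm
    _ = ∑ q', ∑ p', ∑ l, A i p' * x l p' q' * B q' j * u l a b :=
        Finset.sum_congr rfl fun q' _ => Finset.sum_comm
    _ = _ := by
        refine Finset.sum_congr rfl fun q' _ => Finset.sum_congr rfl fun p' _ =>
          Finset.sum_congr rfl fun l _ => ?_
        ring

lemma ampl_mulVec {P' : Type*} [Fintype P'] (A : Matrix P' P ℂ) (ω : P × p → ℂ) (i : P') (a : p) :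
    (ampl p A).mulVec ω (i, a) = A.mulVec (fun i' => ω (i', a)) i := by
  simp only [Matrix.mulVec, dotProduct, ampl, Matrix.of_apply, Fintype.sum_prod_type, ite_mul,
    zero_mul, Finset.sum_ite_eq, Finset.mem_univ, if_true]

lemma ampl_conjTranspose {P' : Type*} [Fintype P'] (A : Matrix P' P ℂ) :
    (ampl p A)ᴴ = ampl p Aᴴ := by
  ext ⟨i, a⟩ ⟨j, b⟩
  simp only [ampl, Matrix.conjTranspose_apply, Matrix.of_apply]
  by_cases h : a = b
  · subst h; simp
  · rw [if_neg h, if_neg (Ne.symm h)]; simp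

lemma nsq_prod_eq (ω : P × p → ℂ) : nsq ω = ∑ a, nsq (fun i => ω (i, a)) := by
  unfold nsq
  rw [Fintype.sum_prod_type, Finset.sum_comm]

end

/-- the quadratic form attached to a function on pairs -/
noncomputable def qf {K : Type*} [Fintype K] (c : K × K → ℂ) (v : K → ℂ) : ℝ :=
  (∑ t : K × K, c t * ((starRingEnd ℂ) (v t.1) * v t.2)).re

lemma qf_gram {K R : Type*} [Fintype K] [Fintype R] (c : K × K → ℂ) (V : Matrix R K ℂ) :
    (∑ t : K × K, c t * (Vᴴ * V) t.1 t.2).re = ∑ α, qf c (fun i => V α i) := by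
  unfold qf
  rw [← Complex.re_sum, Finset.sum_comm]
  congr 1
  refine Finset.sum_congr rfl fun t _ => ?_
  rw [Matrix.mul_apply, Finset.mul_sum]
  rfl

lemma ampl_inv_cancel {K p : Type*} [Fintype K] [DecidableEq K] [Fintype p] [DecidableEq p]
    {S : Matrix K K ℂ} (hS : IsUnit S.det) (ω : K × p → ℂ) :
    (ampl p S).mulVec ((ampl p S⁻¹).mulVec ω) = ω := by
  ext ⟨i, a⟩
  rw [ampl_mulVec]
  have h1 : (fun i' => (ampl p S⁻¹).mulVec ω (i', a)) = S⁻¹.mulVec (fun i' => ω (i', a)) := by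
    ext i'; rw [ampl_mulVec]
  rw [h1, Matrix.mulVec_mulVec, Matrix.mul_nonsing_inv _ hS, Matrix.one_mulVec]

lemma ampl_inv_cancel' {K p : Type*} [Fintype K] [DecidableEq K] [Fintype p] [DecidableEq p]
    {S : Matrix K K ℂ} (hS : IsUnit S.det) (ω : K × p → ℂ) :
    (ampl p S⁻¹).mulVec ((ampl p S).mulVec ω) = ω := by
  ext ⟨i, a⟩
  rw [ampl_mulVec]
  have h1 : (fun i' => (ampl p S).mulVec ω (i', a)) = S.mulVec (fun i' => ω (i', a)) := by
    ext i'; rw [ampl_mulVec]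
  rw [h1, Matrix.mulVec_mulVec, Matrix.nonsing_inv_mul _ hS, Matrix.one_mulVec]

lemma nsq_ampl {K p : Type*} [Fintype K] [DecidableEq K] [Fintype p] [DecidableEq p]
    {S : Matrix K K ℂ} {c : K × K → ℂ} {δ : ℝ}
    (hS : ∀ v, nsq (S.mulVec v) = qf c v + δ * nsq v) (ω : K × p → ℂ) :
    nsq ((ampl p S).mulVec ω) = ∑ a, qf c (fun i => ω (i, a)) + δ * nsq ω := by
  rw [nsq_prod_eq, nsq_prod_eq ω, Finset.mul_sum, ← Finset.sum_add_distrib]
  refine Finset.sum_congr rfl fun a _ => ?_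
  rw [← hS]
  congr 1
  ext i
  rw [ampl_mulVec]

/-- A nonnegative quadratic form plus `δ` times the norm squared is the square of an invertible
matrix. -/
lemma exists_root {K : Type*} [Fintype K] [DecidableEq K] (c : K × K → ℂ)
    (hc : ∀ v, 0 ≤ qf c v) {δ : ℝ} (hδ : 0 < δ) :
    ∃ S : Matrix K K ℂ, IsUnit S.det ∧ ∀ v, nsq (S.mulVec v) = qf c v + δ * nsq v := by
  let H : Matrix K K ℂ := Matrix.of fun i j =>
    (c (i, j) + (starRingEnd ℂ) (c (j, i))) / 2 + (if i = j then (δ : ℂ) else 0)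
  have hform : ∀ v, pr v (H.mulVec v) = ((qf c v + δ * nsq v : ℝ) : ℂ) := by
    intro v
    have h1 : pr v (H.mulVec v) = ∑ t : K × K, (c t / 2) * ((starRingEnd ℂ) (v t.1) * v t.2) +
        ∑ t : K × K, ((starRingEnd ℂ) (c (t.2, t.1)) / 2) * ((starRingEnd ℂ) (v t.1) * v t.2) +
        (δ : ℂ) * pr v v := by
      unfold pr Matrix.mulVec dotProduct
      rw [Fintype.sum_prod_type, Fintype.sum_prod_type, Finset.mul_sum, ← Finset.sum_add_distrib,
        ← Finset.sum_add_distrib]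
      refine Finset.sum_congr rfl fun i _ => ?_
      rw [← Finset.sum_add_distrib, Finset.mul_sum]
      have h2 : (δ : ℂ) * ((starRingEnd ℂ) (v i) * v i) =
          ∑ j, (if i = j then (δ : ℂ) * ((starRingEnd ℂ) (v i) * v j) else 0) := by
        simp
      rw [h2, ← Finset.sum_add_distrib]
      refine Finset.sum_congr rfl fun j _ => ?_
      simp only [H, Matrix.of_apply]
      split_ifs
      · ring
      · ring
    have h3 : ∑ t : K × K, ((starRingEnd ℂ) (c (t.2, t.1)) / 2) * ((starRingEnd ℂ) (v t.1) * v t.2)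
        = (starRingEnd ℂ) (∑ t : K × K, (c t / 2) * ((starRingEnd ℂ) (v t.1) * v t.2)) := by
      rw [map_sum, ← Equiv.sum_comp (Equiv.prodComm K K)]
      refine Finset.sum_congr rfl fun t _ => ?_
      simp only [Equiv.prodComm_apply, Prod.fst_swap, Prod.snd_swap, map_mul, map_div₀,
        Complex.conj_conj]
      have : (starRingEnd ℂ) (2 : ℂ) = 2 := by
        rw [show (2 : ℂ) = ((2 : ℝ) : ℂ) by norm_num, Complex.conj_ofReal]
      rw [this]
      ring
    rw [h1, h3, Complex.add_conj, pr_self]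
    have h4 : (∑ t : K × K, (c t / 2) * ((starRingEnd ℂ) (v t.1) * v t.2)) =
        (1/2 : ℂ) * ∑ t : K × K, c t * ((starRingEnd ℂ) (v t.1) * v t.2) := by
      rw [Finset.mul_sum]
      exact Finset.sum_congr rfl fun t _ => by ring
    rw [h4]
    have h5 : ((1/2 : ℂ) * ∑ t : K × K, c t * ((starRingEnd ℂ) (v t.1) * v t.2)).re =
        (1/2) * qf c v := by
      unfold qf
      rw [show (1/2 : ℂ) = ((1/2 : ℝ) : ℂ) by norm_num, Complex.re_ofReal_mul]
    rw [h5]
    push_cast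
    ring
  have hherm : H.IsHermitian := by
    ext i j
    simp only [H, Matrix.conjTranspose_apply, Matrix.of_apply]
    change (starRingEnd ℂ) _ = _
    rw [map_add, map_div₀, map_add, Complex.conj_conj]
    have h2 : (starRingEnd ℂ) (2 : ℂ) = 2 := by
      rw [show (2 : ℂ) = ((2 : ℝ) : ℂ) by norm_num, Complex.conj_ofReal]
    rw [h2]
    by_cases hij : i = j
    · subst hij
      rw [if_pos rfl, Complex.conj_ofReal]
      ring
    · rw [if_neg hij, if_neg (Ne.symm hij), map_zero]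
      ring
  have hpos : H.PosDef := by
    refine Matrix.PosDef.of_dotProduct_mulVec_pos hherm fun v hv => ?_
    have h1 : star v ⬝ᵥ H.mulVec v = pr v (H.mulVec v) := rfl
    rw [h1, hform]
    have h2 : 0 < nsq v := by
      rcases (nsq_nonneg v).lt_or_eq with h | h
      · exact h
      · exact absurd (nsq_eq_zero h.symm) hv
    have h3 := hc v
    have : 0 < qf c v + δ * nsq v := by positivity
    exact_mod_cast this
  obtain ⟨S, hS⟩ := exists_factor hpos.posSemidef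
  refine ⟨S, ?_, fun v => ?_⟩
  · have h1 : IsUnit H.det := by
      rw [isUnit_iff_ne_zero]
      exact hpos.det_pos.ne'
    rw [hS, Matrix.det_mul] at h1
    exact isUnit_of_mul_isUnit_right h1
  · have h1 := hform v
    rw [hS, ← Matrix.mulVec_mulVec, pr_mulVec, Matrix.conjTranspose_conjTranspose, pr_self] at h1
    exact_mod_cast h1

lemma nsq_delta (K : Type*) [Fintype K] [DecidableEq K] :
    nsq (fun t : K × K => if t.1 = t.2 then (1 : ℂ) else 0) = Fintype.card K := by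
  unfold nsq
  rw [Fintype.sum_prod_type]
  have h : ∀ x x1 : K, ‖(if x = x1 then (1 : ℂ) else 0)‖ ^ 2 = if x = x1 then (1 : ℝ) else 0 := by
    intro x x1
    split_ifs <;> simp
  simp only [h]
  simp

/-- the ambient real vector space of the duality lemma -/
abbrev DX (P Q ι : Type*) : Type _ := (P → P → ℂ) × (Q → Q → ℂ) × (ι → P → Q → ℂ)

/-- **Duality lemma.** -/
theorem dual_lemma {P Q ι : Type} [Fintype P] [Fintype Q] [Fintype ι] [DecidableEq P]
    [DecidableEq Q] [DecidableEq ι]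
    (F : ∀ p q : ℕ, (ι → Matrix (Fin p) (Fin q) ℂ) → Prop)
    (C : Submodule ℝ≥0 (DX P Q ι)) (hCcl : IsClosed (C : Set (DX P Q ι)))
    (hA : ∀ v : P → ℂ, ((fun i j => v i * (starRingEnd ℂ) (v j), 0, 0) : DX P Q ι) ∈ C)
    (hB : ∀ w : Q → ℂ, ((0, fun i j => w i * (starRingEnd ℂ) (w j), 0) : DX P Q ι) ∈ C)
    (hF : ∀ p q u, F p q u → ∀ (V : Matrix (Fin p) P ℂ) (W : Matrix (Fin q) Q ℂ),
      ((Vᴴ * V, Wᴴ * W, fun l => Vᴴ * u l * W) : DX P Q ι) ∈ C)
    (y : ι → Matrix P Q ℂ)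
    (hy : (((1 : Matrix P P ℂ), (1 : Matrix Q Q ℂ), y) : DX P Q ι) ∉ C) :
    ∃ x : ι → Matrix P Q ℂ, (∀ p q u, F p q u → opn (ks x u) ≤ 1) ∧ 1 < opn (ks x y) := by
  classical
  -- separation
  have hconv : Convex ℝ (C : Set (DX P Q ι)) := by
    intro a ha b hb s t hs ht hst
    have h1 : (⟨s, hs⟩ : ℝ≥0) • a ∈ C := C.smul_mem _ ha
    have h2 : (⟨t, ht⟩ : ℝ≥0) • b ∈ C := C.smul_mem _ hb
    exact C.add_mem h1 h2
  obtain ⟨f, u0, hfy, hfC⟩ := geometric_hahn_banach_point_closed hconv hCcl hy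
  have hu0 : u0 < 0 := by
    have := hfC 0 C.zero_mem
    simpa using this
  have hfC' : ∀ b ∈ C, 0 ≤ f b := by
    intro b hb
    by_contra hneg
    push Not at hneg
    have h1 : (⟨u0 / f b, div_nonneg_of_nonpos hu0.le hneg.le⟩ : ℝ≥0) • b ∈ C := C.smul_mem _ hb
    have h2 := hfC _ h1
    have h3 : f ((⟨u0 / f b, div_nonneg_of_nonpos hu0.le hneg.le⟩ : ℝ≥0) • b) = (u0 / f b) * f b := by
      change f ((u0 / f b) • b) = _
      rw [map_smul, smul_eq_mul]
    rw [h3, div_mul_cancel₀ _ hneg.ne] at h2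
    exact lt_irrefl _ h2
  have hfy' : f (((1 : Matrix P P ℂ), (1 : Matrix Q Q ℂ), y) : DX P Q ι) < 0 := hfy.trans hu0
  -- representation of the three parts
  let g0 : (P × P → ℂ) →ₗ[ℝ] ℝ :=
    { toFun := fun A => f ((fun i j => A (i, j), 0, 0) : DX P Q ι)
      map_add' := fun A B => by
        rw [← map_add]; congr 1; ext <;> simp
      map_smul' := fun c A => by
        rw [RingHom.id_apply, ← map_smul]; congr 1; ext <;> simp }
  let g1 : (Q × Q → ℂ) →ₗ[ℝ] ℝ :=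
    { toFun := fun A => f ((0, fun i j => A (i, j), 0) : DX P Q ι)
      map_add' := fun A B => by
        rw [← map_add]; congr 1; ext <;> simp
      map_smul' := fun c A => by
        rw [RingHom.id_apply, ← map_smul]; congr 1; ext <;> simp }
  let g2 : (ι × P × Q → ℂ) →ₗ[ℝ] ℝ :=
    { toFun := fun A => f ((0, 0, fun l i j => A (l, i, j)) : DX P Q ι)
      map_add' := fun A B => by
        rw [← map_add]; congr 1; ext <;> simp
      map_smul' := fun c A => by
        rw [RingHom.id_apply, ← map_smul]; congr 1; ext <;> simp }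
  obtain ⟨c0, hc0⟩ := real_functional g0
  obtain ⟨c1, hc1⟩ := real_functional g1
  obtain ⟨c2, hc2⟩ := real_functional g2
  have hfsplit : ∀ (A : Matrix P P ℂ) (B : Matrix Q Q ℂ) (z : ι → Matrix P Q ℂ),
      f ((A, B, z) : DX P Q ι) = g0 (fun t => A t.1 t.2) + g1 (fun t => B t.1 t.2) +
        g2 (fun t => z t.1 t.2.1 t.2.2) := by
    intro A B z
    change _ = f ((fun i j => A i j, 0, 0) : DX P Q ι) + f ((0, fun i j => B i j, 0) : DX P Q ι) +
      f ((0, 0, fun l i j => z l i j) : DX P Q ι)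
    rw [← map_add, ← map_add]
    congr 1
    ext <;> simp
  -- positivity of the quadratic forms
  have hq0 : ∀ v, 0 ≤ qf c0 v := by
    intro v
    have h1 := hfC' _ (hA (fun i => (starRingEnd ℂ) (v i)))
    have h2 : f ((fun i j => (starRingEnd ℂ) (v i) * (starRingEnd ℂ) ((starRingEnd ℂ) (v j)), 0, 0) :
        DX P Q ι) = g0 (fun t => (starRingEnd ℂ) (v t.1) * v t.2) := by
      simp only [Complex.conj_conj]; rfl
    rw [h2, hc0] at h1
    exact h1
  have hq1 : ∀ v, 0 ≤ qf c1 v := by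
    intro v
    have h1 := hfC' _ (hB (fun i => (starRingEnd ℂ) (v i)))
    have h2 : f ((0, fun i j => (starRingEnd ℂ) (v i) * (starRingEnd ℂ) ((starRingEnd ℂ) (v j)), 0) :
        DX P Q ι) = g1 (fun t => (starRingEnd ℂ) (v t.1) * v t.2) := by
      simp only [Complex.conj_conj]; rfl
    rw [h2, hc1] at h1
    exact h1
  -- choice of `δ`
  have hN : (0 : ℝ) < (Fintype.card P : ℝ) + Fintype.card Q + 1 := by positivity
  set δ : ℝ := (-(f (((1 : Matrix P P ℂ), (1 : Matrix Q Q ℂ), y) : DX P Q ι))) /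
    ((Fintype.card P : ℝ) + Fintype.card Q + 1) with hδ
  have hδ0 : 0 < δ := div_pos (by linarith) hN
  obtain ⟨S0, hS0u, hS0⟩ := exists_root c0 hq0 hδ0
  obtain ⟨S1, hS1u, hS1⟩ := exists_root c1 hq1 hδ0
  let Xt : ι → Matrix P Q ℂ := fun l => Matrix.of fun i j => -(c2 (l, i, j)) / 2
  have hXt : ∀ z : ι → Matrix P Q ℂ, 2 * (∑ l, ∑ i, ∑ j, Xt l i j * z l i j).re =
      - g2 (fun t => z t.1 t.2.1 t.2.2) := by
    intro z
    rw [hc2]
    have h1 : ∑ k : ι × P × Q, c2 k * z k.1 k.2.1 k.2.2 =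
        (-2 : ℂ) * ∑ l, ∑ i, ∑ j, Xt l i j * z l i j := by
      rw [Fintype.sum_prod_type, Finset.mul_sum]
      refine Finset.sum_congr rfl fun l _ => ?_
      rw [Fintype.sum_prod_type, Finset.mul_sum]
      refine Finset.sum_congr rfl fun i _ => ?_
      rw [Finset.mul_sum]
      refine Finset.sum_congr rfl fun j _ => ?_
      simp only [Xt, Matrix.of_apply]
      ring
    rw [h1, show (-2 : ℂ) = ((-2 : ℝ) : ℂ) by norm_num, Complex.re_ofReal_mul]
    ring
  let x : ι → Matrix P Q ℂ := fun l => (S0⁻¹)ᴴ * Xt l * S1⁻¹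
  have hx : ∀ {p q : Type} [Fintype p] [Fintype q] [DecidableEq p] [DecidableEq q]
      (u : ι → Matrix p q ℂ) (ω : P × p → ℂ) (ζ : Q × q → ℂ),
      pr ω ((ks x u).mulVec ζ) =
        pr ((ampl p S0⁻¹).mulVec ω) ((ks Xt u).mulVec ((ampl q S1⁻¹).mulVec ζ)) := by
    intro p q _ _ _ _ u ω ζ
    change pr ω ((ks (fun l => (S0⁻¹)ᴴ * Xt l * S1⁻¹) u).mulVec ζ) = _
    rw [ks_compress, ← Matrix.mulVec_mulVec, ← Matrix.mulVec_mulVec, pr_mulVec,
      ampl_conjTranspose, Matrix.conjTranspose_conjTranspose]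
  refine ⟨x, ?_, ?_⟩
  · intro p q u hu
    apply opn_le_one_of_pr
    intro ζ' ω'
    rw [hx]
    set ζ := (ampl (Fin q) S1⁻¹).mulVec ζ' with hζ
    set ω := (ampl (Fin p) S0⁻¹).mulVec ω' with hω
    have e1 : nsq ω' = ∑ a, qf c0 (fun i => ω (i, a)) + δ * nsq ω := by
      rw [← nsq_ampl hS0, hω, ampl_inv_cancel hS0u]
    have e2 : nsq ζ' = ∑ a, qf c1 (fun i => ζ (i, a)) + δ * nsq ζ := by
      rw [← nsq_ampl hS1, hζ, ampl_inv_cancel hS1u]
    rw [pr_ks]
    set V : Matrix (Fin p) P ℂ := Matrix.of fun (α : Fin p) (i : P) => ω (i, α) with hVdef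
    set W : Matrix (Fin q) Q ℂ := Matrix.of fun (β : Fin q) (j : Q) => ζ (j, β) with hWdef
    have h1 := hfC' _ (hF p q u hu V W)
    rw [hfsplit, hc0, hc1, qf_gram, qf_gram] at h1
    have h2 := hXt (fun l => Vᴴ * u l * W)
    have h3 := nsq_nonneg ω
    have h4 := nsq_nonneg ζ
    have h5 : ∑ a, qf c0 (fun i => ω (i, a)) = ∑ α, qf c0 (fun i => V α i) := rfl
    have h6 : ∑ a, qf c1 (fun i => ζ (i, a)) = ∑ α, qf c1 (fun i => W α i) := rfl
    rw [e1, e2, h5, h6]
    have h7 : 0 ≤ δ * nsq ω := by positivity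
    have h8 : 0 ≤ δ * nsq ζ := by positivity
    linarith
  · by_contra hcon
    push Not at hcon
    let ω : P × P → ℂ := fun t => if t.1 = t.2 then 1 else 0
    let ζ : Q × Q → ℂ := fun t => if t.1 = t.2 then 1 else 0
    have h1 := re_pr_le_of_opn hcon ((ampl Q S1).mulVec ζ) ((ampl P S0).mulVec ω)
    rw [hx, ampl_inv_cancel' hS0u, ampl_inv_cancel' hS1u, pr_ks, nsq_ampl hS0, nsq_ampl hS1] at h1
    have e1 : (Matrix.of fun (α : P) (i : P) => ω (i, α)) = 1 := by
      ext α i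
      simp only [ω, Matrix.of_apply, Matrix.one_apply, eq_comm]
    have e2 : (Matrix.of fun (α : Q) (i : Q) => ζ (i, α)) = 1 := by
      ext α i
      simp only [ζ, Matrix.of_apply, Matrix.one_apply, eq_comm]
    have h2 : ∑ l, ∑ i, ∑ j, Xt l i j *
        ((Matrix.of fun (α : P) (i : P) => ω (i, α))ᴴ * y l *
        (Matrix.of fun (β : Q) (j : Q) => ζ (j, β))) i j = ∑ l, ∑ i, ∑ j, Xt l i j * y l i j := by
      rw [e1, e2]
      simp
    rw [h2] at h1
    have h3 := hXt y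
    have h4 : ∑ a, qf c0 (fun i => ω (i, a)) =
        ∑ α, qf c0 (fun i => (Matrix.of fun (α : P) (i : P) => ω (i, α)) α i) := rfl
    have h5 : ∑ a, qf c1 (fun i => ζ (i, a)) =
        ∑ α, qf c1 (fun i => (Matrix.of fun (α : Q) (i : Q) => ζ (i, α)) α i) := rfl
    rw [h4, h5, ← qf_gram, ← qf_gram, e1, e2, Matrix.conjTranspose_one, Matrix.one_mul,
      Matrix.conjTranspose_one, Matrix.one_mul, ← hc0, ← hc1] at h1
    have h6 := hfsplit 1 1 y
    have h7 : nsq ω = Fintype.card P := nsq_delta P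
    have h8 : nsq ζ = Fintype.card Q := nsq_delta Q
    rw [h7, h8] at h1
    have h9 : δ * ((Fintype.card P : ℝ) + Fintype.card Q + 1) =
        -(f (((1 : Matrix P P ℂ), (1 : Matrix Q Q ℂ), y) : DX P Q ι)) := by
      rw [hδ]; field_simp
    have h10 : f (((1 : Matrix P P ℂ), (1 : Matrix Q Q ℂ), y) : DX P Q ι) =
      g0 (fun t => (1 : Matrix P P ℂ) t.1 t.2) + g1 (fun t => (1 : Matrix Q Q ℂ) t.1 t.2) +
        g2 (fun t => y t.1 t.2.1 t.2.2) := h6
    nlinarith

end Pool.Agent.W_MP_7b81ff_an
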