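import Mathlib

set_option autoImplicit false

open Finset

namespace Pool.Agent.W_MP_7b81ff_an

/-- The two dimensional torus. -/
abbrev Tor := UnitAddCircle × UnitAddCircle

/-- The representative in `(-1/2, 1/2]`. -/
noncomputable def rep (x : UnitAddCircle) : ℝ := (AddCircle.equivIoc 1 (-1/2) x : ℝ)

lemma rep_mem (x : UnitAddCircle) : -1/2 < rep x ∧ rep x ≤ 1/2 := by
  have h := (AddCircle.equivIoc 1 (-1/2 : ℝ) x).2
  simp only [Set.mem_Ioc] at h
  unfold rep
  constructor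
  · exact h.1
  · linarith [h.2]

lemma coe_rep (x : UnitAddCircle) : ((rep x : ℝ) : UnitAddCircle) = x :=
  AddCircle.coe_equivIoc

lemma rep_coe {t : ℝ} (h : -1/2 < t) (h' : t ≤ 1/2) : rep (t : UnitAddCircle) = t := by
  have h2 : t ∈ Set.Ioc (-1/2 : ℝ) (-1/2 + 1) := ⟨h, by linarith⟩
  exact AddCircle.equivIoc_coe_of_mem h2

lemma rep_zero : rep 0 = 0 := by
  have := rep_coe (t := 0) (by norm_num) (by norm_num)
  simpa using this

lemma rep_eq_zero {x : UnitAddCircle} (h : rep x = 0) : x = 0 := by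
  have := coe_rep x
  rw [h] at this
  simpa using this.symm

lemma rep_add {x y : UnitAddCircle} (hx : |rep x| < 1/4) (hy : |rep y| < 1/4) :
    rep (x + y) = rep x + rep y := by
  have h : x + y = ((rep x + rep y : ℝ) : UnitAddCircle) := by
    rw [AddCircle.coe_add, coe_rep, coe_rep]
  have hx' := abs_lt.1 hx
  have hy' := abs_lt.1 hy
  rw [h, rep_coe (by linarith) (by linarith)]

lemma rep_sub {x y : UnitAddCircle} (hx : |rep x| < 1/4) (hy : |rep y| < 1/4) :
    rep (x - y) = rep x - rep y := by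
  have h : x - y = ((rep x - rep y : ℝ) : UnitAddCircle) := by
    rw [AddCircle.coe_sub, coe_rep, coe_rep]
  have hx' := abs_lt.1 hx
  have hy' := abs_lt.1 hy
  rw [h, rep_coe (by linarith) (by linarith)]

lemma abs_rep (x : UnitAddCircle) : |rep x| = ‖x‖ := by
  have h : ‖((rep x : ℝ) : UnitAddCircle)‖ = |rep x| := by
    rw [AddCircle.norm_coe_eq_abs_iff _ one_ne_zero]
    have := rep_mem x
    rw [abs_le]
    simp only [abs_one]
    constructor <;> linarith
  rw [coe_rep] at h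
  exact h.symm

lemma abs_rep_neg (x : UnitAddCircle) : |rep (-x)| = |rep x| := by
  rw [abs_rep, abs_rep, norm_neg]

/-- the standard character -/
noncomputable def ph (x : UnitAddCircle) : ℂ := (AddCircle.toCircle x : ℂ)

lemma norm_ph (x : UnitAddCircle) : ‖ph x‖ = 1 := by
  unfold ph; exact Circle.norm_coe _

lemma ph_sub (x y : UnitAddCircle) : ‖ph x - ph y‖ = ‖ph (x - y) - 1‖ := by
  have h : ph x = ph (x - y) * ph y := by
    unfold ph
    rw [← Circle.coe_mul, ← AddCircle.toCircle_add, sub_add_cancel]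
  rw [h, ← sub_one_mul, norm_mul, norm_ph, mul_one]

lemma ph_far {z : UnitAddCircle} (h : 1/4 ≤ |rep z|) : 2 ≤ ‖ph z - 1‖ ^ 2 := by
  have h1 : ph z = Complex.exp (((2 * Real.pi * rep z : ℝ) : ℂ) * Complex.I) := by
    unfold ph
    conv_lhs => rw [← coe_rep z]
    rw [AddCircle.toCircle_apply_mk, Circle.coe_exp]
    norm_num
  have h2 : ‖ph z - 1‖ ^ 2 = 2 - 2 * Real.cos (2 * Real.pi * rep z) := by
    rw [h1, Complex.sq_norm, Complex.normSq_apply, Complex.exp_mul_I]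
    simp only [Complex.sub_re, Complex.add_re, Complex.mul_re, Complex.sub_im, Complex.add_im,
      Complex.mul_im, Complex.I_re, Complex.I_im, Complex.one_re, Complex.one_im,
      Complex.cos_ofReal_re, Complex.sin_ofReal_re, Complex.cos_ofReal_im, Complex.sin_ofReal_im]
    have := Real.sin_sq_add_cos_sq (2 * Real.pi * rep z)
    nlinarith
  have h3 : Real.cos (2 * Real.pi * rep z) ≤ 0 := by
    rw [← Real.cos_abs]
    have hpi := Real.pi_pos
    have h4 : |2 * Real.pi * rep z| = 2 * Real.pi * |rep z| := by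
      rw [abs_mul, abs_of_pos (by positivity)]
    rw [h4]
    have h5 : |rep z| ≤ 1/2 := by
      have := rep_mem z
      rw [abs_le]; constructor <;> linarith
    apply Real.cos_nonpos_of_pi_div_two_le_of_le
    · nlinarith
    · nlinarith
  rw [h2]
  linarith

/-- Elements of exact order `m` of the torus. -/
def Om (m : ℕ) : Type := {ω : Tor // addOrderOf ω = m}

lemma Om_finite {m : ℕ} (hm : 0 < m) : Finite (Om m) := by
  have h1 : {u : UnitAddCircle | m • u = 0}.Finite := AddCircle.finite_torsion 1 hm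
  have h2 : {ω : Tor | addOrderOf ω = m}.Finite := by
    refine (h1.prod h1).subset ?_
    intro ω hω
    have h3 : m • ω = 0 := by
      rw [← (show addOrderOf ω = m from hω)]; exact addOrderOf_nsmul_eq_zero ω
    have h4 := congrArg Prod.fst h3
    have h5 := congrArg Prod.snd h3
    exact ⟨h4, h5⟩
  exact h2.to_subtype

/-- the shear `(x,y) ↦ (x+y,y)` -/
def shG : Tor ≃+ Tor where
  toFun z := (z.1 + z.2, z.2)
  invFun z := (z.1 - z.2, z.2)
  left_inv z := by simp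
  right_inv z := by simp
  map_add' a b := by
    ext <;> simp
    abel

/-- the shear `(x,y) ↦ (x,x+y)` -/
def shH : Tor ≃+ Tor where
  toFun z := (z.1, z.1 + z.2)
  invFun z := (z.1, z.2 - z.1)
  left_inv z := by simp
  right_inv z := by simp
  map_add' a b := by
    ext <;> simp
    abel

/-- the induced permutation of the elements of exact order `m` -/
def act (g : Tor ≃+ Tor) (m : ℕ) : Om m ≃ Om m where
  toFun ω := ⟨g ω.1, by rw [AddEquiv.addOrderOf_eq]; exact ω.2⟩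
  invFun ω := ⟨g.symm ω.1, by rw [AddEquiv.addOrderOf_eq]; exact ω.2⟩
  left_inv ω := Subtype.ext (by simp)
  right_inv ω := Subtype.ext (by simp)

lemma act_val (g : Tor ≃+ Tor) (m : ℕ) (ω : Om m) : (act g m ω).1 = g ω.1 := rfl

variable {m n : ℕ} [Fintype (Om m)] [Fintype (Om n)]

open Classical in
/-- the mass of `|S|²` on the pairs with difference in `Q` -/
noncomputable def mass (S : Om m × Om n → ℂ) (Q : Set Tor) : ℝ :=
  ∑ p : Om m × Om n, if p.1.1 - p.2.1 ∈ Q then ‖S p‖ ^ 2 else 0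

/-- total mass -/
noncomputable def tot (S : Om m × Om n → ℂ) : ℝ := ∑ p : Om m × Om n, ‖S p‖ ^ 2

/-- displacement under `g` -/
noncomputable def dis (g : Tor ≃+ Tor) (S : Om m × Om n → ℂ) : ℝ :=
  ∑ p : Om m × Om n, ‖S p - S (act g m p.1, act g n p.2)‖ ^ 2

/-- displacement under the phase -/
noncomputable def disP (S : Om m × Om n → ℂ) : ℝ :=
  ∑ p : Om m × Om n, ‖(ph p.1.1.1 - ph p.2.1.1) * S p‖ ^ 2

lemma mass_mono (S : Om m × Om n → ℂ) {Q Q' : Set Tor} (h : Q ⊆ Q') : mass S Q ≤ mass S Q' := by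
  classical
  unfold mass
  refine Finset.sum_le_sum fun p _ => ?_
  by_cases h1 : p.1.1 - p.2.1 ∈ Q
  · rw [if_pos h1, if_pos (h h1)]
  · rw [if_neg h1]; split_ifs <;> positivity

lemma mass_add_le (S : Om m × Om n → ℂ) {Q Q' R : Set Tor} (h : Q ⊆ R) (h' : Q' ⊆ R)
    (hd : ∀ z ∈ Q, z ∉ Q') : mass S Q + mass S Q' ≤ mass S R := by
  classical
  unfold mass
  rw [← Finset.sum_add_distrib]
  refine Finset.sum_le_sum fun p _ => ?_
  by_cases h1 : p.1.1 - p.2.1 ∈ Q
  · rw [if_pos h1, if_pos (h h1), if_neg (hd _ h1), add_zero]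
  · by_cases h2 : p.1.1 - p.2.1 ∈ Q'
    · rw [if_neg h1, if_pos h2, if_pos (h' h2), zero_add]
    · rw [if_neg h1, if_neg h2]; split_ifs <;> simp

lemma mass_le_add (S : Om m × Om n → ℂ) {Q Q' R : Set Tor} (h : R ⊆ Q ∪ Q') :
    mass S R ≤ mass S Q + mass S Q' := by
  classical
  unfold mass
  rw [← Finset.sum_add_distrib]
  refine Finset.sum_le_sum fun p _ => ?_
  have h0 : 0 ≤ ‖S p‖ ^ 2 := by positivity
  by_cases h1 : p.1.1 - p.2.1 ∈ R
  · rw [if_pos h1]
    rcases h h1 with h2 | h2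
    · rw [if_pos h2]; split_ifs <;> linarith
    · rw [if_pos h2]; split_ifs <;> linarith
  · rw [if_neg h1]; split_ifs <;> linarith

lemma mass_shift (g : Tor ≃+ Tor) (S : Om m × Om n → ℂ) (Q Q' : Set Tor)
    (h : ∀ z, z ∈ Q ↔ g z ∈ Q') :
    |mass S Q - mass S Q'| ≤ 2 * (Real.sqrt (dis g S) * Real.sqrt (tot S)) := by
  classical
  let e : Om m × Om n ≃ Om m × Om n := (act g m).prodCongr (act g n)
  have he : ∀ p, e p = (act g m p.1, act g n p.2) := fun p => rfl
  have h1 : mass S Q' = ∑ p : Om m × Om n, if p.1.1 - p.2.1 ∈ Q then ‖S (e p)‖ ^ 2 else 0 := by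
    unfold mass
    rw [← Equiv.sum_comp e]
    refine Finset.sum_congr rfl fun p _ => ?_
    have h2 : ((e p).1.1 - (e p).2.1 ∈ Q') ↔ (p.1.1 - p.2.1 ∈ Q) := by
      rw [h, he, act_val, act_val, map_sub]
    simp only [h2]
  have htot : ∑ p, ‖S (e p)‖ ^ 2 = tot S := by
    unfold tot
    exact Equiv.sum_comp e (fun p => ‖S p‖ ^ 2)
  rw [h1]
  unfold mass
  rw [← Finset.sum_sub_distrib]
  have h3 : ∀ p : Om m × Om n, |(if p.1.1 - p.2.1 ∈ Q then ‖S p‖ ^ 2 else 0) -
      (if p.1.1 - p.2.1 ∈ Q then ‖S (e p)‖ ^ 2 else 0)| ≤ ‖S p - S (e p)‖ * (‖S p‖ + ‖S (e p)‖) := by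
    intro p
    have h4 : |‖S p‖ ^ 2 - ‖S (e p)‖ ^ 2| ≤ ‖S p - S (e p)‖ * (‖S p‖ + ‖S (e p)‖) := by
      have h5 : ‖S p‖ ^ 2 - ‖S (e p)‖ ^ 2 = (‖S p‖ - ‖S (e p)‖) * (‖S p‖ + ‖S (e p)‖) := by ring
      rw [h5, abs_mul, abs_of_nonneg (by positivity : 0 ≤ ‖S p‖ + ‖S (e p)‖)]
      have := abs_norm_sub_norm_le (S p) (S (e p))
      gcongr
    split_ifs
    · exact h4
    · simp only [sub_self, abs_zero]; positivity
  calc _ ≤ ∑ p : Om m × Om n, |(if p.1.1 - p.2.1 ∈ Q then ‖S p‖ ^ 2 else 0) -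
      (if p.1.1 - p.2.1 ∈ Q then ‖S (e p)‖ ^ 2 else 0)| := Finset.abs_sum_le_sum_abs _ _
    _ ≤ ∑ p : Om m × Om n, ‖S p - S (e p)‖ * (‖S p‖ + ‖S (e p)‖) :=
        Finset.sum_le_sum fun p _ => h3 p
    _ ≤ Real.sqrt (∑ p : Om m × Om n, ‖S p - S (e p)‖ ^ 2) *
        Real.sqrt (∑ p : Om m × Om n, (‖S p‖ + ‖S (e p)‖) ^ 2) :=
        Real.sum_mul_le_sqrt_mul_sqrt _ _ _
    _ ≤ Real.sqrt (dis g S) * (2 * Real.sqrt (tot S)) := by
        have h6 : ∑ p : Om m × Om n, (‖S p‖ + ‖S (e p)‖) ^ 2 ≤ 2 ^ 2 * tot S := by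
          calc ∑ p : Om m × Om n, (‖S p‖ + ‖S (e p)‖) ^ 2
              ≤ ∑ p : Om m × Om n, (2 * ‖S p‖ ^ 2 + 2 * ‖S (e p)‖ ^ 2) := by
                refine Finset.sum_le_sum fun p _ => ?_
                nlinarith [sq_nonneg (‖S p‖ - ‖S (e p)‖)]
            _ = 2 * tot S + 2 * tot S := by
                rw [Finset.sum_add_distrib, ← Finset.mul_sum, ← Finset.mul_sum, htot]; rfl
            _ = 2 ^ 2 * tot S := by ring
        have h7 : Real.sqrt (∑ p : Om m × Om n, (‖S p‖ + ‖S (e p)‖) ^ 2) ≤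
            2 * Real.sqrt (tot S) := by
          refine (Real.sqrt_le_sqrt h6).trans ?_
          rw [Real.sqrt_mul (by positivity), Real.sqrt_sq (by norm_num)]
        have h8 : ∑ p : Om m × Om n, ‖S p - S (e p)‖ ^ 2 = dis g S := rfl
        rw [h8]
        gcongr
    _ = _ := by ring

/-- the four regions -/
def farX : Set Tor := {z | 1/4 ≤ |rep z.1|}
def farY : Set Tor := {z | 1/4 ≤ |rep z.2|}
def midS : Set Tor := {z | 1/4 ≤ |rep (z.2 - z.1)|}
def Qp : Set Tor := {z | 0 < rep z.1 * rep z.2 ∨ (rep z.2 = 0 ∧ rep z.1 ≠ 0)}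
def Qm : Set Tor := {z | rep z.1 * rep z.2 < 0 ∨ (rep z.1 = 0 ∧ rep z.2 ≠ 0)}
def boxS : Set Tor := {z | |rep z.1| < 1/4 ∧ |rep z.2| < 1/4}

lemma mass_farX (S : Om m × Om n → ℂ) : 2 * mass S farX ≤ disP S := by
  classical
  unfold mass disP
  rw [Finset.mul_sum]
  refine Finset.sum_le_sum fun p _ => ?_
  rw [norm_mul, mul_pow, ph_sub]
  split_ifs with h
  · have h1 : 2 ≤ ‖ph (p.1.1.1 - p.2.1.1) - 1‖ ^ 2 := ph_far h
    gcongr
  · rw [mul_zero]; positivity

lemma mass_farY (S : Om m × Om n → ℂ) : mass S farY ≤ mass S farX +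
    2 * (Real.sqrt (dis shG S) * Real.sqrt (tot S)) +
    2 * (Real.sqrt (dis shH S) * Real.sqrt (tot S)) := by
  have h1 := mass_shift shH S farY midS (by
    intro z
    simp only [farY, midS, Set.mem_ofPred_eq]
    have : (shH z).2 - (shH z).1 = z.2 := by simp [shH]
    rw [this])
  have h2 := mass_shift shG S farX midS (by
    intro z
    simp only [farX, midS, Set.mem_ofPred_eq]
    have : (shG z).2 - (shG z).1 = - z.1 := by simp [shG]
    rw [this, abs_rep_neg])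
  have h3 := (abs_le.1 h1).2
  have h4 := (abs_le.1 h2).1
  linarith

lemma mem_Qp {z : Tor} : z ∈ Qp ↔ 0 < rep z.1 * rep z.2 ∨ (rep z.2 = 0 ∧ rep z.1 ≠ 0) := Iff.rfl
lemma mem_Qm {z : Tor} : z ∈ Qm ↔ rep z.1 * rep z.2 < 0 ∨ (rep z.1 = 0 ∧ rep z.2 ≠ 0) := Iff.rfl

lemma mass_Qp (S : Om m × Om n → ℂ) : mass S Qp ≤ 2 * (mass S farX + mass S farY) +
    2 * (Real.sqrt (dis shG S) * Real.sqrt (tot S)) +
    2 * (Real.sqrt (dis shH S) * Real.sqrt (tot S)) := by
  let GP : Set Tor := {z | shG.symm z ∈ Qp ∩ boxS}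
  let HP : Set Tor := {z | shH.symm z ∈ Qp ∩ boxS}
  have hG : ∀ z ∈ GP, z ∈ Qp ∧ rep z.2 ^ 2 < rep z.1 ^ 2 := by
    intro z hz
    obtain ⟨w, rfl⟩ : ∃ w, z = shG w := ⟨shG.symm z, by simp⟩
    have hw : w ∈ Qp ∩ boxS := by
      have : shG.symm (shG w) ∈ Qp ∩ boxS := hz
      simpa using this
    obtain ⟨h1, h2, h3⟩ := hw
    have e1 : rep (shG w).1 = rep w.1 + rep w.2 := rep_add h2 h3
    have e2 : rep (shG w).2 = rep w.2 := rfl
    rw [mem_Qp] at h1 ⊢
    rw [e1, e2]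
    rcases h1 with h1 | ⟨h1, h4⟩
    · refine ⟨Or.inl (by nlinarith [sq_nonneg (rep w.2)]), ?_⟩
      have : rep w.1 ≠ 0 := by rintro h; rw [h] at h1; simp at h1
      have : 0 < rep w.1 ^ 2 := by positivity
      nlinarith
    · rw [h1]
      refine ⟨Or.inr ⟨rfl, by simpa using h4⟩, ?_⟩
      have : 0 < rep w.1 ^ 2 := by positivity
      nlinarith
  have hH : ∀ z ∈ HP, z ∈ Qp ∧ rep z.1 ^ 2 ≤ rep z.2 ^ 2 := by
    intro z hz
    obtain ⟨w, rfl⟩ : ∃ w, z = shH w := ⟨shH.symm z, by simp⟩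
    have hw : w ∈ Qp ∩ boxS := by
      have : shH.symm (shH w) ∈ Qp ∩ boxS := hz
      simpa using this
    obtain ⟨h1, h2, h3⟩ := hw
    have e1 : rep (shH w).2 = rep w.1 + rep w.2 := rep_add h2 h3
    have e2 : rep (shH w).1 = rep w.1 := rfl
    rw [mem_Qp] at h1 ⊢
    rw [e1, e2]
    rcases h1 with h1 | ⟨h1, h4⟩
    · refine ⟨Or.inl (by nlinarith [sq_nonneg (rep w.1)]), ?_⟩
      nlinarith [sq_nonneg (rep w.2)]
    · rw [h1]
      have : 0 < rep w.1 ^ 2 := by positivity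
      refine ⟨Or.inl (by nlinarith), by nlinarith⟩
  have h1 : mass S GP + mass S HP ≤ mass S Qp :=
    mass_add_le S (fun z hz => (hG z hz).1) (fun z hz => (hH z hz).1) (fun z hz hz' => by
      have := (hG z hz).2
      have := (hH z hz').2
      linarith)
  have h2 := (abs_le.1 (mass_shift shG S (Qp ∩ boxS) GP (by
    intro z
    change _ ↔ shG.symm (shG z) ∈ Qp ∩ boxS
    rw [AddEquiv.symm_apply_apply]))).2
  have h3 := (abs_le.1 (mass_shift shH S (Qp ∩ boxS) HP (by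
    intro z
    change _ ↔ shH.symm (shH z) ∈ Qp ∩ boxS
    rw [AddEquiv.symm_apply_apply]))).2
  have h4 : mass S Qp ≤ mass S (Qp ∩ boxS) + mass S (farX ∪ farY) := by
    apply mass_le_add
    intro z hz
    by_cases hb : z ∈ boxS
    · exact Or.inl ⟨hz, hb⟩
    · right
      simp only [boxS, Set.mem_ofPred_eq, not_and_or, not_lt] at hb
      exact hb
  have h5 : mass S (farX ∪ farY) ≤ mass S farX + mass S farY := mass_le_add S le_rfl
  linarith

lemma mass_Qm (S : Om m × Om n → ℂ) : mass S Qm ≤ 2 * (mass S farX + mass S farY) +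
    2 * (Real.sqrt (dis shG S) * Real.sqrt (tot S)) +
    2 * (Real.sqrt (dis shH S) * Real.sqrt (tot S)) := by
  let GP : Set Tor := {z | shG z ∈ Qm ∩ boxS}
  let HP : Set Tor := {z | shH z ∈ Qm ∩ boxS}
  have hG : ∀ z ∈ GP, z ∈ Qm ∧ rep z.2 ^ 2 ≤ rep z.1 ^ 2 := by
    intro z hz
    obtain ⟨w, rfl⟩ : ∃ w, z = shG.symm w := ⟨shG z, by simp⟩
    have hw : w ∈ Qm ∩ boxS := by
      have : shG (shG.symm w) ∈ Qm ∩ boxS := hz
      simpa using this
    obtain ⟨h1, h2, h3⟩ := hw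
    have e1 : rep (shG.symm w).1 = rep w.1 - rep w.2 := rep_sub h2 h3
    have e2 : rep (shG.symm w).2 = rep w.2 := rfl
    rw [mem_Qm] at h1 ⊢
    rw [e1, e2]
    rcases h1 with h1 | ⟨h1, h4⟩
    · refine ⟨Or.inl (by nlinarith [sq_nonneg (rep w.2)]), ?_⟩
      nlinarith [sq_nonneg (rep w.1)]
    · rw [h1]
      have : 0 < rep w.2 ^ 2 := by positivity
      refine ⟨Or.inl (by nlinarith), by nlinarith⟩
  have hH : ∀ z ∈ HP, z ∈ Qm ∧ rep z.1 ^ 2 < rep z.2 ^ 2 := by
    intro z hz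
    obtain ⟨w, rfl⟩ : ∃ w, z = shH.symm w := ⟨shH z, by simp⟩
    have hw : w ∈ Qm ∩ boxS := by
      have : shH (shH.symm w) ∈ Qm ∩ boxS := hz
      simpa using this
    obtain ⟨h1, h2, h3⟩ := hw
    have e1 : rep (shH.symm w).2 = rep w.2 - rep w.1 := rep_sub h3 h2
    have e2 : rep (shH.symm w).1 = rep w.1 := rfl
    rw [mem_Qm] at h1 ⊢
    rw [e1, e2]
    rcases h1 with h1 | ⟨h1, h4⟩
    · refine ⟨Or.inl (by nlinarith [sq_nonneg (rep w.1)]), ?_⟩
      have : rep w.2 ≠ 0 := by rintro h; rw [h] at h1; simp at h1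
      have : 0 < rep w.2 ^ 2 := by positivity
      nlinarith
    · rw [h1]
      have : 0 < rep w.2 ^ 2 := by positivity
      refine ⟨Or.inr ⟨rfl, by simpa using h4⟩, by nlinarith⟩
  have h1 : mass S GP + mass S HP ≤ mass S Qm :=
    mass_add_le S (fun z hz => (hG z hz).1) (fun z hz => (hH z hz).1) (fun z hz hz' => by
      have := (hG z hz).2
      have := (hH z hz').2
      linarith)
  have h2 := (abs_le.1 (mass_shift shG S GP (Qm ∩ boxS) (fun z => Iff.rfl))).1
  have h3 := (abs_le.1 (mass_shift shH S HP (Qm ∩ boxS) (fun z => Iff.rfl))).1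
  have h4 : mass S Qm ≤ mass S (Qm ∩ boxS) + mass S (farX ∪ farY) := by
    apply mass_le_add
    intro z hz
    by_cases hb : z ∈ boxS
    · exact Or.inl ⟨hz, hb⟩
    · right
      simp only [boxS, Set.mem_ofPred_eq, not_and_or, not_lt] at hb
      exact hb
  have h5 : mass S (farX ∪ farY) ≤ mass S farX + mass S farY := mass_le_add S le_rfl
  linarith

lemma tot_le_mass (hmn : m ≠ n) (S : Om m × Om n → ℂ) : tot S ≤ mass S Qp + mass S Qm := by
  classical
  unfold tot mass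
  rw [← Finset.sum_add_distrib]
  refine Finset.sum_le_sum fun p _ => ?_
  have h0 : 0 ≤ ‖S p‖ ^ 2 := by positivity
  have hne : p.1.1 - p.2.1 ≠ 0 := by
    intro h
    have h1 : p.1.1 = p.2.1 := sub_eq_zero.1 h
    exact hmn (p.1.2.symm.trans ((congrArg addOrderOf h1).trans p.2.2))
  have hmem : p.1.1 - p.2.1 ∈ Qp ∨ p.1.1 - p.2.1 ∈ Qm := by
    set z := p.1.1 - p.2.1
    rw [mem_Qp, mem_Qm]
    rcases lt_trichotomy (rep z.1 * rep z.2) 0 with h | h | h
    · exact Or.inr (Or.inl h)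
    · rcases mul_eq_zero.1 h with h1 | h1
      · by_cases h2 : rep z.2 = 0
        · exact absurd (Prod.ext (rep_eq_zero h1) (rep_eq_zero h2)) hne
        · exact Or.inr (Or.inr ⟨h1, h2⟩)
      · by_cases h2 : rep z.1 = 0
        · exact absurd (Prod.ext (rep_eq_zero h2) (rep_eq_zero h1)) hne
        · exact Or.inl (Or.inr ⟨h1, h2⟩)
    · exact Or.inl (Or.inl h)
  rcases hmem with h | h
  · rw [if_pos h]; split_ifs <;> linarith
  · rw [if_pos h]; split_ifs <;> linarith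

/-- The spectral gap: for different orders there are no almost invariant vectors. -/
theorem torus_gap (hmn : m ≠ n) (S : Om m × Om n → ℂ) :
    tot S ≤ 1600 * (disP S + dis shG S + dis shH S) := by
  have hT : 0 ≤ tot S := Finset.sum_nonneg fun _ _ => by positivity
  have hP : 0 ≤ disP S := Finset.sum_nonneg fun _ _ => by positivity
  have hG : 0 ≤ dis shG S := Finset.sum_nonneg fun _ _ => by positivity
  have hH : 0 ≤ dis shH S := Finset.sum_nonneg fun _ _ => by positivity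
  by_contra hcon
  push Not at hcon
  set H := disP S + dis shG S + dis shH S with hHdef
  have hHn : 0 ≤ H := by positivity
  set σ := Real.sqrt (tot S) with hσ
  set η := Real.sqrt H with hη
  have hσ0 : 0 ≤ σ := Real.sqrt_nonneg _
  have hη0 : 0 ≤ η := Real.sqrt_nonneg _
  have hσ2 : σ ^ 2 = tot S := Real.sq_sqrt hT
  have hη2 : η ^ 2 = H := Real.sq_sqrt hHn
  have h40 : 40 * η < σ := by
    have : (40 * η) ^ 2 < σ ^ 2 := by rw [mul_pow, hη2, hσ2]; linarith
    exact lt_of_pow_lt_pow_left₀ 2 hσ0 this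
  have hg : Real.sqrt (dis shG S) ≤ η := Real.sqrt_le_sqrt (by rw [hHdef]; linarith)
  have hh : Real.sqrt (dis shH S) ≤ η := Real.sqrt_le_sqrt (by rw [hHdef]; linarith)
  have hg' : Real.sqrt (dis shG S) * σ ≤ η * σ := by gcongr
  have hh' : Real.sqrt (dis shH S) * σ ≤ η * σ := by gcongr
  have h1 := mass_farX S
  have h2 := mass_farY S
  have h3 := mass_Qp S
  have h4 := mass_Qm S
  have h5 := tot_le_mass hmn S
  rw [← hσ] at h2 h3 h4
  have h6 : disP S ≤ η ^ 2 := by rw [hη2, hHdef]; linarith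
  have h7 : tot S ≤ 4 * η ^ 2 + 24 * (η * σ) := by linarith
  rw [← hσ2] at h7
  nlinarith

end Pool.Agent.W_MP_7b81ff_an
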