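import Pool.Agent.W_MP_7b81ff_an.OpN
import Pool.Agent.W_MP_7b81ff_an.Torus

set_option autoImplicit false
set_option linter.unusedSimpArgs false
set_option linter.unusedSectionVars false

open Matrix Finset

namespace Pool.Agent.W_MP_7b81ff_an

variable {m n l k : Type*} [Fintype m] [Fintype n] [Fintype l] [Fintype k]

/-- squared Frobenius norm -/
noncomputable def fn (X : Matrix m n ℂ) : ℝ := ∑ i, ∑ j, ‖X i j‖ ^ 2

lemma fn_nonneg (X : Matrix m n ℂ) : 0 ≤ fn X :=
  Finset.sum_nonneg fun _ _ => Finset.sum_nonneg fun _ _ => by positivity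

lemma fn_zero : fn (0 : Matrix m n ℂ) = 0 := by simp [fn]

lemma fn_smul (c : ℂ) (X : Matrix m n ℂ) : fn (c • X) = ‖c‖ ^ 2 * fn X := by
  simp only [fn, Matrix.smul_apply, smul_eq_mul, norm_mul, mul_pow, Finset.mul_sum]

lemma fn_neg (X : Matrix m n ℂ) : fn (-X) = fn X := by simp [fn]

lemma fn_add_le (X Y : Matrix m n ℂ) : fn (X + Y) ≤ 2 * fn X + 2 * fn Y := by
  simp only [fn, Finset.mul_sum, ← Finset.sum_add_distrib]
  refine Finset.sum_le_sum fun i _ => Finset.sum_le_sum fun j _ => ?_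
  rw [Matrix.add_apply]
  have h1 := norm_add_le (X i j) (Y i j)
  have h2 : ‖X i j + Y i j‖ ^ 2 ≤ (‖X i j‖ + ‖Y i j‖) ^ 2 := by gcongr
  nlinarith [sq_nonneg (‖X i j‖ - ‖Y i j‖)]

lemma fn_add3_le (X Y Z : Matrix m n ℂ) : fn (X + Y + Z) ≤ 3 * fn X + 3 * fn Y + 3 * fn Z := by
  simp only [fn, Finset.mul_sum, ← Finset.sum_add_distrib]
  refine Finset.sum_le_sum fun i _ => Finset.sum_le_sum fun j _ => ?_
  rw [Matrix.add_apply, Matrix.add_apply]
  have h1 := norm_add₃_le (a := X i j) (b := Y i j) (c := Z i j)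
  have h2 : ‖X i j + Y i j + Z i j‖ ^ 2 ≤ (‖X i j‖ + ‖Y i j‖ + ‖Z i j‖) ^ 2 := by gcongr
  nlinarith [sq_nonneg (‖X i j‖ - ‖Y i j‖), sq_nonneg (‖X i j‖ - ‖Z i j‖),
    sq_nonneg (‖Y i j‖ - ‖Z i j‖)]

lemma fn_eq_trace (X : Matrix m n ℂ) : (fn X : ℂ) = (Xᴴ * X).trace := by
  simp only [fn, Matrix.trace, Matrix.diag_apply, Matrix.mul_apply, Matrix.conjTranspose_apply]
  rw [Finset.sum_comm]
  push_cast
  refine Finset.sum_congr rfl fun i _ => Finset.sum_congr rfl fun j _ => ?_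
  rw [mul_comm]
  change _ = X j i * (starRingEnd ℂ) (X j i)
  rw [Complex.mul_conj, Complex.normSq_eq_norm_sq]
  push_cast; rfl

lemma fn_conjTranspose (X : Matrix m n ℂ) : fn Xᴴ = fn X := by
  simp only [fn, Matrix.conjTranspose_apply, norm_star]
  exact Finset.sum_comm

lemma fn_eq_trace' (X : Matrix m n ℂ) : (fn X : ℂ) = (X * Xᴴ).trace := by
  rw [← fn_conjTranspose, fn_eq_trace, Matrix.conjTranspose_conjTranspose]

lemma fn_unitary_mul [DecidableEq m] {U : Matrix m m ℂ} (hU : Uᴴ * U = 1) (X : Matrix m n ℂ) :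
    fn (U * X) = fn X := by
  have h : (fn (U * X) : ℂ) = (fn X : ℂ) := by
    rw [fn_eq_trace, fn_eq_trace, Matrix.conjTranspose_mul, Matrix.mul_assoc,
      ← Matrix.mul_assoc Uᴴ, hU, Matrix.one_mul]
  exact_mod_cast h

lemma fn_mul_unitary [DecidableEq n] {U : Matrix n n ℂ} (hU : U * Uᴴ = 1) (X : Matrix m n ℂ) :
    fn (X * U) = fn X := by
  have h : (fn (X * U) : ℂ) = (fn X : ℂ) := by
    rw [fn_eq_trace', fn_eq_trace', Matrix.conjTranspose_mul, Matrix.mul_assoc,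
      ← Matrix.mul_assoc U, hU, Matrix.one_mul]
  exact_mod_cast h

/-- The basic identity: the defect of the transfer operator as a sum of squares. -/
lemma fn_identity {ι : Type*} [Fintype ι] [DecidableEq m] [DecidableEq n] (A : ι → Matrix n n ℂ)
    (B : ι → Matrix m m ℂ) (c : ℝ) (hc : 0 < c) (hA : ∑ i, A i * (A i)ᴴ = (c : ℂ) • 1)
    (hB : ∑ i, (B i)ᴴ * B i = (c : ℂ) • 1) (T : Matrix m n ℂ) :
    ∑ i, fn (B i * T - (((c⁻¹ : ℝ) : ℂ) • ∑ j, B j * T * (A j)ᴴ) * A i)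
      = c * fn T - c⁻¹ * fn (∑ j, B j * T * (A j)ᴴ) := by
  set Φ := ∑ j, B j * T * (A j)ᴴ with hΦ
  set R := ((c⁻¹ : ℝ) : ℂ) • Φ with hR
  have hcc : (c : ℂ) ≠ 0 := by exact_mod_cast hc.ne'
  have hΦR : Φ = (c : ℂ) • R := by
    rw [hR, smul_smul]
    push_cast
    rw [mul_inv_cancel₀ hcc, one_smul]
  have h1 : ∀ i, ((fn (B i * T - R * A i) : ℝ) : ℂ) =
      (Tᴴ * ((B i)ᴴ * B i) * T).trace + (R * (A i * (A i)ᴴ) * Rᴴ).trace
        - (Rᴴ * (B i * T * (A i)ᴴ)).trace - ((B i * T * (A i)ᴴ)ᴴ * R).trace := by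
    intro i
    rw [fn_eq_trace, Matrix.conjTranspose_sub, Matrix.sub_mul, Matrix.mul_sub, Matrix.mul_sub]
    simp only [Matrix.trace_sub]
    have e1 : ((B i * T)ᴴ * (B i * T)).trace = (Tᴴ * ((B i)ᴴ * B i) * T).trace := by
      rw [Matrix.conjTranspose_mul]; simp only [Matrix.mul_assoc]
    have e2 : ((R * A i)ᴴ * (R * A i)).trace = (R * (A i * (A i)ᴴ) * Rᴴ).trace := by
      rw [Matrix.trace_mul_comm, Matrix.conjTranspose_mul]; simp only [Matrix.mul_assoc]
    have e3 : ((R * A i)ᴴ * (B i * T)).trace = (Rᴴ * (B i * T * (A i)ᴴ)).trace := by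
      rw [Matrix.conjTranspose_mul, Matrix.mul_assoc, Matrix.trace_mul_comm]
      simp only [Matrix.mul_assoc]
    have e4 : ((B i * T)ᴴ * (R * A i)).trace = ((B i * T * (A i)ᴴ)ᴴ * R).trace := by
      rw [Matrix.conjTranspose_mul (B i * T), Matrix.conjTranspose_conjTranspose,
        Matrix.mul_assoc, Matrix.trace_mul_comm, Matrix.mul_assoc, Matrix.trace_mul_comm]
      simp only [Matrix.mul_assoc]
    rw [e1, e2, e3, e4]
    ring
  have h2 : ((∑ i, fn (B i * T - R * A i) : ℝ) : ℂ) = ((c * fn T - c * fn R : ℝ) : ℂ) := by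
    push_cast
    simp only [h1, Finset.sum_sub_distrib, Finset.sum_add_distrib, ← Matrix.trace_sum,
      ← Matrix.mul_sum, ← Matrix.sum_mul, ← Matrix.conjTranspose_sum]
    rw [hA, hB, ← hΦ, hΦR]
    simp only [Matrix.mul_smul, Matrix.smul_mul, Matrix.mul_one, Matrix.trace_smul,
      Matrix.conjTranspose_smul]
    rw [← fn_eq_trace T, ← fn_eq_trace' R, ← fn_eq_trace R]
    simp
  have h3 : ∑ i, fn (B i * T - R * A i) = c * fn T - c * fn R := by exact_mod_cast h2
  have h4 : fn Φ = c ^ 2 * fn R := by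
    have h5 : fn Φ = fn ((c : ℂ) • R) := congrArg fn hΦR
    rw [h5, fn_smul, Complex.norm_real, Real.norm_eq_abs, sq_abs]
  rw [h3, h4]
  field_simp

/-- the `(p,q)` block -/
def bk (X : Matrix (Fin 3 × m) (Fin 3 × n) ℂ) (p q : Fin 3) : Matrix m n ℂ :=
  Matrix.of fun i j => X (p, i) (q, j)

lemma bk_mul (X : Matrix (Fin 3 × m) (Fin 3 × n) ℂ) (Y : Matrix (Fin 3 × n) (Fin 3 × l) ℂ)
    (p q : Fin 3) : bk (X * Y) p q = ∑ r, bk X p r * bk Y r q := by
  ext i j
  simp only [bk, Matrix.of_apply, Matrix.mul_apply, Fintype.sum_prod_type, Matrix.sum_apply]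

omit [Fintype m] [Fintype n] in
lemma bk_ext {X Y : Matrix (Fin 3 × m) (Fin 3 × n) ℂ} (h : ∀ p q, bk X p q = bk Y p q) :
    X = Y := by
  ext ⟨p, i⟩ ⟨q, j⟩
  exact congrFun (congrFun (h p q) i) j

omit [Fintype m] [Fintype n] in
lemma bk_conjTranspose (X : Matrix (Fin 3 × m) (Fin 3 × n) ℂ) (p q : Fin 3) :
    bk Xᴴ p q = (bk X q p)ᴴ := rfl

omit [Fintype m] [Fintype n] in
lemma bk_add (X Y : Matrix (Fin 3 × m) (Fin 3 × n) ℂ) (p q : Fin 3) :
    bk (X + Y) p q = bk X p q + bk Y p q := rfl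

omit [Fintype m] [Fintype n] in
lemma bk_sub (X Y : Matrix (Fin 3 × m) (Fin 3 × n) ℂ) (p q : Fin 3) :
    bk (X - Y) p q = bk X p q - bk Y p q := rfl

lemma fn_bk (X : Matrix (Fin 3 × m) (Fin 3 × n) ℂ) : fn X = ∑ p, ∑ q, fn (bk X p q) := by
  simp only [fn, bk, Matrix.of_apply, Fintype.sum_prod_type]
  refine Finset.sum_congr rfl fun p _ => ?_
  rw [Finset.sum_comm]

lemma fn_bk_le (X : Matrix (Fin 3 × m) (Fin 3 × n) ℂ) (p q : Fin 3) : fn (bk X p q) ≤ fn X := by
  rw [fn_bk X]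
  exact (Finset.single_le_sum (f := fun q => fn (bk X p q)) (fun _ _ => fn_nonneg _)
    (Finset.mem_univ q)).trans
    (Finset.single_le_sum (f := fun p => ∑ q, fn (bk X p q))
      (fun _ _ => Finset.sum_nonneg fun _ _ => fn_nonneg _) (Finset.mem_univ p))

lemma sum3 {M : Type*} [AddCommMonoid M] (l : Fin 3) (f : Fin 3 → M) :
    ∑ r, f r = f (l - 1) + f l + f (l + 1) := by
  fin_cases l
  · simp only [Fin.sum_univ_three]
    change f 0 + f 1 + f 2 = f 2 + f 0 + f 1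
    abel
  · simp only [Fin.sum_univ_three]
    change f 0 + f 1 + f 2 = f 0 + f 1 + f 2
    abel
  · simp only [Fin.sum_univ_three]
    change f 0 + f 1 + f 2 = f 1 + f 2 + f 0
    abel

lemma f3a : ∀ l : Fin 3, l - 1 ≠ l + 1 := by decide
lemma f3b : ∀ l : Fin 3, l - 1 ≠ l := by decide
lemma f3c : ∀ l : Fin 3, l + 1 ≠ l := by decide
lemma f3d : ∀ l : Fin 3, l + 1 ≠ l - 1 := by decide
lemma f3e : ∀ l : Fin 3, l ≠ l - 1 := by decide
lemma f3f : ∀ l : Fin 3, l ≠ l + 1 := by decide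

variable [DecidableEq m] [DecidableEq n]

/-- the three basic matrices: the generators of `so(3)` plus a small unitary perturbation -/
noncomputable def gA (W : Fin 3 → Matrix m m ℂ) (l : Fin 3) : Matrix (Fin 3 × m) (Fin 3 × m) ℂ :=
  Matrix.of fun x y => (if x.1 = l - 1 ∧ y.1 = l + 1 then (1 : Matrix m m ℂ)
    else if x.1 = l + 1 ∧ y.1 = l - 1 then -1
    else if x.1 = l ∧ y.1 = l then (1/50 : ℂ) • W l else 0) x.2 y.2

omit [Fintype m] in
lemma bk_gA (W : Fin 3 → Matrix m m ℂ) (l p q : Fin 3) :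
    bk (gA W l) p q = if p = l - 1 ∧ q = l + 1 then (1 : Matrix m m ℂ)
    else if p = l + 1 ∧ q = l - 1 then -1
    else if p = l ∧ q = l then (1/50 : ℂ) • W l else 0 := rfl

/-- left multiplication by `gA`, row `l-1` -/
lemma gA_mul_1 (W : Fin 3 → Matrix m m ℂ) (T : Matrix (Fin 3 × m) (Fin 3 × n) ℂ) (l q : Fin 3) :
    bk (gA W l * T) (l - 1) q = bk T (l + 1) q := by
  rw [bk_mul, sum3 l]
  simp [bk_gA, f3a, f3b, f3c, f3d, f3e, f3f]

lemma gA_mul_2 (W : Fin 3 → Matrix m m ℂ) (T : Matrix (Fin 3 × m) (Fin 3 × n) ℂ) (l q : Fin 3) :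
    bk (gA W l * T) (l + 1) q = - bk T (l - 1) q := by
  rw [bk_mul, sum3 l]
  simp [bk_gA, f3a, f3b, f3c, f3d, f3e, f3f]

lemma gA_mul_3 (W : Fin 3 → Matrix m m ℂ) (T : Matrix (Fin 3 × m) (Fin 3 × n) ℂ) (l q : Fin 3) :
    bk (gA W l * T) l q = (1/50 : ℂ) • (W l * bk T l q) := by
  rw [bk_mul, sum3 l]
  simp [bk_gA, f3a, f3b, f3c, f3d, f3e, f3f]

/-- right multiplication by `gA`, column `l+1` -/
lemma mul_gA_1 (W : Fin 3 → Matrix n n ℂ) (T : Matrix (Fin 3 × m) (Fin 3 × n) ℂ) (l p : Fin 3) :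
    bk (T * gA W l) p (l + 1) = bk T p (l - 1) := by
  rw [bk_mul, sum3 l]
  simp [bk_gA, f3a, f3b, f3c, f3d, f3e, f3f]

lemma mul_gA_2 (W : Fin 3 → Matrix n n ℂ) (T : Matrix (Fin 3 × m) (Fin 3 × n) ℂ) (l p : Fin 3) :
    bk (T * gA W l) p (l - 1) = - bk T p (l + 1) := by
  rw [bk_mul, sum3 l]
  simp [bk_gA, f3a, f3b, f3c, f3d, f3e, f3f]

lemma mul_gA_3 (W : Fin 3 → Matrix n n ℂ) (T : Matrix (Fin 3 × m) (Fin 3 × n) ℂ) (l p : Fin 3) :
    bk (T * gA W l) p l = (1/50 : ℂ) • (bk T p l * W l) := by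
  rw [bk_mul, sum3 l]
  simp [bk_gA, f3a, f3b, f3c, f3d, f3e, f3f]

/-- unitarity of the perturbing matrices -/
def UnitaryFam (W : Fin 3 → Matrix m m ℂ) : Prop := ∀ l, (W l)ᴴ * W l = 1 ∧ W l * (W l)ᴴ = 1

lemma three_cases (l p : Fin 3) : p = l - 1 ∨ p = l ∨ p = l + 1 := by
  revert l p; decide

omit [Fintype m] in
lemma bk_diagonal (d : Fin 3 × m → ℂ) (p q : Fin 3) :
    bk (Matrix.diagonal d) p q = if p = q then Matrix.diagonal (fun i => d (p, i)) else 0 := by
  ext i j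
  simp only [bk, Matrix.of_apply, Matrix.diagonal_apply, Prod.mk.injEq]
  by_cases hpq : p = q
  · subst hpq
    simp [Matrix.diagonal_apply]
  · simp [hpq]

lemma gA_mul_conj {W : Fin 3 → Matrix m m ℂ} (hW : UnitaryFam W) (l : Fin 3) :
    gA W l * (gA W l)ᴴ = Matrix.diagonal (fun x => if x.1 = l then (1/2500 : ℂ) else 1) := by
  apply bk_ext
  intro p q
  rw [bk_diagonal]
  have h1 := (hW l).2
  rcases three_cases l p with rfl | rfl | rfl
  · rw [gA_mul_1, bk_conjTranspose, bk_gA]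
    rcases three_cases l q with rfl | rfl | rfl <;> simp [f3a, f3b, f3c, f3d, f3e, f3f]
  · rw [gA_mul_3, bk_conjTranspose, bk_gA]
    rcases three_cases p q with rfl | rfl | rfl
    · simp [f3a, f3b, f3c, f3d, f3e, f3f]
    · simp only [f3e, f3f, and_self, if_false, if_true, Matrix.conjTranspose_smul, Matrix.mul_smul,
        h1, smul_smul]
      ext i j
      by_cases hij : i = j
      · subst hij; simp; norm_num
      · simp [hij]
    · simp [f3a, f3b, f3c, f3d, f3e, f3f]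
  · rw [gA_mul_2, bk_conjTranspose, bk_gA]
    rcases three_cases l q with rfl | rfl | rfl <;> simp [f3a, f3b, f3c, f3d, f3e, f3f]

lemma conj_mul_gA {W : Fin 3 → Matrix m m ℂ} (hW : UnitaryFam W) (l : Fin 3) :
    (gA W l)ᴴ * gA W l = Matrix.diagonal (fun x => if x.1 = l then (1/2500 : ℂ) else 1) := by
  apply bk_ext
  intro p q
  rw [bk_diagonal]
  have h1 := (hW l).1
  rcases three_cases l q with rfl | rfl | rfl
  · rw [mul_gA_2, bk_conjTranspose, bk_gA]
    rcases three_cases l p with rfl | rfl | rfl <;> simp [f3a, f3b, f3c, f3d, f3e, f3f]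
  · rw [mul_gA_3, bk_conjTranspose, bk_gA]
    rcases three_cases q p with rfl | rfl | rfl
    · simp [f3a, f3b, f3c, f3d, f3e, f3f]
    · simp only [f3e, f3f, and_self, if_false, if_true, Matrix.conjTranspose_smul, Matrix.smul_mul,
        h1, smul_smul]
      ext i j
      by_cases hij : i = j
      · subst hij; simp; norm_num
      · simp [hij]
    · simp [f3a, f3b, f3c, f3d, f3e, f3f]
  · rw [mul_gA_1, bk_conjTranspose, bk_gA]
    rcases three_cases l p with rfl | rfl | rfl <;> simp [f3a, f3b, f3c, f3d, f3e, f3f]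

/-- the constant `2 + ε²` -/
noncomputable def cc : ℝ := 5001/2500

lemma sum_diag3 : ∑ l : Fin 3, (Matrix.diagonal (fun x : Fin 3 × m => if x.1 = l then (1/2500 : ℂ) else 1))
    = (cc : ℂ) • (1 : Matrix (Fin 3 × m) (Fin 3 × m) ℂ) := by
  ext ⟨p, i⟩ ⟨q, j⟩
  rw [Matrix.sum_apply]
  by_cases h : ((p, i) : Fin 3 × m) = (q, j)
  · rw [← h]
    simp only [Matrix.diagonal_apply_eq, Matrix.smul_apply, Matrix.one_apply_eq, cc]
    fin_cases p <;> simp [Fin.sum_univ_three] <;> norm_num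
  · simp [Matrix.diagonal_apply_ne _ h, Matrix.one_apply_ne h]

lemma sum_gA_mul_conj {W : Fin 3 → Matrix m m ℂ} (hW : UnitaryFam W) :
    ∑ l, gA W l * (gA W l)ᴴ = (cc : ℂ) • (1 : Matrix (Fin 3 × m) (Fin 3 × m) ℂ) := by
  simp only [gA_mul_conj hW]
  exact sum_diag3

lemma sum_conj_mul_gA {W : Fin 3 → Matrix m m ℂ} (hW : UnitaryFam W) :
    ∑ l, (gA W l)ᴴ * gA W l = (cc : ℂ) • (1 : Matrix (Fin 3 × m) (Fin 3 × m) ℂ) := by
  simp only [conj_mul_gA hW]
  exact sum_diag3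

lemma fn_sub_comm (X Y : Matrix m n ℂ) : fn (X - Y) = fn (Y - X) := by
  rw [← fn_neg, neg_sub]

lemma fn_le_of_sub {X Y : Matrix m n ℂ} {E : ℝ} (h : fn (X - Y) ≤ E) :
    fn X ≤ 2 * E + 2 * fn Y := by
  have h1 := fn_add_le (X - Y) Y
  rw [sub_add_cancel] at h1
  linarith

lemma fn_tri2 {X Y Z : Matrix m n ℂ} {E : ℝ} (h : fn (X - Y) ≤ E) (h' : fn (Y - Z) ≤ E) :
    fn (X - Z) ≤ 4 * E := by
  have h1 := fn_add_le (X - Y) (Y - Z)
  rw [sub_add_sub_cancel] at h1
  linarith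

lemma fn_tri3 {X Y Z V : Matrix m n ℂ} {E : ℝ} (h : fn (X - Y) ≤ E) (h' : fn (Y - Z) ≤ E)
    (h'' : fn (Z - V) ≤ E) : fn (X - V) ≤ 9 * E := by
  have h1 := fn_add3_le (X - Y) (Y - Z) (Z - V)
  rw [sub_add_sub_cancel, sub_add_sub_cancel] at h1
  linarith

/-- the block estimate -/
theorem block_gap {W : Fin 3 → Matrix n n ℂ} {W' : Fin 3 → Matrix m m ℂ} (hW : UnitaryFam W)
    (hW' : UnitaryFam W')
    (hRT : ∀ S : Matrix m n ℂ, fn S ≤ 1600 * ∑ l, fn (W' l * S - S * W l))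
    (T R : Matrix (Fin 3 × m) (Fin 3 × n) ℂ) :
    fn T ≤ 3 * 10 ^ 8 * ∑ l, fn (gA W' l * T - R * gA W l) := by
  set E := ∑ l, fn (gA W' l * T - R * gA W l) with hE
  have hE0 : 0 ≤ E := Finset.sum_nonneg fun _ _ => fn_nonneg _
  have hb : ∀ l p q, fn (bk (gA W' l * T) p q - bk (R * gA W l) p q) ≤ E := by
    intro l p q
    rw [← bk_sub]
    exact (fn_bk_le _ p q).trans
      (Finset.single_le_sum (f := fun l => fn (gA W' l * T - R * gA W l))
        (fun _ _ => fn_nonneg _) (Finset.mem_univ l))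
  have heps : ‖(1/50 : ℂ)‖ ^ 2 = 1/2500 := by norm_num
  have h1 : ∀ l, fn (bk T (l+1) (l+1) - bk R (l-1) (l-1)) ≤ E := by
    intro l
    have := hb l (l-1) (l+1)
    rwa [gA_mul_1, mul_gA_1] at this
  have h2 : ∀ l, fn (bk T (l-1) (l-1) - bk R (l+1) (l+1)) ≤ E := by
    intro l
    have := hb l (l+1) (l-1)
    rwa [gA_mul_2, mul_gA_2, sub_neg_eq_add, neg_add_eq_sub, fn_sub_comm] at this
  have h3 : ∀ l, fn (W' l * bk T l l - bk R l l * W l) ≤ 2500 * E := by
    intro l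
    have := hb l l l
    rw [gA_mul_3, mul_gA_3, ← smul_sub, fn_smul, heps] at this
    linarith
  have h4 : ∀ l, fn (bk T (l+1) l) ≤ 2 * E + 2/2500 * fn (bk R (l-1) l) := by
    intro l
    have := hb l (l-1) l
    rw [gA_mul_1, mul_gA_3] at this
    have := fn_le_of_sub this
    rw [fn_smul, heps, fn_mul_unitary (hW l).2] at this
    linarith
  have h5 : ∀ l, fn (bk R l (l-1)) ≤ 2 * E + 2/2500 * fn (bk T l (l+1)) := by
    intro l
    have := hb l l (l+1)
    rw [gA_mul_3, mul_gA_1, fn_sub_comm] at this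
    have := fn_le_of_sub this
    rw [fn_smul, heps, fn_unitary_mul (hW' l).1] at this
    linarith
  have h6 : ∀ l, fn (bk T (l-1) l) ≤ 2 * E + 2/2500 * fn (bk R (l+1) l) := by
    intro l
    have := hb l (l+1) l
    rw [gA_mul_2, mul_gA_3] at this
    have := fn_le_of_sub this
    rw [fn_smul, heps, fn_mul_unitary (hW l).2, fn_neg] at this
    linarith
  have h7 : ∀ l, fn (bk R l (l+1)) ≤ 2 * E + 2/2500 * fn (bk T l (l-1)) := by
    intro l
    have := hb l l (l-1)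
    rw [gA_mul_3, mul_gA_2, sub_neg_eq_add, add_comm, ← sub_neg_eq_add] at this
    have := fn_le_of_sub this
    rw [fn_neg, fn_smul, heps, fn_unitary_mul (hW' l).1] at this
    linarith
  -- numerals
  have a0 : (0 : Fin 3) - 1 = 2 := rfl
  have a1 : (1 : Fin 3) - 1 = 0 := rfl
  have a2 : (2 : Fin 3) - 1 = 1 := rfl
  have b0 : (0 : Fin 3) + 1 = 1 := rfl
  have b1 : (1 : Fin 3) + 1 = 2 := rfl
  have b2 : (2 : Fin 3) + 1 = 0 := rfl
  have h10 := h1 0
  have h11 := h1 1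
  have h12 := h1 2
  have h20 := h2 0
  have h21 := h2 1
  have h22 := h2 2
  rw [a0, b0] at h10 h20
  rw [a1, b1] at h11 h21
  rw [a2, b2] at h12 h22
  -- h10 : T11 - R22, h11 : T22 - R00, h12 : T00 - R11
  -- h20 : T22 - R11, h21 : T00 - R22, h22 : T11 - R00
  set S := bk T 0 0 with hS
  have d11 : fn (bk T 1 1 - S) ≤ 4 * E := fn_tri2 h10 (by rw [fn_sub_comm]; exact h21)
  have d22 : fn (bk T 2 2 - S) ≤ 4 * E := fn_tri2 h20 (by rw [fn_sub_comm]; exact h12)
  have c11 : fn (bk R 1 1 - S) ≤ E := by rw [fn_sub_comm]; exact h12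
  have c22 : fn (bk R 2 2 - S) ≤ E := by rw [fn_sub_comm]; exact h21
  have c00 : fn (bk R 0 0 - S) ≤ 9 * E :=
    fn_tri3 (by rw [fn_sub_comm]; exact h22) h10 (by rw [fn_sub_comm]; exact h21)
  have hd : ∀ l, fn (bk T l l - S) ≤ 9 * E := by
    intro l
    fin_cases l
    · change fn (bk T 0 0 - S) ≤ _
      rw [hS, sub_self, fn_zero]; positivity
    · change fn (bk T 1 1 - S) ≤ _
      linarith
    · change fn (bk T 2 2 - S) ≤ _
      linarith
  have hc : ∀ l, fn (bk R l l - S) ≤ 9 * E := by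
    intro l
    fin_cases l
    · exact c00
    · change fn (bk R 1 1 - S) ≤ _
      linarith
    · change fn (bk R 2 2 - S) ≤ _
      linarith
  have hcomm : ∀ l, fn (W' l * S - S * W l) ≤ 7554 * E := by
    intro l
    have e : W' l * S - S * W l = (W' l * bk T l l - bk R l l * W l) +
        (- (W' l * (bk T l l - S))) + (bk R l l - S) * W l := by
      rw [Matrix.mul_sub, Matrix.sub_mul]
      abel
    rw [e]
    refine (fn_add3_le _ _ _).trans ?_
    rw [fn_neg, fn_unitary_mul (hW' l).1, fn_mul_unitary (hW l).2]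
    have := h3 l
    have := hd l
    have := hc l
    linarith
  have hSle : fn S ≤ 36259200 * E := by
    have h8 := hRT S
    have h9 : ∑ l, fn (W' l * S - S * W l) ≤ 3 * (7554 * E) := by
      rw [Fin.sum_univ_three]
      have := hcomm 0
      have := hcomm 1
      have := hcomm 2
      linarith
    linarith
  have t00 : fn (bk T 0 0) ≤ 36259200 * E := hSle
  have t11 : fn (bk T 1 1) ≤ 2 * (4 * E) + 2 * fn S := fn_le_of_sub d11
  have t22 : fn (bk T 2 2) ≤ 2 * (4 * E) + 2 * fn S := fn_le_of_sub d22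
  have h40 := h4 0
  have h41 := h4 1
  have h42 := h4 2
  have h50 := h5 0
  have h51 := h5 1
  have h52 := h5 2
  have h60 := h6 0
  have h61 := h6 1
  have h62 := h6 2
  have h70 := h7 0
  have h71 := h7 1
  have h72 := h7 2
  rw [a0, b0] at h40 h50 h60 h70
  rw [a1, b1] at h41 h51 h61 h71
  rw [a2, b2] at h42 h52 h62 h72
  rw [fn_bk T]
  simp only [Fin.sum_univ_three]
  linarith

/-- permutation matrix -/
def permM {Ω : Type*} [DecidableEq Ω] (e : Ω ≃ Ω) : Matrix Ω Ω ℂ :=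
  Matrix.of fun a b => if a = e b then 1 else 0

lemma permM_mul (e : m ≃ m) (X : Matrix m n ℂ) : permM e * X = Matrix.of fun a c => X (e.symm a) c := by
  ext a c
  simp only [Matrix.mul_apply, permM, Matrix.of_apply, ite_mul, one_mul, zero_mul]
  rw [Finset.sum_eq_single (e.symm a)]
  · simp
  · intro b _ hb
    rw [if_neg]
    rintro rfl
    exact hb (by simp)
  · intro h; exact absurd (Finset.mem_univ _) h

lemma mul_permM (e : n ≃ n) (X : Matrix m n ℂ) : X * permM e = Matrix.of fun a b => X a (e b) := by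
  ext a c
  simp only [Matrix.mul_apply, permM, Matrix.of_apply, mul_ite, mul_one, mul_zero]
  simp

lemma permM_conj (e : m ≃ m) : (permM e)ᴴ = permM e.symm := by
  ext a b
  simp only [permM, Matrix.conjTranspose_apply, Matrix.of_apply]
  have h : (b = e a) ↔ (a = e.symm b) := by
    rw [Equiv.eq_symm_apply, eq_comm]
  simp only [h]
  split_ifs <;> simp

lemma permM_unitary (e : m ≃ m) : (permM e)ᴴ * permM e = 1 ∧ permM e * (permM e)ᴴ = 1 := by
  rw [permM_conj]
  constructor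
  · rw [permM_mul]
    ext a b
    simp [permM, Matrix.one_apply]
  · rw [permM_mul]
    ext a b
    simp [permM, Matrix.one_apply]

/-- the three unitaries on `ℓ₂(Ω_m)` -/
noncomputable def tW (m : ℕ) [DecidableEq (Om m)] : Fin 3 → Matrix (Om m) (Om m) ℂ :=
  ![Matrix.diagonal (fun ω => ph ω.1.1), permM (act shG m), permM (act shH m)]

lemma tW_unitary (m : ℕ) [Fintype (Om m)] [DecidableEq (Om m)] : UnitaryFam (tW m) := by
  intro l
  have hp : ∀ x : UnitAddCircle, star (ph x) * ph x = 1 := by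
    intro x
    have h := Complex.mul_conj (ph x)
    rw [Complex.normSq_eq_norm_sq, norm_ph] at h
    rw [mul_comm]
    change ph x * (starRingEnd ℂ) (ph x) = 1
    rw [h]; norm_num
  fin_cases l
  · change (Matrix.diagonal (fun ω : Om m => ph ω.1.1))ᴴ * Matrix.diagonal (fun ω => ph ω.1.1) = 1 ∧
      Matrix.diagonal (fun ω : Om m => ph ω.1.1) * (Matrix.diagonal (fun ω => ph ω.1.1))ᴴ = 1
    rw [Matrix.diagonal_conjTranspose, Matrix.diagonal_mul_diagonal, Matrix.diagonal_mul_diagonal]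
    have hp1 : ∀ x : UnitAddCircle, (starRingEnd ℂ) (ph x) * ph x = 1 := hp
    have hp2 : ∀ x : UnitAddCircle, ph x * (starRingEnd ℂ) (ph x) = 1 := fun x => by
      rw [mul_comm]; exact hp x
    constructor
    · ext a b
      by_cases hab : a = b
      · subst hab; simp [hp1]
      · simp [hab]
    · ext a b
      by_cases hab : a = b
      · subst hab; simp [hp2]
      · simp [hab]
  · exact permM_unitary _
  · exact permM_unitary _

/-- the gap between different orders in matrix form -/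
lemma tW_gap {a b : ℕ} [Fintype (Om a)] [DecidableEq (Om a)] [Fintype (Om b)] [DecidableEq (Om b)]
    (hab : a ≠ b) (S : Matrix (Om a) (Om b) ℂ) :
    fn S ≤ 1600 * ∑ l, fn (tW a l * S - S * tW b l) := by
  have h := torus_gap hab (fun p => S p.1 p.2)
  have h0 : tot (fun p : Om a × Om b => S p.1 p.2) = fn S := by
    unfold tot fn
    rw [Fintype.sum_prod_type]
  have h1 : disP (fun p : Om a × Om b => S p.1 p.2) = fn (tW a 0 * S - S * tW b 0) := by
    unfold disP fn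
    rw [Fintype.sum_prod_type]
    refine Finset.sum_congr rfl fun i _ => Finset.sum_congr rfl fun j _ => ?_
    have : (tW a 0 * S - S * tW b 0) i j = (ph i.1.1 - ph j.1.1) * S i j := by
      change (Matrix.diagonal (fun ω : Om a => ph ω.1.1) * S -
        S * Matrix.diagonal (fun ω : Om b => ph ω.1.1)) i j = _
      rw [Matrix.sub_apply, Matrix.diagonal_mul, Matrix.mul_diagonal]
      ring
    rw [this]
  have hg : ∀ g : Tor ≃+ Tor, dis g (fun p : Om a × Om b => S p.1 p.2) =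
      fn (permM (act g a) * S - S * permM (act g b)) := by
    intro g
    unfold dis fn
    rw [Fintype.sum_prod_type, permM_mul, mul_permM]
    conv_rhs => rw [← Equiv.sum_comp (act g a)]
    refine Finset.sum_congr rfl fun i _ => Finset.sum_congr rfl fun j _ => ?_
    simp
  rw [h0, h1, hg shG, hg shH] at h
  rw [Fin.sum_univ_three]
  exact h

/-- The Kronecker type matrix `∑ Ā_l ⊗ B_l`. -/
noncomputable def bigK {J J' : Type*} (A : Fin 3 → Matrix J J ℂ) (B : Fin 3 → Matrix J' J' ℂ) :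
    Matrix (J × J') (J × J') ℂ :=
  Matrix.of fun x y => ∑ l, (starRingEnd ℂ) (A l x.1 y.1) * B l x.2 y.2

lemma bigK_mulVec {J J' : Type*} [Fintype J] [Fintype J'] (A : Fin 3 → Matrix J J ℂ)
    (B : Fin 3 → Matrix J' J' ℂ) (v : J × J' → ℂ) (p : J) (i : J') :
    (bigK A B).mulVec v (p, i) = (∑ l, B l * (Matrix.of fun j q => v (q, j)) * (A l)ᴴ) i p := by
  simp only [Matrix.mulVec, dotProduct, bigK, Matrix.of_apply, Matrix.sum_apply, Matrix.mul_apply,
    Matrix.conjTranspose_apply, Fintype.sum_prod_type, Finset.sum_mul]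
  calc ∑ q, ∑ j, ∑ l, (starRingEnd ℂ) (A l p q) * B l i j * v (q, j)
      = ∑ q, ∑ l, ∑ j, (starRingEnd ℂ) (A l p q) * B l i j * v (q, j) :=
        Finset.sum_congr rfl fun q _ => Finset.sum_comm
    _ = ∑ l, ∑ q, ∑ j, (starRingEnd ℂ) (A l p q) * B l i j * v (q, j) := Finset.sum_comm
    _ = _ := by
        refine Finset.sum_congr rfl fun l _ => Finset.sum_congr rfl fun q _ =>
          Finset.sum_congr rfl fun j _ => ?_
        change _ = B l i j * v (q, j) * (starRingEnd ℂ) (A l p q)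
        ring

lemma nsq_eq_fn {J J' : Type*} [Fintype J] [Fintype J'] (v : J × J' → ℂ) :
    nsq v = fn (Matrix.of fun (j : J') (q : J) => v (q, j)) := by
  unfold nsq fn
  rw [Fintype.sum_prod_type, Finset.sum_comm]
  rfl

/-- matched case: lower bound -/
lemma bigK_matched {W : Fin 3 → Matrix m m ℂ} (hW : UnitaryFam W) [Nonempty m] :
    cc ≤ opn (bigK (gA W) (gA W)) := by
  have hcc : 0 < cc := by norm_num [cc]
  let v : (Fin 3 × m) × (Fin 3 × m) → ℂ := fun x => if x.1 = x.2 then 1 else 0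
  have h1 : (bigK (gA W) (gA W)).mulVec v = (cc : ℂ) • v := by
    ext ⟨p, i⟩
    rw [bigK_mulVec]
    have h2 : (Matrix.of fun (j : Fin 3 × m) (q : Fin 3 × m) => v (q, j)) = 1 := by
      ext j q
      simp only [v, Matrix.of_apply, Matrix.one_apply]
      simp only [eq_comm]
    rw [h2]
    simp only [Matrix.mul_one]
    rw [sum_gA_mul_conj hW]
    simp only [Matrix.smul_apply, Matrix.one_apply, Pi.smul_apply, v]
    simp only [eq_comm]
  have h3 := nsq_mulVec_le (bigK (gA W) (gA W)) v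
  rw [h1, nsq_smul, Complex.norm_real, Real.norm_eq_abs, sq_abs] at h3
  have hv : 0 < nsq v := by
    obtain ⟨a⟩ := ‹Nonempty m›
    unfold nsq
    refine Finset.sum_pos' (fun _ _ => by positivity) ⟨((0, a), (0, a)), Finset.mem_univ _, ?_⟩
    simp [v]
  have h4 := le_of_mul_le_mul_right h3 hv
  exact (sq_le_sq₀ hcc.le (opn_nonneg _)).1 h4

/-- mismatched case: upper bound -/
lemma bigK_mismatched {W : Fin 3 → Matrix n n ℂ} {W' : Fin 3 → Matrix m m ℂ} (hW : UnitaryFam W)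
    (hW' : UnitaryFam W')
    (hRT : ∀ S : Matrix m n ℂ, fn S ≤ 1600 * ∑ l, fn (W' l * S - S * W l)) :
    opn (bigK (gA W) (gA W')) ≤ Real.sqrt (cc * (cc - 1 / (3 * 10 ^ 8))) := by
  have hcc : 0 < cc := by norm_num [cc]
  have hpos : 0 ≤ cc * (cc - 1 / (3 * 10 ^ 8)) := by norm_num [cc]
  apply opn_le (Real.sqrt_nonneg _)
  intro v
  rw [Real.sq_sqrt hpos]
  set T : Matrix (Fin 3 × m) (Fin 3 × n) ℂ := Matrix.of fun j q => v (q, j) with hT
  have h1 : nsq v = fn T := nsq_eq_fn v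
  have h2 : nsq ((bigK (gA W) (gA W')).mulVec v) = fn (∑ l, gA W' l * T * (gA W l)ᴴ) := by
    rw [nsq_eq_fn]
    congr 1
    ext i p
    exact bigK_mulVec _ _ v p i
  rw [h1, h2]
  have h3 := fn_identity (gA W) (gA W') cc hcc (sum_gA_mul_conj hW) (sum_conj_mul_gA hW') T
  have h4 := block_gap hW hW' hRT T (((cc⁻¹ : ℝ) : ℂ) • ∑ j, gA W' j * T * (gA W j)ᴴ)
  rw [h3] at h4
  set F := fn (∑ l, gA W' l * T * (gA W l)ᴴ)
  have h5 : cc * (cc⁻¹ * F) = F := by field_simp
  nlinarith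

end Pool.Agent.W_MP_7b81ff_an
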