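import Pool.Agent.W_MP_7b81ff_an.Gap

set_option autoImplicit false
set_option linter.unusedSimpArgs false
set_option linter.unusedSectionVars false

open Matrix Finset

namespace Pool.Agent.W_MP_7b81ff_an

section nf
variable {m n : Type*} [Fintype m] [Fintype n]

/-- Frobenius norm -/
noncomputable def nf (X : Matrix m n ℂ) : ℝ := Real.sqrt (fn X)

lemma nf_nonneg (X : Matrix m n ℂ) : 0 ≤ nf X := Real.sqrt_nonneg _

lemma nf_sq (X : Matrix m n ℂ) : nf X ^ 2 = fn X := Real.sq_sqrt (fn_nonneg X)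

lemma fn_eq_nsq (X : Matrix m n ℂ) : fn X = nsq (fun p : m × n => X p.1 p.2) := by
  unfold fn nsq
  rw [Fintype.sum_prod_type]

lemma nf_add_le (X Y : Matrix m n ℂ) : nf (X + Y) ≤ nf X + nf Y := by
  unfold nf
  rw [fn_eq_nsq, fn_eq_nsq, fn_eq_nsq]
  exact sqrt_nsq_add_le (fun p : m × n => X p.1 p.2) (fun p : m × n => Y p.1 p.2)

variable [DecidableEq m] [DecidableEq n]

/-- A pair of unitary matrices -/
def UPair (A : Matrix m m ℂ) (B : Matrix n n ℂ) : Prop :=
  (Aᴴ * A = 1 ∧ A * Aᴴ = 1) ∧ (Bᴴ * B = 1 ∧ B * Bᴴ = 1)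

/-- the deviation from intertwining -/
noncomputable def dev (S : Matrix m n ℂ) (A : Matrix m m ℂ) (B : Matrix n n ℂ) : ℝ :=
  nf (A * S - S * B)

lemma dev_nonneg (S : Matrix m n ℂ) (A : Matrix m m ℂ) (B : Matrix n n ℂ) : 0 ≤ dev S A B :=
  nf_nonneg _

lemma UPair.mul {A A' : Matrix m m ℂ} {B B' : Matrix n n ℂ} (h : UPair A B) (h' : UPair A' B') :
    UPair (A * A') (B * B') := by
  obtain ⟨⟨a1, a2⟩, b1, b2⟩ := h
  obtain ⟨⟨a1', a2'⟩, b1', b2'⟩ := h'
  refine ⟨⟨?_, ?_⟩, ?_, ?_⟩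
  · rw [Matrix.conjTranspose_mul, Matrix.mul_assoc, ← Matrix.mul_assoc Aᴴ, a1, Matrix.one_mul, a1']
  · rw [Matrix.conjTranspose_mul, Matrix.mul_assoc, ← Matrix.mul_assoc A', a2', Matrix.one_mul, a2]
  · rw [Matrix.conjTranspose_mul, Matrix.mul_assoc, ← Matrix.mul_assoc Bᴴ, b1, Matrix.one_mul, b1']
  · rw [Matrix.conjTranspose_mul, Matrix.mul_assoc, ← Matrix.mul_assoc B', b2', Matrix.one_mul, b2]

lemma nf_unitary_mul {U : Matrix m m ℂ} (hU : Uᴴ * U = 1) (X : Matrix m n ℂ) :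
    nf (U * X) = nf X := by
  unfold nf; rw [fn_unitary_mul hU]

lemma nf_mul_unitary {U : Matrix n n ℂ} (hU : U * Uᴴ = 1) (X : Matrix m n ℂ) :
    nf (X * U) = nf X := by
  unfold nf; rw [fn_mul_unitary hU]

lemma dev_mul {S : Matrix m n ℂ} {A A' : Matrix m m ℂ} {B B' : Matrix n n ℂ} (h : UPair A B)
    (h' : UPair A' B') : dev S (A * A') (B * B') ≤ dev S A B + dev S A' B' := by
  unfold dev
  have e : A * A' * S - S * (B * B') = (A * S - S * B) * B' + A * (A' * S - S * B') := by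
    simp only [Matrix.sub_mul, Matrix.mul_sub, Matrix.mul_assoc]
    abel
  rw [e]
  refine (nf_add_le _ _).trans ?_
  rw [nf_mul_unitary h'.2.2, nf_unitary_mul h.1.1]

end nf

/-- swap -/
def swE : Tor ≃+ Tor := AddEquiv.prodComm

/-- `(x,y) ↦ (-x,y)` -/
def ngE : Tor ≃+ Tor where
  toFun z := (-z.1, z.2)
  invFun z := (-z.1, z.2)
  left_inv z := by simp
  right_inv z := by simp
  map_add' a b := by
    ext <;> simp
    abel

/-- `(x,y) ↦ (-x,x+y)` -/
def sE : Tor ≃+ Tor where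
  toFun z := (-z.1, z.1 + z.2)
  invFun z := (-z.1, z.1 + z.2)
  left_inv z := by simp
  right_inv z := by simp
  map_add' a b := by
    ext <;> simp <;> abel

section mats
variable (m : ℕ) [Fintype (Om m)] [DecidableEq (Om m)]

/-- a monomial matrix: `(v) ↦ (ω ↦ c(ω) v(e ω))` -/
def monoM (c : Om m → ℂ) (e : Om m ≃ Om m) : Matrix (Om m) (Om m) ℂ :=
  Matrix.of fun a b => if b = e a then c a else 0

end mats

section mono
variable {m n : ℕ} [Fintype (Om m)] [DecidableEq (Om m)] [Fintype (Om n)] [DecidableEq (Om n)]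

lemma monoM_mul {L : Type*} (c : Om m → ℂ) (e : Om m ≃ Om m) (X : Matrix (Om m) L ℂ) :
    monoM m c e * X = Matrix.of fun a l => c a * X (e a) l := by
  ext a l
  simp only [Matrix.mul_apply, monoM, Matrix.of_apply, ite_mul, zero_mul, Finset.sum_ite_eq',
    Finset.mem_univ, if_true]

lemma mul_monoM {L : Type*} (c : Om m → ℂ) (e : Om m ≃ Om m) (X : Matrix L (Om m) ℂ) :
    X * monoM m c e = Matrix.of fun l b => X l (e.symm b) * c (e.symm b) := by
  ext l b
  simp only [Matrix.mul_apply, monoM, Matrix.of_apply, mul_ite, mul_zero]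
  rw [Finset.sum_eq_single (e.symm b)]
  · simp
  · intro a _ ha
    rw [if_neg]
    rintro rfl
    exact ha (by simp)
  · intro h; exact absurd (Finset.mem_univ _) h

lemma monoM_mul_monoM (c c' : Om m → ℂ) (e e' : Om m ≃ Om m) :
    monoM m c e * monoM m c' e' = monoM m (fun a => c a * c' (e a)) (e.trans e') := by
  rw [monoM_mul]
  ext a b
  change c a * (if b = e' (e a) then c' (e a) else 0) = if b = e' (e a) then c a * c' (e a) else 0
  by_cases h : b = e' (e a)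
  · rw [if_pos h, if_pos h]
  · rw [if_neg h, if_neg h, mul_zero]

lemma monoM_conj (c : Om m → ℂ) (e : Om m ≃ Om m) :
    (monoM m c e)ᴴ = monoM m (fun a => (starRingEnd ℂ) (c (e.symm a))) e.symm := by
  ext a b
  simp only [monoM, Matrix.conjTranspose_apply, Matrix.of_apply]
  by_cases h : a = e b
  · subst h
    simp
  · rw [if_neg h, if_neg]
    · simp
    · rintro rfl; exact h (by simp)

lemma monoM_one : monoM m (fun _ => 1) (Equiv.refl _) = 1 := by
  ext a b
  simp only [monoM, Matrix.of_apply, Matrix.one_apply, Equiv.refl_apply]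
  simp only [eq_comm]

lemma monoM_unitary {c : Om m → ℂ} (hc : ∀ a, ‖c a‖ = 1) (e : Om m ≃ Om m) :
    (monoM m c e)ᴴ * monoM m c e = 1 ∧ monoM m c e * (monoM m c e)ᴴ = 1 := by
  have h1 : ∀ a, (starRingEnd ℂ) (c a) * c a = 1 := by
    intro a
    rw [mul_comm, Complex.mul_conj, Complex.normSq_eq_norm_sq, hc]; norm_num
  rw [monoM_conj, monoM_mul_monoM, monoM_mul_monoM, ← monoM_one]
  constructor
  · congr 1
    · ext a; exact h1 _
    · ext a; simp
  · congr 1
    · ext a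
      simp only [Equiv.symm_apply_apply]
      rw [mul_comm]; exact h1 a
    · ext a; simp

/-- deviation of a monomial matrix controls the displacement of the absolute values -/
lemma dev_monoM (S : Matrix (Om m) (Om n) ℂ) {c : Om m → ℂ} {c' : Om n → ℂ}
    (hc : ∀ a, ‖c a‖ = 1) (hc' : ∀ a, ‖c' a‖ = 1) (e : Om m ≃ Om m) (e' : Om n ≃ Om n) :
    ∑ p : Om m × Om n, (‖S p.1 p.2‖ - ‖S (e p.1) (e' p.2)‖) ^ 2 ≤
      dev S (monoM m c e) (monoM n c' e') ^ 2 := by
  unfold dev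
  rw [nf_sq, monoM_mul, mul_monoM]
  unfold fn
  have h1 : ∑ i, ∑ j, ‖((Matrix.of fun a l => c a * S (e a) l) -
      Matrix.of fun l b => S l (e'.symm b) * c' (e'.symm b)) i j‖ ^ 2 =
      ∑ i, ∑ j, ‖c i * S (e i) (e' j) - S i j * c' j‖ ^ 2 := by
    refine Finset.sum_congr rfl fun i _ => ?_
    rw [← Equiv.sum_comp e']
    refine Finset.sum_congr rfl fun j _ => ?_
    simp
  rw [h1, Fintype.sum_prod_type]
  refine Finset.sum_le_sum fun i _ => Finset.sum_le_sum fun j _ => ?_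
  have h2 := abs_norm_sub_norm_le (c i * S (e i) (e' j)) (S i j * c' j)
  rw [norm_mul, norm_mul, hc, hc', one_mul, mul_one] at h2
  have h3 : (‖S i j‖ - ‖S (e i) (e' j)‖) ^ 2 = |‖S (e i) (e' j)‖ - ‖S i j‖| ^ 2 := by
    rw [sq_abs]; ring
  rw [h3]
  gcongr

open Classical in
/-- the mass of `|S|²` on the pairs with `4(ω-ω')` in `Q` -/
noncomputable def mas (S : Matrix (Om m) (Om n) ℂ) (Q : Set Tor) : ℝ :=
  ∑ p : Om m × Om n, if (4 : ℕ) • (p.1.1 - p.2.1) ∈ Q then ‖S p.1 p.2‖ ^ 2 else 0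

lemma mas_add_le (S : Matrix (Om m) (Om n) ℂ) {Q Q' R : Set Tor} (h : Q ⊆ R) (h' : Q' ⊆ R)
    (hd : ∀ z ∈ Q, z ∉ Q') : mas S Q + mas S Q' ≤ mas S R := by
  classical
  unfold mas
  rw [← Finset.sum_add_distrib]
  refine Finset.sum_le_sum fun p _ => ?_
  by_cases h1 : (4 : ℕ) • (p.1.1 - p.2.1) ∈ Q
  · rw [if_pos h1, if_pos (h h1), if_neg (hd _ h1), add_zero]
  · by_cases h2 : (4 : ℕ) • (p.1.1 - p.2.1) ∈ Q'
    · rw [if_neg h1, if_pos h2, if_pos (h' h2), zero_add]
    · rw [if_neg h1, if_neg h2]; split_ifs <;> simp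

lemma mas_le_add (S : Matrix (Om m) (Om n) ℂ) {Q Q' R : Set Tor} (h : R ⊆ Q ∪ Q') :
    mas S R ≤ mas S Q + mas S Q' := by
  classical
  unfold mas
  rw [← Finset.sum_add_distrib]
  refine Finset.sum_le_sum fun p _ => ?_
  have h0 : 0 ≤ ‖S p.1 p.2‖ ^ 2 := by positivity
  by_cases h1 : (4 : ℕ) • (p.1.1 - p.2.1) ∈ R
  · rw [if_pos h1]
    rcases h h1 with h2 | h2
    · rw [if_pos h2]; split_ifs <;> linarith
    · rw [if_pos h2]; split_ifs <;> linarith
  · rw [if_neg h1]; split_ifs <;> linarith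

/-- absolute displacement -/
noncomputable def adis (S : Matrix (Om m) (Om n) ℂ) (g : Tor ≃+ Tor) : ℝ :=
  ∑ p : Om m × Om n, (‖S p.1 p.2‖ - ‖S (act g m p.1) (act g n p.2)‖) ^ 2

lemma mas_shift (g : Tor ≃+ Tor) (S : Matrix (Om m) (Om n) ℂ) (Q Q' : Set Tor)
    (h : ∀ z, z ∈ Q ↔ g z ∈ Q') {d : ℝ} (hd : Real.sqrt (adis S g) ≤ d) :
    |mas S Q - mas S Q'| ≤ 2 * (d * nf S) := by
  classical
  let e : Om m × Om n ≃ Om m × Om n := (act g m).prodCongr (act g n)
  let F : Om m × Om n → ℝ := fun p => ‖S p.1 p.2‖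
  have hF0 : ∀ p, 0 ≤ F p := fun p => norm_nonneg _
  have h1 : mas S Q' = ∑ p : Om m × Om n,
      if (4 : ℕ) • (p.1.1 - p.2.1) ∈ Q then F (e p) ^ 2 else 0 := by
    unfold mas
    rw [← Equiv.sum_comp e]
    refine Finset.sum_congr rfl fun p _ => ?_
    have h2 : ((4 : ℕ) • ((e p).1.1 - (e p).2.1) ∈ Q') ↔ ((4 : ℕ) • (p.1.1 - p.2.1) ∈ Q) := by
      rw [h, map_nsmul, map_sub]; rfl
    simp only [h2]
    rfl
  have htot : ∑ p, F (e p) ^ 2 = fn S := by
    rw [Equiv.sum_comp e (fun p => F p ^ 2), fn_eq_nsq]; rfl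
  have htot' : ∑ p, F p ^ 2 = fn S := by rw [fn_eq_nsq]; rfl
  have h0 : mas S Q = ∑ p : Om m × Om n,
      if (4 : ℕ) • (p.1.1 - p.2.1) ∈ Q then F p ^ 2 else 0 := rfl
  rw [h1, h0, ← Finset.sum_sub_distrib]
  have h3 : ∀ p : Om m × Om n, |(if (4 : ℕ) • (p.1.1 - p.2.1) ∈ Q then F p ^ 2 else 0) -
      (if (4 : ℕ) • (p.1.1 - p.2.1) ∈ Q then F (e p) ^ 2 else 0)| ≤ |F p - F (e p)| * (F p + F (e p)) := by
    intro p
    have h4 : |F p ^ 2 - F (e p) ^ 2| ≤ |F p - F (e p)| * (F p + F (e p)) := by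
      have h5 : F p ^ 2 - F (e p) ^ 2 = (F p - F (e p)) * (F p + F (e p)) := by ring
      rw [h5, abs_mul, abs_of_nonneg (add_nonneg (hF0 p) (hF0 (e p)))]
    split_ifs
    · exact h4
    · simp only [sub_self, abs_zero]
      exact mul_nonneg (abs_nonneg _) (add_nonneg (hF0 p) (hF0 (e p)))
  calc _ ≤ ∑ p : Om m × Om n, |(if (4 : ℕ) • (p.1.1 - p.2.1) ∈ Q then F p ^ 2 else 0) -
      (if (4 : ℕ) • (p.1.1 - p.2.1) ∈ Q then F (e p) ^ 2 else 0)| := Finset.abs_sum_le_sum_abs _ _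
    _ ≤ ∑ p : Om m × Om n, |F p - F (e p)| * (F p + F (e p)) :=
        Finset.sum_le_sum fun p _ => h3 p
    _ ≤ Real.sqrt (∑ p : Om m × Om n, |F p - F (e p)| ^ 2) *
        Real.sqrt (∑ p : Om m × Om n, (F p + F (e p)) ^ 2) :=
        Real.sum_mul_le_sqrt_mul_sqrt _ _ _
    _ ≤ d * (2 * nf S) := by
        have h6 : ∑ p : Om m × Om n, (F p + F (e p)) ^ 2 ≤ 2 ^ 2 * fn S := by
          calc ∑ p : Om m × Om n, (F p + F (e p)) ^ 2
              ≤ ∑ p : Om m × Om n, (2 * F p ^ 2 + 2 * F (e p) ^ 2) := by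
                refine Finset.sum_le_sum fun p _ => ?_
                nlinarith [sq_nonneg (F p - F (e p))]
            _ = 2 * fn S + 2 * fn S := by
                rw [Finset.sum_add_distrib, ← Finset.mul_sum, ← Finset.mul_sum, htot, htot']
            _ = 2 ^ 2 * fn S := by ring
        have h7 : Real.sqrt (∑ p : Om m × Om n, (F p + F (e p)) ^ 2) ≤ 2 * nf S := by
          refine (Real.sqrt_le_sqrt h6).trans ?_
          rw [Real.sqrt_mul (by positivity), Real.sqrt_sq (by norm_num)]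
          rfl
        have h8 : Real.sqrt (∑ p : Om m × Om n, |F p - F (e p)| ^ 2) ≤ d := by
          have : ∑ p : Om m × Om n, |F p - F (e p)| ^ 2 = adis S g := by
            unfold adis
            refine Finset.sum_congr rfl fun p _ => ?_
            rw [sq_abs]; rfl
          rw [this]; exact hd
        have h9 : 0 ≤ d := (Real.sqrt_nonneg _).trans hd
        have h10 := nf_nonneg S
        have h11 := Real.sqrt_nonneg (∑ p : Om m × Om n, (F p + F (e p)) ^ 2)
        gcongr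
    _ = _ := by ring

end mono

/-- monomial matrix with phase `ph ∘ ℓ` and permutation `g` -/
noncomputable def monoL (m : ℕ) [DecidableEq (Om m)] (ℓ : Tor → UnitAddCircle)
    (g : Tor ≃+ Tor) : Matrix (Om m) (Om m) ℂ :=
  monoM m (fun ω => ph (ℓ ω.1)) (act g m)

lemma ph_add (x y : UnitAddCircle) : ph (x + y) = ph x * ph y := by
  unfold ph
  rw [AddCircle.toCircle_add, Circle.coe_mul]

lemma ph_zero : ph 0 = 1 := by
  unfold ph
  rw [AddCircle.toCircle_zero, Circle.coe_one]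

section words
variable {m n : ℕ} [Fintype (Om m)] [DecidableEq (Om m)] [Fintype (Om n)] [DecidableEq (Om n)]

lemma monoL_mul (ℓ ℓ' : Tor → UnitAddCircle) (g g' : Tor ≃+ Tor) :
    monoL m ℓ g * monoL m ℓ' g' = monoL m (fun z => ℓ z + ℓ' (g z)) (g.trans g') := by
  unfold monoL
  rw [monoM_mul_monoM]
  have h1 : (fun a : Om m => ph (ℓ a.1) * ph (ℓ' (act g m a).1)) =
      fun ω : Om m => ph (ℓ ω.1 + ℓ' (g ω.1)) := by
    funext a
    rw [ph_add]; rfl
  rw [h1]
  congr 1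

lemma monoL_one : monoL m (fun _ => 0) (AddEquiv.refl Tor) = 1 := by
  unfold monoL
  rw [← monoM_one]
  congr 1
  funext a
  exact ph_zero

lemma monoL_upair (ℓ : Tor → UnitAddCircle) (g : Tor ≃+ Tor) :
    UPair (monoL m ℓ g) (monoL n ℓ g) :=
  ⟨monoM_unitary (fun _ => norm_ph _) _, monoM_unitary (fun _ => norm_ph _) _⟩

/-- the phases of the three generators -/
def genL : Fin 3 → (Tor → UnitAddCircle) := ![fun _ => 0, fun _ => 0, fun z => z.1]

/-- the permutations of the three generators -/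
def genG : Fin 3 → (Tor ≃+ Tor) := ![swE, ngE, sE]

/-- the three symmetries on `ℓ₂(Ω_m)` -/
noncomputable def iX (m : ℕ) [DecidableEq (Om m)] (k : Fin 3) : Matrix (Om m) (Om m) ℂ :=
  monoL m (genL k) (genG k)

/-- phase of a word -/
def wL : List (Fin 3) → (Tor → UnitAddCircle)
  | [] => fun _ => 0
  | k :: w => fun z => genL k z + wL w (genG k z)

/-- permutation of a word -/
def wG : List (Fin 3) → (Tor ≃+ Tor)
  | [] => AddEquiv.refl Tor
  | k :: w => (genG k).trans (wG w)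

/-- the matrix of a word -/
noncomputable def wX (m : ℕ) [Fintype (Om m)] [DecidableEq (Om m)] :
    List (Fin 3) → Matrix (Om m) (Om m) ℂ
  | [] => 1
  | k :: w => iX m k * wX m w

lemma wX_eq (w : List (Fin 3)) : wX m w = monoL m (wL w) (wG w) := by
  induction w with
  | nil => exact monoL_one.symm
  | cons k w ih =>
    change iX m k * wX m w = _
    rw [ih]
    unfold iX
    rw [monoL_mul]
    rfl

lemma wX_upair (w : List (Fin 3)) : UPair (wX m w) (wX n w) := by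
  rw [wX_eq, wX_eq]; exact monoL_upair _ _

lemma dev_word (S : Matrix (Om m) (Om n) ℂ) {η : ℝ} (hη : ∀ k, dev S (iX m k) (iX n k) ≤ η)
    (w : List (Fin 3)) : dev S (wX m w) (wX n w) ≤ w.length * η := by
  induction w with
  | nil =>
    have : dev S (wX m []) (wX n []) = 0 := by
      change nf ((1 : Matrix (Om m) (Om m) ℂ) * S - S * 1) = 0
      rw [Matrix.one_mul, Matrix.mul_one, sub_self]
      unfold nf
      rw [fn_zero, Real.sqrt_zero]
    rw [this]; simp
  | cons k w ih =>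
    change dev S (iX m k * wX m w) (iX n k * wX n w) ≤ _
    refine (dev_mul (monoL_upair _ _) (wX_upair w)).trans ?_
    have h1 : dev S (monoL m (genL k) (genG k)) (monoL n (genL k) (genG k)) ≤ η := hη k
    simp only [List.length_cons]
    push_cast
    linarith

lemma adis_word (S : Matrix (Om m) (Om n) ℂ) {η : ℝ} (hη : ∀ k, dev S (iX m k) (iX n k) ≤ η)
    (w : List (Fin 3)) : Real.sqrt (adis S (wG w)) ≤ w.length * η := by
  refine le_trans ?_ (dev_word S hη w)
  rw [wX_eq, wX_eq]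
  rw [Real.sqrt_le_left (dev_nonneg _ _ _)]
  exact dev_monoM S (c := fun ω => ph (wL w ω.1)) (c' := fun ω => ph (wL w ω.1))
    (fun _ => norm_ph _) (fun _ => norm_ph _) (act (wG w) m) (act (wG w) n)

lemma wG_H : wG [2, 1] = shH := by
  ext z : 1
  change ngE (sE z) = shH z
  simp [ngE, sE, shH]

lemma wG_G : wG [0, 2, 1, 0] = shG := by
  ext z : 1
  change swE (ngE (sE (swE z))) = shG z
  simp [ngE, sE, shG, swE]
  abel

/-- the long word giving the phase `4x` -/
def wD : List (Fin 3) := [0,2,0,2,0,2,0,1,0,1, 0,1,0,2,0,2,0,2,0,1,0,1,1,0]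

lemma wG_D : wG wD = AddEquiv.refl Tor := by
  ext z : 1
  simp [wD, wG, genG, swE, ngE, sE]

lemma wL_D (z : Tor) : wL wD z = (4 : ℕ) • z.1 := by
  simp [wD, wL, genG, genL, swE, ngE, sE]
  abel

lemma mas_farX (S : Matrix (Om m) (Om n) ℂ) :
    2 * mas S farX ≤ dev S (wX m wD) (wX n wD) ^ 2 := by
  classical
  have h1 : dev S (wX m wD) (wX n wD) ^ 2 = ∑ i, ∑ j, ‖(ph ((4 : ℕ) • i.1.1) -
      ph ((4 : ℕ) • j.1.1)) * S i j‖ ^ 2 := by
    unfold dev
    rw [nf_sq, wX_eq, wX_eq, wG_D]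
    unfold monoL
    rw [monoM_mul, mul_monoM]
    unfold fn
    refine Finset.sum_congr rfl fun i _ => Finset.sum_congr rfl fun j _ => ?_
    have e : ∀ ω : Tor, wL wD ω = (4 : ℕ) • ω.1 := wL_D
    rw [Matrix.sub_apply, Matrix.of_apply, Matrix.of_apply, e, e]
    have h2 : ph ((4 : ℕ) • i.1.1) * S (act (AddEquiv.refl Tor) m i) j -
        S i ((act (AddEquiv.refl Tor) n).symm j) *
          ph ((4 : ℕ) • (((act (AddEquiv.refl Tor) n).symm j).1).1) =
        (ph ((4 : ℕ) • i.1.1) - ph ((4 : ℕ) • j.1.1)) * S i j := by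
      change ph ((4 : ℕ) • i.1.1) * S i j - S i j * ph ((4 : ℕ) • j.1.1) = _
      ring
    rw [h2]
  rw [h1]
  unfold mas
  rw [Fintype.sum_prod_type, Finset.mul_sum]
  refine Finset.sum_le_sum fun i _ => ?_
  rw [Finset.mul_sum]
  refine Finset.sum_le_sum fun j _ => ?_
  rw [norm_mul, mul_pow, ph_sub]
  split_ifs with h
  · have h3 : ((4 : ℕ) • (i.1 - j.1)).1 = (4 : ℕ) • i.1.1 - (4 : ℕ) • j.1.1 := by
      rw [Prod.smul_fst, Prod.fst_sub, smul_sub]
    have h4 : 2 ≤ ‖ph ((4 : ℕ) • i.1.1 - (4 : ℕ) • j.1.1) - 1‖ ^ 2 := by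
      apply ph_far
      rw [← h3]; exact h
    gcongr
  · rw [mul_zero]; positivity

lemma mas_farY (S : Matrix (Om m) (Om n) ℂ) {η : ℝ} (hη : ∀ k, dev S (iX m k) (iX n k) ≤ η) :
    mas S farY ≤ mas S farX + 2 * ((1 * η) * nf S) := by
  have h0 : Real.sqrt (adis S swE) ≤ 1 * η := by
    have h00 : wG [0] = swE := by ext z : 1; rfl
    have := adis_word S hη [0]
    rw [h00] at this
    simpa using this
  have h1 := mas_shift swE S farY farX (by
    intro z
    simp only [farY, farX, Set.mem_ofPred_eq]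
    rfl) h0
  have h3 := (abs_le.1 h1).2
  linarith

lemma mas_Qp (S : Matrix (Om m) (Om n) ℂ) {η : ℝ} (hη : ∀ k, dev S (iX m k) (iX n k) ≤ η) :
    mas S Qp ≤ 2 * (mas S farX + mas S farY) + 12 * (η * nf S) := by
  have hdG : Real.sqrt (adis S shG) ≤ 4 * η := by
    have := adis_word S hη [0, 2, 1, 0]
    rw [wG_G] at this
    simpa using this
  have hdH : Real.sqrt (adis S shH) ≤ 2 * η := by
    have := adis_word S hη [2, 1]
    rw [wG_H] at this
    simpa using this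
  let GP : Set Tor := {z | shG.symm z ∈ Qp ∩ boxS}
  let HP : Set Tor := {z | shH.symm z ∈ Qp ∩ boxS}
  have hG : ∀ z ∈ GP, z ∈ Qp ∧ rep z.2 ^ 2 < rep z.1 ^ 2 := by
    intro z hz
    obtain ⟨w, rfl⟩ : ∃ w, z = shG w := ⟨shG.symm z, by simp⟩
    have hw : w ∈ Qp ∩ boxS := by
      have : shG.symm (shG w) ∈ Qp ∩ boxS := hz
      simpa using this
    obtain ⟨h1, h2, h3⟩ := hw
    have e1 : rep (shG w).1 = rep w.1 + rep w.2 := rep_add h2 h3
    have e2 : rep (shG w).2 = rep w.2 := rfl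
    rw [mem_Qp] at h1 ⊢
    rw [e1, e2]
    rcases h1 with h1 | ⟨h1, h4⟩
    · refine ⟨Or.inl (by nlinarith [sq_nonneg (rep w.2)]), ?_⟩
      have : rep w.1 ≠ 0 := by rintro h; rw [h] at h1; simp at h1
      have : 0 < rep w.1 ^ 2 := by positivity
      nlinarith
    · rw [h1]
      refine ⟨Or.inr ⟨rfl, by simpa using h4⟩, ?_⟩
      have : 0 < rep w.1 ^ 2 := by positivity
      nlinarith
  have hH : ∀ z ∈ HP, z ∈ Qp ∧ rep z.1 ^ 2 ≤ rep z.2 ^ 2 := by
    intro z hz
    obtain ⟨w, rfl⟩ : ∃ w, z = shH w := ⟨shH.symm z, by simp⟩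
    have hw : w ∈ Qp ∩ boxS := by
      have : shH.symm (shH w) ∈ Qp ∩ boxS := hz
      simpa using this
    obtain ⟨h1, h2, h3⟩ := hw
    have e1 : rep (shH w).2 = rep w.1 + rep w.2 := rep_add h2 h3
    have e2 : rep (shH w).1 = rep w.1 := rfl
    rw [mem_Qp] at h1 ⊢
    rw [e1, e2]
    rcases h1 with h1 | ⟨h1, h4⟩
    · refine ⟨Or.inl (by nlinarith [sq_nonneg (rep w.1)]), ?_⟩
      nlinarith [sq_nonneg (rep w.2)]
    · rw [h1]
      have : 0 < rep w.1 ^ 2 := by positivity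
      refine ⟨Or.inl (by nlinarith), by nlinarith⟩
  have h1 : mas S GP + mas S HP ≤ mas S Qp :=
    mas_add_le S (fun z hz => (hG z hz).1) (fun z hz => (hH z hz).1) (fun z hz hz' => by
      have := (hG z hz).2
      have := (hH z hz').2
      linarith)
  have h2 := (abs_le.1 (mas_shift shG S (Qp ∩ boxS) GP (by
    intro z
    change _ ↔ shG.symm (shG z) ∈ Qp ∩ boxS
    rw [AddEquiv.symm_apply_apply]) hdG)).2
  have h3 := (abs_le.1 (mas_shift shH S (Qp ∩ boxS) HP (by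
    intro z
    change _ ↔ shH.symm (shH z) ∈ Qp ∩ boxS
    rw [AddEquiv.symm_apply_apply]) hdH)).2
  have h4 : mas S Qp ≤ mas S (Qp ∩ boxS) + mas S (farX ∪ farY) := by
    apply mas_le_add
    intro z hz
    by_cases hb : z ∈ boxS
    · exact Or.inl ⟨hz, hb⟩
    · right
      simp only [boxS, Set.mem_ofPred_eq, not_and_or, not_lt] at hb
      exact hb
  have h5 : mas S (farX ∪ farY) ≤ mas S farX + mas S farY := mas_le_add S le_rfl
  nlinarith

lemma mas_Qm (S : Matrix (Om m) (Om n) ℂ) {η : ℝ} (hη : ∀ k, dev S (iX m k) (iX n k) ≤ η) :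
    mas S Qm ≤ 2 * (mas S farX + mas S farY) + 12 * (η * nf S) := by
  have hdG : Real.sqrt (adis S shG) ≤ 4 * η := by
    have := adis_word S hη [0, 2, 1, 0]
    rw [wG_G] at this
    simpa using this
  have hdH : Real.sqrt (adis S shH) ≤ 2 * η := by
    have := adis_word S hη [2, 1]
    rw [wG_H] at this
    simpa using this
  let GP : Set Tor := {z | shG z ∈ Qm ∩ boxS}
  let HP : Set Tor := {z | shH z ∈ Qm ∩ boxS}
  have hG : ∀ z ∈ GP, z ∈ Qm ∧ rep z.2 ^ 2 ≤ rep z.1 ^ 2 := by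
    intro z hz
    obtain ⟨w, rfl⟩ : ∃ w, z = shG.symm w := ⟨shG z, by simp⟩
    have hw : w ∈ Qm ∩ boxS := by
      have : shG (shG.symm w) ∈ Qm ∩ boxS := hz
      simpa using this
    obtain ⟨h1, h2, h3⟩ := hw
    have e1 : rep (shG.symm w).1 = rep w.1 - rep w.2 := rep_sub h2 h3
    have e2 : rep (shG.symm w).2 = rep w.2 := rfl
    rw [mem_Qm] at h1 ⊢
    rw [e1, e2]
    rcases h1 with h1 | ⟨h1, h4⟩
    · refine ⟨Or.inl (by nlinarith [sq_nonneg (rep w.2)]), ?_⟩
      nlinarith [sq_nonneg (rep w.1)]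
    · rw [h1]
      have : 0 < rep w.2 ^ 2 := by positivity
      refine ⟨Or.inl (by nlinarith), by nlinarith⟩
  have hH : ∀ z ∈ HP, z ∈ Qm ∧ rep z.1 ^ 2 < rep z.2 ^ 2 := by
    intro z hz
    obtain ⟨w, rfl⟩ : ∃ w, z = shH.symm w := ⟨shH z, by simp⟩
    have hw : w ∈ Qm ∩ boxS := by
      have : shH (shH.symm w) ∈ Qm ∩ boxS := hz
      simpa using this
    obtain ⟨h1, h2, h3⟩ := hw
    have e1 : rep (shH.symm w).2 = rep w.2 - rep w.1 := rep_sub h3 h2
    have e2 : rep (shH.symm w).1 = rep w.1 := rfl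
    rw [mem_Qm] at h1 ⊢
    rw [e1, e2]
    rcases h1 with h1 | ⟨h1, h4⟩
    · refine ⟨Or.inl (by nlinarith [sq_nonneg (rep w.1)]), ?_⟩
      have : rep w.2 ≠ 0 := by rintro h; rw [h] at h1; simp at h1
      have : 0 < rep w.2 ^ 2 := by positivity
      nlinarith
    · rw [h1]
      have : 0 < rep w.2 ^ 2 := by positivity
      refine ⟨Or.inr ⟨rfl, by simpa using h4⟩, by nlinarith⟩
  have h1 : mas S GP + mas S HP ≤ mas S Qm :=
    mas_add_le S (fun z hz => (hG z hz).1) (fun z hz => (hH z hz).1) (fun z hz hz' => by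
      have := (hG z hz).2
      have := (hH z hz').2
      linarith)
  have h2 := (abs_le.1 (mas_shift shG S GP (Qm ∩ boxS) (fun z => Iff.rfl) hdG)).1
  have h3 := (abs_le.1 (mas_shift shH S HP (Qm ∩ boxS) (fun z => Iff.rfl) hdH)).1
  have h4 : mas S Qm ≤ mas S (Qm ∩ boxS) + mas S (farX ∪ farY) := by
    apply mas_le_add
    intro z hz
    by_cases hb : z ∈ boxS
    · exact Or.inl ⟨hz, hb⟩
    · right
      simp only [boxS, Set.mem_ofPred_eq, not_and_or, not_lt] at hb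
      exact hb
  have h5 : mas S (farX ∪ farY) ≤ mas S farX + mas S farY := mas_le_add S le_rfl
  nlinarith

lemma fn_le_mas (hm : Nat.Coprime m 4) (hn : Nat.Coprime n 4) (hmn : m ≠ n)
    (S : Matrix (Om m) (Om n) ℂ) : fn S ≤ mas S Qp + mas S Qm := by
  classical
  rw [fn_eq_nsq]
  unfold nsq mas
  rw [← Finset.sum_add_distrib]
  refine Finset.sum_le_sum fun p _ => ?_
  have h0 : 0 ≤ ‖S p.1 p.2‖ ^ 2 := by positivity
  have hne : (4 : ℕ) • (p.1.1 - p.2.1) ≠ 0 := by
    intro h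
    rw [smul_sub] at h
    have h1 : (4 : ℕ) • p.1.1 = (4 : ℕ) • p.2.1 := sub_eq_zero.1 h
    have h2 : addOrderOf ((4 : ℕ) • p.1.1) = m := by
      rw [Nat.Coprime.addOrderOf_nsmul]
      · exact p.1.2
      · have : addOrderOf p.1.1 = m := p.1.2
        rw [this]; exact hm
    have h3 : addOrderOf ((4 : ℕ) • p.2.1) = n := by
      rw [Nat.Coprime.addOrderOf_nsmul]
      · exact p.2.2
      · have : addOrderOf p.2.1 = n := p.2.2
        rw [this]; exact hn
    exact hmn (h2.symm.trans ((congrArg addOrderOf h1).trans h3))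
  have hmem : (4 : ℕ) • (p.1.1 - p.2.1) ∈ Qp ∨ (4 : ℕ) • (p.1.1 - p.2.1) ∈ Qm := by
    set z := (4 : ℕ) • (p.1.1 - p.2.1)
    rw [mem_Qp, mem_Qm]
    rcases lt_trichotomy (rep z.1 * rep z.2) 0 with h | h | h
    · exact Or.inr (Or.inl h)
    · rcases mul_eq_zero.1 h with h1 | h1
      · by_cases h2 : rep z.2 = 0
        · exact absurd (Prod.ext (rep_eq_zero h1) (rep_eq_zero h2)) hne
        · exact Or.inr (Or.inr ⟨h1, h2⟩)
      · by_cases h2 : rep z.1 = 0
        · exact absurd (Prod.ext (rep_eq_zero h2) (rep_eq_zero h1)) hne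
        · exact Or.inl (Or.inr ⟨h1, h2⟩)
    · exact Or.inl (Or.inl h)
  rcases hmem with h | h
  · rw [if_pos h]; split_ifs <;> linarith
  · rw [if_pos h]; split_ifs <;> linarith

/-- spectral gap for the three symmetries -/
theorem iX_gap (hm : Nat.Coprime m 4) (hn : Nat.Coprime n 4) (hmn : m ≠ n)
    (S : Matrix (Om m) (Om n) ℂ) :
    fn S ≤ 6400 * ∑ k, fn (iX m k * S - S * iX n k) := by
  have hT : 0 ≤ fn S := fn_nonneg S
  set H := ∑ k, fn (iX m k * S - S * iX n k) with hHdef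
  have hHn : 0 ≤ H := Finset.sum_nonneg fun _ _ => fn_nonneg _
  by_contra hcon
  push Not at hcon
  set σ := nf S with hσ
  set η := Real.sqrt H with hη
  have hσ0 : 0 ≤ σ := nf_nonneg S
  have hη0 : 0 ≤ η := Real.sqrt_nonneg _
  have hσ2 : σ ^ 2 = fn S := nf_sq S
  have hη2 : η ^ 2 = H := Real.sq_sqrt hHn
  have h80 : 80 * η < σ := by
    have : (80 * η) ^ 2 < σ ^ 2 := by rw [mul_pow, hη2, hσ2]; linarith
    exact lt_of_pow_lt_pow_left₀ 2 hσ0 this
  have hd : ∀ k, dev S (iX m k) (iX n k) ≤ η := by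
    intro k
    unfold dev nf
    apply Real.sqrt_le_sqrt
    exact Finset.single_le_sum (f := fun k => fn (iX m k * S - S * iX n k))
      (fun _ _ => fn_nonneg _) (Finset.mem_univ k)
  have h1 := mas_farX S
  have h1' := dev_word S hd wD
  have h1'' : dev S (wX m wD) (wX n wD) ^ 2 ≤ (24 * η) ^ 2 := by
    have h0 := dev_nonneg S (wX m wD) (wX n wD)
    have : (wD.length : ℝ) = 24 := by norm_num [wD]
    rw [this] at h1'
    gcongr
  have h2 := mas_farY S hd
  have h3 := mas_Qp S hd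
  have h4 := mas_Qm S hd
  have h5 := fn_le_mas hm hn hmn S
  rw [← hσ] at h2 h3 h4
  have h7 : fn S ≤ 2304 * η ^ 2 + 32 * (η * σ) := by nlinarith
  rw [← hσ2] at h7
  nlinarith

/-- the symmetries are self-adjoint unitary -/
lemma iX_herm (k : Fin 3) : (iX m k)ᴴ = iX m k := by
  unfold iX monoL
  rw [monoM_conj]
  have hstar : ∀ x : UnitAddCircle, (starRingEnd ℂ) (ph x) = ph (-x) := by
    intro x
    have h1 : (starRingEnd ℂ) (ph x) * ph x = 1 := by
      rw [mul_comm, Complex.mul_conj, Complex.normSq_eq_norm_sq, norm_ph]; norm_num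
    have h2 : ph (-x) * ph x = 1 := by
      rw [← ph_add, neg_add_cancel, ph_zero]
    have h3 : ph x ≠ 0 := by
      intro h; have := norm_ph x; rw [h] at this; simp at this
    exact mul_right_cancel₀ h3 (h1.trans h2.symm)
  fin_cases k
  · congr 1
    funext a
    change (starRingEnd ℂ) (ph 0) = ph 0
    rw [hstar, neg_zero]
  · congr 1
    · funext a
      change (starRingEnd ℂ) (ph 0) = ph 0
      rw [hstar, neg_zero]
  · congr 1
    · funext a
      change (starRingEnd ℂ) (ph (-a.1.1)) = ph a.1.1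
      rw [hstar, neg_neg]

lemma iX_sq (k : Fin 3) : iX m k * iX m k = 1 := by
  have h := (monoL_upair (m := m) (n := m) (genL k) (genG k)).1.1
  have h2 : (iX m k)ᴴ * iX m k = 1 := h
  rwa [iX_herm] at h2

end words

end Pool.Agent.W_MP_7b81ff_an
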