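import Pool.Agent.W_MP_7b81ff_an.Gap

set_option autoImplicit false
set_option linter.unusedSimpArgs false
set_option linter.unusedSectionVars false

open Matrix Finset

namespace Pool.Agent.W_MP_7b81ff_an

variable {m : Type*} [Fintype m] [DecidableEq m]

/-- the cross product matrix -/
def crossM (ζ : Fin 3 → ℂ) : Matrix (Fin 3) (Fin 3) ℂ :=
  !![0, -ζ 2, ζ 1; ζ 2, 0, -ζ 0; -ζ 1, ζ 0, 0]

def CM (ζ : Fin 3 → ℂ) : Matrix (Fin 3 × m) (Fin 3 × m) ℂ :=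
  Matrix.of fun x y => if x.2 = y.2 then crossM ζ x.1 y.1 else 0

def DM (W : Fin 3 → Matrix m m ℂ) (ζ : Fin 3 → ℂ) : Matrix (Fin 3 × m) (Fin 3 × m) ℂ :=
  Matrix.of fun x y => if x.1 = y.1 then ζ x.1 * W x.1 x.2 y.2 else 0

lemma sum_gA_eq (W : Fin 3 → Matrix m m ℂ) (ζ : Fin 3 → ℂ) :
    ∑ l, ζ l • gA W l = CM ζ + (1/50 : ℂ) • DM W ζ := by
  ext ⟨p, i⟩ ⟨q, j⟩
  simp only [Matrix.sum_apply, Fin.sum_univ_three, Matrix.smul_apply, Matrix.add_apply, gA, CM, DM,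
    Matrix.of_apply, crossM]
  have a0 : (0 : Fin 3) - 1 = 2 := rfl
  have a1 : (1 : Fin 3) - 1 = 0 := rfl
  have a2 : (2 : Fin 3) - 1 = 1 := rfl
  have b0 : (0 : Fin 3) + 1 = 1 := rfl
  have b1 : (1 : Fin 3) + 1 = 2 := rfl
  have b2 : (2 : Fin 3) + 1 = 0 := rfl
  rw [a0, a1, a2, b0, b1, b2]
  fin_cases p <;> fin_cases q <;> simp [Matrix.one_apply] <;> (try split_ifs) <;> ring

lemma lagrange_ineq (z0 z1 z2 a b c : ℂ) :
    ‖-z2 * b + z1 * c‖ ^ 2 + ‖z2 * a + -z0 * c‖ ^ 2 + ‖-z1 * a + z0 * b‖ ^ 2 ≤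
      (‖z0‖ ^ 2 + ‖z1‖ ^ 2 + ‖z2‖ ^ 2) * (‖a‖ ^ 2 + ‖b‖ ^ 2 + ‖c‖ ^ 2) := by
  have h : ‖-z2 * b + z1 * c‖ ^ 2 + ‖z2 * a + -z0 * c‖ ^ 2 + ‖-z1 * a + z0 * b‖ ^ 2 +
      ‖(starRingEnd ℂ) z0 * a + (starRingEnd ℂ) z1 * b + (starRingEnd ℂ) z2 * c‖ ^ 2 =
      (‖z0‖ ^ 2 + ‖z1‖ ^ 2 + ‖z2‖ ^ 2) * (‖a‖ ^ 2 + ‖b‖ ^ 2 + ‖c‖ ^ 2) := by
    simp only [Complex.sq_norm, Complex.normSq_apply]
    simp only [Complex.add_re, Complex.add_im, Complex.mul_re, Complex.mul_im, Complex.neg_re,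
      Complex.neg_im, Complex.conj_re, Complex.conj_im]
    ring
  have h2 : 0 ≤ ‖(starRingEnd ℂ) z0 * a + (starRingEnd ℂ) z1 * b + (starRingEnd ℂ) z2 * c‖ ^ 2 := by
    positivity
  linarith

lemma nsq_prod (v : Fin 3 × m → ℂ) : nsq v = ∑ i, (‖v (0, i)‖ ^ 2 + ‖v (1, i)‖ ^ 2 + ‖v (2, i)‖ ^ 2) := by
  unfold nsq
  rw [Fintype.sum_prod_type, Finset.sum_comm]
  simp only [Fin.sum_univ_three]

lemma opn_CM (ζ : Fin 3 → ℂ) : opn (CM (m := m) ζ) ≤ Real.sqrt (nsq ζ) := by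
  apply opn_le (Real.sqrt_nonneg _)
  intro v
  rw [Real.sq_sqrt (nsq_nonneg ζ), nsq_prod, nsq_prod, Finset.mul_sum]
  refine Finset.sum_le_sum fun i _ => ?_
  have h : ∀ p, (CM ζ).mulVec v (p, i) = ∑ q, crossM ζ p q * v (q, i) := by
    intro p
    simp only [Matrix.mulVec, dotProduct, CM, Matrix.of_apply, Fintype.sum_prod_type, ite_mul,
      zero_mul, Finset.sum_ite_eq, Finset.mem_univ, if_true]
  have h2 := lagrange_ineq (ζ 0) (ζ 1) (ζ 2) (v (0, i)) (v (1, i)) (v (2, i))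
  rw [h, h, h]
  simp only [Fin.sum_univ_three, crossM]
  have h3 : nsq ζ = ‖ζ 0‖ ^ 2 + ‖ζ 1‖ ^ 2 + ‖ζ 2‖ ^ 2 := by
    unfold nsq; rw [Fin.sum_univ_three]
  rw [h3]
  simpa using h2

lemma opn_DM {W : Fin 3 → Matrix m m ℂ} (hW : UnitaryFam W) (ζ : Fin 3 → ℂ) :
    opn (DM W ζ) ≤ Real.sqrt (nsq ζ) := by
  apply opn_le (Real.sqrt_nonneg _)
  intro v
  rw [Real.sq_sqrt (nsq_nonneg ζ)]
  have h : ∀ p i, (DM W ζ).mulVec v (p, i) = ζ p * ((W p).mulVec (fun j => v (p, j))) i := by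
    intro p i
    simp only [Matrix.mulVec, dotProduct, DM, Matrix.of_apply, Fintype.sum_prod_type, ite_mul,
      zero_mul, Finset.mul_sum]
    rw [Finset.sum_eq_single p]
    · refine Finset.sum_congr rfl fun j _ => ?_
      simp [mul_assoc]
    · intro q _ hq
      refine Finset.sum_eq_zero fun j _ => ?_
      rw [if_neg (Ne.symm hq)]
    · intro h; exact absurd (Finset.mem_univ _) h
  have hu : ∀ p (w : m → ℂ), nsq ((W p).mulVec w) = nsq w := by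
    intro p w
    have h1 := fn_unitary_mul (hW p).1 (Matrix.of fun (i : m) (_ : Unit) => w i)
    have h2 : ∀ u : m → ℂ, nsq u = fn (Matrix.of fun (i : m) (_ : Unit) => u i) := by
      intro u; simp [nsq, fn]
    rw [h2, h2 w, ← h1]
    congr 1
  have h3 : nsq ((DM W ζ).mulVec v) = ∑ p, ‖ζ p‖ ^ 2 * nsq (fun j => v (p, j)) := by
    unfold nsq
    rw [Fintype.sum_prod_type]
    refine Finset.sum_congr rfl fun p _ => ?_
    have h4 := hu p (fun j => v (p, j))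
    unfold nsq at h4
    rw [← h4, Finset.mul_sum]
    refine Finset.sum_congr rfl fun i _ => ?_
    rw [h, norm_mul, mul_pow]
  have h5 : nsq v = ∑ p, nsq (fun j => v (p, j)) := by
    unfold nsq
    rw [Fintype.sum_prod_type]
  rw [h3, h5, Finset.mul_sum]
  refine Finset.sum_le_sum fun p _ => ?_
  have h6 : ‖ζ p‖ ^ 2 ≤ nsq ζ :=
    Finset.single_le_sum (f := fun p => ‖ζ p‖ ^ 2) (fun _ _ => by positivity) (Finset.mem_univ p)
  have := nsq_nonneg (fun j => v (p, j))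
  gcongr

/-- the constant `1 + ε` -/
noncomputable def kap : ℝ := 51/50

lemma opn_sum_gA {W : Fin 3 → Matrix m m ℂ} (hW : UnitaryFam W) (ζ : Fin 3 → ℂ) :
    opn (∑ l, ζ l • gA W l) ≤ kap * Real.sqrt (nsq ζ) := by
  rw [sum_gA_eq]
  refine (opn_add_le _ _).trans ?_
  rw [opn_smul]
  have h1 := opn_CM (m := m) ζ
  have h2 := opn_DM hW ζ
  have h3 : ‖(1/50 : ℂ)‖ = 1/50 := by norm_num
  rw [h3]
  unfold kap
  linarith

lemma nsq_conj {ι : Type*} [Fintype ι] (v : ι → ℂ) : nsq (fun i => (starRingEnd ℂ) (v i)) = nsq v := by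
  unfold nsq; simp

lemma opn_conj {J J' : Type*} [Fintype J] [Fintype J'] (A : Matrix J J' ℂ) :
    opn (Matrix.of fun i j => (starRingEnd ℂ) (A i j)) = opn A := by
  have key : ∀ A : Matrix J J' ℂ, opn (Matrix.of fun i j => (starRingEnd ℂ) (A i j)) ≤ opn A := by
    intro A
    apply opn_le (opn_nonneg A)
    intro v
    have h1 : (Matrix.of fun i j => (starRingEnd ℂ) (A i j)).mulVec v =
        fun i => (starRingEnd ℂ) (A.mulVec (fun j => (starRingEnd ℂ) (v j)) i) := by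
      ext i
      simp [Matrix.mulVec, dotProduct]
    rw [h1, nsq_conj, ← nsq_conj v]
    exact nsq_mulVec_le _ _
  refine le_antisymm (key A) ?_
  have h := key (Matrix.of fun i j => (starRingEnd ℂ) (A i j))
  have e : (Matrix.of fun i j =>
      (starRingEnd ℂ) ((Matrix.of fun i j => (starRingEnd ℂ) (A i j)) i j)) = A := by
    ext i j; simp
  rwa [e] at h

lemma opn_sum_gA_conj {W : Fin 3 → Matrix m m ℂ} (hW : UnitaryFam W) (ζ : Fin 3 → ℂ) :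
    opn (Matrix.of fun x y => ∑ l, (starRingEnd ℂ) (gA W l x y) * ζ l) ≤ kap * Real.sqrt (nsq ζ) := by
  have h := opn_sum_gA hW (fun l => (starRingEnd ℂ) (ζ l))
  rw [nsq_conj] at h
  rw [← opn_conj] at h
  refine le_trans (le_of_eq ?_) h
  congr 1
  ext x y
  simp [Matrix.sum_apply, mul_comm]

end Pool.Agent.W_MP_7b81ff_an
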