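import Pool.Agent.W_MP_7b81ff_an.Ten

set_option autoImplicit false
set_option linter.unusedSimpArgs false
set_option linter.unusedSectionVars false

open Matrix Finset Module
open scoped NNReal ComplexOrder

namespace Pool.Agent.W_MP_7b81ff_an

lemma pr_conj {κ : Type*} [Fintype κ] (ω ζ : κ → ℂ) : pr ω ζ = (starRingEnd ℂ) (pr ζ ω) := by
  unfold pr
  rw [map_sum]
  refine Finset.sum_congr rfl fun a _ => ?_
  rw [map_mul, Complex.conj_conj, mul_comm]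

lemma pr_add_left {κ : Type*} [Fintype κ] (ω ζ η : κ → ℂ) : pr (ω + ζ) η = pr ω η + pr ζ η := by
  unfold pr
  rw [← Finset.sum_add_distrib]
  exact Finset.sum_congr rfl fun a _ => by simp [add_mul]

lemma pr_sub_right {κ : Type*} [Fintype κ] (ω ζ η : κ → ℂ) : pr ω (ζ - η) = pr ω ζ - pr ω η := by
  unfold pr
  rw [← Finset.sum_sub_distrib]
  exact Finset.sum_congr rfl fun a _ => by simp [mul_sub]

section slices
variable {J K H : Type*} [Fintype J] [Fintype K] [Fintype H]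

/-- slice of a vector -/
def sl (Ω : J × (K × H) → ℂ) (h : H) : J × K → ℂ := fun t => Ω (t.1, (t.2, h))

lemma nsq_sl (Ω : J × (K × H) → ℂ) : nsq Ω = ∑ h, nsq (sl Ω h) := by
  unfold nsq sl
  simp only [Fintype.sum_prod_type]
  calc ∑ i, ∑ a, ∑ h, ‖Ω (i, (a, h))‖ ^ 2 = ∑ i, ∑ h, ∑ a, ‖Ω (i, (a, h))‖ ^ 2 :=
        Finset.sum_congr rfl fun _ _ => Finset.sum_comm
    _ = _ := Finset.sum_comm

lemma pr_sl (Ω Ξ : J × (K × H) → ℂ) : pr Ω Ξ = ∑ h, pr (sl Ω h) (sl Ξ h) := by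
  unfold pr sl
  simp only [Fintype.sum_prod_type]
  calc ∑ i, ∑ a, ∑ h, (starRingEnd ℂ) (Ω (i, (a, h))) * Ξ (i, (a, h))
      = ∑ i, ∑ h, ∑ a, (starRingEnd ℂ) (Ω (i, (a, h))) * Ξ (i, (a, h)) :=
        Finset.sum_congr rfl fun _ _ => Finset.sum_comm
    _ = _ := Finset.sum_comm

lemma sl_tn [DecidableEq K] (v : H → ℂ) (ω : J × K → ℂ) (h : H) :
    sl (lft (tn K v) ω) h = v h • ω := by
  ext t
  simp only [sl, lft_tn, Pi.smul_apply, smul_eq_mul]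
  ring

lemma cmpo_eq (ω : J × K → ℂ) (Ω : J × (K × H) → ℂ) (h : H) : cmpo ω Ω h = pr ω (sl Ω h) := rfl

end slices

section loc
variable {E : Type*} [NormedAddCommGroup E] [NormedSpace ℂ E] {ι : Type} [Fintype ι]
  [DecidableEq ι] {B : Basis ι ℂ E} {p q : ℕ} (bp : BasePt B p q)
  (b : Fin 3 → (ι → Matrix (Fin p) (Fin q) ℂ))

/-- the basic inequality -/
lemma BasePt.bracket0 (y : Fin p × Fin p → ℂ) (z : Fin q × Fin q → ℂ) :
    ‖pr bp.ω y - pr bp.ζ z‖ ^ 2 + (1 - bp.κ) / 2 * (nsq (y - pr bp.ω y • bp.ω) +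
      nsq (z - pr bp.ζ z • bp.ζ)) ≤ nsq y + nsq z - 2 * (pr y ((ks bp.x bp.a).mulVec z)).re := by
  set M := ks bp.x bp.a with hM
  set v := pr bp.ω y with hv
  set w := pr bp.ζ z with hw
  set y' := y - v • bp.ω with hy'
  set z' := z - w • bp.ζ with hz'
  have hκ := bp.hκ
  have hκ0 := bp.hκ0
  have hω1 : pr bp.ω bp.ω = 1 := by rw [pr_self, bp.hω, Complex.ofReal_one]
  have hζ1 : pr bp.ζ bp.ζ = 1 := by rw [pr_self, bp.hζ, Complex.ofReal_one]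
  have e1 : pr bp.ω y' = 0 := by
    rw [hy', pr_sub_right, pr_smul_right, hω1, mul_one, ← hv, sub_self]
  have e2 : pr bp.ζ z' = 0 := by
    rw [hz', pr_sub_right, pr_smul_right, hζ1, mul_one, ← hw, sub_self]
  have hyy : y = v • bp.ω + y' := by rw [hy']; abel
  have hzz : z = w • bp.ζ + z' := by rw [hz']; abel
  have n1 : nsq y = ‖v‖ ^ 2 + nsq y' := by
    rw [hyy, nsq_add, pr_smul_left, e1, nsq_smul, bp.hω]
    simp
  have n2 : nsq z = ‖w‖ ^ 2 + nsq z' := by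
    rw [hzz, nsq_add, pr_smul_left, e2, nsq_smul, bp.hζ]
    simp
  have n3 : ‖v - w‖ ^ 2 = ‖v‖ ^ 2 + ‖w‖ ^ 2 - 2 * ((starRingEnd ℂ) v * w).re := by
    simp only [Complex.sq_norm, Complex.normSq_apply, Complex.sub_re, Complex.sub_im,
      Complex.mul_re, Complex.conj_re, Complex.conj_im]
    ring
  have m1 : pr y (M.mulVec z) = (starRingEnd ℂ) v * w + pr y' (M.mulVec z') := by
    have a1 : M.mulVec z = w • bp.ω + M.mulVec z' := by
      conv_lhs => rw [hzz]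
      rw [Matrix.mulVec_add, Matrix.mulVec_smul, bp.h1]
    have a2 : pr y bp.ω = (starRingEnd ℂ) v := by rw [pr_conj, hv]
    have a3 : pr bp.ω (M.mulVec z') = 0 := by rw [pr_mulVec, bp.h2, e2]
    have a4 : pr y (M.mulVec z') = pr y' (M.mulVec z') := by
      conv_lhs => rw [hyy]
      rw [pr_add_left, pr_smul_left, a3, mul_zero, zero_add]
    rw [a1, pr_add_right, pr_smul_right, a2, a4]
    ring
  set t : ℝ := (1 + bp.κ) / 2 with ht
  have ht0 : 0 < t := by rw [ht]; linarith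
  have k1 := re_pr_le_weighted ht0 y' (M.mulVec z')
  have k2 := bp.hgap z' e2
  have k3 : t⁻¹ * nsq (M.mulVec z') ≤ t⁻¹ * (bp.κ * nsq z') := by
    have := inv_pos.2 ht0
    gcongr
  have k4 : t⁻¹ * bp.κ ≤ 1 - (1 - bp.κ) / 2 := by
    rw [inv_mul_le_iff₀ ht0, ht]
    nlinarith
  have k5 := nsq_nonneg z'
  have k6 : t⁻¹ * (bp.κ * nsq z') ≤ (1 - (1 - bp.κ) / 2) * nsq z' := by
    rw [← mul_assoc]
    gcongr
  rw [m1, Complex.add_re, n1, n2, n3]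
  have k7 : t * nsq y' = nsq y' - (1 - bp.κ) / 2 * nsq y' := by rw [ht]; ring
  nlinarith

/-- perturbed map -/
noncomputable def uu {H : Type*} [DecidableEq H] (ε : ℝ) (X : Fin 3 → Matrix H H ℂ) :
    ι → Matrix (Fin p × H) (Fin q × H) ℂ :=
  fun l => kr (bp.a l) 1 + (ε : ℂ) • ∑ k, kr (b k l) (X k)

variable {H : Type*} [Fintype H] [DecidableEq H]

lemma ks_kr_apply (x b : ι → Matrix (Fin p) (Fin q) ℂ) (X : Matrix H H ℂ) :
    ks x (fun l => kr (b l) X) = (kr (ks x b) X).submatrix (Equiv.prodAssoc (Fin p) (Fin p) H).symm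
      (Equiv.prodAssoc (Fin q) (Fin q) H).symm := by
  ext ⟨i, a, h⟩ ⟨j, c, h'⟩
  simp only [ks, kr, Matrix.of_apply, Matrix.submatrix_apply, Equiv.prodAssoc_symm_apply,
    Finset.sum_mul]
  exact Finset.sum_congr rfl fun l _ => by ring

lemma opn_ks_kr_le (x b : ι → Matrix (Fin p) (Fin q) ℂ) {X : Matrix H H ℂ} (hX : opn X ≤ 1) :
    opn (ks x (fun l => kr (b l) X)) ≤ opn (ks x b) := by
  rw [ks_kr_apply, opn_submatrix_equiv]
  refine (opn_kr_le _ _).trans ?_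
  have := opn_nonneg (ks x b)
  nlinarith

lemma sl_ks_kr_one (x a : ι → Matrix (Fin p) (Fin q) ℂ) (Z : Fin q × (Fin q × H) → ℂ) (h : H) :
    sl ((ks x (fun l => kr (a l) (1 : Matrix H H ℂ))).mulVec Z) h = (ks x a).mulVec (sl Z h) := by
  ext ⟨i, α⟩
  simp only [sl, Matrix.mulVec, dotProduct, ks, kr, Matrix.of_apply, Fintype.sum_prod_type,
    Matrix.one_apply, mul_ite, mul_one, mul_zero]
  refine Finset.sum_congr rfl fun j _ => Finset.sum_congr rfl fun β _ => ?_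
  rw [Finset.sum_eq_single h]
  · simp
  · intro h' _ hh
    have : (∑ l, if h = h' then x l i j * a l α β else (0 : ℂ)) = 0 := by
      simp [Ne.symm hh]
    rw [this, zero_mul]
  · intro hh; exact absurd (Finset.mem_univ _) hh

lemma re_pr_opn_le {κ κ' : Type*} [Fintype κ] [Fintype κ'] {D : Matrix κ κ' ℂ} {δ τ : ℝ}
    (hδ : 0 < δ) (hD : opn D ≤ δ) (hτ : 0 < τ) (x : κ → ℂ) (y : κ' → ℂ) :
    (pr x (D.mulVec y)).re ≤ δ * (τ * nsq x + τ⁻¹ * nsq y) / 2 := by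
  have h1 := re_pr_le_weighted (mul_pos hδ hτ) x (D.mulVec y)
  have h2 := (opn_le_iff hδ.le).1 hD y
  have h3 : (δ * τ)⁻¹ * nsq (D.mulVec y) ≤ (δ * τ)⁻¹ * (δ ^ 2 * nsq y) := by
    have := inv_pos.2 (mul_pos hδ hτ)
    gcongr
  have h4 : (δ * τ)⁻¹ * (δ ^ 2 * nsq y) = δ * (τ⁻¹ * nsq y) := by
    field_simp
  rw [h4] at h3
  linarith

lemma nsq_split {J K : Type*} [Fintype J] [Fintype K] [DecidableEq K] {ω : J × K → ℂ}
    (hω : nsq ω = 1) (Ω : J × (K × H) → ℂ) :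
    nsq Ω = nsq (cmpo ω Ω) + nsq (Ω - lft (tn K (cmpo ω Ω)) ω) := by
  have h1 : Ω = lft (tn K (cmpo ω Ω)) ω + (Ω - lft (tn K (cmpo ω Ω)) ω) := by abel
  conv_lhs => rw [h1]
  rw [nsq_add, nsq_lft_tn, hω, mul_one, pr_lft_tn, cmpo_sub, cmpo_lft_tn hω, sub_self]
  simp [pr]

lemma ks_sum_right {P Q P' Q' κ : Type*} [Fintype P] [Fintype Q] [Fintype P'] [Fintype Q']
    (s : Finset κ) (x : ι → Matrix P Q ℂ) (u : κ → ι → Matrix P' Q' ℂ) :
    ks x (fun l => ∑ k ∈ s, u k l) = ∑ k ∈ s, ks x (u k) := by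
  ext a c
  simp only [ks, Matrix.of_apply, Matrix.sum_apply, Finset.mul_sum]
  exact Finset.sum_comm

lemma BasePt.g_sum (c : Fin 3 → ℂ) (b : Fin 3 → (ι → Matrix (Fin p) (Fin q) ℂ)) :
    bp.g (fun l => ∑ k, c k • b k l) = ∑ k, c k * bp.g (b k) := by
  unfold BasePt.g
  rw [ks_sum_right Finset.univ bp.x (fun k l => c k • b k l), Matrix.sum_mulVec]
  have h1 : ∀ k, (ks bp.x (fun l => c k • b k l)).mulVec bp.ζ = c k • (ks bp.x (b k)).mulVec bp.ζ := by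
    intro k
    have : ks bp.x (fun l => c k • b k l) = c k • ks bp.x (b k) := ks_smul_right bp.x (c k) (b k)
    rw [this, Matrix.smul_mulVec]
  simp only [h1, Fin.sum_univ_three, pr_add_right, pr_smul_right]

/-- the perturbed bracket inequality -/
lemma BasePt.bracket (hb : ∀ k, bp.g (b k) = 0) {ε δ : ℝ} (hε : 0 < ε) (hδ0 : 0 < δ)
    (hδ : ∑ k, opn (ks bp.x (b k)) ≤ δ) (hεδ : ε * δ ≤ (1 - bp.κ) / 8)
    {X : Fin 3 → Matrix H H ℂ} (hX1 : ∀ k, opn (X k) ≤ 1)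
    (Ω : Fin p × (Fin p × H) → ℂ) (Z : Fin q × (Fin q × H) → ℂ) :
    nsq (cmpo bp.ω Ω - cmpo bp.ζ Z) + (1 - bp.κ) / 4 *
      (nsq (Ω - lft (tn (Fin p) (cmpo bp.ω Ω)) bp.ω) + nsq (Z - lft (tn (Fin q) (cmpo bp.ζ Z)) bp.ζ))
      - ε ^ 2 * (8 * δ ^ 2 / (1 - bp.κ)) * (nsq (cmpo bp.ω Ω) + nsq (cmpo bp.ζ Z)) ≤
    nsq Ω + nsq Z - 2 * (pr Ω ((ks bp.x (uu bp b ε X)).mulVec Z)).re := by
  set v := cmpo bp.ω Ω with hv
  set w := cmpo bp.ζ Z with hw
  set Ωp := lft (tn (Fin p) v) bp.ω with hΩp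
  set Zp := lft (tn (Fin q) w) bp.ζ with hZp
  set Ω' := Ω - Ωp with hΩ'
  set Z' := Z - Zp with hZ'
  set M1 := ks bp.x (fun l => kr (bp.a l) (1 : Matrix H H ℂ)) with hM1
  set D := ks bp.x (fun l => ∑ k, kr (b k l) (X k)) with hD
  have hκ := bp.hκ
  have hks : ks bp.x (uu bp b ε X) = M1 + (ε : ℂ) • D := by
    have h1 : uu bp b ε X = (fun l => kr (bp.a l) (1 : Matrix H H ℂ)) +
      (ε : ℂ) • (fun l => ∑ k, kr (b k l) (X k)) := rfl
    rw [h1, ks_add_right, ks_smul_right]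
  have hDn : opn D ≤ δ := by
    rw [hD, ks_sum_right Finset.univ bp.x (fun k l => kr (b k l) (X k))]
    refine (opn_sum_le _ _).trans (le_trans ?_ hδ)
    exact Finset.sum_le_sum fun k _ => opn_ks_kr_le _ _ (hX1 k)
  -- unperturbed part
  have hmain : nsq (v - w) + (1 - bp.κ) / 2 * (nsq Ω' + nsq Z') ≤
      nsq Ω + nsq Z - 2 * (pr Ω (M1.mulVec Z)).re := by
    have h1 : ∀ h, ‖v h - w h‖ ^ 2 + (1 - bp.κ) / 2 * (nsq (sl Ω' h) + nsq (sl Z' h)) ≤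
        nsq (sl Ω h) + nsq (sl Z h) - 2 * (pr (sl Ω h) (sl (M1.mulVec Z) h)).re := by
      intro h
      have h2 := bp.bracket0 (sl Ω h) (sl Z h)
      have h3 : sl Ω' h = sl Ω h - pr bp.ω (sl Ω h) • bp.ω := by
        have : sl Ω' h = sl Ω h - sl Ωp h := rfl
        rw [this, hΩp, sl_tn]
        rfl
      have h4 : sl Z' h = sl Z h - pr bp.ζ (sl Z h) • bp.ζ := by
        have : sl Z' h = sl Z h - sl Zp h := rfl
        rw [this, hZp, sl_tn]
        rfl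
      rw [h3, h4, hM1, sl_ks_kr_one]
      exact h2
    have h2 := Finset.sum_le_sum fun h (_ : h ∈ Finset.univ) => h1 h
    rw [Finset.sum_add_distrib, Finset.sum_sub_distrib, Finset.sum_add_distrib, ← Finset.mul_sum,
      Finset.sum_add_distrib, ← nsq_sl, ← nsq_sl, ← nsq_sl, ← nsq_sl, ← Finset.mul_sum] at h2
    rw [pr_sl, Complex.re_sum]
    exact h2
  -- perturbation part
  have hΩs : Ω = Ωp + Ω' := by rw [hΩ']; abel
  have hZs : Z = Zp + Z' := by rw [hZ']; abel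
  have h0 : pr Ωp (D.mulVec Zp) = 0 := by
    rw [hD, hΩp, hZp, ← bp.g_conj]
    have h1 : (fun l => (tn (Fin p) v)ᴴ * (∑ k, kr (b k l) (X k)) * tn (Fin q) w) =
        fun l => ∑ k, (pr v ((X k).mulVec w)) • b k l := by
      funext l
      rw [Matrix.mul_sum, Matrix.sum_mul]
      exact Finset.sum_congr rfl fun k _ => tnH_kr_tn v w (b k l) (X k)
    rw [h1, bp.g_sum]
    exact Finset.sum_eq_zero fun k _ => by rw [hb, mul_zero]
  have hexp : pr Ω (D.mulVec Z) = pr Ωp (D.mulVec Z') + pr Ω' (D.mulVec Zp) + pr Ω' (D.mulVec Z') := by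
    conv_lhs => rw [hΩs, hZs]
    rw [Matrix.mulVec_add, pr_add_left, pr_add_right, pr_add_right, h0]
    ring
  have hc0 : 0 < 1 - bp.κ := by linarith
  set τ : ℝ := 8 * ε * δ / (1 - bp.κ) with hτ
  have hτ0 : 0 < τ := by positivity
  have t2 := re_pr_opn_le hδ0 hDn hτ0 Ωp Z'
  have t3 := re_pr_opn_le hδ0 hDn (inv_pos.2 hτ0) Ω' Zp
  have t4 := re_pr_opn_le hδ0 hDn one_pos Ω' Z'
  rw [inv_inv] at t3
  rw [inv_one, one_mul, one_mul] at t4
  have n1 : nsq Ωp = nsq v := by rw [hΩp, nsq_lft_tn, bp.hω, mul_one]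
  have n2 : nsq Zp = nsq w := by rw [hZp, nsq_lft_tn, bp.hζ, mul_one]
  rw [n1] at t2
  rw [n2] at t3
  have hre : (pr Ω (D.mulVec Z)).re ≤ δ * (τ * (nsq v + nsq w) + (τ⁻¹ + 1) * (nsq Ω' + nsq Z')) / 2 := by
    rw [hexp, Complex.add_re, Complex.add_re]
    linarith
  have p1 := nsq_nonneg Ω'
  have p2 := nsq_nonneg Z'
  have p3 := nsq_nonneg v
  have p4 := nsq_nonneg w
  have c1 : ε * δ * τ = ε ^ 2 * (8 * δ ^ 2 / (1 - bp.κ)) := by
    rw [hτ]; field_simp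
  have c2 : ε * δ * τ⁻¹ = (1 - bp.κ) / 8 := by
    rw [hτ]; field_simp
  have hfin : 2 * (ε * (pr Ω (D.mulVec Z)).re) ≤ ε ^ 2 * (8 * δ ^ 2 / (1 - bp.κ)) * (nsq v + nsq w) +
      (1 - bp.κ) / 4 * (nsq Ω' + nsq Z') := by
    calc 2 * (ε * (pr Ω (D.mulVec Z)).re) ≤
        2 * (ε * (δ * (τ * (nsq v + nsq w) + (τ⁻¹ + 1) * (nsq Ω' + nsq Z')) / 2)) := by gcongr
      _ = (ε * δ * τ) * (nsq v + nsq w) + (ε * δ * τ⁻¹ + ε * δ) * (nsq Ω' + nsq Z') := by ring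
      _ ≤ _ := by
        rw [c1, c2]
        have : ((1 - bp.κ) / 8 + ε * δ) * (nsq Ω' + nsq Z') ≤ (1 - bp.κ) / 4 * (nsq Ω' + nsq Z') := by
          apply mul_le_mul_of_nonneg_right _ (by linarith)
          linarith
        linarith
  rw [hks, Matrix.add_mulVec, Matrix.smul_mulVec, pr_add_right, pr_smul_right, Complex.add_re,
    Complex.re_ofReal_mul]
  linarith

end loc

end Pool.Agent.W_MP_7b81ff_an
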