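import Mathlib

set_option autoImplicit false

open Matrix

namespace Pool.Agent.W_MP_7b81ff_an

variable {m n l : Type*} [Fintype m] [Fintype n] [Fintype l]

/-- The squared Euclidean norm of a vector. -/
noncomputable def nsq {ι : Type*} [Fintype ι] (v : ι → ℂ) : ℝ := ∑ i, ‖v i‖ ^ 2

lemma nsq_nonneg {ι : Type*} [Fintype ι] (v : ι → ℂ) : 0 ≤ nsq v :=
  Finset.sum_nonneg fun _ _ => by positivity

lemma nsq_eq_norm {ι : Type*} [Fintype ι] (v : ι → ℂ) :
    nsq v = ‖(WithLp.toLp 2 v : EuclideanSpace ℂ ι)‖ ^ 2 := by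
  rw [EuclideanSpace.norm_sq_eq]; rfl

/-- The operator norm of a complex matrix acting between Euclidean spaces. -/
noncomputable def opn (A : Matrix m n ℂ) : ℝ :=
  sSup {r : ℝ | ∃ v : n → ℂ, nsq v ≤ 1 ∧ r = Real.sqrt (nsq (A.mulVec v))}

lemma nsq_smul {ι : Type*} [Fintype ι] (c : ℂ) (v : ι → ℂ) : nsq (c • v) = ‖c‖ ^ 2 * nsq v := by
  simp only [nsq, Pi.smul_apply, smul_eq_mul, norm_mul, mul_pow, Finset.mul_sum]

lemma nsq_eq_zero {ι : Type*} [Fintype ι] {v : ι → ℂ} (h : nsq v = 0) : v = 0 := by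
  ext i
  have := (Finset.sum_eq_zero_iff_of_nonneg (fun i _ => by positivity)).1 h i (Finset.mem_univ i)
  simpa using this

lemma nsq_mulVec_crude (A : Matrix m n ℂ) (v : n → ℂ) :
    nsq (A.mulVec v) ≤ (∑ i, ∑ j, ‖A i j‖ ^ 2) * nsq v := by
  unfold nsq
  rw [Finset.sum_mul]
  refine Finset.sum_le_sum fun i _ => ?_
  have h1 : ‖(A.mulVec v) i‖ ≤ ∑ j, ‖A i j‖ * ‖v j‖ := by
    simp only [Matrix.mulVec, dotProduct]
    refine (norm_sum_le _ _).trans ?_
    simp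
  calc ‖(A.mulVec v) i‖ ^ 2 ≤ (∑ j, ‖A i j‖ * ‖v j‖) ^ 2 := by gcongr
    _ ≤ (∑ j, ‖A i j‖ ^ 2) * (∑ j, ‖v j‖ ^ 2) := Finset.sum_mul_sq_le_sq_mul_sq _ _ _

lemma opn_bdd (A : Matrix m n ℂ) :
    BddAbove {r : ℝ | ∃ v : n → ℂ, nsq v ≤ 1 ∧ r = Real.sqrt (nsq (A.mulVec v))} := by
  refine ⟨Real.sqrt (∑ i, ∑ j, ‖A i j‖ ^ 2), ?_⟩
  rintro r ⟨v, hv, rfl⟩
  apply Real.sqrt_le_sqrt
  have h0 : 0 ≤ ∑ i, ∑ j, ‖A i j‖ ^ 2 :=
    Finset.sum_nonneg fun _ _ => Finset.sum_nonneg fun _ _ => by positivity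
  calc _ ≤ _ := nsq_mulVec_crude A v
    _ ≤ (∑ i, ∑ j, ‖A i j‖ ^ 2) * 1 := by gcongr
    _ = _ := mul_one _

lemma opn_nonneg (A : Matrix m n ℂ) : 0 ≤ opn A := by
  apply Real.sSup_nonneg
  rintro r ⟨v, -, rfl⟩
  exact Real.sqrt_nonneg _

/-- the fundamental inequality -/
lemma nsq_mulVec_le (A : Matrix m n ℂ) (v : n → ℂ) : nsq (A.mulVec v) ≤ opn A ^ 2 * nsq v := by
  by_cases h : nsq v = 0
  · have := nsq_eq_zero h
    subst this
    simp [nsq]
  · have hpos : 0 < nsq v := lt_of_le_of_ne (nsq_nonneg v) (Ne.symm h)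
    set c : ℂ := (((Real.sqrt (nsq v))⁻¹ : ℝ) : ℂ) with hc
    have hcn : ‖c‖ ^ 2 = (nsq v)⁻¹ := by
      rw [hc, Complex.norm_real, Real.norm_eq_abs, sq_abs, inv_pow, Real.sq_sqrt hpos.le]
    have h1 : nsq (c • v) ≤ 1 := by
      rw [nsq_smul, hcn, inv_mul_cancel₀ h]
    have h2 : Real.sqrt (nsq (A.mulVec (c • v))) ≤ opn A := le_csSup (opn_bdd A) ⟨_, h1, rfl⟩
    have h3 : nsq (A.mulVec (c • v)) ≤ opn A ^ 2 := by
      rw [← Real.sqrt_le_left (opn_nonneg A)]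
      exact h2
    rw [Matrix.mulVec_smul, nsq_smul, hcn] at h3
    rw [inv_mul_le_iff₀ hpos] at h3
    linarith [mul_comm (nsq v) (opn A ^ 2)]

lemma opn_le {A : Matrix m n ℂ} {a : ℝ} (ha : 0 ≤ a)
    (h : ∀ v, nsq (A.mulVec v) ≤ a ^ 2 * nsq v) : opn A ≤ a := by
  apply Real.sSup_le _ ha
  rintro r ⟨v, hv, rfl⟩
  rw [Real.sqrt_le_left ha]
  calc _ ≤ _ := h v
    _ ≤ a ^ 2 * 1 := by gcongr
    _ = _ := mul_one _

lemma opn_le_iff {A : Matrix m n ℂ} {a : ℝ} (ha : 0 ≤ a) :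
    opn A ≤ a ↔ ∀ v, nsq (A.mulVec v) ≤ a ^ 2 * nsq v := by
  refine ⟨fun h v => (nsq_mulVec_le A v).trans ?_, opn_le ha⟩
  have := opn_nonneg A
  have := nsq_nonneg v
  gcongr

lemma sqrt_nsq_add_le {ι : Type*} [Fintype ι] (v w : ι → ℂ) :
    Real.sqrt (nsq (v + w)) ≤ Real.sqrt (nsq v) + Real.sqrt (nsq w) := by
  rw [nsq_eq_norm, nsq_eq_norm, nsq_eq_norm, Real.sqrt_sq (norm_nonneg _),
    Real.sqrt_sq (norm_nonneg _), Real.sqrt_sq (norm_nonneg _)]
  exact norm_add_le (WithLp.toLp 2 v : EuclideanSpace ℂ ι) (WithLp.toLp 2 w)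

lemma sqrt_nsq_mulVec_le (A : Matrix m n ℂ) (v : n → ℂ) :
    Real.sqrt (nsq (A.mulVec v)) ≤ opn A * Real.sqrt (nsq v) := by
  have h := Real.sqrt_le_sqrt (nsq_mulVec_le A v)
  rwa [Real.sqrt_mul (by positivity), Real.sqrt_sq (opn_nonneg A)] at h

lemma opn_le' {A : Matrix m n ℂ} {a : ℝ} (ha : 0 ≤ a)
    (h : ∀ v, Real.sqrt (nsq (A.mulVec v)) ≤ a * Real.sqrt (nsq v)) : opn A ≤ a := by
  apply opn_le ha
  intro v
  have h1 := h v
  have h2 := Real.sqrt_nonneg (nsq (A.mulVec v))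
  have h3 := Real.sq_sqrt (nsq_nonneg (A.mulVec v))
  have h4 := Real.sq_sqrt (nsq_nonneg v)
  calc nsq (A.mulVec v) = (Real.sqrt (nsq (A.mulVec v))) ^ 2 := h3.symm
    _ ≤ (a * Real.sqrt (nsq v)) ^ 2 := by gcongr
    _ = a ^ 2 * nsq v := by rw [mul_pow, h4]

lemma opn_add_le (A B : Matrix m n ℂ) : opn (A + B) ≤ opn A + opn B := by
  apply opn_le' (add_nonneg (opn_nonneg A) (opn_nonneg B))
  intro v
  rw [Matrix.add_mulVec, add_mul]
  exact (sqrt_nsq_add_le _ _).trans (add_le_add (sqrt_nsq_mulVec_le A v) (sqrt_nsq_mulVec_le B v))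

lemma opn_smul_le (c : ℂ) (A : Matrix m n ℂ) : opn (c • A) ≤ ‖c‖ * opn A := by
  apply opn_le (mul_nonneg (norm_nonneg c) (opn_nonneg A))
  intro v
  rw [Matrix.smul_mulVec, nsq_smul, mul_pow, mul_assoc]
  have := nsq_mulVec_le A v
  gcongr

lemma opn_smul (c : ℂ) (A : Matrix m n ℂ) : opn (c • A) = ‖c‖ * opn A := by
  refine le_antisymm (opn_smul_le c A) ?_
  by_cases hc : c = 0
  · subst hc
    simpa using opn_nonneg _
  · have h := opn_smul_le c⁻¹ (c • A)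
    rw [smul_smul, inv_mul_cancel₀ hc, one_smul, norm_inv] at h
    have hcp : 0 < ‖c‖ := norm_pos_iff.2 hc
    rw [← div_eq_inv_mul, le_div_iff₀ hcp] at h
    linarith [mul_comm ‖c‖ (opn A)]

lemma opn_mul_le (A : Matrix m n ℂ) (B : Matrix n l ℂ) : opn (A * B) ≤ opn A * opn B := by
  apply opn_le' (mul_nonneg (opn_nonneg A) (opn_nonneg B))
  intro v
  rw [← Matrix.mulVec_mulVec, mul_assoc]
  refine (sqrt_nsq_mulVec_le A _).trans ?_
  have := sqrt_nsq_mulVec_le B v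
  have := opn_nonneg A
  gcongr

lemma opn_zero : opn (0 : Matrix m n ℂ) = 0 := by
  refine le_antisymm (opn_le le_rfl fun v => ?_) (opn_nonneg _)
  simp [nsq]

lemma nsq_comp_equiv {ι κ : Type*} [Fintype ι] [Fintype κ] (e : ι ≃ κ) (v : κ → ℂ) :
    nsq (v ∘ e) = nsq v := by
  unfold nsq
  exact Fintype.sum_equiv e _ _ fun _ => rfl

lemma opn_submatrix_equiv_le {m' n' : Type*} [Fintype m'] [Fintype n'] (A : Matrix m n ℂ)
    (e : m' ≃ m) (f : n' ≃ n) : opn (A.submatrix e f) ≤ opn A := by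
  apply opn_le (opn_nonneg A)
  intro v
  have h1 : (A.submatrix e f).mulVec v = (A.mulVec (v ∘ f.symm)) ∘ e := by
    rw [Matrix.submatrix_mulVec_equiv]
  rw [h1, nsq_comp_equiv, ← nsq_comp_equiv f.symm v]
  exact nsq_mulVec_le _ _

lemma opn_submatrix_equiv {m' n' : Type*} [Fintype m'] [Fintype n'] (A : Matrix m n ℂ)
    (e : m' ≃ m) (f : n' ≃ n) : opn (A.submatrix e f) = opn A := by
  refine le_antisymm (opn_submatrix_equiv_le A e f) ?_
  have h := opn_submatrix_equiv_le (A.submatrix e f) e.symm f.symm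
  rw [Matrix.submatrix_submatrix] at h
  simpa using h

lemma nsq_sumElim {ι κ : Type*} [Fintype ι] [Fintype κ] (v : ι → ℂ) (w : κ → ℂ) :
    nsq (Sum.elim v w) = nsq v + nsq w := by
  unfold nsq
  rw [Fintype.sum_sum_type]
  simp

lemma opn_fromBlocks {m' n' : Type*} [Fintype m'] [Fintype n'] (A : Matrix m n ℂ)
    (B : Matrix m' n' ℂ) : opn (fromBlocks A 0 0 B) = max (opn A) (opn B) := by
  apply le_antisymm
  · apply opn_le (le_max_of_le_left (opn_nonneg A))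
    intro v
    obtain ⟨v1, v2, rfl⟩ : ∃ (v1 : n → ℂ) (v2 : n' → ℂ), v = Sum.elim v1 v2 :=
      ⟨v ∘ Sum.inl, v ∘ Sum.inr, by simp⟩
    rw [Matrix.fromBlocks_mulVec]
    simp only [Sum.elim_comp_inl, Sum.elim_comp_inr, Matrix.zero_mulVec, add_zero, zero_add]
    rw [nsq_sumElim, nsq_sumElim, mul_add]
    have h1 := nsq_mulVec_le A v1
    have h2 := nsq_mulVec_le B v2
    have h3 : opn A ^ 2 * nsq v1 ≤ max (opn A) (opn B) ^ 2 * nsq v1 := by
      have := nsq_nonneg v1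
      have := opn_nonneg A
      gcongr
      exact le_max_left _ _
    have h4 : opn B ^ 2 * nsq v2 ≤ max (opn A) (opn B) ^ 2 * nsq v2 := by
      have := nsq_nonneg v2
      have := opn_nonneg B
      gcongr
      exact le_max_right _ _
    linarith
  · apply max_le
    · apply opn_le (opn_nonneg _)
      intro v
      have h := nsq_mulVec_le (fromBlocks A 0 0 B) (Sum.elim v (0 : n' → ℂ))
      rw [Matrix.fromBlocks_mulVec, nsq_sumElim] at h
      simp only [Sum.elim_comp_inl, Sum.elim_comp_inr, Matrix.zero_mulVec, add_zero, zero_add,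
        Matrix.mulVec_zero] at h
      rw [nsq_sumElim] at h
      have h0 : nsq (0 : m' → ℂ) = 0 := by simp [nsq]
      have h0' : nsq (0 : n' → ℂ) = 0 := by simp [nsq]
      rw [h0, h0'] at h
      simpa using h
    · apply opn_le (opn_nonneg _)
      intro v
      have h := nsq_mulVec_le (fromBlocks A 0 0 B) (Sum.elim (0 : n → ℂ) v)
      rw [Matrix.fromBlocks_mulVec, nsq_sumElim] at h
      simp only [Sum.elim_comp_inl, Sum.elim_comp_inr, Matrix.zero_mulVec, add_zero, zero_add,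
        Matrix.mulVec_zero] at h
      rw [nsq_sumElim] at h
      have h0 : nsq (0 : m → ℂ) = 0 := by simp [nsq]
      have h0' : nsq (0 : n → ℂ) = 0 := by simp [nsq]
      rw [h0, h0'] at h
      simpa using h

lemma opn_sum_le {ι : Type*} (s : Finset ι) (A : ι → Matrix m n ℂ) :
    opn (∑ i ∈ s, A i) ≤ ∑ i ∈ s, opn (A i) := by
  classical
  induction s using Finset.induction_on with
  | empty => simp [opn_zero]
  | insert a s ha ih =>
    rw [Finset.sum_insert ha, Finset.sum_insert ha]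
    exact (opn_add_le _ _).trans (by linarith)

/-- crude bound by the entries -/
lemma opn_le_sum_entries (A : Matrix m n ℂ) : opn A ≤ ∑ i, ∑ j, ‖A i j‖ := by
  have h0 : 0 ≤ ∑ i, ∑ j, ‖A i j‖ :=
    Finset.sum_nonneg fun _ _ => Finset.sum_nonneg fun _ _ => norm_nonneg _
  apply opn_le h0
  intro v
  refine (nsq_mulVec_crude A v).trans ?_
  have h1 : ∑ i, ∑ j, ‖A i j‖ ^ 2 ≤ (∑ i, ∑ j, ‖A i j‖) ^ 2 := by
    calc ∑ i, ∑ j, ‖A i j‖ ^ 2 ≤ ∑ i, (∑ j, ‖A i j‖) ^ 2 :=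
          Finset.sum_le_sum fun i _ => Finset.sum_sq_le_sq_sum_of_nonneg fun j _ => norm_nonneg _
      _ ≤ _ := Finset.sum_sq_le_sq_sum_of_nonneg fun i _ =>
          Finset.sum_nonneg fun _ _ => norm_nonneg _
  have := nsq_nonneg v
  gcongr

/-- scalar case -/
lemma opn_unit (c : ℂ) : opn (Matrix.of fun _ _ : Unit => c) = ‖c‖ := by
  apply le_antisymm
  · refine (opn_le_sum_entries _).trans ?_
    simp
  · have h := nsq_mulVec_le (Matrix.of fun _ _ : Unit => c) (fun _ => 1)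
    simp only [nsq, Matrix.mulVec, dotProduct, Matrix.of_apply, mul_one, Finset.univ_unique,
      Finset.sum_const, Finset.card_singleton, one_smul, norm_one, one_pow] at h
    have := opn_nonneg (Matrix.of fun _ _ : Unit => c)
    exact (sq_le_sq₀ (norm_nonneg c) this).1 (by simpa using h)

end Pool.Agent.W_MP_7b81ff_an
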