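import Pool.Agent.W_MP_7b81ff_an.Cone

set_option autoImplicit false
set_option linter.unusedSimpArgs false
set_option linter.unusedSectionVars false

open Matrix Finset Module
open scoped NNReal ComplexOrder

namespace Pool.Agent.W_MP_7b81ff_an

lemma nsq_sub_eq {κ : Type*} [Fintype κ] (x y : κ → ℂ) :
    nsq (x - y) = nsq x - 2 * (pr x y).re + nsq y := by
  have h := nsq_add x (-y)
  have h1 : nsq (-y) = nsq y := by simp [nsq]
  have h2 : pr x (-y) = - pr x y := by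
    unfold pr
    rw [← Finset.sum_neg_distrib]
    exact Finset.sum_congr rfl fun a _ => by simp
  rw [← sub_eq_add_neg, h1, h2, Complex.neg_re] at h
  linarith

lemma polar {κ : Type*} [Fintype κ] {X : Matrix κ κ ℂ} (hX : Xᴴ = X) (u w : κ → ℂ) :
    (pr (u + w) (X.mulVec (u + w))).re - (pr (u - w) (X.mulVec (u - w))).re =
      4 * (pr (X.mulVec u) w).re := by
  have h1 : pr u (X.mulVec w) = pr (X.mulVec u) w := by rw [pr_mulVec, hX]
  have h2 : (pr w (X.mulVec u)).re = (pr (X.mulVec u) w).re := re_pr_symm _ _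
  simp only [Matrix.mulVec_add, Matrix.mulVec_sub, pr_add_left, pr_add_right, pr_sub_left,
    pr_sub_right, Complex.add_re, Complex.sub_re, h1, h2]
  ring

/-- the final contradiction -/
lemma gap_contra {H Hm : Type} [Fintype H] [Fintype Hm] [DecidableEq Hm] [Nonempty Hm]
    {X : Fin 3 → Matrix H H ℂ} {Xm : Fin 3 → Matrix Hm Hm ℂ} (hX : ∀ k, (X k)ᴴ = X k)
    (hX1 : ∀ k, opn (X k) ≤ 1) (hXm : ∀ k, (Xm k)ᴴ = Xm k) (hXm2 : ∀ k, Xm k * Xm k = 1)
    (hgap : GapP X Xm) (S : Matrix H Hm ℂ) {C ε : ℝ}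
    (hlow : ∀ ξ, nsq ξ = 1 → 1 - C * ε ^ 2 ≤ nsq (S.mulVec ξ))
    (hup : ∀ ξ, nsq (S.mulVec ξ) ≤ (1 + ε ^ 2) * nsq ξ)
    (hq : ∀ k ξ, |(pr ξ ((Xm k).mulVec ξ)).re -
      (pr (S.mulVec ξ) ((X k).mulVec (S.mulVec ξ))).re| ≤ C * ε * nsq ξ) :
    1 - C * ε ^ 2 ≤ 6400 * (3 * (2 * ε ^ 2 + 2 * (C * ε))) := by
  have hunit : ∀ j : Hm, nsq (Pi.single j 1 : Hm → ℂ) = 1 := by
    intro j
    unfold nsq
    rw [Finset.sum_eq_single j]
    · simp
    · intro b _ hb; simp [hb]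
    · intro h; exact absurd (Finset.mem_univ _) h
  have hcol : ∀ {L : Type} [Fintype L] (M : Matrix L Hm ℂ), fn M =
      ∑ j, nsq (M.mulVec (Pi.single j 1)) := by
    intro L _ M
    rw [fn_eq_cols]
    refine Finset.sum_congr rfl fun j _ => ?_
    congr 1
    ext i
    simp
  have h1 : (Fintype.card Hm : ℝ) * (1 - C * ε ^ 2) ≤ fn S := by
    rw [hcol]
    calc (Fintype.card Hm : ℝ) * (1 - C * ε ^ 2) = ∑ _j : Hm, (1 - C * ε ^ 2) := by
          rw [Finset.sum_const, Finset.card_univ, nsmul_eq_mul]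
      _ ≤ _ := Finset.sum_le_sum fun j _ => hlow _ (hunit j)
  have h2 : ∀ k, fn (X k * S - S * Xm k) ≤ (Fintype.card Hm : ℝ) * (2 * ε ^ 2 + 2 * (C * ε)) := by
    intro k
    rw [hcol]
    calc ∑ j, nsq ((X k * S - S * Xm k).mulVec (Pi.single j 1))
        ≤ ∑ _j : Hm, (2 * ε ^ 2 + 2 * (C * ε)) := by
          refine Finset.sum_le_sum fun j _ => ?_
          set x : Hm → ℂ := Pi.single j 1 with hx
          set y := (Xm k).mulVec x with hy
          have hxn : nsq x = 1 := hunit j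
          have hyn : nsq y = 1 := by
            rw [← hxn, hy]
            exact nsq_isom (by rw [hXm, hXm2]) x
          have e1 : (X k * S - S * Xm k).mulVec x = (X k).mulVec (S.mulVec x) - S.mulVec y := by
            rw [Matrix.sub_mulVec, Matrix.mulVec_mulVec, hy, Matrix.mulVec_mulVec]
          rw [e1, nsq_sub_eq]
          have a1 : nsq ((X k).mulVec (S.mulVec x)) ≤ 1 + ε ^ 2 := by
            have b1 := (opn_le_iff zero_le_one).1 (hX1 k) (S.mulVec x)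
            have b2 := hup x
            rw [hxn] at b2
            linarith
          have a2 : nsq (S.mulVec y) ≤ 1 + ε ^ 2 := by
            have b2 := hup y
            rw [hyn] at b2
            linarith
          have p1 := polar (hX k) (S.mulVec x) (S.mulVec y)
          have p2 := polar (hXm k) x y
          rw [← hy, pr_self, hyn, Complex.ofReal_re] at p2
          rw [← Matrix.mulVec_add, ← Matrix.mulVec_sub] at p1
          have q1 := hq k (x + y)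
          have q2 := hq k (x - y)
          have q3 : nsq (x + y) + nsq (x - y) = 4 := by
            rw [nsq_add, nsq_sub_eq, hxn, hyn]; ring
          have q4 := (abs_le.1 q1).2
          have q5 := (abs_le.1 q2).1
          have q6 : C * ε * nsq (x + y) + C * ε * nsq (x - y) = 4 * (C * ε) := by
            rw [← mul_add, q3]; ring
          linarith
      _ = _ := by rw [Finset.sum_const, Finset.card_univ, nsmul_eq_mul]
  have h3 := hgap S
  have h4 : ∑ k, fn (X k * S - S * Xm k) ≤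
      3 * ((Fintype.card Hm : ℝ) * (2 * ε ^ 2 + 2 * (C * ε))) := by
    calc ∑ k, fn (X k * S - S * Xm k) ≤
        ∑ _k : Fin 3, (Fintype.card Hm : ℝ) * (2 * ε ^ 2 + 2 * (C * ε)) :=
          Finset.sum_le_sum fun k _ => h2 k
      _ = _ := by simp
  have hcard : (0 : ℝ) < Fintype.card Hm := by exact_mod_cast Fintype.card_pos
  have h5 : (Fintype.card Hm : ℝ) * (1 - C * ε ^ 2) ≤
      (Fintype.card Hm : ℝ) * (6400 * (3 * (2 * ε ^ 2 + 2 * (C * ε)))) := by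
    calc _ ≤ fn S := h1
      _ ≤ _ := h3
      _ ≤ 6400 * (3 * ((Fintype.card Hm : ℝ) * (2 * ε ^ 2 + 2 * (C * ε)))) := by gcongr
      _ = _ := by ring
  exact le_of_mul_le_mul_left h5 hcard

section pert
variable {E : Type*} [NormedAddCommGroup E] [NormedSpace ℂ E] {ι : Type} [Fintype ι]
  [DecidableEq ι] {B : Basis ι ℂ E} {p q : ℕ} (bp : BasePt B p q)
  (b : Fin 3 → (ι → Matrix (Fin p) (Fin q) ℂ))

/-- compression of the unperturbed map -/
lemma tn_uu_tn {Hm : Type} [Fintype Hm] [DecidableEq Hm] {Xm : Fin 3 → Matrix Hm Hm ℂ}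
    (hXm : ∀ k, (Xm k)ᴴ = Xm k) (ε : ℝ) {ξ : Hm → ℂ} (hξ : nsq ξ = 1) (l : ι) :
    (tn (Fin p) ξ)ᴴ * uu bp b ε Xm l * tn (Fin q) ξ =
      bp.a l + (ε : ℂ) • ∑ k, (((pr ξ ((Xm k).mulVec ξ)).re : ℝ) : ℂ) • b k l := by
  unfold uu
  rw [Matrix.mul_add, Matrix.add_mul, tnH_kr_tn, Matrix.one_mulVec, pr_self, hξ, Complex.ofReal_one,
    one_smul, Matrix.mul_smul, Matrix.smul_mul, Matrix.mul_sum, Matrix.sum_mul]
  congr 2
  refine Finset.sum_congr rfl fun k _ => ?_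
  rw [tnH_kr_tn, ← pr_herm_real (hXm k)]

/-- **Perturbation theorem**. -/
theorem BasePt.pert (hb : ∀ k, bp.g (b k) = 0)
    (h : Fin 3 → ((ι → Matrix (Fin p) (Fin q) ℂ) →ₗ[ℝ] ℝ))
    (hh : ∀ k l, h k (b l) = if k = l then 1 else 0)
    (hL : ∀ k (K : Matrix (Fin p) (Fin p) ℂ), Kᴴ = -K → h k (fun l => K * bp.a l) = 0)
    (hR : ∀ k (K : Matrix (Fin q) (Fin q) ℂ), Kᴴ = -K → h k (fun l => bp.a l * K) = 0)
    (K : ℝ) (hK : 0 ≤ K) :
    ∃ ε : ℝ, 0 < ε ∧ ∀ (Hm : Type) [Fintype Hm] [DecidableEq Hm] [Nonempty Hm]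
      (Xm : Fin 3 → Matrix Hm Hm ℂ) (_ : ∀ k, (Xm k)ᴴ = Xm k) (_ : ∀ k, Xm k * Xm k = 1),
      (((1 : Matrix (Fin p × Hm) (Fin p × Hm) ℂ), (1 : Matrix (Fin q × Hm) (Fin q × Hm) ℂ),
        fun l => ((((1 + ε ^ 2 / 2) * (1 + K * ε))⁻¹ : ℝ) : ℂ) • uu bp b ε Xm l) :
        DX (Fin p × Hm) (Fin q × Hm) ι) ∉
      (coneM bp b Xm ε (1 + K * ε)).topologicalClosure := by
  obtain ⟨C, ε0, hC, hε0, hmain⟩ := bp.localThm b hb h hh hL hR K hK
  set ε : ℝ := min (min 1 ε0) (1 / (2 * (C + 38400 + 38400 * C))) with hεdef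
  have hden : 0 < 2 * (C + 38400 + 38400 * C) := by positivity
  have hε : 0 < ε := by
    rw [hεdef]
    refine lt_min (lt_min one_pos hε0) ?_
    positivity
  have he1 : ε ≤ 1 := (min_le_left _ _).trans (min_le_left _ _)
  have he2 : ε ≤ ε0 := (min_le_left _ _).trans (min_le_right _ _)
  have he3 : ε * (C + 38400 + 38400 * C) ≤ 1 / 2 := by
    have : ε ≤ 1 / (2 * (C + 38400 + 38400 * C)) := min_le_right _ _
    rw [le_div_iff₀ hden] at this
    linarith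
  refine ⟨ε, hε, ?_⟩
  intro Hm _ _ _ Xm hXm hXm2 hmem
  set s : ℝ := 1 + K * ε with hs
  have hs1 : 1 ≤ s := by rw [hs]; have : 0 ≤ K * ε := by positivity
                         linarith
  have hsK : s ≤ 1 + K := by rw [hs]; nlinarith
  set c2 : ℝ := 1 + ε ^ 2 / 2 with hc2
  have hε2 : 0 < ε ^ 2 := by positivity
  have hε21 : ε ^ 2 ≤ 1 := by nlinarith
  have hc21 : 1 ≤ c2 := by rw [hc2]; linarith
  have hc22 : c2 ≤ 2 := by rw [hc2]; linarith
  set y : ι → Matrix (Fin p × Hm) (Fin q × Hm) ℂ :=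
    fun l => (((c2 * s)⁻¹ : ℝ) : ℂ) • uu bp b ε Xm l with hy
  set θ : ℝ := min (ε ^ 2 / 4) (ε ^ 2 / (2 * (1 + K))) with hθ
  have hθ0 : 0 < θ := by
    rw [hθ]; refine lt_min ?_ ?_ <;> positivity
  have hθ1 : θ ≤ ε ^ 2 / 4 := min_le_left _ _
  have hθ2 : c2 * s * θ ≤ ε ^ 2 := by
    have h1 : θ ≤ ε ^ 2 / (2 * (1 + K)) := min_le_right _ _
    rw [le_div_iff₀ (by positivity)] at h1
    have h2 : c2 * s ≤ 2 * (1 + K) := by
      have : 0 ≤ s := by linarith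
      calc c2 * s ≤ 2 * s := by gcongr
        _ ≤ 2 * (1 + K) := by linarith
    calc c2 * s * θ ≤ 2 * (1 + K) * θ := by gcongr
      _ ≤ ε ^ 2 := by linarith
  -- approximation
  let Ψ : DX (Fin p × Hm) (Fin q × Hm) ι → ℝ := fun t => (sg t.1 - 1) + (sg t.2.1 - 1) +
    ∑ l, ∑ i, ∑ j, ‖t.2.2 l i j - y l i j‖
  have hΨc : Continuous Ψ := by
    refine ((continuous_sg.comp continuous_fst).sub continuous_const).add
      ((continuous_sg.comp (continuous_fst.comp continuous_snd)).sub continuous_const) |>.add ?_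
    refine continuous_finsetSum _ fun l _ => continuous_finsetSum _ fun i _ =>
      continuous_finsetSum _ fun j _ => ?_
    have h1 : Continuous fun t : DX (Fin p × Hm) (Fin q × Hm) ι => t.2.2 l i j :=
      (continuous_apply j).comp ((continuous_apply i).comp ((continuous_apply l).comp
        (continuous_snd.comp continuous_snd)))
    exact (h1.sub continuous_const).norm
  have hΨ0 : Ψ ((1 : Matrix (Fin p × Hm) (Fin p × Hm) ℂ), (1 : Matrix (Fin q × Hm) (Fin q × Hm) ℂ), y) = 0 := by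
    have h1 : sg (1 : Matrix (Fin p × Hm) (Fin p × Hm) ℂ) = 1 := by
      unfold sg; simp [Matrix.one_apply]
    have h2 : sg (1 : Matrix (Fin q × Hm) (Fin q × Hm) ℂ) = 1 := by
      unfold sg; simp [Matrix.one_apply]
    change (sg (1 : Matrix (Fin p × Hm) (Fin p × Hm) ℂ) - 1) +
      (sg (1 : Matrix (Fin q × Hm) (Fin q × Hm) ℂ) - 1) + ∑ l, ∑ i, ∑ j, ‖y l i j - y l i j‖ = 0
    rw [h1, h2]
    simp
  have hopen : IsOpen {t | Ψ t < θ} := isOpen_lt hΨc continuous_const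
  have hmem' : (((1 : Matrix (Fin p × Hm) (Fin p × Hm) ℂ),
      (1 : Matrix (Fin q × Hm) (Fin q × Hm) ℂ), y) : DX (Fin p × Hm) (Fin q × Hm) ι) ∈
      closure (coneM bp b Xm ε s : Set (DX (Fin p × Hm) (Fin q × Hm) ι)) := hmem
  obtain ⟨t, htΨ, htC⟩ := mem_closure_iff.1 hmem' {t | Ψ t < θ} hopen (by
    change Ψ _ < θ
    rw [hΨ0]; exact hθ0)
  obtain ⟨H, κ, i1, i2, i3, i4, ⟨d⟩⟩ := htC
  have hΨt : (sg t.1 - 1) + (sg t.2.1 - 1) + ∑ l, ∑ i, ∑ j, ‖t.2.2 l i j - y l i j‖ < θ := htΨ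
  have hsum0 : 0 ≤ ∑ l, ∑ i, ∑ j, ‖t.2.2 l i j - y l i j‖ :=
    Finset.sum_nonneg fun _ _ => Finset.sum_nonneg fun _ _ => Finset.sum_nonneg fun _ _ =>
      norm_nonneg _
  have hsg1 := sg_ge t.1
  have hsg2 := sg_ge t.2.1
  have hb1 : sg t.1 ≤ 1 + ε ^ 2 / 4 := by linarith
  have hb2 : sg t.2.1 ≤ 1 + ε ^ 2 / 4 := by linarith
  let Tt : ι → Matrix (Fin p × Hm) (Fin q × Hm) ℂ := t.2.2
  have hb3 : ∀ l, opn (Tt l - y l) ≤ θ := by
    intro l
    refine (opn_le_sum_entries _).trans ?_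
    have h1 : ∑ i, ∑ j, ‖t.2.2 l i j - y l i j‖ ≤ ∑ l, ∑ i, ∑ j, ‖t.2.2 l i j - y l i j‖ :=
      Finset.single_le_sum (f := fun l => ∑ i, ∑ j, ‖t.2.2 l i j - y l i j‖)
        (fun _ _ => Finset.sum_nonneg fun _ _ => Finset.sum_nonneg fun _ _ => norm_nonneg _)
        (Finset.mem_univ l)
    refine le_trans ?_ (h1.trans (by linarith))
    exact le_refl _
  set c' : ℝ := Real.sqrt c2 with hc'
  have hc'2 : c' * c' = c2 := Real.mul_self_sqrt (by linarith)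
  have hc'n : ‖(c' : ℂ)‖ ^ 2 = c2 := by
    rw [Complex.norm_real, Real.norm_eq_abs, sq_abs, hc', Real.sq_sqrt (by linarith)]
  -- the bound for the compressed maps
  have hVb : ∀ (ξ : Hm → ℂ), nsq ξ = 1 → ∀ z, nsq (((c' : ℂ) • (d.V * tn (Fin p) ξ)).mulVec z) +
      nsq (((c' : ℂ) • (d.Vc * tn (Fin p) ξ)).mulVec z) ≤ (1 + ε ^ 2) * nsq z := by
    intro ξ hξ z
    rw [Matrix.smul_mulVec, Matrix.smul_mulVec, nsq_smul, nsq_smul, hc'n, ← mul_add,
      ← Matrix.mulVec_mulVec, ← Matrix.mulVec_mulVec]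
    have h1 := d.hV ((tn (Fin p) ξ).mulVec z)
    have h2 := qm_le_sg t.1 ((tn (Fin p) ξ).mulVec z)
    have h3 : nsq ((tn (Fin p) ξ).mulVec z) = nsq z := by rw [nsq_tn, hξ, one_mul]
    rw [h3] at h2
    have h4 := nsq_nonneg z
    have h5 : sg t.1 * nsq z ≤ (1 + ε ^ 2 / 4) * nsq z := by gcongr
    have h6 : c2 * (nsq (d.V.mulVec ((tn (Fin p) ξ).mulVec z)) +
        nsq (d.Vc.mulVec ((tn (Fin p) ξ).mulVec z))) ≤ c2 * ((1 + ε ^ 2 / 4) * nsq z) := by
      apply mul_le_mul_of_nonneg_left _ (by linarith only [hc2, hε21, hθ0, hθ1])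
      linarith
    refine h6.trans ?_
    rw [← mul_assoc]
    apply mul_le_mul_of_nonneg_right _ h4
    rw [hc2]
    nlinarith only [hθ0, hθ1, hε21]
  have hWb : ∀ (ξ : Hm → ℂ), nsq ξ = 1 → ∀ z, nsq (((c' : ℂ) • (d.W * tn (Fin q) ξ)).mulVec z) +
      nsq (((c' : ℂ) • (d.Wc * tn (Fin q) ξ)).mulVec z) ≤ (1 + ε ^ 2) * nsq z := by
    intro ξ hξ z
    rw [Matrix.smul_mulVec, Matrix.smul_mulVec, nsq_smul, nsq_smul, hc'n, ← mul_add,
      ← Matrix.mulVec_mulVec, ← Matrix.mulVec_mulVec]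
    have h1 := d.hW ((tn (Fin q) ξ).mulVec z)
    have h2 := qm_le_sg t.2.1 ((tn (Fin q) ξ).mulVec z)
    have h3 : nsq ((tn (Fin q) ξ).mulVec z) = nsq z := by rw [nsq_tn, hξ, one_mul]
    rw [h3] at h2
    have h4 := nsq_nonneg z
    have h5 : sg t.2.1 * nsq z ≤ (1 + ε ^ 2 / 4) * nsq z := by gcongr
    have h6 : c2 * (nsq (d.W.mulVec ((tn (Fin q) ξ).mulVec z)) +
        nsq (d.Wc.mulVec ((tn (Fin q) ξ).mulVec z))) ≤ c2 * ((1 + ε ^ 2 / 4) * nsq z) := by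
      apply mul_le_mul_of_nonneg_left _ (by linarith)
      linarith
    refine h6.trans ?_
    rw [← mul_assoc]
    apply mul_le_mul_of_nonneg_right _ h4
    rw [hc2]
    nlinarith only [hθ0, hθ1, hε21]
  have hs0 : s ≠ 0 := by linarith
  have hcs0 : c2 * s ≠ 0 := by positivity
  have herr : ∀ (ξ : Hm → ℂ), nsq ξ = 1 → ∀ l i j,
      ‖(bp.a l + (ε : ℂ) • ∑ k, (((pr ξ ((Xm k).mulVec ξ)).re : ℝ) : ℂ) • b k l -
        ((c' : ℂ) • (d.V * tn (Fin p) ξ))ᴴ * uu bp b ε d.X l * ((c' : ℂ) • (d.W * tn (Fin q) ξ)) -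
        (s : ℂ) • (((c' : ℂ) • (d.Vc * tn (Fin p) ξ))ᴴ * Matrix.diagonal (fun c => d.φ c l) *
          ((c' : ℂ) • (d.Wc * tn (Fin q) ξ)))) i j‖ ≤ ε ^ 2 := by
    intro ξ hξ l i j
    set T := tn (Fin p) ξ with hT
    set T' := tn (Fin q) ξ with hT'
    have e1 : bp.a l + (ε : ℂ) • ∑ k, (((pr ξ ((Xm k).mulVec ξ)).re : ℝ) : ℂ) • b k l =
        ((c2 * s : ℝ) : ℂ) • (Tᴴ * y l * T') := by
      rw [← tn_uu_tn bp b hXm ε hξ l, hy]
      simp only
      rw [Matrix.mul_smul, Matrix.smul_mul, smul_smul, ← Complex.ofReal_mul,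
        mul_inv_cancel₀ hcs0, Complex.ofReal_one, one_smul]
    have e2 : ((c' : ℂ) • (d.V * T))ᴴ * uu bp b ε d.X l * ((c' : ℂ) • (d.W * T')) =
        ((c2 * s : ℝ) : ℂ) • (Tᴴ * (d.Vᴴ * (((s⁻¹ : ℝ) : ℂ) • uu bp b ε d.X l) * d.W) * T') := by
      rw [smul_conj_mul, hc'2]
      simp only [Matrix.mul_smul, Matrix.smul_mul, smul_smul, ← Complex.ofReal_mul]
      have : c2 * s * s⁻¹ = c2 := by field_simp
      rw [this, Matrix.conjTranspose_mul]
      simp only [Matrix.mul_assoc]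
    have e3 : (s : ℂ) • (((c' : ℂ) • (d.Vc * T))ᴴ * Matrix.diagonal (fun c => d.φ c l) *
          ((c' : ℂ) • (d.Wc * T'))) =
        ((c2 * s : ℝ) : ℂ) • (Tᴴ * (d.Vcᴴ * Matrix.diagonal (fun c => d.φ c l) * d.Wc) * T') := by
      rw [smul_conj_mul, hc'2, smul_smul, ← Complex.ofReal_mul, mul_comm s c2,
        Matrix.conjTranspose_mul]
      simp only [Matrix.mul_assoc]
    have e4 : bp.a l + (ε : ℂ) • ∑ k, (((pr ξ ((Xm k).mulVec ξ)).re : ℝ) : ℂ) • b k l -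
        ((c' : ℂ) • (d.V * T))ᴴ * uu bp b ε d.X l * ((c' : ℂ) • (d.W * T')) -
        (s : ℂ) • (((c' : ℂ) • (d.Vc * T))ᴴ * Matrix.diagonal (fun c => d.φ c l) *
          ((c' : ℂ) • (d.Wc * T'))) =
        (-((c2 * s : ℝ) : ℂ)) • (Tᴴ * (Tt l - y l) * T') := by
      have hTt : Tt l = d.Vᴴ * (((s⁻¹ : ℝ) : ℂ) • uu bp b ε d.X l) * d.W +
        d.Vcᴴ * Matrix.diagonal (fun c => d.φ c l) * d.Wc := d.hz l
      rw [e1, e2, e3, hTt, Matrix.mul_sub, Matrix.sub_mul, Matrix.mul_add, Matrix.add_mul,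
        neg_smul, smul_sub, smul_add]
      abel
    rw [e4, Matrix.smul_apply, smul_eq_mul, norm_mul, norm_neg, Complex.norm_real,
      Real.norm_eq_abs, abs_of_nonneg (by positivity)]
    have o1 : opn Tᴴ ≤ 1 := by
      rw [opn_conjTranspose]; exact opn_tn_le zero_le_one (by rw [hξ]; norm_num)
    have o2 : opn T' ≤ 1 := opn_tn_le zero_le_one (by rw [hξ]; norm_num)
    have o3 := (norm_entry_le_opn (Tᴴ * (Tt l - y l) * T')
      i j).trans (opn_mul3_le o1 (hb3 l) o2)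
    rw [one_mul, mul_one] at o3
    refine le_trans ?_ hθ2
    gcongr
  -- local data
  let D : ∀ ξ : Hm → ℂ, nsq ξ = 1 → LD bp b ε s H κ := fun ξ hξ =>
    { X := d.X
      φ := d.φ
      V := (c' : ℂ) • (d.V * tn (Fin p) ξ)
      W := (c' : ℂ) • (d.W * tn (Fin q) ξ)
      Vc := (c' : ℂ) • (d.Vc * tn (Fin p) ξ)
      Wc := (c' : ℂ) • (d.Wc * tn (Fin q) ξ)
      lam := fun k => (pr ξ ((Xm k).mulVec ξ)).re
      hX := d.hX
      hX1 := d.hX1
      hφ := d.hφ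
      hV := hVb ξ hξ
      hW := hWb ξ hξ
      herr := herr ξ hξ }
  let S : Matrix H Hm ℂ := Matrix.of fun h h' => ∑ r : Fin p × Fin p, (starRingEnd ℂ) (bp.ω r) *
    ∑ a, (c' : ℂ) * d.V (r.2, h) (a, h') * bp.ω (r.1, a)
  have hSv : ∀ (ξ : Hm → ℂ) (hξ : nsq ξ = 1), (D ξ hξ).v = S.mulVec ξ := by
    intro ξ hξ
    ext h
    have h1 : (D ξ hξ).v h = ∑ r : Fin p × Fin p, (starRingEnd ℂ) (bp.ω r) *
        ∑ a, (((c' : ℂ) • (d.V * tn (Fin p) ξ)) (r.2, h) a) * bp.ω (r.1, a) := rfl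
    rw [h1]
    simp only [Matrix.mulVec, dotProduct, S, Matrix.of_apply, Matrix.smul_apply, smul_eq_mul,
      mul_tn, Finset.mul_sum, Finset.sum_mul]
    calc ∑ r, ∑ a, ∑ h', (starRingEnd ℂ) (bp.ω r) * (↑c' * (d.V (r.2, h) (a, h') * ξ h') * bp.ω (r.1, a))
        = ∑ r, ∑ h', ∑ a, (starRingEnd ℂ) (bp.ω r) * (↑c' * (d.V (r.2, h) (a, h') * ξ h') * bp.ω (r.1, a)) :=
          Finset.sum_congr rfl fun _ _ => Finset.sum_comm
      _ = ∑ h', ∑ r, ∑ a, (starRingEnd ℂ) (bp.ω r) * (↑c' * (d.V (r.2, h) (a, h') * ξ h') * bp.ω (r.1, a)) :=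
          Finset.sum_comm
      _ = _ := by
          refine Finset.sum_congr rfl fun h' _ => Finset.sum_congr rfl fun r _ =>
            Finset.sum_congr rfl fun a _ => ?_
          ring
  have hloc : ∀ (ξ : Hm → ℂ), nsq ξ = 1 → 1 - C * ε ^ 2 ≤ nsq (S.mulVec ξ) ∧
      nsq (S.mulVec ξ) ≤ 1 + ε ^ 2 ∧ ∀ k, |(pr ξ ((Xm k).mulVec ξ)).re -
        (pr (S.mulVec ξ) ((d.X k).mulVec (S.mulVec ξ))).re| ≤ C * ε := by
    intro ξ hξ
    have h1 := hmain ε s hε he2 (by linarith) le_rfl H κ (D ξ hξ)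
    rw [hSv ξ hξ] at h1
    exact h1
  -- homogeneous versions
  have hhom : ∀ (ξ : Hm → ℂ), nsq (S.mulVec ξ) ≤ (1 + ε ^ 2) * nsq ξ ∧
      ∀ k, |(pr ξ ((Xm k).mulVec ξ)).re -
        (pr (S.mulVec ξ) ((d.X k).mulVec (S.mulVec ξ))).re| ≤ C * ε * nsq ξ := by
    intro ξ
    by_cases h0 : nsq ξ = 0
    · have hξ0 := nsq_eq_zero h0
      subst hξ0
      simp [nsq, pr]
    · have hpos : 0 < nsq ξ := lt_of_le_of_ne (nsq_nonneg ξ) (Ne.symm h0)
      set r : ℝ := Real.sqrt (nsq ξ) with hr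
      have hr0 : 0 < r := Real.sqrt_pos.2 hpos
      have hr2 : r ^ 2 = nsq ξ := Real.sq_sqrt hpos.le
      set η : Hm → ℂ := ((r⁻¹ : ℝ) : ℂ) • ξ with hη
      have hη1 : nsq η = 1 := by
        rw [hη, nsq_smul, Complex.norm_real, Real.norm_eq_abs, sq_abs, inv_pow, hr2,
          inv_mul_cancel₀ h0]
      have hξη : ξ = (r : ℂ) • η := by
        rw [hη, smul_smul, ← Complex.ofReal_mul, mul_inv_cancel₀ hr0.ne', Complex.ofReal_one,
          one_smul]
      obtain ⟨-, g2, g3⟩ := hloc η hη1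
      have hq1 : ∀ {L : Type} [Fintype L] (M : Matrix L L ℂ) (u : L → ℂ),
          (pr ((r : ℂ) • u) (M.mulVec ((r : ℂ) • u))).re = nsq ξ * (pr u (M.mulVec u)).re := by
        intro L _ M u
        rw [Matrix.mulVec_smul, pr_smul_left, pr_smul_right, Complex.conj_ofReal, ← mul_assoc,
          ← Complex.ofReal_mul, Complex.re_ofReal_mul, ← hr2]
        ring
      constructor
      · conv_lhs => rw [hξη]
        rw [Matrix.mulVec_smul, nsq_smul, Complex.norm_real, Real.norm_eq_abs, sq_abs, hr2,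
          mul_comm]
        gcongr
      · intro k
        have e1 : (pr ξ ((Xm k).mulVec ξ)).re = nsq ξ * (pr η ((Xm k).mulVec η)).re := by
          conv_lhs => rw [hξη]
          exact hq1 _ _
        have e2 : (pr (S.mulVec ξ) ((d.X k).mulVec (S.mulVec ξ))).re =
            nsq ξ * (pr (S.mulVec η) ((d.X k).mulVec (S.mulVec η))).re := by
          have e3 : S.mulVec ξ = (r : ℂ) • S.mulVec η := by
            rw [← Matrix.mulVec_smul, ← hξη]
          rw [e3]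
          exact hq1 _ _
        rw [e1, e2, ← mul_sub, abs_mul, abs_of_pos hpos, mul_comm]
        have := g3 k
        gcongr
  have hfin := gap_contra d.hX d.hX1 hXm hXm2 d.hgap S (fun ξ hξ => (hloc ξ hξ).1)
    (fun ξ => (hhom ξ).1) (fun k ξ => (hhom ξ).2 k)
  have h1 : C * ε ^ 2 ≤ C * ε := by
    have : ε ^ 2 ≤ ε := by nlinarith only [hε, he1]
    gcongr
  have h2 : ε ^ 2 ≤ ε := by nlinarith only [h1, hC, he1, he3, hθ0, hθ1, hfin]
  nlinarith only [he3, hε21, hθ0, hθ1, hfin, h1, h2]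

end pert

end Pool.Agent.W_MP_7b81ff_an
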