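import Pool.Agent.W_MP_7b81ff_an.Dual

set_option autoImplicit false
set_option linter.unusedSimpArgs false
set_option linter.unusedSectionVars false

open Matrix Finset Module
open scoped NNReal ComplexOrder

namespace Pool.Agent.W_MP_7b81ff_an

section opn
variable {κ κ' : Type*} [Fintype κ] [Fintype κ']

lemma nsq_real_smul (t : ℝ) (ω : κ → ℂ) : nsq (fun a => (t : ℂ) * ω a) = t ^ 2 * nsq ω := by
  have h := nsq_smul (t : ℂ) ω
  rw [Complex.norm_real, Real.norm_eq_abs, sq_abs] at h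
  exact h

lemma pr_real_smul_left (t : ℝ) (ω ζ : κ → ℂ) :
    pr (fun a => (t : ℂ) * ω a) ζ = (t : ℂ) * pr ω ζ := by
  unfold pr
  rw [Finset.mul_sum]
  refine Finset.sum_congr rfl fun a _ => ?_
  rw [map_mul, Complex.conj_ofReal]
  ring

/-- weighted arithmetic-geometric inequality for the pairing -/
lemma re_pr_le_weighted {t : ℝ} (ht : 0 < t) (ω ζ : κ → ℂ) :
    (pr ω ζ).re ≤ (t * nsq ω + t⁻¹ * nsq ζ) / 2 := by
  have h := re_pr_le (fun a => (t : ℂ) * ω a) ζ
  rw [pr_real_smul_left, Complex.re_ofReal_mul, nsq_real_smul] at h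
  have h2 : t * (pr ω ζ).re ≤ t * ((t * nsq ω + t⁻¹ * nsq ζ) / 2) := by
    have : t * ((t * nsq ω + t⁻¹ * nsq ζ) / 2) = (t ^ 2 * nsq ω + nsq ζ) / 2 := by
      field_simp
    rw [this]; exact h
  exact le_of_mul_le_mul_left h2 ht

lemma opn_le_iff_pr {M : Matrix κ κ' ℂ} {a : ℝ} (ha : 0 < a) :
    opn M ≤ a ↔ ∀ (ζ : κ' → ℂ) (ω : κ → ℂ), (pr ω (M.mulVec ζ)).re ≤ a * (nsq ω + nsq ζ) / 2 := by
  constructor
  · intro h ζ ω
    refine (re_pr_le_weighted ha ω _).trans ?_
    have h1 := (opn_le_iff ha.le).1 h ζ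
    have h2 : a⁻¹ * nsq (M.mulVec ζ) ≤ a * nsq ζ := by
      rw [inv_mul_le_iff₀ ha]
      nlinarith
    linarith
  · intro h
    apply opn_le ha.le
    intro ζ
    have h1 := h ζ (fun i => ((a⁻¹ : ℝ) : ℂ) * (M.mulVec ζ) i)
    rw [pr_real_smul_left, Complex.re_ofReal_mul, pr_self, Complex.ofReal_re, nsq_real_smul] at h1
    have h2 : a⁻¹ * nsq (M.mulVec ζ) ≤ a * nsq ζ := by
      have : a * (a⁻¹ ^ 2 * nsq (M.mulVec ζ) + nsq ζ) / 2 =
        (a⁻¹ * nsq (M.mulVec ζ) + a * nsq ζ) / 2 := by field_simp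
      rw [this] at h1
      linarith
    rw [inv_mul_le_iff₀ ha] at h2
    nlinarith

lemma re_pr_symm (ω ζ : κ → ℂ) : (pr ω ζ).re = (pr ζ ω).re := by
  have : pr ω ζ = (starRingEnd ℂ) (pr ζ ω) := by
    unfold pr
    rw [map_sum]
    refine Finset.sum_congr rfl fun a _ => ?_
    rw [map_mul, Complex.conj_conj, mul_comm]
  rw [this, Complex.conj_re]

lemma opn_conjTranspose_le (M : Matrix κ κ' ℂ) : opn Mᴴ ≤ opn M := by
  refine le_of_forall_pos_le_add fun ε hε => ?_
  have hpos : 0 < opn M + ε := add_pos_of_nonneg_of_pos (opn_nonneg M) hε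
  rw [opn_le_iff_pr hpos]
  intro ζ ω
  have h := (opn_le_iff_pr hpos).1 (show opn M ≤ opn M + ε by linarith) ω ζ
  rw [pr_mulVec, Matrix.conjTranspose_conjTranspose, re_pr_symm]
  linarith

lemma opn_conjTranspose (M : Matrix κ κ' ℂ) : opn Mᴴ = opn M := by
  refine le_antisymm (opn_conjTranspose_le M) ?_
  have h := opn_conjTranspose_le Mᴴ
  rwa [Matrix.conjTranspose_conjTranspose] at h

end opn

section coord
variable {E : Type*} [NormedAddCommGroup E] [NormedSpace ℂ E] {ι : Type} [Fintype ι]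
  [DecidableEq ι] (B : Basis ι ℂ E)

/-- coordinates of a matrix over `E` -/
noncomputable def co {P Q : Type*} (x : Matrix P Q E) : ι → Matrix P Q ℂ :=
  fun l => Matrix.of fun i j => B.repr (x i j) l

/-- the matrix over `E` with given coordinates -/
noncomputable def el {P Q : Type*} (z : ι → Matrix P Q ℂ) : Matrix P Q E :=
  Matrix.of fun i j => ∑ l, z l i j • B l

lemma el_co {P Q : Type*} (x : Matrix P Q E) : el B (co B x) = x := by
  ext i j
  exact B.sum_repr (x i j)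

lemma co_el {P Q : Type*} (z : ι → Matrix P Q ℂ) : co B (el B z) = z := by
  funext l
  ext i j
  simp only [co, el, Matrix.of_apply, map_sum, map_smul, Basis.repr_self, Finsupp.smul_single]
  simp [Finsupp.single_apply]

lemma el_add {P Q : Type*} (z w : ι → Matrix P Q ℂ) : el B (z + w) = el B z + el B w := by
  ext i j
  simp [el, add_smul, Finset.sum_add_distrib]

lemma el_smul {P Q : Type*} (c : ℂ) (z : ι → Matrix P Q ℂ) : el B (c • z) = c • el B z := by
  ext i j
  simp [el, mul_smul, Finset.smul_sum]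

lemma el_sub {P Q : Type*} (z w : ι → Matrix P Q ℂ) : el B (z - w) = el B z - el B w := by
  ext i j
  simp [el, sub_smul, Finset.sum_sub_distrib]

lemma el_compress {K L R : Type*} [Fintype K] [Fintype L] [Fintype R] (α : Matrix K R ℂ)
    (β : Matrix R L ℂ) (z : ι → Matrix R R ℂ) :
    el B (fun l => α * z l * β) =
      Matrix.of fun i j => ∑ p, ∑ q, (α i p * β q j) • (el B z) p q := by
  ext i j
  simp only [el, Matrix.of_apply, Matrix.mul_apply, Finset.sum_mul, Finset.sum_smul,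
    Finset.smul_sum, smul_smul]
  calc ∑ l, ∑ q, ∑ p, (α i p * z l p q * β q j) • B l
      = ∑ q, ∑ l, ∑ p, (α i p * z l p q * β q j) • B l := Finset.sum_comm
    _ = ∑ q, ∑ p, ∑ l, (α i p * z l p q * β q j) • B l :=
        Finset.sum_congr rfl fun q _ => Finset.sum_comm
    _ = ∑ p, ∑ q, ∑ l, (α i p * z l p q * β q j) • B l := Finset.sum_comm
    _ = _ := by
        refine Finset.sum_congr rfl fun p _ => Finset.sum_congr rfl fun q _ =>
          Finset.sum_congr rfl fun l _ => ?_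
        congr 1
        ring

variable {N : MatNorms E}

lemma IsOS.el_le (hN : IsOS N) {k : ℕ} (z : ι → Matrix (Fin k) (Fin k) ℂ) :
    N k (el B z) ≤ ∑ l, opn (z l) * ‖B l‖ := by
  have h : el B z = ∑ l, Matrix.of fun i j => z l i j • B l := by
    ext i j
    rw [Matrix.sum_apply]; rfl
  rw [h]
  exact (hN.sum_le _ _ _).trans (Finset.sum_le_sum fun l _ => hN.tensor k (z l) (B l))

lemma IsOS.sub_le (hN : IsOS N) {k : ℕ} (x y : Matrix (Fin k) (Fin k) E) :
    |N k x - N k y| ≤ N k (x - y) := by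
  have hneg : ∀ a : Matrix (Fin k) (Fin k) E, N k (-a) = N k a := by
    intro a
    have h := hN.2.2.1 k (-1) a
    rw [neg_one_smul] at h
    simpa using h
  have h1 := hN.2.1 k (x - y) y
  have h2 := hN.2.1 k (y - x) x
  rw [sub_add_cancel] at h1 h2
  have h3 : N k (y - x) = N k (x - y) := by rw [← hneg, neg_sub]
  rw [abs_le]
  constructor <;> linarith

lemma IsOS.continuous_el (hN : IsOS N) (k : ℕ) :
    Continuous fun z : ι → Fin k → Fin k → ℂ => N k (el B (fun l => (z l : Matrix (Fin k) (Fin k) ℂ))) := by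
  set C : ℝ := ∑ l, ((k : ℝ) * k) * ‖B l‖ with hC
  have hC0 : 0 ≤ C := Finset.sum_nonneg fun l _ => by positivity
  have hL : LipschitzWith ⟨C, hC0⟩ fun z : ι → Fin k → Fin k → ℂ =>
      N k (el B (fun l => (z l : Matrix (Fin k) (Fin k) ℂ))) := by
    apply LipschitzWith.of_dist_le_mul
    intro z w
    rw [Real.dist_eq, dist_eq_norm]
    refine (hN.sub_le _ _).trans ?_
    have h1 : el B (fun l => (z l : Matrix (Fin k) (Fin k) ℂ)) - el B (fun l => (w l : Matrix (Fin k) (Fin k) ℂ))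
        = el B (fun l => ((z l - w l : Fin k → Fin k → ℂ) : Matrix (Fin k) (Fin k) ℂ)) := by
      exact (el_sub B (fun l => (z l : Matrix (Fin k) (Fin k) ℂ))
        (fun l => (w l : Matrix (Fin k) (Fin k) ℂ))).symm
    rw [h1]
    refine (IsOS.el_le B hN _).trans ?_
    change _ ≤ C * ‖z - w‖
    rw [hC, Finset.sum_mul]
    refine Finset.sum_le_sum fun l _ => ?_
    have h2 : opn ((z l - w l : Fin k → Fin k → ℂ) : Matrix (Fin k) (Fin k) ℂ) ≤ (k : ℝ) * k * ‖z - w‖ := by
      refine (opn_le_sum_entries _).trans ?_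
      have h3 : ∀ i j, ‖(z l - w l) i j‖ ≤ ‖z - w‖ := by
        intro i j
        exact ((norm_le_pi_norm ((z - w) l i) j).trans (norm_le_pi_norm ((z - w) l) i)).trans
          (norm_le_pi_norm (z - w) l)
      calc ∑ i, ∑ j, ‖(z l - w l) i j‖ ≤ ∑ _i : Fin k, ∑ _j : Fin k, ‖z - w‖ :=
            Finset.sum_le_sum fun i _ => Finset.sum_le_sum fun j _ => h3 i j
        _ = (k : ℝ) * k * ‖z - w‖ := by simp; ring
    have := norm_nonneg (B l)
    calc _ ≤ ((k : ℝ) * k * ‖z - w‖) * ‖B l‖ := by gcongr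
      _ = _ := by ring
  exact hL.continuous

/-- the quadratic form of a matrix -/
noncomputable def qm {K : Type*} [Fintype K] (A : K → K → ℂ) (v : K → ℂ) : ℝ :=
  qf (fun t => A t.1 t.2) v

omit [DecidableEq ι] in
lemma qm_add {K : Type*} [Fintype K] (A A' : K → K → ℂ) (v : K → ℂ) :
    qm (A + A') v = qm A v + qm A' v := by
  unfold qm qf
  rw [← Complex.add_re, ← Finset.sum_add_distrib]
  congr 1
  refine Finset.sum_congr rfl fun t _ => ?_
  simp [add_mul]

lemma qm_smul {K : Type*} [Fintype K] (c : ℝ≥0) (A : K → K → ℂ) (v : K → ℂ) :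
    qm (c • A) v = c * qm A v := by
  unfold qm qf
  rw [← Complex.re_ofReal_mul, Finset.mul_sum]
  congr 1
  refine Finset.sum_congr rfl fun t _ => ?_
  change ((c : ℝ) • A t.1 t.2) * _ = _
  rw [Complex.real_smul]
  ring

lemma qm_gram {K R : Type*} [Fintype K] [Fintype R] (V : Matrix R K ℂ) (v : K → ℂ) :
    qm (Vᴴ * V) v = nsq (V.mulVec v) := by
  have h1 : pr (V.mulVec v) (V.mulVec v) = ((nsq (V.mulVec v) : ℝ) : ℂ) := pr_self _
  have h2 : pr v ((Vᴴ * V).mulVec v) = pr (V.mulVec v) (V.mulVec v) := by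
    rw [← Matrix.mulVec_mulVec, pr_mulVec, Matrix.conjTranspose_conjTranspose]
  have h3 : pr v ((Vᴴ * V).mulVec v) =
      ∑ t : K × K, (Vᴴ * V) t.1 t.2 * ((starRingEnd ℂ) (v t.1) * v t.2) := by
    unfold pr Matrix.mulVec dotProduct
    rw [Fintype.sum_prod_type]
    refine Finset.sum_congr rfl fun i _ => ?_
    rw [Finset.mul_sum]
    exact Finset.sum_congr rfl fun j _ => by ring
  unfold qm qf
  rw [← h3, h2, h1, Complex.ofReal_re]

lemma qm_rankone {K : Type*} [Fintype K] (w v : K → ℂ) :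
    0 ≤ qm (fun i j => w i * (starRingEnd ℂ) (w j)) v := by
  have h : ∑ t : K × K, w t.1 * (starRingEnd ℂ) (w t.2) * ((starRingEnd ℂ) (v t.1) * v t.2) =
      (pr v w) * (starRingEnd ℂ) (pr v w) := by
    unfold pr
    rw [map_sum, Finset.sum_mul_sum, Fintype.sum_prod_type]
    refine Finset.sum_congr rfl fun i _ => Finset.sum_congr rfl fun j _ => ?_
    rw [map_mul, Complex.conj_conj]
    ring
  unfold qm qf
  rw [h, Complex.mul_conj, Complex.ofReal_re]
  exact Complex.normSq_nonneg _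

/-- upper bound for the quadratic form, continuous in the matrix -/
noncomputable def sg {K : Type*} [Fintype K] [DecidableEq K] (A : K → K → ℂ) : ℝ :=
  1 + ∑ i, ∑ j, ‖A i j - (if i = j then 1 else 0)‖

lemma sg_ge {K : Type*} [Fintype K] [DecidableEq K] (A : K → K → ℂ) : 1 ≤ sg A := by
  unfold sg
  have : 0 ≤ ∑ i, ∑ j, ‖A i j - (if i = j then 1 else 0)‖ :=
    Finset.sum_nonneg fun _ _ => Finset.sum_nonneg fun _ _ => norm_nonneg _
  linarith

lemma qm_le_sg {K : Type*} [Fintype K] [DecidableEq K] (A : K → K → ℂ) (v : K → ℂ) :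
    qm A v ≤ sg A * nsq v := by
  have h1 : A = (fun i j => A i j - (if i = j then 1 else 0)) +
      (fun i j => if i = j then (1 : ℂ) else 0) := by
    ext i j; simp
  have h2 : qm (fun i j => if i = j then (1 : ℂ) else 0) v = nsq v := by
    unfold qm qf
    rw [Fintype.sum_prod_type]
    simp only [ite_mul, one_mul, zero_mul, Finset.sum_ite_eq, Finset.mem_univ, if_true]
    have := pr_self v
    unfold pr at this
    rw [this, Complex.ofReal_re]
  have h3 : qm (fun i j => A i j - (if i = j then 1 else 0)) v ≤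
      (∑ i, ∑ j, ‖A i j - (if i = j then 1 else 0)‖) * nsq v := by
    unfold qm qf
    refine (Complex.re_le_norm _).trans ?_
    refine (norm_sum_le _ _).trans ?_
    rw [Fintype.sum_prod_type, Finset.sum_mul]
    refine Finset.sum_le_sum fun i _ => ?_
    rw [Finset.sum_mul]
    refine Finset.sum_le_sum fun j _ => ?_
    rw [norm_mul, norm_mul, RCLike.norm_conj]
    have h4 : ‖v i‖ * ‖v j‖ ≤ nsq v := by
      have h5 : ‖v i‖ ^ 2 ≤ nsq v := Finset.single_le_sum (f := fun i => ‖v i‖ ^ 2)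
        (fun _ _ => by positivity) (Finset.mem_univ i)
      have h6 : ‖v j‖ ^ 2 ≤ nsq v := Finset.single_le_sum (f := fun i => ‖v i‖ ^ 2)
        (fun _ _ => by positivity) (Finset.mem_univ j)
      nlinarith [sq_nonneg (‖v i‖ - ‖v j‖)]
    gcongr
  have h4 : qm A v = qm (fun i j => A i j - (if i = j then 1 else 0)) v + nsq v := by
    conv_lhs => rw [h1]
    rw [qm_add, h2]
  rw [h4]
  unfold sg
  linarith

lemma continuous_sg {K : Type*} [Fintype K] [DecidableEq K] :
    Continuous (sg : (K → K → ℂ) → ℝ) := by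
  unfold sg
  refine continuous_const.add (continuous_finsetSum _ fun i _ => continuous_finsetSum _ fun j _ => ?_)
  have h : Continuous fun A : K → K → ℂ => A i j := (continuous_apply j).comp (continuous_apply i)
  exact (h.sub continuous_const).norm

/-- stacking of matrices -/
def stk {k r s : ℕ} (V : Matrix (Fin r) (Fin k) ℂ) (W : Matrix (Fin s) (Fin k) ℂ) :
    Matrix (Fin (r + s)) (Fin k) ℂ :=
  Matrix.of fun i j => Sum.elim (fun a => V a j) (fun b => W b j) (finSumFinEquiv.symm i)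

lemma nsq_stk {k r s : ℕ} (V : Matrix (Fin r) (Fin k) ℂ) (W : Matrix (Fin s) (Fin k) ℂ)
    (v : Fin k → ℂ) : nsq ((stk V W).mulVec v) = nsq (V.mulVec v) + nsq (W.mulVec v) := by
  rw [← nsq_sumElim, ← nsq_comp_equiv finSumFinEquiv.symm]
  congr 1
  ext i
  simp only [Function.comp_apply, Matrix.mulVec, dotProduct, stk, Matrix.of_apply]
  rcases finSumFinEquiv.symm i with a | b <;> rfl

lemma el_block {r s : ℕ} (z : ι → Matrix (Fin r) (Fin r) ℂ) (w : ι → Matrix (Fin s) (Fin s) ℂ) :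
    Matrix.reindex finSumFinEquiv finSumFinEquiv (Matrix.fromBlocks (el B z) 0 0 (el B w)) =
      el B (fun l => Matrix.reindex finSumFinEquiv finSumFinEquiv
        (Matrix.fromBlocks (z l) 0 0 (w l))) := by
  ext i j
  simp only [el, Matrix.reindex_apply, Matrix.submatrix_apply, Matrix.of_apply]
  rcases finSumFinEquiv.symm i with a | b <;> rcases finSumFinEquiv.symm j with a' | b' <;> simp

lemma stk_compress {k r s : ℕ} (V W : Matrix (Fin r) (Fin k) ℂ) (V' W' : Matrix (Fin s) (Fin k) ℂ)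
    (z : Matrix (Fin r) (Fin r) ℂ) (w : Matrix (Fin s) (Fin s) ℂ) :
    (stk V V')ᴴ * (Matrix.reindex finSumFinEquiv finSumFinEquiv (Matrix.fromBlocks z 0 0 w)) *
      stk W W' = Vᴴ * z * W + V'ᴴ * w * W' := by
  ext i j
  rw [Matrix.add_apply]
  simp only [Matrix.mul_apply, Matrix.conjTranspose_apply]
  have hsum : ∀ f : Fin (r + s) → ℂ, ∑ p, f p = ∑ a, f (finSumFinEquiv (Sum.inl a)) +
      ∑ b, f (finSumFinEquiv (Sum.inr b)) := by
    intro f
    rw [← Equiv.sum_comp finSumFinEquiv, Fintype.sum_sum_type]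
  rw [hsum]
  simp only [hsum]
  simp only [stk, Matrix.of_apply, Matrix.reindex_apply, Matrix.submatrix_apply,
    Equiv.symm_apply_apply, Sum.elim_inl, Sum.elim_inr, Matrix.fromBlocks_apply₁₁,
    Matrix.fromBlocks_apply₁₂, Matrix.fromBlocks_apply₂₁, Matrix.fromBlocks_apply₂₂,
    Matrix.zero_apply, mul_zero, Finset.sum_const_zero, add_zero, zero_add]

/-- the cone of the duality argument -/
def coneN (hN : IsOS N) (k : ℕ) : Submodule ℝ≥0 (DX (Fin k) (Fin k) ι) where
  carrier := {t | ∃ (r : ℕ) (z : ι → Matrix (Fin r) (Fin r) ℂ) (V W : Matrix (Fin r) (Fin k) ℂ),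
    N r (el B z) ≤ 1 ∧ (∀ v, nsq (V.mulVec v) ≤ qm t.1 v) ∧ (∀ v, nsq (W.mulVec v) ≤ qm t.2.1 v) ∧
    t.2.2 = fun l => Vᴴ * z l * W}
  add_mem' := by
    rintro t t' ⟨r, z, V, W, h1, h2, h3, h4⟩ ⟨r', z', V', W', h1', h2', h3', h4'⟩
    refine ⟨r + r', fun l => Matrix.reindex finSumFinEquiv finSumFinEquiv
        (Matrix.fromBlocks (z l) 0 0 (z' l)), stk V V', stk W W', ?_, ?_, ?_, ?_⟩
    · rw [← el_block, hN.2.2.2.1]
      exact max_le h1 h1'
    · intro v
      rw [nsq_stk]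
      change _ ≤ qm (t.1 + t'.1) v
      rw [qm_add]
      exact add_le_add (h2 v) (h2' v)
    · intro v
      rw [nsq_stk]
      change _ ≤ qm (t.2.1 + t'.2.1) v
      rw [qm_add]
      exact add_le_add (h3 v) (h3' v)
    · funext l
      rw [stk_compress]
      change t.2.2 l + t'.2.2 l = _
      rw [h4, h4']
      rfl
  zero_mem' := by
    refine ⟨0, 0, 0, 0, ?_, ?_, ?_, ?_⟩
    · have : el B (0 : ι → Matrix (Fin 0) (Fin 0) ℂ) = 0 := by ext i; exact i.elim0
      rw [this, hN.zero]; exact zero_le_one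
    · intro v
      have h0 : qm (0 : Fin k → Fin k → ℂ) v = 0 := by
        unfold qm qf; simp
      change _ ≤ qm (0 : Fin k → Fin k → ℂ) v
      rw [h0]; simp [nsq]
    · intro v
      have h0 : qm (0 : Fin k → Fin k → ℂ) v = 0 := by
        unfold qm qf; simp
      change _ ≤ qm (0 : Fin k → Fin k → ℂ) v
      rw [h0]; simp [nsq]
    · funext l
      simp
      rfl
  smul_mem' := by
    rintro c t ⟨r, z, V, W, h1, h2, h3, h4⟩
    have hc : ((Real.sqrt (c : ℝ) : ℝ) : ℂ) * ((Real.sqrt (c : ℝ) : ℝ) : ℂ) = ((c : ℝ) : ℂ) := by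
      rw [← Complex.ofReal_mul, Real.mul_self_sqrt (NNReal.coe_nonneg c)]
    refine ⟨r, z, ((Real.sqrt (c : ℝ) : ℝ) : ℂ) • V, ((Real.sqrt (c : ℝ) : ℝ) : ℂ) • W, h1, ?_, ?_, ?_⟩
    · intro v
      rw [Matrix.smul_mulVec, nsq_smul, Complex.norm_real, Real.norm_eq_abs, sq_abs,
        Real.sq_sqrt (NNReal.coe_nonneg c)]
      change _ ≤ qm (c • t.1) v
      rw [qm_smul]
      exact mul_le_mul_of_nonneg_left (h2 v) c.2
    · intro v
      rw [Matrix.smul_mulVec, nsq_smul, Complex.norm_real, Real.norm_eq_abs, sq_abs,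
        Real.sq_sqrt (NNReal.coe_nonneg c)]
      change _ ≤ qm (c • t.2.1) v
      rw [qm_smul]
      exact mul_le_mul_of_nonneg_left (h3 v) c.2
    · funext l
      rw [Matrix.conjTranspose_smul, Matrix.smul_mul, Matrix.smul_mul, Matrix.mul_smul, smul_smul]
      have h5 : star ((Real.sqrt (c : ℝ) : ℝ) : ℂ) = ((Real.sqrt (c : ℝ) : ℝ) : ℂ) :=
        Complex.conj_ofReal _
      rw [h5, hc]
      change c • t.2.2 l = _
      rw [h4]
      ext i j
      change (c : ℝ) • ((Vᴴ * z l * W) i j) = ((c : ℝ) : ℂ) • ((Vᴴ * z l * W) i j)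
      rw [Complex.real_smul]
      rfl

/-- elements of the cone satisfy the norm inequality -/
lemma coneN_bound (hN : IsOS N) {k : ℕ} {t : DX (Fin k) (Fin k) ι} (ht : t ∈ coneN B hN k) :
    N k (el B (fun l => (t.2.2 l : Matrix (Fin k) (Fin k) ℂ))) ≤ (sg t.1 + sg t.2.1) / 2 := by
  obtain ⟨r, z, V, W, h1, h2, h3, h4⟩ := ht
  have hs0 := sg_ge t.1
  have hs1 := sg_ge t.2.1
  have hV : opn V ≤ Real.sqrt (sg t.1) := by
    apply opn_le (Real.sqrt_nonneg _)
    intro v
    rw [Real.sq_sqrt (by linarith)]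
    exact (h2 v).trans (qm_le_sg _ v)
  have hW : opn W ≤ Real.sqrt (sg t.2.1) := by
    apply opn_le (Real.sqrt_nonneg _)
    intro v
    rw [Real.sq_sqrt (by linarith)]
    exact (h3 v).trans (qm_le_sg _ v)
  have hVH : opn Vᴴ ≤ Real.sqrt (sg t.1) := by rwa [opn_conjTranspose]
  have h5 := hN.2.2.2.2 k r Vᴴ W (el B z) (Real.sqrt (sg t.1)) (Real.sqrt (sg t.2.1))
    (Real.sqrt_nonneg _) (Real.sqrt_nonneg _) ((opn_le_iff (Real.sqrt_nonneg _)).1 hVH)
    ((opn_le_iff (Real.sqrt_nonneg _)).1 hW)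
  rw [← el_compress] at h5
  have h6 : el B (fun l => (t.2.2 l : Matrix (Fin k) (Fin k) ℂ)) = el B (fun l => Vᴴ * z l * W) := by
    rw [h4]
  rw [h6]
  refine h5.trans ?_
  have e0 := Real.sqrt_nonneg (sg t.1)
  have e1 := Real.sqrt_nonneg (sg t.2.1)
  have e2 := Real.sq_sqrt (show 0 ≤ sg t.1 by linarith)
  have e3 := Real.sq_sqrt (show 0 ≤ sg t.2.1 by linarith)
  have e4 : Real.sqrt (sg t.1) * N r (el B z) ≤ Real.sqrt (sg t.1) * 1 := by gcongr
  have e5 : Real.sqrt (sg t.1) * N r (el B z) * Real.sqrt (sg t.2.1) ≤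
      Real.sqrt (sg t.1) * 1 * Real.sqrt (sg t.2.1) := by gcongr
  nlinarith [sq_nonneg (Real.sqrt (sg t.1) - Real.sqrt (sg t.2.1))]

/-- **Ruan type representation lemma.** -/
theorem ruan_rep (hN : IsOS N) {k : ℕ} (x0 : Matrix (Fin k) (Fin k) E) (h0 : 1 < N k x0) :
    ∃ u : ι → Matrix (Fin k) (Fin k) ℂ,
      (∀ (r : ℕ) (x : Matrix (Fin r) (Fin r) E), N r x ≤ 1 → opn (ks u (co B x)) ≤ 1) ∧
      1 < opn (ks u (co B x0)) := by
  classical
  let F : ∀ p q : ℕ, (ι → Matrix (Fin p) (Fin q) ℂ) → Prop := fun p q z =>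
    ∃ (h : q = p) (x : Matrix (Fin p) (Fin p) E), N p x ≤ 1 ∧
      z = fun l => (co B x l).submatrix id (Fin.cast h)
  let C : Submodule ℝ≥0 (DX (Fin k) (Fin k) ι) := (coneN B hN k).topologicalClosure
  have hCcl : IsClosed (C : Set (DX (Fin k) (Fin k) ι)) := Submodule.isClosed_topologicalClosure _
  have hle : coneN B hN k ≤ C := Submodule.le_topologicalClosure _
  have hA : ∀ v : Fin k → ℂ, ((fun i j => v i * (starRingEnd ℂ) (v j), 0, 0) :
      DX (Fin k) (Fin k) ι) ∈ C := by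
    intro v
    apply hle
    refine ⟨0, 0, 0, 0, ?_, ?_, ?_, ?_⟩
    · have : el B (0 : ι → Matrix (Fin 0) (Fin 0) ℂ) = 0 := by ext i; exact i.elim0
      rw [this, hN.zero]; exact zero_le_one
    · intro w
      refine le_trans ?_ (qm_rankone v w)
      simp [nsq]
    · intro w
      have h00 : qm (0 : Fin k → Fin k → ℂ) w = 0 := by
        unfold qm qf; simp
      change _ ≤ qm (0 : Fin k → Fin k → ℂ) w
      rw [h00]; simp [nsq]
    · funext l; simp; rfl
  have hB : ∀ v : Fin k → ℂ, ((0, fun i j => v i * (starRingEnd ℂ) (v j), 0) :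
      DX (Fin k) (Fin k) ι) ∈ C := by
    intro v
    apply hle
    refine ⟨0, 0, 0, 0, ?_, ?_, ?_, ?_⟩
    · have : el B (0 : ι → Matrix (Fin 0) (Fin 0) ℂ) = 0 := by ext i; exact i.elim0
      rw [this, hN.zero]; exact zero_le_one
    · intro w
      have h00 : qm (0 : Fin k → Fin k → ℂ) w = 0 := by
        unfold qm qf; simp
      change _ ≤ qm (0 : Fin k → Fin k → ℂ) w
      rw [h00]; simp [nsq]
    · intro w
      refine le_trans ?_ (qm_rankone v w)
      simp [nsq]
    · funext l; simp; rfl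
  have hF : ∀ p q u, F p q u → ∀ (V : Matrix (Fin p) (Fin k) ℂ) (W : Matrix (Fin q) (Fin k) ℂ),
      ((Vᴴ * V, Wᴴ * W, fun l => Vᴴ * u l * W) : DX (Fin k) (Fin k) ι) ∈ C := by
    rintro p q u ⟨rfl, x, hx, rfl⟩ V W
    apply hle
    refine ⟨_, co B x, V, W, ?_, ?_, ?_, ?_⟩
    · rw [el_co]; exact hx
    · intro v; exact (qm_gram V v).ge
    · intro v; exact (qm_gram W v).ge
    · rfl
  have hy : (((1 : Matrix (Fin k) (Fin k) ℂ), (1 : Matrix (Fin k) (Fin k) ℂ), co B x0) :
      DX (Fin k) (Fin k) ι) ∉ C := by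
    intro hmem
    have hclosed : IsClosed {t : DX (Fin k) (Fin k) ι |
        N k (el B (fun l => (t.2.2 l : Matrix (Fin k) (Fin k) ℂ))) ≤ (sg t.1 + sg t.2.1) / 2} := by
      apply isClosed_le
      · exact (IsOS.continuous_el B hN k).comp (continuous_snd.comp continuous_snd)
      · exact ((continuous_sg.comp continuous_fst).add
          (continuous_sg.comp (continuous_fst.comp continuous_snd))).div_const 2
    have hsub : (C : Set (DX (Fin k) (Fin k) ι)) ⊆ {t : DX (Fin k) (Fin k) ι |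
        N k (el B (fun l => (t.2.2 l : Matrix (Fin k) (Fin k) ℂ))) ≤ (sg t.1 + sg t.2.1) / 2} :=
      closure_minimal (fun t ht => coneN_bound B hN ht) hclosed
    have h1 := hsub hmem
    have h2 : sg (1 : Matrix (Fin k) (Fin k) ℂ) = 1 := by
      unfold sg
      simp [Matrix.one_apply]
    have h3 : N k (el B (co B x0)) ≤ (sg (1 : Matrix (Fin k) (Fin k) ℂ) +
      sg (1 : Matrix (Fin k) (Fin k) ℂ)) / 2 := h1
    rw [h2, el_co] at h3
    linarith
  obtain ⟨u, hu1, hu2⟩ := dual_lemma F C hCcl hA hB hF (co B x0) hy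
  refine ⟨u, fun r x hx => ?_, hu2⟩
  exact hu1 r r (co B x) ⟨rfl, x, hx, rfl⟩

end coord

end Pool.Agent.W_MP_7b81ff_an
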