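import Pool.Agent.W_MP_7b81ff_an.Loc

set_option autoImplicit false
set_option linter.unusedSimpArgs false
set_option linter.unusedSectionVars false

open Matrix Finset Module
open scoped NNReal ComplexOrder

namespace Pool.Agent.W_MP_7b81ff_an

lemma lin_bound {ι : Type} [Fintype ι] [DecidableEq ι] {p q : ℕ}
    (f : (ι → Matrix (Fin p) (Fin q) ℂ) →ₗ[ℝ] ℝ) :
    ∃ C : ℝ, 0 ≤ C ∧ ∀ (z : ι → Matrix (Fin p) (Fin q) ℂ) (m : ℝ), 0 ≤ m →
      (∀ l i j, ‖z l i j‖ ≤ m) → |f z| ≤ C * m := by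
  let g0 : (ι × Fin p × Fin q → ℂ) →ₗ[ℝ] ℝ :=
    { toFun := fun A => f (fun l => Matrix.of fun i j => A (l, i, j))
      map_add' := fun A B => by rw [← map_add]; rfl
      map_smul' := fun c A => by rw [RingHom.id_apply, ← map_smul]; rfl }
  obtain ⟨c, hc⟩ := real_functional g0
  refine ⟨∑ k, ‖c k‖, Finset.sum_nonneg fun _ _ => norm_nonneg _, fun z m hm hz => ?_⟩
  have h1 : f z = g0 (fun k => z k.1 k.2.1 k.2.2) := rfl
  rw [h1, hc]
  refine (Complex.abs_re_le_norm _).trans ?_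
  refine (norm_sum_le _ _).trans ?_
  rw [Finset.sum_mul]
  refine Finset.sum_le_sum fun k _ => ?_
  rw [norm_mul]
  have := hz k.1 k.2.1 k.2.2
  gcongr

section loc
variable {E : Type*} [NormedAddCommGroup E] [NormedSpace ℂ E] {ι : Type} [Fintype ι]
  [DecidableEq ι] {B : Basis ι ℂ E} {p q : ℕ} (bp : BasePt B p q)
  (b : Fin 3 → (ι → Matrix (Fin p) (Fin q) ℂ))

/-- local data -/
structure LD (ε s : ℝ) (H κ : Type) [Fintype H] [DecidableEq H] [Fintype κ] [DecidableEq κ] where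
  /-- symmetries -/
  X : Fin 3 → Matrix H H ℂ
  /-- functionals -/
  φ : κ → ι → ℂ
  /-- left coefficient -/
  V : Matrix (Fin p × H) (Fin p) ℂ
  /-- right coefficient -/
  W : Matrix (Fin q × H) (Fin q) ℂ
  /-- left coefficient of the functional part -/
  Vc : Matrix κ (Fin p) ℂ
  /-- right coefficient of the functional part -/
  Wc : Matrix κ (Fin q) ℂ
  /-- diagonal coefficients -/
  lam : Fin 3 → ℝ
  hX : ∀ k, (X k)ᴴ = X k
  hX1 : ∀ k, opn (X k) ≤ 1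
  hφ : ∀ c, CF B (φ c)
  hV : ∀ z, nsq (V.mulVec z) + nsq (Vc.mulVec z) ≤ (1 + ε ^ 2) * nsq z
  hW : ∀ z, nsq (W.mulVec z) + nsq (Wc.mulVec z) ≤ (1 + ε ^ 2) * nsq z
  herr : ∀ l i j, ‖(bp.a l + (ε : ℂ) • ∑ k, (lam k : ℂ) • b k l - Vᴴ * uu bp b ε X l * W -
    (s : ℂ) • (Vcᴴ * Matrix.diagonal (fun c => φ c l) * Wc)) i j‖ ≤ ε ^ 2

/-- norm of the functional part -/
lemma opn_func {κ : Type} [Fintype κ] [DecidableEq κ] (x : ι → Matrix (Fin p) (Fin q) ℂ) {c : ℝ}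
    (hc : 0 ≤ c) (hx : MinLe B x c) {φ : κ → ι → ℂ} (hφ : ∀ c, CF B (φ c)) :
    opn (ks x (fun l => Matrix.diagonal (fun c => φ c l))) ≤ c := by
  apply opn_le hc
  intro v
  have h1 : ∀ i c, (ks x (fun l => Matrix.diagonal (fun c => φ c l))).mulVec v (i, c) =
      (∑ l, φ c l • x l).mulVec (fun j => v (j, c)) i := by
    intro i c
    simp only [Matrix.mulVec, dotProduct, ks, Matrix.of_apply, Fintype.sum_prod_type,
      Matrix.sum_apply, Matrix.smul_apply, smul_eq_mul, Matrix.diagonal_apply]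
    refine Finset.sum_congr rfl fun j _ => ?_
    rw [Finset.sum_eq_single c]
    · congr 1
      refine Finset.sum_congr rfl fun l _ => ?_
      rw [if_pos rfl]; ring
    · intro c' _ hc'
      have : ∑ l, x l i j * (if c = c' then φ c l else 0) = 0 := by
        refine Finset.sum_eq_zero fun l _ => ?_
        rw [if_neg (Ne.symm hc'), mul_zero]
      rw [this, zero_mul]
    · intro h; exact absurd (Finset.mem_univ _) h
  have h2 : nsq ((ks x (fun l => Matrix.diagonal (fun c => φ c l))).mulVec v) =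
      ∑ c, nsq ((∑ l, φ c l • x l).mulVec (fun j => v (j, c))) := by
    unfold nsq
    rw [Fintype.sum_prod_type, Finset.sum_comm]
    exact Finset.sum_congr rfl fun c _ => Finset.sum_congr rfl fun i _ => by rw [h1]
  have h3 : nsq v = ∑ c, nsq (fun j => v (j, c)) := by
    unfold nsq
    rw [Fintype.sum_prod_type, Finset.sum_comm]
  rw [h2, h3, Finset.mul_sum]
  exact Finset.sum_le_sum fun c' _ => (opn_le_iff hc).1 (hx _ (hφ c')) _

/-- **Stage 1**. -/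
theorem BasePt.stage1 (hb : ∀ k, bp.g (b k) = 0) (K : ℝ) (hK : 0 ≤ K) :
    ∃ C ε0 : ℝ, 0 < C ∧ 0 < ε0 ∧ ∀ (ε s : ℝ), 0 < ε → ε ≤ ε0 → 0 ≤ s → s ≤ 1 + K * ε →
      ∀ (H κ : Type) [Fintype H] [DecidableEq H] [Fintype κ] [DecidableEq κ]
        (d : LD bp b ε s H κ),
        nsq (cmpo bp.ω (lft d.V bp.ω) - cmpo bp.ζ (lft d.W bp.ζ)) +
        nsq (lft d.V bp.ω - lft (tn (Fin p) (cmpo bp.ω (lft d.V bp.ω))) bp.ω) +
        nsq (lft d.W bp.ζ - lft (tn (Fin q) (cmpo bp.ζ (lft d.W bp.ζ))) bp.ζ) +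
        nsq (lft d.Vc bp.ω) + nsq (lft d.Wc bp.ζ) ≤ C * ε ^ 2 ∧
        1 - C * ε ^ 2 ≤ nsq (cmpo bp.ω (lft d.V bp.ω)) ∧
        1 - C * ε ^ 2 ≤ nsq (cmpo bp.ζ (lft d.W bp.ζ)) ∧
        nsq (cmpo bp.ω (lft d.V bp.ω)) ≤ 1 + ε ^ 2 ∧
        nsq (cmpo bp.ζ (lft d.W bp.ζ)) ≤ 1 + ε ^ 2 := by
  obtain ⟨Cg, hCg0, hCg⟩ := lin_bound bp.gre
  have hκ := bp.hκ
  have hc0 : 0 < 1 - bp.κ := by linarith
  have hγ := bp.hγ
  have hγ1 := bp.hγ1
  set δ : ℝ := ∑ k, opn (ks bp.x (b k)) + 1 with hδ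
  have hδs : 0 ≤ ∑ k, opn (ks bp.x (b k)) := Finset.sum_nonneg fun _ _ => opn_nonneg _
  have hδ0 : 0 < δ := by linarith
  set Cb : ℝ := 8 * δ ^ 2 / (1 - bp.κ) with hCb
  have hCb0 : 0 ≤ Cb := by positivity
  set C2 : ℝ := 4 * Cb + 2 + 2 * Cg with hC2
  have hC20 : 0 < C2 := by linarith
  set m0 : ℝ := min 1 (min ((1 - bp.κ) / 4) (bp.γ / 2)) with hm0
  have hm0p : 0 < m0 := by
    rw [hm0]
    refine lt_min one_pos (lt_min ?_ ?_) <;> linarith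
  have hm1 : m0 ≤ 1 := min_le_left _ _
  have hm2 : m0 ≤ (1 - bp.κ) / 4 := (min_le_right _ _).trans (min_le_left _ _)
  have hm3 : m0 ≤ bp.γ / 2 := (min_le_right _ _).trans (min_le_right _ _)
  set C : ℝ := C2 + C2 / m0 with hC
  have hCm0 : 0 < C2 / m0 := by positivity
  set ε0 : ℝ := min 1 (min ((1 - bp.κ) / (8 * δ)) (bp.γ / (2 * (K + 1)))) with hε0
  have hε0p : 0 < ε0 := by
    rw [hε0]
    refine lt_min one_pos (lt_min ?_ ?_) <;> positivity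
  refine ⟨C, ε0, by linarith, hε0p, ?_⟩
  intro ε s hε hεε hs0 hs H κ _ _ _ _ d
  have he1 : ε ≤ 1 := hεε.trans (min_le_left _ _)
  have he2 : ε * δ ≤ (1 - bp.κ) / 8 := by
    have : ε ≤ (1 - bp.κ) / (8 * δ) := hεε.trans ((min_le_right _ _).trans (min_le_left _ _))
    rw [le_div_iff₀ (by positivity)] at this
    linarith
  have he3 : K * ε ≤ bp.γ / 2 := by
    have : ε ≤ bp.γ / (2 * (K + 1)) := hεε.trans ((min_le_right _ _).trans (min_le_right _ _))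
    rw [le_div_iff₀ (by positivity)] at this
    nlinarith only [hε, this]
  have he4 : ε ^ 2 ≤ 1 := by nlinarith only [he1, hγ1, hm0p, hm3, hε]
  have he5 : 0 < ε ^ 2 := by positivity
  set Ω := lft d.V bp.ω with hΩ
  set Z := lft d.W bp.ζ with hZ
  set Ωc := lft d.Vc bp.ω with hΩc
  set Zc := lft d.Wc bp.ζ with hZc
  have a1 : nsq Ω + nsq Ωc ≤ 1 + ε ^ 2 := by
    have := nsq_lft_le d.hV bp.ω
    rw [bp.hω, mul_one] at this
    exact this
  have a2 : nsq Z + nsq Zc ≤ 1 + ε ^ 2 := by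
    have := nsq_lft_le d.hW bp.ζ
    rw [bp.hζ, mul_one] at this
    exact this
  have b1 := nsq_split bp.hω Ω
  have b2 := nsq_split bp.hζ Z
  set v := cmpo bp.ω Ω with hv
  set w := cmpo bp.ζ Z with hw
  set Ω' := Ω - lft (tn (Fin p) v) bp.ω with hΩ'
  set Z' := Z - lft (tn (Fin q) w) bp.ζ with hZ'
  have p0 := nsq_nonneg (v - w)
  have p1 := nsq_nonneg Ω'
  have p2 := nsq_nonneg Z'
  have p3 := nsq_nonneg Ωc
  have p4 := nsq_nonneg Zc
  have p5 := nsq_nonneg v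
  have p6 := nsq_nonneg w
  -- functional part
  set D := ks bp.x (fun l => Matrix.diagonal (fun c => d.φ c l)) with hD
  have hDn : opn D ≤ 1 - bp.γ := opn_func bp.x (by linarith) bp.hx d.hφ
  have a4 := re_pr_opn_le (by linarith) hDn one_pos Ωc Zc
  rw [inv_one, one_mul, one_mul] at a4
  have a4' : 2 * (s * (pr Ωc (D.mulVec Zc)).re) ≤ (1 - bp.γ / 2) * (nsq Ωc + nsq Zc) := by
    have h1 : 2 * (s * (pr Ωc (D.mulVec Zc)).re) ≤ s * (1 - bp.γ) * (nsq Ωc + nsq Zc) := by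
      have : s * (pr Ωc (D.mulVec Zc)).re ≤ s * ((1 - bp.γ) * (nsq Ωc + nsq Zc) / 2) := by gcongr
      linarith
    have h2 : s * (1 - bp.γ) ≤ 1 - bp.γ / 2 := by nlinarith only [hγ, hm0p, hm3, hγ1, hs, he3]
    have h3 : s * (1 - bp.γ) * (nsq Ωc + nsq Zc) ≤ (1 - bp.γ / 2) * (nsq Ωc + nsq Zc) := by
      apply mul_le_mul_of_nonneg_right h2; linarith
    linarith
  -- the pairing identity
  set M := ks bp.x (uu bp b ε d.X) with hM
  set e : ι → Matrix (Fin p) (Fin q) ℂ := fun l => bp.a l + (ε : ℂ) • ∑ k, (d.lam k : ℂ) • b k l -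
    d.Vᴴ * uu bp b ε d.X l * d.W -
    (s : ℂ) • (d.Vcᴴ * Matrix.diagonal (fun c => d.φ c l) * d.Wc) with he
  have a5 : bp.g e = 1 - pr Ω (M.mulVec Z) - (s : ℂ) * pr Ωc (D.mulVec Zc) := by
    have h1 : e = bp.a + ((ε : ℂ) • (fun l => ∑ k, (d.lam k : ℂ) • b k l) +
        ((-1 : ℂ) • (fun l => d.Vᴴ * uu bp b ε d.X l * d.W) +
        (-(s : ℂ)) • (fun l => d.Vcᴴ * Matrix.diagonal (fun c => d.φ c l) * d.Wc))) := by
      funext l
      simp only [he, Pi.add_apply, Pi.smul_apply, neg_smul, one_smul, Pi.neg_apply]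
      abel
    rw [h1, bp.g_add, bp.g_add, bp.g_add, bp.g_smul, bp.g_smul, bp.g_smul, bp.g_a, bp.g_sum,
      bp.g_conj, bp.g_conj]
    simp only [hb, mul_zero, Finset.sum_const_zero]
    ring
  have a6 : 1 - Cg * ε ^ 2 ≤ (pr Ω (M.mulVec Z)).re + s * (pr Ωc (D.mulVec Zc)).re := by
    have h1 := hCg e (ε ^ 2) he5.le (fun l i j => d.herr l i j)
    have h2 : bp.gre e = (bp.g e).re := rfl
    rw [h2, a5, Complex.sub_re, Complex.sub_re, Complex.re_ofReal_mul, Complex.one_re] at h1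
    have h3 := (abs_le.1 h1).2
    linarith
  -- bracket
  have a7 := bp.bracket b hb hε hδ0 (by rw [hδ]; linarith) he2 d.hX1 Ω Z
  rw [← hM, ← hv, ← hw, ← hΩ', ← hZ', ← hCb] at a7
  have c1 : nsq v ≤ 1 + ε ^ 2 := by linarith
  have c2 : nsq w ≤ 1 + ε ^ 2 := by linarith
  have c3 : ε ^ 2 * Cb * (nsq v + nsq w) ≤ ε ^ 2 * Cb * 4 := by
    have : nsq v + nsq w ≤ 4 := by linarith
    gcongr
  have key : nsq (v - w) + (1 - bp.κ) / 4 * (nsq Ω' + nsq Z') + bp.γ / 2 * (nsq Ωc + nsq Zc) ≤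
      C2 * ε ^ 2 := by
    have e1 : C2 * ε ^ 2 = ε ^ 2 * Cb * 4 + 2 * ε ^ 2 + 2 * (Cg * ε ^ 2) := by rw [hC2]; ring
    rw [e1]
    linarith only [a1, a2, a4', a6, a7, c3]
  have key2 : m0 * (nsq (v - w) + nsq Ω' + nsq Z' + nsq Ωc + nsq Zc) ≤ C2 * ε ^ 2 := by
    have k1 : m0 * nsq (v - w) ≤ nsq (v - w) := by nlinarith only [hγ, hγ1, hm1, p0]
    have k2 : m0 * (nsq Ω' + nsq Z') ≤ (1 - bp.κ) / 4 * (nsq Ω' + nsq Z') :=
      mul_le_mul_of_nonneg_right hm2 (by linarith)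
    have k3 : m0 * (nsq Ωc + nsq Zc) ≤ bp.γ / 2 * (nsq Ωc + nsq Zc) :=
      mul_le_mul_of_nonneg_right hm3 (by linarith)
    linarith only [a1, a2, a4', a6, a7, c3, k1, k2, k3]
  have key3 : nsq (v - w) + nsq Ω' + nsq Z' + nsq Ωc + nsq Zc ≤ C2 / m0 * ε ^ 2 := by
    have h1 : C2 / m0 * ε ^ 2 = (C2 * ε ^ 2) / m0 := by ring
    rw [h1, le_div_iff₀ hm0p]
    linarith only [key2]
  -- lower bounds
  have q1 : 0 ≤ (1 - bp.κ) / 4 * (nsq Ω' + nsq Z') := by positivity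
  have q2 : 0 ≤ bp.γ / 2 * (nsq Ωc + nsq Zc) := by positivity
  have l0 : 2 - C2 * ε ^ 2 + 2 * ε ^ 2 ≤ (nsq Ω + nsq Ωc) + (nsq Z + nsq Zc) := by
    have e1 : C2 * ε ^ 2 = ε ^ 2 * Cb * 4 + 2 * ε ^ 2 + 2 * (Cg * ε ^ 2) := by rw [hC2]; ring
    rw [e1]
    linarith only [p0, a4', a6, a7, c3, q1, q2]
  have hCle : C2 * ε ^ 2 + C2 / m0 * ε ^ 2 = C * ε ^ 2 := by rw [hC]; ring
  have hCm : 0 ≤ C2 * ε ^ 2 := by positivity
  refine ⟨by linarith only [a1, a2, p0, a4', a6, a7, c3, key3, q1, q2], ?_, ?_, c1, c2⟩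
  · linarith only [he5, a2, b1, p0, p2, p4, a4', a6, a7, c3, key3, q1, q2]
  · linarith only [he5, a1, b2, p0, p1, p3, a4', a6, a7, c3, key3, q1, q2]

end loc

end Pool.Agent.W_MP_7b81ff_an
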