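import Pool.Agent.W_MP_7b81ff_an.Sta

set_option autoImplicit false
set_option linter.unusedSimpArgs false
set_option linter.unusedSectionVars false

open Matrix Finset Module
open scoped NNReal ComplexOrder

namespace Pool.Agent.W_MP_7b81ff_an

lemma nsq_add_le {κ : Type*} [Fintype κ] (x y : κ → ℂ) : nsq (x + y) ≤ 2 * nsq x + 2 * nsq y := by
  have h1 := nsq_add x y
  have h2 := re_pr_le x y
  linarith

/-- control of the self-adjoint part of a matrix -/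
lemma herm_small {n : ℕ} {ω : Fin n × Fin n → ℂ} (hω : nsq ω = 1)
    (hR : IsUnit (Matrix.of fun a i => ω (i, a)).det) :
    ∃ C : ℝ, 0 ≤ C ∧ ∀ (F : Matrix (Fin n) (Fin n) ℂ) (m : ℝ), 0 ≤ m →
      (∀ z, 2 * (pr z (F.mulVec z)).re ≤ m * nsq z) → (-m ≤ 2 * (pr ω (lft F ω)).re) →
      ∀ i j, ‖(F + Fᴴ) i j‖ ≤ C * m := by
  set r : ℝ := opn (Matrix.of fun a i => ω (i, a))⁻¹ with hr
  refine ⟨1 + 2 * r ^ 2, by positivity, fun F m hm h1 h2 i j => ?_⟩
  set D : Matrix (Fin n) (Fin n) ℂ := (m : ℂ) • 1 - (F + Fᴴ) with hD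
  have hform : ∀ z, pr z (D.mulVec z) = ((m * nsq z - 2 * (pr z (F.mulVec z)).re : ℝ) : ℂ) := by
    intro z
    have e1 : D.mulVec z = (m : ℂ) • z - (F.mulVec z + Fᴴ.mulVec z) := by
      rw [hD, Matrix.sub_mulVec, Matrix.smul_mulVec, Matrix.one_mulVec, Matrix.add_mulVec]
    have e2 : pr z (Fᴴ.mulVec z) = (starRingEnd ℂ) (pr z (F.mulVec z)) := by
      rw [pr_mulVec, Matrix.conjTranspose_conjTranspose, pr_conj]
    rw [e1, pr_sub_right, pr_smul_right, pr_add_right, pr_self, e2, Complex.add_conj]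
    push_cast
    ring
  have hherm : D.IsHermitian := by
    change Dᴴ = D
    rw [hD, Matrix.conjTranspose_sub, Matrix.conjTranspose_add, Matrix.conjTranspose_conjTranspose,
      Matrix.conjTranspose_smul, Matrix.conjTranspose_one, add_comm Fᴴ F]
    congr 2
    exact Complex.conj_ofReal m
  have hpos : D.PosSemidef := by
    refine Matrix.PosSemidef.of_dotProduct_mulVec_nonneg hherm fun z => ?_
    have h3 : star z ⬝ᵥ D.mulVec z = pr z (D.mulVec z) := rfl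
    rw [h3, hform]
    have h4 := h1 z
    have : 0 ≤ m * nsq z - 2 * (pr z (F.mulVec z)).re := by linarith
    exact_mod_cast this
  obtain ⟨N, hN⟩ := exists_factor hpos
  have hNz : ∀ z, nsq (N.mulVec z) = m * nsq z - 2 * (pr z (F.mulVec z)).re := by
    intro z
    have h3 := hform z
    rw [hN, ← Matrix.mulVec_mulVec, pr_mulVec, Matrix.conjTranspose_conjTranspose, pr_self] at h3
    exact_mod_cast h3
  have h5 : nsq (lft N ω) ≤ 2 * m := by
    have h6 : nsq (lft N ω) = m * nsq ω - 2 * (pr ω (lft F ω)).re := by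
      rw [nsq_lft, nsq_fst]
      unfold pr lft
      rw [Fintype.sum_prod_type, Complex.re_sum, Finset.mul_sum, Finset.mul_sum,
        ← Finset.sum_sub_distrib]
      exact Finset.sum_congr rfl fun i _ => hNz _
    rw [h6, hω]
    linarith
  have h7 : fn N ≤ r ^ 2 * (2 * m) := by
    refine (fn_le_lft hR N).trans ?_
    gcongr
  have h8 : ‖D i j‖ ≤ r ^ 2 * (2 * m) := by
    refine (norm_entry_le_opn D i j).trans ?_
    have h9 : opn D ≤ opn N * opn N := by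
      rw [hN]
      refine (opn_mul_le _ _).trans ?_
      rw [opn_conjTranspose]
    have h10 := opn_sq_le_fn N
    nlinarith
  have h11 : (F + Fᴴ) i j = ((m : ℂ) • (1 : Matrix (Fin n) (Fin n) ℂ)) i j - D i j := by
    rw [hD]
    simp only [Matrix.sub_apply]
    ring
  rw [h11]
  refine (norm_sub_le _ _).trans ?_
  have h12 : ‖((m : ℂ) • (1 : Matrix (Fin n) (Fin n) ℂ)) i j‖ ≤ m := by
    rw [Matrix.smul_apply, smul_eq_mul, norm_mul, Complex.norm_real, Real.norm_eq_abs,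
      abs_of_nonneg hm, Matrix.one_apply]
    split_ifs
    · simp
    · simpa using hm
  linarith

section loc
variable {E : Type*} [NormedAddCommGroup E] [NormedSpace ℂ E] {ι : Type} [Fintype ι]
  [DecidableEq ι] {B : Basis ι ℂ E} {p q : ℕ} (bp : BasePt B p q)
  (b : Fin 3 → (ι → Matrix (Fin p) (Fin q) ℂ))

/-- the vector attached to local data -/
noncomputable def LD.v {bp : BasePt B p q} {b : Fin 3 → (ι → Matrix (Fin p) (Fin q) ℂ)} {ε s : ℝ}
    {H κ : Type} [Fintype H] [DecidableEq H] [Fintype κ] [DecidableEq κ] (d : LD bp b ε s H κ) :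
    H → ℂ := cmpo bp.ω (lft d.V bp.ω)

/-- **Stage 2**. -/
theorem BasePt.stage2 (hb : ∀ k, bp.g (b k) = 0) (K : ℝ) (hK : 0 ≤ K) :
    ∃ C ε0 : ℝ, 0 < C ∧ 0 < ε0 ∧ ∀ (ε s : ℝ), 0 < ε → ε ≤ ε0 → 0 ≤ s → s ≤ 1 + K * ε →
      ∀ (H κ : Type) [Fintype H] [DecidableEq H] [Fintype κ] [DecidableEq κ]
        (d : LD bp b ε s H κ),
        fn (d.V - tn (Fin p) d.v) ≤ C * ε ^ 2 ∧ fn (d.W - tn (Fin q) d.v) ≤ C * ε ^ 2 ∧
        fn d.Vc ≤ C * ε ^ 2 ∧ fn d.Wc ≤ C * ε ^ 2 ∧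
        1 - C * ε ^ 2 ≤ nsq d.v ∧ nsq d.v ≤ 1 + ε ^ 2 ∧
        pr (lft (tn (Fin p) d.v) bp.ω) (lft (d.V - tn (Fin p) d.v) bp.ω) = 0 ∧
        -(C * ε ^ 2) ≤ 2 * (pr (lft (tn (Fin q) d.v) bp.ζ) (lft (d.W - tn (Fin q) d.v) bp.ζ)).re := by
  obtain ⟨C, ε0, hC, hε0, hmain⟩ := bp.stage1 b hb K hK
  set r : ℝ := opn (Matrix.of fun a i => bp.ω (i, a))⁻¹ with hr
  set r' : ℝ := opn (Matrix.of fun a i => bp.ζ (i, a))⁻¹ with hr'
  refine ⟨(r ^ 2 + 2 * r' ^ 2) * C + 2 * C + 1, ε0, by positivity, hε0, ?_⟩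
  intro ε s hε hεε hs0 hs H κ _ _ _ _ d
  obtain ⟨h1, h2, h3, h4, h5⟩ := hmain ε s hε hεε hs0 hs H κ d
  have hv : cmpo bp.ω (lft d.V bp.ω) = d.v := rfl
  rw [hv] at h1 h2 h4
  set v := d.v with hvdef
  set w := cmpo bp.ζ (lft d.W bp.ζ) with hw
  have he5 : 0 < ε ^ 2 := by positivity
  have p0 := nsq_nonneg (v - w)
  have p1 := nsq_nonneg (lft d.V bp.ω - lft (tn (Fin p) v) bp.ω)
  have p2 := nsq_nonneg (lft d.W bp.ζ - lft (tn (Fin q) w) bp.ζ)
  have p3 := nsq_nonneg (lft d.Vc bp.ω)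
  have p4 := nsq_nonneg (lft d.Wc bp.ζ)
  have hrr : 0 ≤ r ^ 2 := by positivity
  have hrr' : 0 ≤ r' ^ 2 := by positivity
  have hCe : 0 ≤ C * ε ^ 2 := by positivity
  have m1 : 0 ≤ r ^ 2 * (C * ε ^ 2) := by positivity
  have m2 : 0 ≤ r' ^ 2 * (C * ε ^ 2) := by positivity
  have hbig : ((r ^ 2 + 2 * r' ^ 2) * C + 2 * C + 1) * ε ^ 2 =
      r ^ 2 * (C * ε ^ 2) + 2 * (r' ^ 2 * (C * ε ^ 2)) + 2 * (C * ε ^ 2) + ε ^ 2 := by ring
  rw [hbig]
  -- the four Frobenius bounds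
  have f1 : fn (d.V - tn (Fin p) v) ≤ r ^ 2 * (C * ε ^ 2) := by
    refine (fn_le_lft bp.hR _).trans ?_
    rw [lft_sub_left]
    have : nsq (lft d.V bp.ω - lft (tn (Fin p) v) bp.ω) ≤ C * ε ^ 2 := by linarith
    gcongr
  have f3 : fn d.Vc ≤ r ^ 2 * (C * ε ^ 2) := by
    refine (fn_le_lft bp.hR _).trans ?_
    have : nsq (lft d.Vc bp.ω) ≤ C * ε ^ 2 := by linarith
    gcongr
  have f4 : fn d.Wc ≤ r' ^ 2 * (C * ε ^ 2) := by
    refine (fn_le_lft bp.hT _).trans ?_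
    have : nsq (lft d.Wc bp.ζ) ≤ C * ε ^ 2 := by linarith
    gcongr
  have f2 : fn (d.W - tn (Fin q) v) ≤ 2 * (r' ^ 2 * (C * ε ^ 2)) := by
    refine (fn_le_lft bp.hT _).trans ?_
    rw [lft_sub_left]
    have e1 : lft d.W bp.ζ - lft (tn (Fin q) v) bp.ζ =
        (lft d.W bp.ζ - lft (tn (Fin q) w) bp.ζ) + lft (tn (Fin q) (w - v)) bp.ζ := by
      ext t
      simp only [Pi.add_apply, Pi.sub_apply, lft_tn]
      ring
    have e2 : nsq (lft (tn (Fin q) (w - v)) bp.ζ) = nsq (v - w) := by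
      rw [nsq_lft_tn, bp.hζ, mul_one]
      unfold nsq
      exact Finset.sum_congr rfl fun i _ => by
        rw [Pi.sub_apply, Pi.sub_apply, norm_sub_rev]
    have e3 := nsq_add_le (lft d.W bp.ζ - lft (tn (Fin q) w) bp.ζ) (lft (tn (Fin q) (w - v)) bp.ζ)
    rw [← e1, e2] at e3
    have e4 : nsq (lft d.W bp.ζ - lft (tn (Fin q) v) bp.ζ) ≤ 2 * (C * ε ^ 2) := by linarith
    calc r' ^ 2 * nsq (lft d.W bp.ζ - lft (tn (Fin q) v) bp.ζ) ≤ r' ^ 2 * (2 * (C * ε ^ 2)) := by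
          gcongr
      _ = _ := by ring
  refine ⟨by linarith, by linarith, by linarith, by linarith, by linarith, by linarith, ?_, ?_⟩
  · rw [pr_lft_tn, lft_sub_left, cmpo_sub, cmpo_lft_tn bp.hω, hv, sub_self]
    simp [pr]
  · have e1 : pr (lft (tn (Fin q) v) bp.ζ) (lft (d.W - tn (Fin q) v) bp.ζ) = pr v (w - v) := by
      rw [pr_lft_tn, lft_sub_left, cmpo_sub, cmpo_lft_tn bp.hζ]
    have e2 := nsq_add v (w - v)
    have e3 : v + (w - v) = w := by abel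
    rw [e3] at e2
    have e4 : nsq (w - v) = nsq (v - w) := by
      unfold nsq
      exact Finset.sum_congr rfl fun i _ => by
        rw [Pi.sub_apply, Pi.sub_apply, norm_sub_rev]
    rw [e1]
    rw [e4] at e2
    linarith

end loc

end Pool.Agent.W_MP_7b81ff_an
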