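import Pool.Agent.W_MP_7b81ff_an.Stb

set_option autoImplicit false
set_option linter.unusedSimpArgs false
set_option linter.unusedSectionVars false

open Matrix Finset Module
open scoped NNReal ComplexOrder

namespace Pool.Agent.W_MP_7b81ff_an

lemma lft_mul {J K P R : Type*} [Fintype J] [Fintype K] [Fintype P] [Fintype R] (A : Matrix R P ℂ)
    (V : Matrix P K ℂ) (ω : J × K → ℂ) : lft (A * V) ω = lft A (lft V ω) := by
  ext t
  unfold lft
  rw [← Matrix.mulVec_mulVec]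

lemma pr_herm_real {H : Type*} [Fintype H] {X : Matrix H H ℂ} (hX : Xᴴ = X) (v : H → ℂ) :
    pr v (X.mulVec v) = (((pr v (X.mulVec v)).re : ℝ) : ℂ) := by
  have h1 : pr v (X.mulVec v) = (starRingEnd ℂ) (pr v (X.mulVec v)) := by
    conv_lhs => rw [pr_mulVec, hX, pr_conj]
  exact (Complex.conj_eq_iff_real.1 h1.symm).elim fun r hr => by rw [hr, Complex.ofReal_re]

section loc
variable {E : Type*} [NormedAddCommGroup E] [NormedSpace ℂ E] {ι : Type} [Fintype ι]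
  [DecidableEq ι] {B : Basis ι ℂ E} {p q : ℕ} (bp : BasePt B p q)
  (b : Fin 3 → (ι → Matrix (Fin p) (Fin q) ℂ))

lemma CF.norm_le {φ : ι → ℂ} (hφ : CF B φ) (l : ι) : ‖φ l‖ ≤ ‖B l‖ := by
  have h := hφ (B l)
  rw [Basis.repr_self] at h
  have h2 : ∑ k, (Finsupp.single l (1 : ℂ)) k * φ k = φ l := by
    rw [Finset.sum_eq_single l]
    · simp
    · intro k _ hk
      rw [Finsupp.single_apply, if_neg (Ne.symm hk), zero_mul]
    · intro h; exact absurd (Finset.mem_univ _) h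
  rw [h2] at h
  exact h

lemma opn_diag_le {κ : Type*} [Fintype κ] [DecidableEq κ] {c : ℝ} (hc : 0 ≤ c) {f : κ → ℂ}
    (hf : ∀ k, ‖f k‖ ≤ c) : opn (Matrix.diagonal f) ≤ c := by
  apply opn_le hc
  intro v
  unfold nsq
  rw [Finset.mul_sum]
  refine Finset.sum_le_sum fun k _ => ?_
  rw [Matrix.mulVec_diagonal, norm_mul, mul_pow]
  have := hf k
  gcongr

lemma opn_mul3_le {m n k l : Type*} [Fintype m] [Fintype n] [Fintype k] [Fintype l]
    {A : Matrix m n ℂ} {X : Matrix n k ℂ} {C : Matrix k l ℂ} {a x c : ℝ} (hA : opn A ≤ a)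
    (hX : opn X ≤ x) (hC : opn C ≤ c) : opn (A * X * C) ≤ a * x * c := by
  have h1 := opn_nonneg A
  have h2 := opn_nonneg X
  have h3 := opn_nonneg C
  have ha : 0 ≤ a := h1.trans hA
  have hx : 0 ≤ x := h2.trans hX
  calc opn (A * X * C) ≤ opn (A * X) * opn C := opn_mul_le _ _
    _ ≤ (opn A * opn X) * opn C := by gcongr; exact opn_mul_le _ _
    _ ≤ _ := by gcongr

/-- expansion of the compressed map -/
lemma expand {H : Type*} [Fintype H] [DecidableEq H] (A : Matrix (Fin p) (Fin q) ℂ)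
    (bl : Fin 3 → Matrix (Fin p) (Fin q) ℂ) (X : Fin 3 → Matrix H H ℂ) (ε : ℂ) (v : H → ℂ)
    (V : Matrix (Fin p × H) (Fin p) ℂ) (W : Matrix (Fin q × H) (Fin q) ℂ) :
    Vᴴ * (kr A (1 : Matrix H H ℂ) + ε • ∑ k, kr (bl k) (X k)) * W =
      (((nsq v : ℝ) : ℂ) • A + A * ((tn (Fin q) v)ᴴ * (W - tn (Fin q) v)) +
        ((tn (Fin p) v)ᴴ * (V - tn (Fin p) v))ᴴ * A +
        (V - tn (Fin p) v)ᴴ * kr A (1 : Matrix H H ℂ) * (W - tn (Fin q) v)) +
      ε • (∑ k, (pr v ((X k).mulVec v)) • bl k +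
        (tn (Fin p) v)ᴴ * (∑ k, kr (bl k) (X k)) * (W - tn (Fin q) v) +
        (V - tn (Fin p) v)ᴴ * (∑ k, kr (bl k) (X k)) * tn (Fin q) v +
        (V - tn (Fin p) v)ᴴ * (∑ k, kr (bl k) (X k)) * (W - tn (Fin q) v)) := by
  set T := tn (Fin p) v with hT
  set S := tn (Fin q) v with hS
  set V' := V - T with hV'
  set W' := W - S with hW'
  have hV : V = T + V' := by rw [hV']; abel
  have hW : W = S + W' := by rw [hW']; abel
  have e1 : Tᴴ * kr A (1 : Matrix H H ℂ) * S = ((nsq v : ℝ) : ℂ) • A := by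
    rw [hT, hS, tnH_kr_tn, Matrix.one_mulVec, pr_self]
  have e2 : Tᴴ * kr A (1 : Matrix H H ℂ) * W' = A * (Sᴴ * W') := by
    rw [hT, hS, tnH_kr_one, Matrix.mul_assoc]
  have e3 : V'ᴴ * kr A (1 : Matrix H H ℂ) * S = (Tᴴ * V')ᴴ * A := by
    rw [Matrix.mul_assoc, hS, kr_one_tn, ← hT, Matrix.conjTranspose_mul,
      Matrix.conjTranspose_conjTranspose, Matrix.mul_assoc]
  have e4 : Tᴴ * (∑ k, kr (bl k) (X k)) * S = ∑ k, (pr v ((X k).mulVec v)) • bl k := by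
    rw [Matrix.mul_sum, Matrix.sum_mul]
    exact Finset.sum_congr rfl fun k _ => by rw [hT, hS, tnH_kr_tn]
  rw [← e1, ← e2, ← e3, ← e4]
  conv_lhs => rw [hV, hW]
  simp only [Matrix.conjTranspose_add, Matrix.add_mul, Matrix.mul_add, Matrix.smul_mul,
    Matrix.mul_smul, smul_add]
  abel

/-- **Local theorem**. -/
theorem BasePt.localThm (hb : ∀ k, bp.g (b k) = 0)
    (h : Fin 3 → ((ι → Matrix (Fin p) (Fin q) ℂ) →ₗ[ℝ] ℝ))
    (hh : ∀ k l, h k (b l) = if k = l then 1 else 0)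
    (hL : ∀ k (K : Matrix (Fin p) (Fin p) ℂ), Kᴴ = -K → h k (fun l => K * bp.a l) = 0)
    (hR : ∀ k (K : Matrix (Fin q) (Fin q) ℂ), Kᴴ = -K → h k (fun l => bp.a l * K) = 0)
    (K : ℝ) (hK : 0 ≤ K) :
    ∃ C ε0 : ℝ, 0 < C ∧ 0 < ε0 ∧ ∀ (ε s : ℝ), 0 < ε → ε ≤ ε0 → 0 ≤ s → s ≤ 1 + K * ε →
      ∀ (H κ : Type) [Fintype H] [DecidableEq H] [Fintype κ] [DecidableEq κ]
        (d : LD bp b ε s H κ),
        1 - C * ε ^ 2 ≤ nsq d.v ∧ nsq d.v ≤ 1 + ε ^ 2 ∧
        ∀ k, |d.lam k - (pr d.v ((d.X k).mulVec d.v)).re| ≤ C * ε := by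
  obtain ⟨C, ε1, hC, hε1, hmain⟩ := bp.stage2 b hb K hK
  obtain ⟨CF, hCF0, hCF⟩ := herm_small bp.hζ bp.hT
  obtain ⟨CG, hCG0, hCG⟩ := herm_small bp.hω bp.hR
  have hbd : ∀ k, ∃ C : ℝ, 0 ≤ C ∧ ∀ (z : ι → Matrix (Fin p) (Fin q) ℂ) (m : ℝ), 0 ≤ m →
      (∀ l i j, ‖z l i j‖ ≤ m) → |h k z| ≤ C * m := fun k => lin_bound (h k)
  choose Ch hCh0 hCh using hbd
  set Am : ℝ := ∑ l, opn (bp.a l) with hAm
  set Bm : ℝ := ∑ l, ∑ k, opn (b k l) with hBm
  set Φm : ℝ := ∑ l, ‖B l‖ with hΦm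
  have hAm0 : 0 ≤ Am := Finset.sum_nonneg fun _ _ => opn_nonneg _
  have hBm0 : 0 ≤ Bm := Finset.sum_nonneg fun _ _ => Finset.sum_nonneg fun _ _ => opn_nonneg _
  have hΦm0 : 0 ≤ Φm := Finset.sum_nonneg fun _ _ => norm_nonneg _
  set c : ℝ := C + 1 with hc
  have hc0 : 0 < c := by linarith
  set C1 : ℝ := 1 + Am * c ^ 2 + 4 * Bm * c + Bm * c ^ 2 + (1 + K) * Φm * c ^ 2 with hC1
  have hC10 : 0 < C1 := by positivity
  set Hm : ℝ := ∑ k, Ch k with hHm
  have hHm0 : 0 ≤ Hm := Finset.sum_nonneg fun k _ => hCh0 k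
  have hChm : ∀ k, Ch k ≤ Hm := fun k => Finset.single_le_sum (f := Ch) (fun k _ => hCh0 k)
    (Finset.mem_univ k)
  set C2 : ℝ := Hm * C1 + c * (Hm * Am) + Hm * ((q : ℝ) * (Am * (CF * c))) +
    Hm * ((p : ℝ) * (Am * (CG * c))) with hC2
  have hC20 : 0 ≤ C2 := by positivity
  refine ⟨C + C2, min 1 ε1, by linarith, lt_min one_pos hε1, ?_⟩
  intro ε s hε hεε hs0 hs H κ _ _ _ _ d
  have he1 : ε ≤ 1 := hεε.trans (min_le_left _ _)
  have he2 : ε ≤ ε1 := hεε.trans (min_le_right _ _)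
  obtain ⟨f1, f2, f3, f4, n1, n2, g1, g2⟩ := hmain ε s hε he2 hs0 hs H κ d
  have hεε2 : 0 < ε ^ 2 := by positivity
  have hεle : ε ^ 2 ≤ 1 := by nlinarith only [he1, hε]
  have hC2e : 0 ≤ C2 * ε ^ 2 := by positivity
  refine ⟨by nlinarith only [n1, hC2e], n2, fun k => ?_⟩
  set v := d.v with hv
  set V' := d.V - tn (Fin p) v with hV'
  set W' := d.W - tn (Fin q) v with hW'
  set F := (tn (Fin q) v)ᴴ * W' with hF
  set G := (tn (Fin p) v)ᴴ * V' with hG
  -- operator norm bounds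
  have opnle : ∀ {m n : Type} [Fintype m] [Fintype n] (M : Matrix m n ℂ), fn M ≤ C * ε ^ 2 →
      opn M ≤ c * ε := by
    intro m n _ _ M hM
    have h1 := opn_sq_le_fn M
    have h2 : opn M ^ 2 ≤ (c * ε) ^ 2 := by
      refine h1.trans (hM.trans ?_)
      rw [mul_pow]
      have : C ≤ c ^ 2 := by rw [hc]; nlinarith only [hC]
      gcongr
    exact abs_le_of_sq_le_sq' h2 (by positivity) |>.2
  have o1 : opn V'ᴴ ≤ c * ε := by rw [opn_conjTranspose]; exact opnle V' f1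
  have o2 : opn W' ≤ c * ε := opnle W' f2
  have o3 : opn d.Vcᴴ ≤ c * ε := by rw [opn_conjTranspose]; exact opnle d.Vc f3
  have o4 : opn d.Wc ≤ c * ε := opnle d.Wc f4
  have o5 : opn (tn (Fin q) v) ≤ 2 := opn_tn_le (by norm_num) (by linarith)
  have o6 : opn (tn (Fin p) v)ᴴ ≤ 2 := by
    rw [opn_conjTranspose]; exact opn_tn_le (by norm_num) (by linarith)
  have o7 : ∀ l, opn (kr (bp.a l) (1 : Matrix H H ℂ)) ≤ Am := by
    intro l
    refine (opn_kr_le _ _).trans ?_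
    have h1 : opn (bp.a l) ≤ Am := Finset.single_le_sum (f := fun l => opn (bp.a l))
      (fun _ _ => opn_nonneg _) (Finset.mem_univ l)
    have h2 := opn_one_le (m := H)
    have h3 := opn_nonneg (bp.a l)
    have h4 := opn_nonneg (1 : Matrix H H ℂ)
    nlinarith only [hAm0, h2, h1, h4]
  have o8 : ∀ l, opn (∑ k, kr (b k l) (d.X k)) ≤ Bm := by
    intro l
    refine (opn_sum_le _ _).trans ?_
    have h1 : ∑ k, opn (b k l) ≤ Bm := Finset.single_le_sum (f := fun l => ∑ k, opn (b k l))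
      (fun _ _ => Finset.sum_nonneg fun _ _ => opn_nonneg _) (Finset.mem_univ l)
    refine (Finset.sum_le_sum fun k _ => ?_).trans h1
    refine (opn_kr_le _ _).trans ?_
    have h2 := d.hX1 k
    have h3 := opn_nonneg (b k l)
    nlinarith only [h2, h3]
  have o9 : ∀ l, opn (Matrix.diagonal (fun c => d.φ c l)) ≤ Φm := by
    intro l
    apply opn_diag_le hΦm0
    intro c'
    refine ((d.hφ c').norm_le l).trans ?_
    exact Finset.single_le_sum (f := fun l => ‖B l‖) (fun _ _ => norm_nonneg _) (Finset.mem_univ l)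
  -- the remaining identity
  set r : Fin 3 → ℝ := fun k => d.lam k - (pr v ((d.X k).mulVec v)).re with hr
  set e' : ι → Matrix (Fin p) (Fin q) ℂ := fun l => ((1 - nsq v : ℝ) : ℂ) • bp.a l +
    (ε : ℂ) • ∑ k, ((r k : ℝ) : ℂ) • b k l - bp.a l * F - Gᴴ * bp.a l with he'
  have hent : ∀ l i j, ‖e' l i j‖ ≤ C1 * ε ^ 2 := by
    intro l i j
    have hexp := expand (bp.a l) (fun k => b k l) d.X (ε : ℂ) v d.V d.W
    have hsum : ∑ k, ((r k : ℝ) : ℂ) • b k l =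
        ∑ k, (d.lam k : ℂ) • b k l - ∑ k, (pr v ((d.X k).mulVec v)) • b k l := by
      rw [← Finset.sum_sub_distrib]
      refine Finset.sum_congr rfl fun k _ => ?_
      rw [← sub_smul]
      congr 1
      rw [hr]
      simp only
      rw [Complex.ofReal_sub]
      congr 1
      exact (pr_herm_real (d.hX k) v).symm
    have hid : e' l = (bp.a l + (ε : ℂ) • ∑ k, (d.lam k : ℂ) • b k l -
        d.Vᴴ * uu bp b ε d.X l * d.W - (s : ℂ) • (d.Vcᴴ * Matrix.diagonal (fun c => d.φ c l) * d.Wc)) +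
        V'ᴴ * kr (bp.a l) (1 : Matrix H H ℂ) * W' +
        (ε : ℂ) • ((tn (Fin p) v)ᴴ * (∑ k, kr (b k l) (d.X k)) * W') +
        (ε : ℂ) • (V'ᴴ * (∑ k, kr (b k l) (d.X k)) * tn (Fin q) v) +
        (ε : ℂ) • (V'ᴴ * (∑ k, kr (b k l) (d.X k)) * W') +
        (s : ℂ) • (d.Vcᴴ * Matrix.diagonal (fun c => d.φ c l) * d.Wc) := by
      have huu : uu bp b ε d.X l = kr (bp.a l) 1 + (ε : ℂ) • ∑ k, kr (b k l) (d.X k) := rfl
      rw [huu, hexp, he']
      simp only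
      rw [hsum, Complex.ofReal_sub, Complex.ofReal_one, sub_smul, one_smul]
      simp only [smul_add, smul_sub]
      abel
    have nr : ∀ (t : ℝ) (M : Matrix (Fin p) (Fin q) ℂ) (m : ℝ), 0 ≤ t → opn M ≤ m →
        ‖((t : ℂ) • M) i j‖ ≤ t * m := by
      intro t M m ht hM
      rw [Matrix.smul_apply, smul_eq_mul, norm_mul, Complex.norm_real, Real.norm_eq_abs,
        abs_of_nonneg ht]
      have := (norm_entry_le_opn M i j).trans hM
      gcongr
    have t0 := d.herr l i j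
    have t1 : ‖(V'ᴴ * kr (bp.a l) (1 : Matrix H H ℂ) * W') i j‖ ≤ (c * ε) * Am * (c * ε) :=
      (norm_entry_le_opn _ i j).trans (opn_mul3_le o1 (o7 l) o2)
    have t2 := nr ε _ _ hε.le (opn_mul3_le o6 (o8 l) o2)
    have t3 := nr ε _ _ hε.le (opn_mul3_le o1 (o8 l) o5)
    have t4 := nr ε _ _ hε.le (opn_mul3_le o1 (o8 l) o2)
    have t5 := nr s _ _ hs0 (opn_mul3_le o3 (o9 l) o4)
    rw [hid]
    simp only [Matrix.add_apply] at *
    refine (norm_add_le _ _).trans ?_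
    refine (add_le_add ((norm_add_le _ _).trans (add_le_add ((norm_add_le _ _).trans
      (add_le_add ((norm_add_le _ _).trans (add_le_add ((norm_add_le _ _).trans
      (add_le_add t0 t1)) t2)) t3)) t4)) t5).trans ?_
    have hs1 : s ≤ 1 + K := by nlinarith only [hs, hK, he1]
    have u5 : s * (c * ε * Φm * (c * ε)) ≤ (1 + K) * (c * ε * Φm * (c * ε)) := by
      gcongr
    have u4 : ε * (c * ε * Bm * (c * ε)) ≤ 1 * (c * ε * Bm * (c * ε)) := by
      gcongr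
    have hfin : ε ^ 2 + c * ε * Am * (c * ε) + ε * (2 * Bm * (c * ε)) + ε * (c * ε * Bm * 2) +
        1 * (c * ε * Bm * (c * ε)) + (1 + K) * (c * ε * Φm * (c * ε)) = C1 * ε ^ 2 := by
      rw [hC1]; ring
    linarith
  -- self-adjoint parts
  have hWz : ∀ z, 2 * (pr z (F.mulVec z)).re ≤ c * ε ^ 2 * nsq z := by
    intro z
    have h1 := d.hW z
    have h2 : d.W.mulVec z = (tn (Fin q) v).mulVec z + W'.mulVec z := by
      rw [← Matrix.add_mulVec, hW']; congr 1; abel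
    have h3 : pr ((tn (Fin q) v).mulVec z) (W'.mulVec z) = pr z (F.mulVec z) := by
      rw [hF, ← Matrix.mulVec_mulVec, pr_mulVec (tn (Fin q) v)ᴴ, Matrix.conjTranspose_conjTranspose]
    rw [h2, nsq_add, nsq_tn, h3] at h1
    have h4 := nsq_nonneg (W'.mulVec z)
    have h5 := nsq_nonneg (d.Wc.mulVec z)
    have h6 := nsq_nonneg z
    have h7 : (1 - C * ε ^ 2) * nsq z ≤ nsq v * nsq z := by gcongr
    rw [hc]
    linarith
  have hVz : ∀ z, 2 * (pr z (G.mulVec z)).re ≤ c * ε ^ 2 * nsq z := by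
    intro z
    have h1 := d.hV z
    have h2 : d.V.mulVec z = (tn (Fin p) v).mulVec z + V'.mulVec z := by
      rw [← Matrix.add_mulVec, hV']; congr 1; abel
    have h3 : pr ((tn (Fin p) v).mulVec z) (V'.mulVec z) = pr z (G.mulVec z) := by
      rw [hG, ← Matrix.mulVec_mulVec, pr_mulVec (tn (Fin p) v)ᴴ, Matrix.conjTranspose_conjTranspose]
    rw [h2, nsq_add, nsq_tn, h3] at h1
    have h4 := nsq_nonneg (V'.mulVec z)
    have h5 := nsq_nonneg (d.Vc.mulVec z)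
    have h6 := nsq_nonneg z
    have h7 : (1 - C * ε ^ 2) * nsq z ≤ nsq v * nsq z := by gcongr
    rw [hc]
    linarith
  have hcm : 0 ≤ c * ε ^ 2 := by positivity
  have hFt : -(c * ε ^ 2) ≤ 2 * (pr bp.ζ (lft F bp.ζ)).re := by
    have h1 : pr bp.ζ (lft F bp.ζ) = pr (lft (tn (Fin q) v) bp.ζ) (lft W' bp.ζ) := by
      rw [hF, lft_mul, pr_lft]
    rw [h1]
    refine le_trans ?_ g2
    rw [hc]; linarith
  have hGt : -(c * ε ^ 2) ≤ 2 * (pr bp.ω (lft G bp.ω)).re := by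
    have h1 : pr bp.ω (lft G bp.ω) = pr (lft (tn (Fin p) v) bp.ω) (lft V' bp.ω) := by
      rw [hG, lft_mul, pr_lft]
    rw [h1, g1]
    simp only [Complex.zero_re, mul_zero]
    linarith
  have hFe := hCF F (c * ε ^ 2) hcm hWz hFt
  have hGe := hCG G (c * ε ^ 2) hcm hVz hGt
  -- splitting
  have hhalf : ((2⁻¹ : ℝ) : ℂ) + ((2⁻¹ : ℝ) : ℂ) = 1 := by
    rw [← Complex.ofReal_add]; norm_num
  have hskew : ∀ {n : ℕ} (M : Matrix (Fin n) (Fin n) ℂ),
      (((2⁻¹ : ℝ) : ℂ) • (M - Mᴴ))ᴴ = -(((2⁻¹ : ℝ) : ℂ) • (M - Mᴴ)) := by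
    intro n M
    rw [Matrix.conjTranspose_smul, Matrix.conjTranspose_sub, Matrix.conjTranspose_conjTranspose,
      ← smul_neg, neg_sub]
    congr 1
    exact Complex.conj_ofReal _
  have hsplit : ∀ {n : ℕ} (M : Matrix (Fin n) (Fin n) ℂ),
      M = ((2⁻¹ : ℝ) : ℂ) • (M + Mᴴ) + ((2⁻¹ : ℝ) : ℂ) • (M - Mᴴ) := by
    intro n M
    rw [← smul_add]
    have : M + Mᴴ + (M - Mᴴ) = M + M := by abel
    rw [this, smul_add, ← add_smul, hhalf, one_smul]
  have hrsmul : ∀ (t : ℝ) (z : ι → Matrix (Fin p) (Fin q) ℂ), h k ((t : ℂ) • z) = t * h k z := by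
    intro t z
    have : (t : ℂ) • z = t • z := by
      ext l i j
      simp
    rw [this, map_smul, smul_eq_mul]
  set zF : ι → Matrix (Fin p) (Fin q) ℂ := fun l => bp.a l * (((2⁻¹ : ℝ) : ℂ) • (F + Fᴴ)) with hzF
  set zG : ι → Matrix (Fin p) (Fin q) ℂ := fun l => (((2⁻¹ : ℝ) : ℂ) • (G + Gᴴ)) * bp.a l with hzG
  have hk1 : h k (fun l => bp.a l * F) = h k zF := by
    have h1 : (fun l => bp.a l * F) = zF + fun l => bp.a l * (((2⁻¹ : ℝ) : ℂ) • (F - Fᴴ)) := by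
      funext l
      have e1 : bp.a l * F = bp.a l * (((2⁻¹ : ℝ) : ℂ) • (F + Fᴴ) + ((2⁻¹ : ℝ) : ℂ) • (F - Fᴴ)) := by
        rw [← hsplit]
      rw [Matrix.mul_add] at e1
      exact e1
    rw [h1, map_add, hR k _ (hskew F), add_zero]
  have hk2 : h k (fun l => Gᴴ * bp.a l) = h k zG := by
    have h1 : (fun l => Gᴴ * bp.a l) = zG + fun l => (((2⁻¹ : ℝ) : ℂ) • (Gᴴ - Gᴴᴴ)) * bp.a l := by
      funext l
      have e1 : Gᴴ * bp.a l = (((2⁻¹ : ℝ) : ℂ) • (Gᴴ + Gᴴᴴ) + ((2⁻¹ : ℝ) : ℂ) • (Gᴴ - Gᴴᴴ)) * bp.a l := by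
        rw [← hsplit]
      rw [Matrix.add_mul] at e1
      have e2 : Gᴴ + Gᴴᴴ = G + Gᴴ := by
        rw [Matrix.conjTranspose_conjTranspose, add_comm]
      rw [e2] at e1
      exact e1
    rw [h1, map_add, hL k _ (hskew Gᴴ), add_zero]
  have hke : h k e' = (1 - nsq v) * h k bp.a + ε * r k - h k zF - h k zG := by
    have h1 : e' = (((1 - nsq v : ℝ) : ℂ) • bp.a + (ε : ℂ) • (fun l => ∑ k, ((r k : ℝ) : ℂ) • b k l)) -
        (fun l => bp.a l * F) - (fun l => Gᴴ * bp.a l) := rfl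
    have h2 : (fun l => ∑ k, ((r k : ℝ) : ℂ) • b k l) = ∑ k, ((r k : ℝ) : ℂ) • b k := by
      funext l
      rw [Finset.sum_apply]
      rfl
    rw [h1, map_sub, map_sub, map_add, hrsmul, hrsmul, hk1, hk2, h2, map_sum]
    have h3 : ∑ k', h k (((r k' : ℝ) : ℂ) • b k') = r k := by
      rw [Finset.sum_eq_single k]
      · rw [hrsmul, hh, if_pos rfl, mul_one]
      · intro k' _ hk'
        rw [hrsmul, hh, if_neg (Ne.symm hk'), mul_zero]
      · intro h; exact absurd (Finset.mem_univ _) h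
    rw [h3]
  -- bounds
  have hAmE : ∀ l i j, ‖bp.a l i j‖ ≤ Am := fun l i j =>
    (norm_entry_le_opn _ i j).trans (Finset.single_le_sum (f := fun l => opn (bp.a l))
      (fun _ _ => opn_nonneg _) (Finset.mem_univ l))
  have hn2 : ‖((2⁻¹ : ℝ) : ℂ)‖ ≤ 1 := by
    rw [Complex.norm_real]; norm_num
  have b1 : |h k e'| ≤ Hm * (C1 * ε ^ 2) := by
    refine (hCh k e' (C1 * ε ^ 2) (by positivity) hent).trans ?_
    have := hChm k
    gcongr
  have b2 : |h k bp.a| ≤ Hm * Am := by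
    refine (hCh k bp.a Am hAm0 hAmE).trans ?_
    have := hChm k
    gcongr
  have b3 : |h k zF| ≤ Hm * ((q : ℝ) * (Am * (CF * (c * ε ^ 2)))) := by
    refine (hCh k zF ((q : ℝ) * (Am * (CF * (c * ε ^ 2)))) (by positivity) ?_).trans ?_
    · intro l i j
      rw [hzF]
      simp only [Matrix.mul_apply]
      refine (norm_sum_le _ _).trans ?_
      calc ∑ x, ‖bp.a l i x * (((2⁻¹ : ℝ) : ℂ) • (F + Fᴴ)) x j‖
          ≤ ∑ _x : Fin q, Am * (CF * (c * ε ^ 2)) := by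
            refine Finset.sum_le_sum fun x _ => ?_
            rw [norm_mul, Matrix.smul_apply, smul_eq_mul, norm_mul]
            have h1 := hAmE l i x
            have h2 := hFe x j
            have h3 : ‖((2⁻¹ : ℝ) : ℂ)‖ * ‖(F + Fᴴ) x j‖ ≤ 1 * (CF * (c * ε ^ 2)) := by gcongr
            rw [one_mul] at h3
            gcongr
        _ = _ := by simp
    · have := hChm k
      gcongr
  have b4 : |h k zG| ≤ Hm * ((p : ℝ) * (Am * (CG * (c * ε ^ 2)))) := by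
    refine (hCh k zG ((p : ℝ) * (Am * (CG * (c * ε ^ 2)))) (by positivity) ?_).trans ?_
    · intro l i j
      rw [hzG]
      simp only [Matrix.mul_apply]
      refine (norm_sum_le _ _).trans ?_
      calc ∑ x, ‖(((2⁻¹ : ℝ) : ℂ) • (G + Gᴴ)) i x * bp.a l x j‖
          ≤ ∑ _x : Fin p, Am * (CG * (c * ε ^ 2)) := by
            refine Finset.sum_le_sum fun x _ => ?_
            rw [norm_mul, Matrix.smul_apply, smul_eq_mul, norm_mul, mul_comm]
            have h1 := hAmE l x j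
            have h2 := hGe i x
            have h3 : ‖((2⁻¹ : ℝ) : ℂ)‖ * ‖(G + Gᴴ) i x‖ ≤ 1 * (CG * (c * ε ^ 2)) := by gcongr
            rw [one_mul] at h3
            gcongr
        _ = _ := by simp
    · have := hChm k
      gcongr
  have b5 : |1 - nsq v| ≤ c * ε ^ 2 := by
    rw [abs_le]; constructor
    · rw [hc]; nlinarith only [n2, hC]
    · rw [hc]; nlinarith only [hεε2, n1]
  have hfinal : ε * |r k| ≤ C2 * ε ^ 2 := by
    have h1 : ε * r k = h k e' - (1 - nsq v) * h k bp.a + h k zF + h k zG := by linarith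
    have h2 : ε * |r k| = |ε * r k| := by rw [abs_mul, abs_of_pos hε]
    rw [h2, h1]
    have h3 : |(1 - nsq v) * h k bp.a| ≤ (c * ε ^ 2) * (Hm * Am) := by
      rw [abs_mul]
      have := abs_nonneg (h k bp.a)
      gcongr
    have h4 : |h k e' - (1 - nsq v) * h k bp.a + h k zF + h k zG| ≤
        |h k e'| + |(1 - nsq v) * h k bp.a| + |h k zF| + |h k zG| := by
      refine (abs_add_le _ _).trans ?_
      gcongr
      refine (abs_add_le _ _).trans ?_
      gcongr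
      exact abs_sub _ _
    refine h4.trans ?_
    have h5 : C2 * ε ^ 2 = Hm * (C1 * ε ^ 2) + (c * ε ^ 2) * (Hm * Am) +
        Hm * ((q : ℝ) * (Am * (CF * (c * ε ^ 2)))) + Hm * ((p : ℝ) * (Am * (CG * (c * ε ^ 2)))) := by
      rw [hC2]; ring
    rw [h5]
    linarith
  have h6 : |r k| ≤ C2 * ε := by
    have : ε * |r k| ≤ ε * (C2 * ε) := by
      calc ε * |r k| ≤ C2 * ε ^ 2 := hfinal
        _ = ε * (C2 * ε) := by ring
    exact le_of_mul_le_mul_left this hε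
  have h7 : 0 ≤ C * ε := by positivity
  calc |d.lam k - (pr v ((d.X k).mulVec v)).re| = |r k| := rfl
    _ ≤ C2 * ε := h6
    _ ≤ (C + C2) * ε := by linarith

end loc

end Pool.Agent.W_MP_7b81ff_an
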