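import Pool.Agent.W_MP_7b81ff_an.Tran
import Pool.Agent.W_MP_7b81ff_an.Inv

set_option autoImplicit false
set_option linter.unusedSimpArgs false
set_option linter.unusedSectionVars false

open Matrix Finset Module
open scoped NNReal ComplexOrder

namespace Pool.Agent.W_MP_7b81ff_an

section fnopn
variable {m n l : Type*} [Fintype m] [Fintype n] [Fintype l]

lemma fn_eq_cols (X : Matrix m n ℂ) : fn X = ∑ j, nsq (fun i => X i j) := by
  unfold fn nsq
  exact Finset.sum_comm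

lemma fn_mul_left_le (A : Matrix m n ℂ) (B : Matrix n l ℂ) : fn (A * B) ≤ opn A ^ 2 * fn B := by
  rw [fn_eq_cols, fn_eq_cols, Finset.mul_sum]
  refine Finset.sum_le_sum fun j _ => ?_
  exact nsq_mulVec_le A (fun i => B i j)

lemma fn_mul_right_le (A : Matrix m n ℂ) (B : Matrix n l ℂ) : fn (A * B) ≤ opn B ^ 2 * fn A := by
  have h := fn_mul_left_le Bᴴ Aᴴ
  rw [← Matrix.conjTranspose_mul, fn_conjTranspose, fn_conjTranspose, opn_conjTranspose] at h
  exact h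

lemma opn_sq_le_fn (A : Matrix m n ℂ) : opn A ^ 2 ≤ fn A := by
  have h : opn A ≤ Real.sqrt (fn A) := by
    apply opn_le (Real.sqrt_nonneg _)
    intro v
    rw [Real.sq_sqrt (fn_nonneg A)]
    unfold nsq fn Matrix.mulVec dotProduct
    rw [Finset.sum_mul]
    refine Finset.sum_le_sum fun i _ => ?_
    have h1 : ‖∑ j, A i j * v j‖ ≤ ∑ j, ‖A i j‖ * ‖v j‖ := by
      refine (norm_sum_le _ _).trans (le_of_eq ?_)
      exact Finset.sum_congr rfl fun j _ => norm_mul _ _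
    calc ‖∑ j, A i j * v j‖ ^ 2 ≤ (∑ j, ‖A i j‖ * ‖v j‖) ^ 2 := by gcongr
      _ ≤ (∑ j, ‖A i j‖ ^ 2) * (∑ j, ‖v j‖ ^ 2) := Finset.sum_mul_sq_le_sq_mul_sq _ _ _
  have h2 := opn_nonneg A
  calc opn A ^ 2 ≤ Real.sqrt (fn A) ^ 2 := by gcongr
    _ = fn A := Real.sq_sqrt (fn_nonneg A)

lemma opn_one_le [DecidableEq m] : opn (1 : Matrix m m ℂ) ≤ 1 := by
  apply opn_le zero_le_one
  intro v
  simp

end fnopn

section ten
variable {J K L P P' H H' : Type*} [Fintype J] [Fintype K] [Fintype L] [Fintype P] [Fintype P']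
  [Fintype H] [Fintype H']

/-- `1 ⊗ V` applied to a vector -/
def lft (V : Matrix P K ℂ) (ω : J × K → ℂ) : J × P → ℂ :=
  fun t => V.mulVec (fun a => ω (t.1, a)) t.2

lemma lft_add_left (V V' : Matrix P K ℂ) (ω : J × K → ℂ) :
    lft (V + V') ω = lft V ω + lft V' ω := by
  ext t
  simp [lft, Matrix.add_mulVec]

lemma lft_sub_left (V V' : Matrix P K ℂ) (ω : J × K → ℂ) :
    lft (V - V') ω = lft V ω - lft V' ω := by
  ext t
  simp [lft, Matrix.sub_mulVec]

lemma pr_lft (V : Matrix P K ℂ) (ω : J × K → ℂ) (η : J × P → ℂ) :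
    pr (lft V ω) η = pr ω (lft Vᴴ η) := by
  unfold pr lft
  rw [Fintype.sum_prod_type, Fintype.sum_prod_type]
  refine Finset.sum_congr rfl fun i _ => ?_
  have h := pr_mulVec Vᴴ (fun a => ω (i, a)) (fun a => η (i, a))
  rw [Matrix.conjTranspose_conjTranspose] at h
  exact h.symm

lemma nsq_lft (V : Matrix P K ℂ) (ω : J × K → ℂ) :
    nsq (lft V ω) = ∑ i, nsq (V.mulVec (fun a => ω (i, a))) := by
  unfold nsq lft
  rw [Fintype.sum_prod_type]

lemma nsq_fst (ω : J × K → ℂ) : nsq ω = ∑ i, nsq (fun a => ω (i, a)) := by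
  unfold nsq
  rw [Fintype.sum_prod_type]

lemma nsq_lft_le {V : Matrix P K ℂ} {V' : Matrix P' K ℂ} {c : ℝ}
    (h : ∀ z, nsq (V.mulVec z) + nsq (V'.mulVec z) ≤ c * nsq z) (ω : J × K → ℂ) :
    nsq (lft V ω) + nsq (lft V' ω) ≤ c * nsq ω := by
  rw [nsq_lft, nsq_lft, nsq_fst, ← Finset.sum_add_distrib, Finset.mul_sum]
  exact Finset.sum_le_sum fun i _ => h _

lemma nsq_lft_fn (V : Matrix P K ℂ) (ω : J × K → ℂ) :
    nsq (lft V ω) = fn (V * Matrix.of fun a i => ω (i, a)) := by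
  rw [nsq_lft, fn_eq_cols]
  rfl

/-- recovering a matrix from its action on a vector of full rank -/
lemma fn_le_lft [DecidableEq K] {ω : K × K → ℂ} (hR : IsUnit (Matrix.of fun a i => ω (i, a)).det)
    (V : Matrix P K ℂ) :
    fn V ≤ opn (Matrix.of fun a i => ω (i, a))⁻¹ ^ 2 * nsq (lft V ω) := by
  have h1 : V = (V * Matrix.of fun a i => ω (i, a)) * (Matrix.of fun a i => ω (i, a))⁻¹ := by
    rw [Matrix.mul_assoc, Matrix.mul_nonsing_inv _ hR, Matrix.mul_one]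
  conv_lhs => rw [h1]
  rw [nsq_lft_fn]
  exact fn_mul_right_le _ _

/-- `1 ⊗ v` -/
def tn (K : Type*) [DecidableEq K] (v : H → ℂ) : Matrix (K × H) K ℂ :=
  Matrix.of fun s a => if s.1 = a then v s.2 else 0

/-- Kronecker product -/
def kr (A : Matrix K L ℂ) (X : Matrix H H' ℂ) : Matrix (K × H) (L × H') ℂ :=
  Matrix.of fun s t => A s.1 t.1 * X s.2 t.2

variable [DecidableEq K] [DecidableEq L]

lemma tn_mulVec (v : H → ℂ) (z : K → ℂ) (s : K × H) : (tn K v).mulVec z s = z s.1 * v s.2 := by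
  simp only [Matrix.mulVec, dotProduct, tn, Matrix.of_apply, ite_mul, zero_mul,
    Finset.sum_ite_eq, Finset.mem_univ, if_true]
  ring

lemma nsq_tn (v : H → ℂ) (z : K → ℂ) : nsq ((tn K v).mulVec z) = nsq v * nsq z := by
  unfold nsq
  rw [Fintype.sum_prod_type, Finset.sum_mul_sum, Finset.sum_comm]
  refine Finset.sum_congr rfl fun h _ => Finset.sum_congr rfl fun a _ => ?_
  rw [tn_mulVec, norm_mul, mul_pow, mul_comm]

lemma opn_tn_le {v : H → ℂ} {c : ℝ} (hc : 0 ≤ c) (h : nsq v ≤ c ^ 2) : opn (tn K v) ≤ c := by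
  apply opn_le hc
  intro z
  rw [nsq_tn]
  have := nsq_nonneg z
  gcongr

lemma lft_tn (v : H → ℂ) (ω : J × K → ℂ) (t : J × (K × H)) :
    lft (tn K v) ω t = ω (t.1, t.2.1) * v t.2.2 := by
  unfold lft
  rw [tn_mulVec]

lemma nsq_lft_tn (v : H → ℂ) (ω : J × K → ℂ) : nsq (lft (tn K v) ω) = nsq v * nsq ω := by
  rw [nsq_lft, nsq_fst, Finset.mul_sum]
  exact Finset.sum_congr rfl fun i _ => nsq_tn _ _

/-- component of a vector along `ω` -/
def cmpo (ω : J × K → ℂ) (Ω : J × (K × H) → ℂ) : H → ℂ :=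
  fun h => ∑ t : J × K, (starRingEnd ℂ) (ω t) * Ω (t.1, (t.2, h))

lemma pr_lft_tn (v : H → ℂ) (ω : J × K → ℂ) (Ω : J × (K × H) → ℂ) :
    pr (lft (tn K v) ω) Ω = pr v (cmpo ω Ω) := by
  unfold pr cmpo
  simp only [lft_tn]
  rw [Fintype.sum_prod_type]
  simp only [Fintype.sum_prod_type, Finset.mul_sum, map_mul]
  calc ∑ i, ∑ a, ∑ h, (starRingEnd ℂ) (ω (i, a)) * (starRingEnd ℂ) (v h) * Ω (i, (a, h))
      = ∑ i, ∑ h, ∑ a, (starRingEnd ℂ) (ω (i, a)) * (starRingEnd ℂ) (v h) * Ω (i, (a, h)) :=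
        Finset.sum_congr rfl fun _ _ => Finset.sum_comm
    _ = ∑ h, ∑ i, ∑ a, (starRingEnd ℂ) (ω (i, a)) * (starRingEnd ℂ) (v h) * Ω (i, (a, h)) :=
        Finset.sum_comm
    _ = _ := by
        refine Finset.sum_congr rfl fun h _ => Finset.sum_congr rfl fun i _ =>
          Finset.sum_congr rfl fun a _ => ?_
        ring

lemma cmpo_lft_tn {ω : J × K → ℂ} (hω : nsq ω = 1) (v : H → ℂ) : cmpo ω (lft (tn K v) ω) = v := by
  ext h
  unfold cmpo
  simp only [lft_tn]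
  have h1 : ∑ t : J × K, (starRingEnd ℂ) (ω t) * (ω (t.1, t.2) * v h) = pr ω ω * v h := by
    unfold pr
    rw [Finset.sum_mul]
    exact Finset.sum_congr rfl fun t _ => by ring
  rw [h1, pr_self, hω]
  simp

lemma cmpo_add (ω : J × K → ℂ) (Ω Ω' : J × (K × H) → ℂ) :
    cmpo ω (Ω + Ω') = cmpo ω Ω + cmpo ω Ω' := by
  ext h
  simp [cmpo, mul_add, Finset.sum_add_distrib]

lemma cmpo_sub (ω : J × K → ℂ) (Ω Ω' : J × (K × H) → ℂ) :
    cmpo ω (Ω - Ω') = cmpo ω Ω - cmpo ω Ω' := by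
  ext h
  simp [cmpo, mul_sub, Finset.sum_sub_distrib]

lemma tnH_mulVec (v : H → ℂ) (η : K × H → ℂ) (a : K) :
    ((tn K v)ᴴ).mulVec η a = ∑ h, (starRingEnd ℂ) (v h) * η (a, h) := by
  simp only [Matrix.mulVec, dotProduct, Matrix.conjTranspose_apply, tn, Matrix.of_apply,
    Fintype.sum_prod_type]
  rw [Finset.sum_eq_single a]
  · refine Finset.sum_congr rfl fun h _ => ?_
    rw [if_pos rfl]; rfl
  · intro b _ hb
    refine Finset.sum_eq_zero fun h _ => ?_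
    rw [if_neg hb]; simp
  · intro h; exact absurd (Finset.mem_univ _) h

omit [DecidableEq L] in
lemma tnH_mul (v : H → ℂ) (M : Matrix (K × H) L ℂ) (a : K) (j : L) :
    ((tn K v)ᴴ * M) a j = ∑ h, (starRingEnd ℂ) (v h) * M (a, h) j :=
  tnH_mulVec v (fun s => M s j) a

omit [DecidableEq L] in
lemma mul_tn (v : H → ℂ) (M : Matrix L (K × H) ℂ) (i : L) (a : K) :
    (M * tn K v) i a = ∑ h, M i (a, h) * v h := by
  simp only [Matrix.mul_apply, tn, Matrix.of_apply, Fintype.sum_prod_type, mul_ite, mul_zero]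
  rw [Finset.sum_eq_single a]
  · simp
  · intro b _ hb
    refine Finset.sum_eq_zero fun h _ => ?_
    rw [if_neg hb]
  · intro h; exact absurd (Finset.mem_univ _) h

lemma tnH_kr_tn (v : H → ℂ) (v' : H' → ℂ) (A : Matrix K L ℂ) (X : Matrix H H' ℂ) :
    (tn K v)ᴴ * kr A X * tn L v' = (pr v (X.mulVec v')) • A := by
  ext a b
  rw [mul_tn]
  simp only [tnH_mul, kr, Matrix.of_apply, Matrix.smul_apply, smul_eq_mul, pr, Matrix.mulVec,
    dotProduct, Finset.sum_mul, Finset.mul_sum]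
  rw [Finset.sum_comm]
  refine Finset.sum_congr rfl fun h _ => Finset.sum_congr rfl fun h' _ => ?_
  ring

lemma tnH_kr_one [DecidableEq H] (v : H → ℂ) (A : Matrix K L ℂ) :
    (tn K v)ᴴ * kr A (1 : Matrix H H ℂ) = A * (tn L v)ᴴ := by
  ext a ⟨b, h⟩
  rw [tnH_mul, Matrix.mul_apply]
  simp only [kr, Matrix.of_apply, Matrix.one_apply, mul_ite, mul_one, mul_zero,
    Finset.sum_ite_eq', Finset.mem_univ, if_true, Matrix.conjTranspose_apply, tn]
  rw [Finset.sum_eq_single b]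
  · rw [if_pos rfl]
    change (starRingEnd ℂ) (v h) * A a b = A a b * (starRingEnd ℂ) (v h)
    ring
  · intro b' _ hb
    rw [if_neg (Ne.symm hb)]; simp
  · intro h; exact absurd (Finset.mem_univ _) h

lemma kr_one_tn [DecidableEq H] (v : H → ℂ) (A : Matrix K L ℂ) :
    kr A (1 : Matrix H H ℂ) * tn L v = tn K v * A := by
  ext ⟨a, h⟩ b
  rw [mul_tn, Matrix.mul_apply]
  simp only [kr, Matrix.of_apply, Matrix.one_apply, mul_ite, mul_one, mul_zero, ite_mul, zero_mul,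
    Finset.sum_ite_eq, Finset.mem_univ, if_true, tn]
  ring

lemma opn_kr_le [DecidableEq H] (A : Matrix K L ℂ) (X : Matrix H H' ℂ) :
    opn (kr A X) ≤ opn A * opn X := by
  have h1 : kr A X = ampl H A * ((ampl L X).submatrix (Equiv.prodComm L H) (Equiv.prodComm L H')) := by
    ext ⟨a, h⟩ ⟨b, h'⟩
    rw [ampl_mul_apply]
    simp only [kr, Matrix.of_apply, Matrix.submatrix_apply, Equiv.prodComm_apply, Prod.swap_prod_mk,
      ampl, mul_ite, mul_zero, Finset.sum_ite_eq', Finset.mem_univ, if_true]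
  rw [h1]
  refine (opn_mul_le _ _).trans ?_
  rw [opn_submatrix_equiv]
  have h2 : opn (ampl H A) ≤ opn A := opn_ampl_le A (opn_nonneg _) (fun v => nsq_mulVec_le A v)
  have h3 : opn (ampl L X) ≤ opn X := opn_ampl_le X (opn_nonneg _) (fun v => nsq_mulVec_le X v)
  have h4 := opn_nonneg (ampl L X)
  have h5 := opn_nonneg A
  gcongr

end ten

section g
variable {E : Type*} [NormedAddCommGroup E] [NormedSpace ℂ E] {ι : Type} [Fintype ι]
  [DecidableEq ι] {B : Basis ι ℂ E} {p q : ℕ} (bp : BasePt B p q)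

lemma BasePt.g_conj {P Q : Type*} [Fintype P] [Fintype Q] (V : Matrix P (Fin p) ℂ)
    (W : Matrix Q (Fin q) ℂ) (u : ι → Matrix P Q ℂ) :
    bp.g (fun l => Vᴴ * u l * W) = pr (lft V bp.ω) ((ks bp.x u).mulVec (lft W bp.ζ)) := by
  unfold BasePt.g
  rw [ks_mul_right bp.x (fun l => Vᴴ * u l) W bp.ζ]
  change pr bp.ω ((ks bp.x fun l => Vᴴ * u l).mulVec (lft W bp.ζ)) = _
  rw [ks_mul_left bp.x u Vᴴ, pr_lft]
  rfl

end g

end Pool.Agent.W_MP_7b81ff_an
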