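import Pool.Agent.W_MP_7b81ff_an.Bex

set_option autoImplicit false
set_option linter.unusedSimpArgs false
set_option linter.unusedSectionVars false

open Matrix Finset Module
open scoped NNReal ComplexOrder

namespace Pool.Agent.W_MP_7b81ff_an

instance instFiniteSelf (n : ℕ) : Module.Finite ℝ (selfAdjoint (Matrix (Fin n) (Fin n) ℂ)) := by
  let f : selfAdjoint (Matrix (Fin n) (Fin n) ℂ) →ₗ[ℝ] Matrix (Fin n) (Fin n) ℂ :=
    { toFun := Subtype.val, map_add' := fun _ _ => rfl, map_smul' := fun _ _ => rfl }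
  exact Module.Finite.of_injective f Subtype.val_injective

instance instFiniteSkew (n : ℕ) : Module.Finite ℝ (skewAdjoint (Matrix (Fin n) (Fin n) ℂ)) := by
  let f : skewAdjoint (Matrix (Fin n) (Fin n) ℂ) →ₗ[ℝ] Matrix (Fin n) (Fin n) ℂ :=
    { toFun := Subtype.val, map_add' := fun _ _ => rfl, map_smul' := fun _ _ => rfl }
  exact Module.Finite.of_injective f Subtype.val_injective

/-- dimension of the space of skew-adjoint matrices -/
lemma finrank_skew_le (n : ℕ) :
    finrank ℝ (skewAdjoint (Matrix (Fin n) (Fin n) ℂ)) ≤ n * n := by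
  have h1 := LinearEquiv.finrank_eq (StarModule.decomposeProdAdjoint ℝ (Matrix (Fin n) (Fin n) ℂ))
  rw [Module.finrank_matrix, Module.finrank_prod, Complex.finrank_real_complex] at h1
  simp only [Fintype.card_fin] at h1
  have hinj : Function.Injective
      (skewAdjoint.negISMul : skewAdjoint (Matrix (Fin n) (Fin n) ℂ) →ₗ[ℝ] selfAdjoint (Matrix (Fin n) (Fin n) ℂ)) := by
    intro a b hab
    have ha := skewAdjoint.I_smul_neg_I a
    have hb := skewAdjoint.I_smul_neg_I b
    apply Subtype.ext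
    rw [← ha, ← hb, hab]
  have h2 := LinearMap.finrank_le_finrank_of_injective hinj
  omega

lemma norm_entry_le_opn {m n : Type*} [Fintype m] [Fintype n] [DecidableEq n] (A : Matrix m n ℂ)
    (i : m) (j : n) : ‖A i j‖ ≤ opn A := by
  have h1 := nsq_mulVec_le A (Pi.single j 1)
  have h2 : nsq (Pi.single j 1 : n → ℂ) = 1 := by
    unfold nsq
    rw [Finset.sum_eq_single j]
    · simp
    · intro b _ hb; simp [hb]
    · intro h; exact absurd (Finset.mem_univ _) h
  rw [h2, mul_one] at h1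
  have h3 : ‖A i j‖ ^ 2 ≤ nsq (A.mulVec (Pi.single j 1)) := by
    unfold nsq
    have h4 : A.mulVec (Pi.single j 1) i = A i j := by simp
    rw [← h4]
    exact Finset.single_le_sum (f := fun i => ‖A.mulVec (Pi.single j 1) i‖ ^ 2)
      (fun _ _ => by positivity) (Finset.mem_univ i)
  have h5 := opn_nonneg A
  exact abs_le_of_sq_le_sq' (h3.trans h1) h5 |>.2

section ksl
variable {P Q p q ι : Type*} [Fintype P] [Fintype Q] [Fintype p] [Fintype q] [Fintype ι]

lemma ks_mul_left {p' : Type*} [Fintype p'] (x : ι → Matrix P Q ℂ) (u : ι → Matrix p q ℂ)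
    (I : Matrix p' p ℂ) (ζ : Q × q → ℂ) :
    (ks x fun l => I * u l).mulVec ζ =
      fun t => I.mulVec (fun α => (ks x u).mulVec ζ (t.1, α)) t.2 := by
  ext ⟨i, a⟩
  simp only [Matrix.mulVec, dotProduct, ks, Matrix.of_apply, Matrix.mul_apply, Finset.sum_mul,
    Finset.mul_sum]
  calc ∑ t : Q × q, ∑ l, ∑ b, x l i t.1 * (I a b * u l b t.2) * ζ t
      = ∑ t : Q × q, ∑ b, ∑ l, x l i t.1 * (I a b * u l b t.2) * ζ t :=
        Finset.sum_congr rfl fun _ _ => Finset.sum_comm
    _ = ∑ b, ∑ t : Q × q, ∑ l, x l i t.1 * (I a b * u l b t.2) * ζ t := Finset.sum_comm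
    _ = _ := by
        refine Finset.sum_congr rfl fun b _ => Finset.sum_congr rfl fun t _ =>
          Finset.sum_congr rfl fun l _ => ?_
        ring

lemma ks_add_right (x : ι → Matrix P Q ℂ) (u v : ι → Matrix p q ℂ) :
    ks x (u + v) = ks x u + ks x v := by
  ext a b
  simp [ks, mul_add, Finset.sum_add_distrib]

lemma ks_smul_right (x : ι → Matrix P Q ℂ) (c : ℂ) (u : ι → Matrix p q ℂ) :
    ks x (c • u) = c • ks x u := by
  ext a b
  simp only [ks, Pi.smul_apply, Matrix.smul_apply, Matrix.of_apply, smul_eq_mul, Finset.mul_sum]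
  exact Finset.sum_congr rfl fun l _ => by ring

/-- pairing with a skew matrix is imaginary -/
lemma pr_skew_re {K : Matrix p p ℂ} (hK : Kᴴ = -K) (ω : p → ℂ) :
    (pr ω (K.mulVec ω)).re = 0 := by
  have h1 : pr ω (K.mulVec ω) = pr (Kᴴ.mulVec ω) ω := pr_mulVec K _ _
  have h2 := congrArg Complex.re h1
  rw [hK, re_pr_symm ((-K).mulVec ω) ω] at h2
  have h3 : pr ω ((-K).mulVec ω) = - pr ω (K.mulVec ω) := by
    rw [Matrix.neg_mulVec]
    unfold pr
    rw [← Finset.sum_neg_distrib]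
    exact Finset.sum_congr rfl fun a _ => by simp
  rw [h3, Complex.neg_re] at h2
  linarith

lemma pr_skew_re' {K : Matrix p p ℂ} (hK : Kᴴ = -K) (ω : P × p → ℂ) :
    (pr ω (fun t => K.mulVec (fun α => ω (t.1, α)) t.2)).re = 0 := by
  unfold pr
  rw [Fintype.sum_prod_type, Complex.re_sum]
  refine Finset.sum_eq_zero fun i _ => ?_
  exact pr_skew_re hK (fun α => ω (i, α))

end ksl

section base
variable {E : Type*} [NormedAddCommGroup E] [NormedSpace ℂ E] {ι : Type} [Fintype ι]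
  [DecidableEq ι] {B : Basis ι ℂ E} {p q : ℕ} (bp : BasePt B p q)

/-- the functional `g` -/
noncomputable def BasePt.g (b : ι → Matrix (Fin p) (Fin q) ℂ) : ℂ := pr bp.ω ((ks bp.x b).mulVec bp.ζ)

lemma BasePt.g_add (b b' : ι → Matrix (Fin p) (Fin q) ℂ) : bp.g (b + b') = bp.g b + bp.g b' := by
  unfold BasePt.g
  rw [ks_add_right, Matrix.add_mulVec, pr_add_right]

lemma BasePt.g_smul (c : ℂ) (b : ι → Matrix (Fin p) (Fin q) ℂ) : bp.g (c • b) = c * bp.g b := by
  unfold BasePt.g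
  rw [ks_smul_right, Matrix.smul_mulVec, pr_smul_right]

lemma BasePt.g_a : bp.g bp.a = 1 := by
  unfold BasePt.g
  rw [bp.h1, pr_self, bp.hω, Complex.ofReal_one]

lemma BasePt.g_left {K : Matrix (Fin p) (Fin p) ℂ} (hK : Kᴴ = -K) :
    (bp.g (fun l => K * bp.a l)).re = 0 := by
  unfold BasePt.g
  rw [ks_mul_left, bp.h1]
  exact pr_skew_re' hK bp.ω

lemma BasePt.g_right {K : Matrix (Fin q) (Fin q) ℂ} (hK : Kᴴ = -K) :
    (bp.g (fun l => bp.a l * K)).re = 0 := by
  unfold BasePt.g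
  rw [ks_mul_right, pr_mulVec, bp.h2]
  exact pr_skew_re' hK bp.ζ

include bp in
lemma BasePt.p_pos : 0 < p := by
  rcases Nat.eq_zero_or_pos p with h | h
  · exfalso
    subst h
    have h1 := bp.hω
    unfold nsq at h1
    rw [Finset.univ_eq_empty, Finset.sum_empty] at h1
    exact zero_ne_one h1
  · exact h

include bp in
lemma BasePt.q_pos : 0 < q := by
  rcases Nat.eq_zero_or_pos q with h | h
  · exfalso
    subst h
    have h1 := bp.hζ
    unfold nsq at h1
    rw [Finset.univ_eq_empty, Finset.sum_empty] at h1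
    exact zero_ne_one h1
  · exact h

lemma le_of_surj {m n : ℕ} (a : ι → Matrix (Fin m) (Fin n) ℂ) (S : Matrix (Fin m) (Fin m) ℂ)
    (hS : IsUnit S.det) (c : ι → Matrix (Fin n) (Fin m) ℂ) (h : S = ∑ l, a l * c l) :
    m ≤ Fintype.card ι * n := by
  let L : (ι → Fin n → ℂ) →ₗ[ℂ] (Fin m → ℂ) :=
    { toFun := fun y => ∑ l, (a l).mulVec (y l)
      map_add' := fun y z => by
        simp only [Pi.add_apply, Matrix.mulVec_add, Finset.sum_add_distrib]
      map_smul' := fun t y => by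
        simp only [Pi.smul_apply, Matrix.mulVec_smul, Finset.smul_sum, RingHom.id_apply] }
  have hsurj : Function.Surjective L := by
    intro w
    refine ⟨fun l => (c l).mulVec (S⁻¹.mulVec w), ?_⟩
    change ∑ l, (a l).mulVec ((c l).mulVec (S⁻¹.mulVec w)) = w
    have h1 : ∀ l, (a l).mulVec ((c l).mulVec (S⁻¹.mulVec w)) = (a l * c l).mulVec (S⁻¹.mulVec w) :=
      fun l => by rw [Matrix.mulVec_mulVec]
    simp only [h1]
    rw [← Matrix.sum_mulVec, ← h, Matrix.mulVec_mulVec, Matrix.mul_nonsing_inv _ hS,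
      Matrix.one_mulVec]
  have := LinearMap.finrank_le_finrank_of_surjective hsurj
  rw [Module.finrank_pi, Module.finrank_pi_fintype] at this
  simpa using this

include bp in
lemma BasePt.p_le : p ≤ Fintype.card ι * q := by
  refine le_of_surj bp.a (Matrix.of fun α i => bp.ω (i, α)) bp.hR
    (fun l => (Matrix.of fun β j => bp.ζ (j, β)) * (bp.x l)ᵀ) ?_
  ext α i
  rw [Matrix.of_apply, ← bp.h1]
  simp only [Matrix.mulVec, dotProduct, ks, Matrix.of_apply, Matrix.sum_apply, Matrix.mul_apply,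
    Matrix.transpose_apply, Fintype.sum_prod_type, Finset.sum_mul, Finset.mul_sum]
  calc ∑ j, ∑ β, ∑ l, bp.x l i j * bp.a l α β * bp.ζ (j, β)
      = ∑ j, ∑ l, ∑ β, bp.x l i j * bp.a l α β * bp.ζ (j, β) :=
        Finset.sum_congr rfl fun _ _ => Finset.sum_comm
    _ = ∑ l, ∑ j, ∑ β, bp.x l i j * bp.a l α β * bp.ζ (j, β) := Finset.sum_comm
    _ = ∑ l, ∑ β, ∑ j, bp.x l i j * bp.a l α β * bp.ζ (j, β) :=
        Finset.sum_congr rfl fun _ _ => Finset.sum_comm
    _ = _ := by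
        refine Finset.sum_congr rfl fun l _ => Finset.sum_congr rfl fun β _ =>
          Finset.sum_congr rfl fun j _ => ?_
        ring

include bp in
lemma BasePt.q_le : q ≤ Fintype.card ι * p := by
  refine le_of_surj (fun l => (bp.a l)ᴴ) (Matrix.of fun β j => bp.ζ (j, β)) bp.hT
    (fun l => (Matrix.of fun α i => bp.ω (i, α)) * ((bp.x l)ᴴ)ᵀ) ?_
  ext β j
  rw [Matrix.of_apply]
  conv_lhs => rw [← bp.h2, ks_conjTranspose]
  simp only [Matrix.mulVec, dotProduct, ks, Matrix.of_apply, Matrix.sum_apply, Matrix.mul_apply,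
    Matrix.transpose_apply, Fintype.sum_prod_type, Finset.sum_mul, Finset.mul_sum]
  calc ∑ i, ∑ α, ∑ l, (bp.x l)ᴴ j i * (bp.a l)ᴴ β α * bp.ω (i, α)
      = ∑ i, ∑ l, ∑ α, (bp.x l)ᴴ j i * (bp.a l)ᴴ β α * bp.ω (i, α) :=
        Finset.sum_congr rfl fun _ _ => Finset.sum_comm
    _ = ∑ l, ∑ i, ∑ α, (bp.x l)ᴴ j i * (bp.a l)ᴴ β α * bp.ω (i, α) := Finset.sum_comm
    _ = ∑ l, ∑ α, ∑ i, (bp.x l)ᴴ j i * (bp.a l)ᴴ β α * bp.ω (i, α) :=
        Finset.sum_congr rfl fun _ _ => Finset.sum_comm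
    _ = _ := by
        refine Finset.sum_congr rfl fun l _ => Finset.sum_congr rfl fun α _ =>
          Finset.sum_congr rfl fun i _ => ?_
        ring

include bp in
lemma BasePt.not_one : ¬ (p = 1 ∧ q = 1) := by
  rintro ⟨rfl, rfl⟩
  have hφ : CF B (fun l => bp.a l 0 0) := by
    intro e
    have h1 := norm_entry_le_opn (∑ l, B.repr e l • bp.a l) 0 0
    rw [Matrix.sum_apply] at h1
    simp only [Matrix.smul_apply, smul_eq_mul] at h1
    exact h1.trans (bp.ha e)
  have h1 := bp.hx _ hφ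
  have h2 := norm_entry_le_opn (∑ l, bp.a l 0 0 • bp.x l) 0 0
  have h3 : (∑ l, bp.a l 0 0 • bp.x l) 0 0 = ks bp.x bp.a (0, 0) (0, 0) := by
    rw [Matrix.sum_apply]
    simp only [ks, Matrix.of_apply, Matrix.smul_apply, smul_eq_mul]
    exact Finset.sum_congr rfl fun l _ => mul_comm _ _
  have h4 : bp.ω (0, 0) = ks bp.x bp.a (0, 0) (0, 0) * bp.ζ (0, 0) := by
    conv_lhs => rw [← bp.h1]
    simp only [Matrix.mulVec, dotProduct, Fintype.sum_prod_type, Finset.univ_unique,
      Finset.sum_singleton]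
    rfl
  have h5 : ‖bp.ω (0, 0)‖ ^ 2 = 1 := by
    rw [← bp.hω]
    unfold nsq
    simp only [Fintype.sum_prod_type, Finset.univ_unique, Finset.sum_singleton]
    rfl
  have h6 : ‖bp.ζ (0, 0)‖ ^ 2 = 1 := by
    rw [← bp.hζ]
    unfold nsq
    simp only [Fintype.sum_prod_type, Finset.univ_unique, Finset.sum_singleton]
    rfl
  rw [h4, norm_mul, mul_pow, h6, mul_one] at h5
  rw [h3] at h2
  have h7 := bp.hγ
  have h8 := norm_nonneg (ks bp.x bp.a (0, 0) (0, 0))
  nlinarith

end base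

lemma dim_ineq {p q : ℕ} (hp : 0 < p) (hq : 0 < q) (h1 : p ≤ 2 * q) (h2 : q ≤ 2 * p)
    (h3 : ¬ (p = 1 ∧ q = 1)) : p * p + q * q + 3 ≤ 4 * (p * q) := by
  rcases le_total p q with h | h
  · obtain ⟨d, rfl⟩ := Nat.exists_eq_add_of_le h
    have hd : d ≤ p := by omega
    obtain ⟨e, rfl⟩ := Nat.exists_eq_add_of_le hd
    by_cases hdd : d = 0
    · subst hdd
      have : 2 ≤ e := by
        by_contra hcon
        have : e = 1 := by omega
        subst this
        exact h3 ⟨by omega, by omega⟩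
      nlinarith
    · have : 1 ≤ d := Nat.pos_of_ne_zero hdd
      nlinarith
  · obtain ⟨d, rfl⟩ := Nat.exists_eq_add_of_le h
    have hd : d ≤ q := by omega
    obtain ⟨e, rfl⟩ := Nat.exists_eq_add_of_le hd
    by_cases hdd : d = 0
    · subst hdd
      have : 2 ≤ e := by
        by_contra hcon
        have : e = 1 := by omega
        subst this
        exact h3 ⟨by omega, by omega⟩
      nlinarith
    · have : 1 ≤ d := Nat.pos_of_ne_zero hdd
      nlinarith

section dirs
variable {E : Type*} [NormedAddCommGroup E] [NormedSpace ℂ E] {ι : Type} [Fintype ι]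
  [DecidableEq ι] {B : Basis ι ℂ E} {p q : ℕ} (bp : BasePt B p q)

/-- parametrisation of the tangent space -/
noncomputable def BasePt.tang : (skewAdjoint (Matrix (Fin p) (Fin p) ℂ) × skewAdjoint (Matrix (Fin q) (Fin q) ℂ)) →ₗ[ℝ]
    (ι → Matrix (Fin p) (Fin q) ℂ) where
  toFun K := fun l => (K.1 : Matrix (Fin p) (Fin p) ℂ) * bp.a l + bp.a l * (K.2 : Matrix (Fin q) (Fin q) ℂ)
  map_add' K K' := by
    funext l
    simp only [Prod.fst_add, Prod.snd_add, AddSubgroup.coe_add, Pi.add_apply, Matrix.add_mul,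
      Matrix.mul_add]
    abel
  map_smul' c K := by
    funext l
    change ((c • (K.1 : Matrix (Fin p) (Fin p) ℂ)) * bp.a l + bp.a l * (c • (K.2 : Matrix (Fin q) (Fin q) ℂ))) =
      c • ((K.1 : Matrix (Fin p) (Fin p) ℂ) * bp.a l + bp.a l * (K.2 : Matrix (Fin q) (Fin q) ℂ))
    rw [Matrix.smul_mul, Matrix.mul_smul, smul_add]

lemma skew_I (n : ℕ) : (Complex.I • (1 : Matrix (Fin n) (Fin n) ℂ))ᴴ = - (Complex.I • (1 : Matrix (Fin n) (Fin n) ℂ)) := by
  rw [Matrix.conjTranspose_smul, Matrix.conjTranspose_one, ← neg_smul]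
  congr 1
  exact Complex.conj_I

lemma BasePt.finrank_tang : finrank ℝ (LinearMap.range bp.tang) + 1 ≤ p * p + q * q := by
  have h1 := LinearMap.finrank_range_add_finrank_ker bp.tang
  rw [Module.finrank_prod] at h1
  have h2 := finrank_skew_le p
  have h3 := finrank_skew_le q
  have h4 : 0 < finrank ℝ (LinearMap.ker bp.tang) := by
    rw [Module.finrank_pos_iff_exists_ne_zero]
    let K : skewAdjoint (Matrix (Fin p) (Fin p) ℂ) := ⟨Complex.I • 1, skewAdjoint.mem_iff.2 (skew_I p)⟩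
    let K' : skewAdjoint (Matrix (Fin q) (Fin q) ℂ) := ⟨Complex.I • 1, skewAdjoint.mem_iff.2 (skew_I q)⟩
    have hker : ((K, -K') : skewAdjoint (Matrix (Fin p) (Fin p) ℂ) × skewAdjoint (Matrix (Fin q) (Fin q) ℂ)) ∈
        LinearMap.ker bp.tang := by
      rw [LinearMap.mem_ker]
      funext l
      change (Complex.I • (1 : Matrix (Fin p) (Fin p) ℂ)) * bp.a l +
        bp.a l * (-(Complex.I • (1 : Matrix (Fin q) (Fin q) ℂ))) = 0
      rw [Matrix.mul_neg, Matrix.smul_mul, Matrix.mul_smul, Matrix.one_mul, Matrix.mul_one,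
        add_neg_cancel]
    refine ⟨⟨_, hker⟩, fun h0 => ?_⟩
    have h5 := congrArg (fun z => ((z.1.1 : skewAdjoint (Matrix (Fin p) (Fin p) ℂ)) : Matrix (Fin p) (Fin p) ℂ)) h0
    have h6 : Complex.I • (1 : Matrix (Fin p) (Fin p) ℂ) = 0 := h5
    have h7 := congrFun (congrFun h6 ⟨0, bp.p_pos⟩) ⟨0, bp.p_pos⟩
    simp at h7
  omega

/-- real part of `g` as a linear functional -/
noncomputable def BasePt.gre : (ι → Matrix (Fin p) (Fin q) ℂ) →ₗ[ℝ] ℝ where
  toFun b := (bp.g b).re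
  map_add' b b' := by rw [bp.g_add, Complex.add_re]
  map_smul' c b := by
    have h : c • b = (c : ℂ) • b := by
      ext l i j
      simp
    rw [h, bp.g_smul, Complex.re_ofReal_mul]
    rfl

lemma BasePt.gre_tang (K) : bp.gre (bp.tang K) = 0 := by
  have h1 := bp.g_left (K := K.1) (skewAdjoint.mem_iff.1 K.1.2)
  have h2 := bp.g_right (K := K.2) (skewAdjoint.mem_iff.1 K.2.2)
  have h3 : bp.tang K = (fun l => (K.1 : Matrix (Fin p) (Fin p) ℂ) * bp.a l) +
    (fun l => bp.a l * (K.2 : Matrix (Fin q) (Fin q) ℂ)) := rfl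
  rw [h3, map_add]
  change (bp.g _).re + (bp.g _).re = 0
  rw [h1, h2, add_zero]

/-- the three directions and the dual functionals -/
theorem BasePt.exists_dirs (hcard : Fintype.card ι = 2) :
    ∃ (b : Fin 3 → (ι → Matrix (Fin p) (Fin q) ℂ)) (h : Fin 3 → ((ι → Matrix (Fin p) (Fin q) ℂ) →ₗ[ℝ] ℝ)),
      (∀ k l, h k (b l) = if k = l then 1 else 0) ∧ (∀ k, bp.g (b k) = 0) ∧
      (∀ k (K : Matrix (Fin p) (Fin p) ℂ), Kᴴ = -K → h k (fun l => K * bp.a l) = 0) ∧
      (∀ k (K : Matrix (Fin q) (Fin q) ℂ), Kᴴ = -K → h k (fun l => bp.a l * K) = 0) := by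
  classical
  set V := (ι → Matrix (Fin p) (Fin q) ℂ) with hV
  set T : Submodule ℝ (ι → Matrix (Fin p) (Fin q) ℂ) := LinearMap.range bp.tang with hT
  have hTker : T ≤ LinearMap.ker bp.gre := by
    rintro _ ⟨K, rfl⟩
    exact bp.gre_tang K
  let gb : ((ι → Matrix (Fin p) (Fin q) ℂ) ⧸ T) →ₗ[ℝ] ℝ := T.liftQ bp.gre hTker
  -- dimension of the kernel
  have hdV : finrank ℝ (ι → Matrix (Fin p) (Fin q) ℂ) = 4 * (p * q) := by
    rw [Module.finrank_pi_fintype]
    simp only [Module.finrank_matrix, Fintype.card_fin, Complex.finrank_real_complex,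
      Finset.sum_const, Finset.card_univ, hcard, smul_eq_mul]
    ring
  have hd1 := Submodule.finrank_quotient_add_finrank T
  have hd2 := LinearMap.finrank_range_add_finrank_ker gb
  have hd3 : finrank ℝ (LinearMap.range gb) ≤ 1 := by
    have := Submodule.finrank_le (LinearMap.range gb)
    rwa [Module.finrank_self] at this
  have hd4 := bp.finrank_tang
  rw [← hT] at hd4
  have hp := bp.p_le
  have hq := bp.q_le
  rw [hcard] at hp hq
  have hd5 := dim_ineq bp.p_pos bp.q_pos hp hq bp.not_one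
  have hd6 : 3 ≤ finrank ℝ (LinearMap.ker gb) := by omega
  -- choice of vectors and functionals on the quotient
  let bW := Module.finBasis ℝ (LinearMap.ker gb)
  let idx : Fin 3 → Fin (finrank ℝ (LinearMap.ker gb)) := Fin.castLE hd6
  have hext : ∀ k : Fin 3, ∃ f : ((ι → Matrix (Fin p) (Fin q) ℂ) ⧸ T) →ₗ[ℝ] ℝ,
      f.comp (LinearMap.ker gb).subtype = bW.coord (idx k) :=
    fun k => LinearMap.exists_extend _
  choose f hf using hext
  have hlift : ∀ k : Fin 3, ∃ b0 : (ι → Matrix (Fin p) (Fin q) ℂ), T.mkQ b0 = (bW (idx k) : (ι → Matrix (Fin p) (Fin q) ℂ) ⧸ T) :=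
    fun k => T.mkQ_surjective _
  choose b0 hb0 using hlift
  have hfT : ∀ k, ∀ t ∈ T, (f k).comp T.mkQ t = 0 := by
    intro k t ht
    rw [LinearMap.comp_apply]
    have : T.mkQ t = 0 := by
      rw [Submodule.mkQ_apply, Submodule.Quotient.mk_eq_zero]
      exact ht
    rw [this, map_zero]
  have hmemL : ∀ K : Matrix (Fin p) (Fin p) ℂ, Kᴴ = -K → (fun l => K * bp.a l) ∈ T := by
    intro K hK
    refine ⟨(⟨K, skewAdjoint.mem_iff.2 hK⟩, 0), ?_⟩
    funext l
    change K * bp.a l + bp.a l * (0 : Matrix (Fin q) (Fin q) ℂ) = K * bp.a l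
    rw [Matrix.mul_zero, add_zero]
  have hmemR : ∀ K : Matrix (Fin q) (Fin q) ℂ, Kᴴ = -K → (fun l => bp.a l * K) ∈ T := by
    intro K hK
    refine ⟨(0, ⟨K, skewAdjoint.mem_iff.2 hK⟩), ?_⟩
    funext l
    change (0 : Matrix (Fin p) (Fin p) ℂ) * bp.a l + bp.a l * K = bp.a l * K
    rw [Matrix.zero_mul, zero_add]
  have hmemI : ∀ t : ℝ, ((((t : ℝ) : ℂ) * Complex.I) • bp.a) ∈ T := by
    intro t
    have h1 := hmemL ((((t : ℝ) : ℂ) * Complex.I) • (1 : Matrix (Fin p) (Fin p) ℂ)) (by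
      rw [Matrix.conjTranspose_smul, Matrix.conjTranspose_one, ← neg_smul]
      congr 1
      change (starRingEnd ℂ) _ = _
      rw [map_mul, Complex.conj_ofReal, Complex.conj_I]
      ring)
    have h2 : (((t : ℝ) : ℂ) * Complex.I) • bp.a =
        fun l => ((((t : ℝ) : ℂ) * Complex.I) • (1 : Matrix (Fin p) (Fin p) ℂ)) * bp.a l := by
      funext l
      rw [Matrix.smul_mul, Matrix.one_mul]
      rfl
    rw [h2]
    exact h1
  have hre : ∀ k, (bp.g (b0 k)).re = 0 := by
    intro k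
    have h1 : gb (T.mkQ (b0 k)) = bp.gre (b0 k) := by
      rw [Submodule.mkQ_apply, Submodule.liftQ_apply]
    rw [hb0] at h1
    have h2 : gb (bW (idx k) : (ι → Matrix (Fin p) (Fin q) ℂ) ⧸ T) = 0 := (bW (idx k)).2
    rw [h2] at h1
    exact h1.symm
  refine ⟨fun k => b0 k - ((((bp.g (b0 k)).im : ℝ) : ℂ) * Complex.I) • bp.a,
    fun k => (f k).comp T.mkQ, ?_, ?_, ?_, ?_⟩
  · intro k l
    rw [map_sub, hfT k _ (hmemI _), sub_zero, LinearMap.comp_apply, hb0]
    have h1 := congrArg (fun F => F (bW (idx l))) (hf k)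
    simp only [LinearMap.comp_apply, Submodule.subtype_apply] at h1
    rw [h1, Basis.coord_apply, Basis.repr_self, Finsupp.single_apply]
    have h2 : (idx l = idx k) ↔ (k = l) := by
      constructor
      · intro h
        exact (Fin.castLE_injective hd6 h).symm
      · intro h; rw [h]
    simp only [h2]
  · intro k
    have h1 : bp.g (b0 k - ((((bp.g (b0 k)).im : ℝ) : ℂ) * Complex.I) • bp.a) =
        bp.g (b0 k) - (((bp.g (b0 k)).im : ℝ) : ℂ) * Complex.I := by
      rw [sub_eq_add_neg, ← neg_smul, bp.g_add, bp.g_smul, bp.g_a]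
      ring
    rw [h1]
    have h2 := Complex.re_add_im (bp.g (b0 k))
    rw [hre k, Complex.ofReal_zero, zero_add] at h2
    rw [h2, sub_self]
  · intro k K hK
    exact hfT k _ (hmemL K hK)
  · intro k K hK
    exact hfT k _ (hmemR K hK)

end dirs

end Pool.Agent.W_MP_7b81ff_an
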